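import Pool.Agent.TCN.HessB

/-!
# TCN HessC: reducible forms, the plane
-/

set_option autoImplicit false

open MvPolynomial Topology Filter Metric

namespace Pool.Agent.TCN

open Pool.Agent.H36.BP (EN)
open Pool.Agent.TC

section Factor

variable {σ : Type}

/-- the substitution `X i ↦ X i t` -/
private noncomputable def phi (σ : Type) : MvPolynomial σ ℂ →ₐ[ℂ] Polynomial (MvPolynomial σ ℂ) :=
  aeval fun i => Polynomial.monomial 1 (X i)

private theorem phi_hom {A : MvPolynomial σ ℂ} {a : ℕ} (hA : A.IsHomogeneous a) : phi σ A = Polynomial.monomial a A := by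
  classical
  have h1 : ∀ m : σ →₀ ℕ, ∀ c : ℂ, phi σ (monomial m c) = Polynomial.monomial m.degree (monomial m c) := by
    intro m c
    have h2 : phi σ (monomial m c) = Polynomial.C (C c) * (m.prod fun i k => (Polynomial.monomial 1 (X i : MvPolynomial σ ℂ)) ^ k) := by
      unfold phi
      rw [aeval_monomial]
      rfl
    rw [h2]
    have h3 : (m.prod fun i k => (Polynomial.monomial 1 (X i : MvPolynomial σ ℂ)) ^ k) = Polynomial.monomial m.degree (m.prod fun i k => (X i : MvPolynomial σ ℂ) ^ k) := by
      simp only [Finsupp.prod, Polynomial.monomial_pow, one_mul]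
      have h4 : ∀ s : Finset σ, ∏ i ∈ s, Polynomial.monomial (m i) ((X i : MvPolynomial σ ℂ) ^ m i) =
          Polynomial.monomial (∑ i ∈ s, m i) (∏ i ∈ s, (X i : MvPolynomial σ ℂ) ^ m i) := by
        intro s
        induction s using Finset.induction_on with
        | empty => simp
        | insert a s ha ih => rw [Finset.prod_insert ha, Finset.prod_insert ha, Finset.sum_insert ha, ih, Polynomial.monomial_mul_monomial]
      rw [h4]
      rfl
    rw [h3, Polynomial.C_mul_monomial, monomial_eq]
  rw [A.as_sum, map_sum, map_sum]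
  refine Finset.sum_congr rfl fun m hm => ?_
  have h2 : m.degree = a := by
    by_contra h
    exact (mem_support_iff.1 hm) (hA.coeff_eq_zero h)
  rw [h1, h2]

private theorem phi_coeff (A : MvPolynomial σ ℂ) (k : ℕ) : (phi σ A).coeff k = homogeneousComponent k A := by
  classical
  conv_lhs => rw [← sum_homogeneousComponent A]
  rw [map_sum, Polynomial.finset_sum_coeff]
  have h1 : ∀ i, (phi σ (homogeneousComponent i A)).coeff k = if i = k then homogeneousComponent k A else 0 := by
    intro i
    rw [phi_hom (homogeneousComponent_isHomogeneous i A), Polynomial.coeff_monomial]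
    split_ifs with h
    · rw [h]
    · rfl
  rw [Finset.sum_congr rfl fun i _ => h1 i, Finset.sum_ite_eq']
  split_ifs with h
  · rfl
  · rw [Finset.mem_range, not_lt] at h
    exact (homogeneousComponent_eq_zero _ _ (by omega)).symm

/-- the factors of a form are forms -/
theorem hom_of_mul {A B : MvPolynomial σ ℂ} {d : ℕ} (h : (A * B).IsHomogeneous d) (hA : A ≠ 0) (hB : B ≠ 0) :
    ∃ a, A.IsHomogeneous a := by
  classical
  have hprod : phi σ A * phi σ B = Polynomial.monomial d (A * B) := by
    rw [← map_mul, phi_hom h]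
  have hne : ∀ P : MvPolynomial σ ℂ, P ≠ 0 → phi σ P ≠ 0 := by
    intro P hP h0
    apply hP
    rw [← sum_homogeneousComponent P]
    refine Finset.sum_eq_zero fun i _ => ?_
    rw [← phi_coeff, h0, Polynomial.coeff_zero]
  have hAB : A * B ≠ 0 := mul_ne_zero hA hB
  have e1 := Polynomial.natDegree_mul (hne A hA) (hne B hB)
  have e2 := Polynomial.natTrailingDegree_mul (hne A hA) (hne B hB)
  rw [hprod, Polynomial.natDegree_monomial_eq _ hAB] at e1
  rw [hprod, Polynomial.natTrailingDegree_monomial hAB] at e2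
  have e3 := Polynomial.natTrailingDegree_le_natDegree (phi σ A)
  have e4 := Polynomial.natTrailingDegree_le_natDegree (phi σ B)
  have e5 : (phi σ A).natTrailingDegree = (phi σ A).natDegree := by omega
  refine ⟨(phi σ A).natDegree, ?_⟩
  have h6 : A = homogeneousComponent (phi σ A).natDegree A := by
    conv_lhs => rw [← sum_homogeneousComponent A]
    have h7 : ∀ i, homogeneousComponent i A = if i = (phi σ A).natDegree then homogeneousComponent (phi σ A).natDegree A else 0 := by
      intro i
      split_ifs with h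
      · rw [h]
      · rw [← phi_coeff]
        rcases lt_or_gt_of_ne h with h8 | h8
        · exact Polynomial.coeff_eq_zero_of_lt_natTrailingDegree (by omega)
        · exact Polynomial.coeff_eq_zero_of_natDegree_lt h8
    rw [Finset.sum_congr rfl fun i _ => h7 i, Finset.sum_ite_eq']
    split_ifs with h
    · rfl
    · rw [Finset.mem_range, not_lt] at h
      exact (homogeneousComponent_eq_zero _ _ (by omega)).symm
  have h8 := homogeneousComponent_isHomogeneous (phi σ A).natDegree A
  rwa [← h6] at h8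

/-- a reducible form is a product of two forms of positive degrees -/
theorem exists_factors {D : MvPolynomial σ ℂ} {d : ℕ} (hd : 1 ≤ d) (hD : D.IsHomogeneous d) (hD0 : D ≠ 0) (hirr : ¬ Irreducible D) :
    ∃ (A B : MvPolynomial σ ℂ) (a b : ℕ), D = A * B ∧ A.IsHomogeneous a ∧ B.IsHomogeneous b ∧ 1 ≤ a ∧ 1 ≤ b ∧ a + b = d := by
  have hunit : ∀ P : MvPolynomial σ ℂ, P ≠ 0 → P.IsHomogeneous 0 → IsUnit P := by
    intro P hP h0
    have h1 : P = C (coeff 0 P) := totalDegree_eq_zero_iff_eq_C.1 (h0.totalDegree hP)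
    have h2 : coeff 0 P ≠ 0 := by
      intro h3
      apply hP
      rw [h1, h3, map_zero]
    rw [h1]
    exact (isUnit_iff_ne_zero.2 h2).map (C : ℂ →+* MvPolynomial σ ℂ)
  have hnu : ¬ IsUnit D := by
    intro h
    have h1 := ((MvPolynomial.isUnit_iff_totalDegree_of_isReduced (R := ℂ)).1 h).2
    rw [hD.totalDegree hD0] at h1
    omega
  obtain ⟨A, B, hAB, hA, hB⟩ : ∃ A B, D = A * B ∧ ¬ IsUnit A ∧ ¬ IsUnit B := by
    by_contra hcon
    push Not at hcon
    refine hirr ⟨hnu, fun A B h => ?_⟩
    by_cases hA : IsUnit A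
    · exact Or.inl hA
    · exact Or.inr (hcon A B h hA)
  have hA0 : A ≠ 0 := by
    rintro rfl
    exact hD0 (by rw [hAB, zero_mul])
  have hB0 : B ≠ 0 := by
    rintro rfl
    exact hD0 (by rw [hAB, mul_zero])
  obtain ⟨a, ha⟩ := hom_of_mul (hAB ▸ hD) hA0 hB0
  obtain ⟨b, hb⟩ := hom_of_mul ((mul_comm A B) ▸ (hAB ▸ hD) : (B * A).IsHomogeneous d) hB0 hA0
  refine ⟨A, B, a, b, hAB, ha, hb, ?_, ?_, ?_⟩
  · by_contra h
    have h1 : a = 0 := by omega
    subst h1
    exact hA (hunit A hA0 ha)
  · by_contra h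
    have h1 : b = 0 := by omega
    subst h1
    exact hB (hunit B hB0 hb)
  · have h1 := ha.mul hb
    rw [← hAB] at h1
    exact h1.inj_right hD hD0

end Factor

/-- the plane: the Hessian matrix has rank at least two -/
theorem nodalAt_plane {Q : Fin 2 → MvPolynomial (Fin 3) ℂ} {F : MvPolynomial (Fin 3) ℂ} {d : ℕ} (hF : F.IsHomogeneous d) {x : EN 2} (hx : x ≠ 0)
    (h : grad F x = 0 → 2 ≤ (Matrix.of fun k l : Fin 3 => ev (pderiv k (pderiv l F)) x).rank) : NodalAt (n := 0) Q F x := by
  classical
  intro c h0 h1 hc v _ hw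
  have hc0 : c = 0 := by
    funext j
    fin_cases j
    · exact h0
    · exact h1
  subst hc0
  have hgrad : grad F x = 0 := by
    rw [hc]
    simp
  have hFs : F - ∑ j : Fin 2, C ((0 : Fin 2 → ℂ) j) * Q j = F := by simp
  rw [hFs] at hw
  have hker : hv F x v = 0 := by
    funext l
    have h2 := hw (WithLp.toLp 2 (Pi.single l (1 : ℂ))) (fun j hj => absurd hj (by have := j.2; omega))
    have h3 : dt (fun i => (WithLp.toLp 2 (Pi.single l (1 : ℂ)) : EN 2) i) (hv F x v) = hv F x v l := single_dt l _
    rw [h3] at h2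
    exact h2
  obtain ⟨M, hM⟩ : ∃ M : Matrix (Fin 3) (Fin 3) ℂ, M = Matrix.of fun k l : Fin 3 => ev (pderiv k (pderiv l F)) x := ⟨_, rfl⟩
  have hrank := h hgrad
  rw [← hM] at hrank
  have hmem : ∀ w : EN 2, hv F x w = 0 → (fun i => w i) ∈ LinearMap.ker M.mulVecLin := by
    intro w hw
    rw [LinearMap.mem_ker, Matrix.mulVecLin_apply]
    funext l
    have h2 := congrFun hw l
    simp only [Matrix.mulVec, dotProduct, Pi.zero_apply]
    rw [← show hv F x w l = 0 from h2]
    simp only [hv, dt, grad, hM, Matrix.of_apply]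
    refine Finset.sum_congr rfl fun k _ => ?_
    rw [pderiv_comm l k]
    ring
  have hxk : hv F x x = 0 := by
    funext l
    have h2 : hv F x x l = ((d - 1 : ℕ) : ℂ) * ev (pderiv l F) x := dt_self_grad hF.pderiv x
    have h3 : ev (pderiv l F) x = 0 := congrFun hgrad l
    rw [h2, h3, mul_zero]
    rfl
  have hker1 : Module.finrank ℂ (LinearMap.ker M.mulVecLin) ≤ 1 := by
    have h1 := M.mulVecLin.finrank_range_add_finrank_ker
    rw [Module.finrank_fin_fun] at h1
    have h2 : 2 ≤ Module.finrank ℂ (LinearMap.range M.mulVecLin) := hrank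
    omega
  have hx' := hmem x hxk
  have hv' := hmem v hker
  have hx0 : (⟨_, hx'⟩ : LinearMap.ker M.mulVecLin) ≠ 0 := by
    intro h0
    apply hx
    have h1 : (fun i => x i) = 0 := congrArg Subtype.val h0
    ext i
    exact congrFun h1 i
  have hker2 : Module.finrank ℂ (LinearMap.ker M.mulVecLin) = 1 := by
    have h2 : 0 < Module.finrank ℂ (LinearMap.ker M.mulVecLin) := Module.finrank_pos_iff_exists_ne_zero.2 ⟨_, hx0⟩
    omega
  obtain ⟨a, ha⟩ := (finrank_eq_one_iff_of_nonzero' _ hx0).1 hker2 ⟨_, hv'⟩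
  refine ⟨a, ?_⟩
  have h2 : a • (fun i => x i) = fun i => v i := congrArg Subtype.val ha
  ext i
  exact (congrFun h2 i).symm

end Pool.Agent.TCN
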