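import Pool.Agent.TCN.FinB
import Pool.Agent.TCN.HessC
import Pool.Agent.H17R.Defs

/-!
# TCN FinC: the main theorem in terms of the forms
-/

set_option autoImplicit false

open MvPolynomial Topology Filter Metric
open Pool.Agent.H17 (PN VanishesAt ZariskiClosedIn HolomorphicInto vanishesAt_mk_iff)
open Pool.Agent.H17R (openVar GGLWith)
open Pool.Agent.H17LG.Variety (FunField IsLogGeneralType OnBoundary)
open Pool.Agent.H62.FC (Homog)
open Pool.Agent.H62.SA (locVar OnBd IsProperMap)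
open Pool.Agent.Results.MP_64ff02_ag.SmoothSurfaces (FourProperties)

namespace Pool.Agent.TCN

open Pool.Agent.H36.BP (EN fs wd)
open Pool.Agent.TC

/-- the second derivative of `G` at `x` -/
noncomputable def hess {N : ℕ} (G : MvPolynomial (Fin (N + 1)) ℂ) (x v w : Fin (N + 1) → ℂ) : ℂ :=
  ∑ k, ∑ l, v k * w l * eval x (pderiv k (pderiv l G))

theorem onBd_one {N : ℕ} (P : Ideal (MvPolynomial (Fin (N + 1)) ℂ)) [P.IsPrime] (D : MvPolynomial (Fin (N + 1)) ℂ) {k : ℕ} :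
    OnBoundary P (fun _ : Fin 1 => D) (k := k) = OnBd P (fun _ : Fin 1 => D) := by
  funext E
  refine propext ?_
  constructor
  · rintro ⟨j, hj, hj', m, hm⟩
    exact ⟨j, hj, hj', fun _ => hm⟩
  · rintro ⟨j, hj, hj', hm⟩
    exact ⟨j, hj, hj', 0, hm 0⟩

theorem openVar_one {N : ℕ} (P : Ideal (MvPolynomial (Fin (N + 1)) ℂ)) (D : MvPolynomial (Fin (N + 1)) ℂ) :
    openVar P (fun _ : Fin 1 => D) = locVar P (fun _ : Fin 1 => D) := by
  ext x
  constructor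
  · rintro ⟨h1, h2⟩
    exact ⟨h1, 0, h2 0⟩
  · rintro ⟨h1, m, h2⟩
    exact ⟨h1, fun _ => h2⟩

theorem ggl_one {N : ℕ} {P : Ideal (MvPolynomial (Fin (N + 1)) ℂ)} [P.IsPrime] {D : MvPolynomial (Fin (N + 1)) ℂ} {Ξ : Set (PN N)}
    (h : FourProperties P (fun _ : Fin 1 => D) Ξ) : GGLWith P (fun _ : Fin 1 => D) Ξ where
  closed := by
    rw [openVar_one]
    exact h.properClosed.1
  ne := by
    rw [openVar_one]
    exact h.properClosed.2
  logGeneralType w hw hz := by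
    rw [onBd_one]
    exact h.logGeneralType w hw hz
  picard f hf hU hne := by
    rw [openVar_one] at hU
    exact h.picard f hf hU hne
  brody f hf hU hne := by
    rw [openVar_one] at hU
    exact h.brody f hf hU hne
  strongly Q hQp hQ hPQ _ hsub w hw hz := by
    rw [openVar_one] at hsub
    rw [onBd_one]
    exact h.strongly Q hQ hPQ hsub w hw hz

/-- the hypotheses in terms of the equations `F j` of the surface and of the forms `G₀`, `G₁` -/
theorem npair_of_nc {n : ℕ} {a : Fin n → ℕ} {d₀ d₁ : ℕ} {F : Fin n → MvPolynomial (Fin (n + 3)) ℂ} {G₀ G₁ : MvPolynomial (Fin (n + 3)) ℂ}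
    (ha : ∀ j, 1 ≤ a j) (hd₀ : 1 ≤ d₀) (hd₁ : 1 ≤ d₁) (hdeg : n + 4 ≤ ∑ j, a j + d₀ + d₁) (hF : ∀ j, (F j).IsHomogeneous (a j))
    (hG₀ : G₀.IsHomogeneous d₀) (hG₁ : G₁.IsHomogeneous d₁)
    (hNC : ∀ x : Fin (n + 3) → ℂ, x ≠ 0 → (∀ j, eval x (F j) = 0) →
      (LinearIndependent ℂ fun (j : Fin n) (k : Fin (n + 3)) => eval x (pderiv k (F j))) ∧
      (eval x (G₀ * G₁) = 0 → ∀ c : Fin n → ℂ, (∀ k, eval x (pderiv k (G₀ * G₁ - ∑ j, C (c j) * F j)) = 0) →
        ∀ v : Fin (n + 3) → ℂ, (∀ j, ∑ k, v k * eval x (pderiv k (F j)) = 0) →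
          (∀ w : Fin (n + 3) → ℂ, (∀ j, ∑ k, w k * eval x (pderiv k (F j)) = 0) → hess (G₀ * G₁ - ∑ j, C (c j) * F j) x v w = 0) →
            ∃ b : ℂ, v = b • x)) :
    NPair (Fin.cons G₀ (Fin.cons G₁ F) : Fin (n + 2) → MvPolynomial (Fin (n + 3)) ℂ) (Fin.cons d₀ (Fin.cons d₁ a)) := by
  classical
  obtain ⟨Q, hQ⟩ : ∃ Q : Fin (n + 2) → MvPolynomial (Fin (n + 3)) ℂ, Q = Fin.cons G₀ (Fin.cons G₁ F) := ⟨_, rfl⟩
  obtain ⟨e, he⟩ : ∃ e : Fin (n + 2) → ℕ, e = Fin.cons d₀ (Fin.cons d₁ a) := ⟨_, rfl⟩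
  rw [← hQ, ← he]
  have hQ0 : Q 0 = G₀ := by rw [hQ]; rfl
  have hQ1 : Q 1 = G₁ := by rw [hQ]; rfl
  have hQs : ∀ l : Fin n, Q l.succ.succ = F l := fun l => by rw [hQ]; rfl
  have he0 : e 0 = d₀ := by rw [he]; rfl
  have he1 : e 1 = d₁ := by rw [he]; rfl
  have hes : ∀ l : Fin n, e l.succ.succ = a l := fun l => by rw [he]; rfl
  have hind : ∀ {p : Fin (n + 2) → Prop}, p 0 → p 1 → (∀ l : Fin n, p l.succ.succ) → ∀ j, p j := fun {p} h0 h1 h2 j =>
    Fin.cases h0 (fun j => Fin.cases h1 h2 j) j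
  have hsum : ∀ {M : Type} [AddCommMonoid M] (f : Fin (n + 2) → M), ∑ j, f j = f 0 + (f 1 + ∑ l : Fin n, f l.succ.succ) := by
    intro M _ f
    rw [Fin.sum_univ_succ, Fin.sum_univ_succ]
    rfl
  have h2le : ∀ l : Fin n, 2 ≤ ((l.succ.succ : Fin (n + 2)) : ℕ) := fun l => by simp only [Fin.val_succ]; omega
  have hof2 : ∀ j : Fin (n + 2), 2 ≤ (j : ℕ) → ∃ l : Fin n, j = l.succ.succ := by
    intro j hj
    refine ⟨⟨(j : ℕ) - 2, by have := j.2; omega⟩, ?_⟩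
    ext
    simp only [Fin.val_succ]
    omega
  have hne : ∀ x : EN (n + 2), x ≠ 0 → (fun i => x i) ≠ 0 := by
    intro x hx h5
    apply hx
    ext i
    exact congrFun h5 i
  have hFx : ∀ x : EN (n + 2), OnV Q x → ∀ l : Fin n, eval (fun i => x i) (F l) = 0 := by
    intro x hV l
    have h1 := hV _ (h2le l)
    rw [hQs] at h1
    exact h1
  refine npair_of_nodal (hind ?_ ?_ ?_) (hind ?_ ?_ ?_) ?_ ?_ ?_
  · rw [hQ0, he0]
    exact hG₀
  · rw [hQ1, he1]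
    exact hG₁
  · intro l
    rw [hQs, hes]
    exact hF l
  · rw [he0]
    exact hd₀
  · rw [he1]
    exact hd₁
  · intro l
    rw [hes]
    exact ha l
  · rw [hsum, he0, he1]
    simp only [hes]
    omega
  · intro x hx hV c h0 h1 hc
    have hli := (hNC _ (hne x hx) (hFx x hV)).1
    rw [Fintype.linearIndependent_iff] at hli
    have h2 : ∑ l : Fin n, c l.succ.succ • (fun k : Fin (n + 3) => eval (fun i => x i) (pderiv k (F l))) = 0 := by
      rw [← hc, hsum, h0, h1, zero_smul, zero_smul, zero_add, zero_add]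
      refine Finset.sum_congr rfl fun l _ => ?_
      rw [hQs]
      rfl
    have h3 := hli _ h2
    funext j
    exact hind (p := fun j => c j = 0) h0 h1 h3 j
  · intro x hx hV hev c h0 h1 hc v hvt hw
    have hsumF : ∑ j, C (c j) * Q j = ∑ l : Fin n, C (c l.succ.succ) * F l := by
      rw [hsum, h0, h1, map_zero, zero_mul, zero_mul, zero_add, zero_add]
      refine Finset.sum_congr rfl fun l _ => ?_
      rw [hQs]
    rw [hsumF, hQ0, hQ1] at hw
    rw [hQ0, hQ1] at hev hc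
    obtain ⟨b, hb⟩ := (hNC _ (hne x hx) (hFx x hV)).2 hev (fun l => c l.succ.succ) (fun k => by
      have h2 := congrFun hc k
      rw [map_sub, map_sub, sub_eq_zero, map_sum, map_sum]
      have h3 : eval (fun i => x i) (pderiv k (G₀ * G₁)) = (∑ j, c j • grad (Q j) x) k := h2
      rw [h3, hsum, h0, h1, zero_smul, zero_smul, zero_add, zero_add, Finset.sum_apply]
      refine Finset.sum_congr rfl fun l _ => ?_
      rw [hQs, pderiv_C_mul, map_mul, eval_C]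
      rfl) (fun i => v i) (fun j => by
      have h2 := hvt _ (h2le j)
      rw [hQs] at h2
      exact h2) (fun w hw' => by
      have h2 := hw (WithLp.toLp 2 w) (fun j hj => by
        obtain ⟨l, rfl⟩ := hof2 j hj
        rw [hQs]
        exact hw' l)
      rw [← h2]
      simp only [hess, dt, hv, grad, ev, Finset.mul_sum]
      rw [Finset.sum_comm]
      refine Finset.sum_congr rfl fun k _ => Finset.sum_congr rfl fun l _ => ?_
      ring)
    refine ⟨b, ?_⟩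
    ext i
    exact congrFun hb i

theorem main_nodal {n : ℕ} {a : Fin n → ℕ} {d₀ d₁ : ℕ} {F : Fin n → MvPolynomial (Fin (n + 3)) ℂ} {G₀ G₁ : MvPolynomial (Fin (n + 3)) ℂ}
    (ha : ∀ j, 1 ≤ a j) (hd₀ : 1 ≤ d₀) (hd₁ : 1 ≤ d₁) (hdeg : n + 4 ≤ ∑ j, a j + d₀ + d₁) (hF : ∀ j, (F j).IsHomogeneous (a j))
    (hG₀ : G₀.IsHomogeneous d₀) (hG₁ : G₁.IsHomogeneous d₁)
    (hNC : ∀ x : Fin (n + 3) → ℂ, x ≠ 0 → (∀ j, eval x (F j) = 0) →
      (LinearIndependent ℂ fun (j : Fin n) (k : Fin (n + 3)) => eval x (pderiv k (F j))) ∧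
      (eval x (G₀ * G₁) = 0 → ∀ c : Fin n → ℂ, (∀ k, eval x (pderiv k (G₀ * G₁ - ∑ j, C (c j) * F j)) = 0) →
        ∀ v : Fin (n + 3) → ℂ, (∀ j, ∑ k, v k * eval x (pderiv k (F j)) = 0) →
          (∀ w : Fin (n + 3) → ℂ, (∀ j, ∑ k, w k * eval x (pderiv k (F j)) = 0) → hess (G₀ * G₁ - ∑ j, C (c j) * F j) x v w = 0) →
            ∃ b : ℂ, v = b • x))
    (P : Ideal (MvPolynomial (Fin (n + 3)) ℂ)) [P.IsPrime] (hP : Homog P) (hFP : ∀ j, F j ∈ P)
    (hdim : ∃ z : Fin 2 → FunField P, IsTranscendenceBasis ℂ z) : ∃ Ξ : Set (PN (n + 2)), GGLWith P (fun _ : Fin 1 => G₀ * G₁) Ξ := by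
  obtain ⟨Ξ, hΞ⟩ := (npair_of_nc ha hd₀ hd₁ hdeg hF hG₀ hG₁ hNC).exists_four P hP (fun j hj => by
    obtain ⟨l, rfl⟩ : ∃ l : Fin n, j = l.succ.succ := by
      refine ⟨⟨(j : ℕ) - 2, by have := j.2; omega⟩, ?_⟩
      ext
      simp only [Fin.val_succ]
      omega
    exact hFP l) hdim
  exact ⟨Ξ, ggl_one hΞ⟩

end Pool.Agent.TCN
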