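import Pool.Agent.TCN.BoundU

/-!
# TCN Bound: sections on balls of radius at least one are Lipschitz at the scale `1 + |Re z|`
-/

set_option autoImplicit false

open Topology Filter Metric

namespace Pool.Agent.TCN

open Pool.Agent.TC

open Pool.Agent.H36.BP (EN fs wd Sub)

variable {n : ℕ} {Q : Fin (n + 2) → MvPolynomial (Fin (n + 3)) ℂ} {e : Fin (n + 2) → ℕ}

theorem fs_bound (h : NPair Q e) : ∃ L : ℝ, 0 < L ∧ ∀ (f : ℂ → EN (n + 2)) (z₀ : ℂ) (r : ℝ), 1 / 2 ≤ r → IsSec Q f (ball z₀ r) →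
    fs (f z₀) (deriv f z₀) ≤ L * (1 / r + 1 / (1 + |z₀.re|)) := fs_boundU h

end Pool.Agent.TCN
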