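import Pool.Agent.TCN.Cmp

/-!
# TCN Lower: lower bounds for the norm and for the length of the derivative of a section
-/

set_option autoImplicit false

open Topology Filter Metric

namespace Pool.Agent.TCN

open Pool.Agent.TC

open Pool.Agent.H36.BP (EN fs wd Sub wd_inv wd_sq wd_nonneg)

variable {n : ℕ} {Q : Fin (n + 2) → MvPolynomial (Fin (n + 3)) ℂ} {e : Fin (n + 2) → ℕ}

theorem ev_le {N : ℕ} {P : MvPolynomial (Fin (N + 1)) ℂ} {d : ℕ} (hd : 1 ≤ d) (hP : P.IsHomogeneous d) :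
    ∃ B : ℝ, 1 ≤ B ∧ ∀ x : EN N, ‖ev P x‖ ≤ B * ‖x‖ ^ d := by
  obtain ⟨C, hC⟩ := (isCompact_closedBall (0 : EN N) 1).exists_bound_of_continuousOn (continuous_ev P).continuousOn
  refine ⟨max C 1, le_max_right _ _, fun x => ?_⟩
  by_cases hx : x = 0
  · subst hx
    have h1 := ev_smul hP 0 (0 : EN N)
    rw [zero_pow (by omega), zero_mul, smul_zero] at h1
    rw [h1, norm_zero]
    positivity
  · have hx' : ‖x‖ ≠ 0 := norm_ne_zero_iff.2 hx
    have hc : ((‖x‖ : ℝ) : ℂ) ≠ 0 := by exact_mod_cast hx'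
    have h1 : x = ((‖x‖ : ℝ) : ℂ) • (((‖x‖ : ℝ) : ℂ)⁻¹ • x) := (smul_inv_smul₀ hc x).symm
    have h2 : ‖((‖x‖ : ℝ) : ℂ)⁻¹ • x‖ = 1 := by
      rw [norm_smul, norm_inv, Complex.norm_real, norm_norm, inv_mul_cancel₀ hx']
    have h3 : ‖ev P (((‖x‖ : ℝ) : ℂ)⁻¹ • x)‖ ≤ C := hC _ (by simp [h2])
    conv_lhs => rw [h1]
    rw [ev_smul hP, norm_mul, norm_pow, Complex.norm_real, norm_norm, mul_comm]
    gcongr
    exact h3.trans (le_max_left _ _)

theorem norm_lower (h : NPair Q e) : ∃ c C : ℝ, 0 < c ∧ ∀ (f : ℂ → EN (n + 2)) (U : Set ℂ), IsSec Q f U → ∀ z ∈ U,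
    f z ≠ 0 ∧ c * |z.re| - C ≤ Real.log ‖f z‖ := by
  obtain ⟨B₀, hB₀, h0⟩ := ev_le (h.pos 0) (h.hom 0)
  obtain ⟨B₁, hB₁, h1⟩ := ev_le (h.pos 1) (h.hom 1)
  have he0 : (1 : ℝ) ≤ e 0 := by exact_mod_cast h.pos 0
  have he1 : (1 : ℝ) ≤ e 1 := by exact_mod_cast h.pos 1
  refine ⟨1 / (e 0 + e 1), Real.log B₀ + Real.log B₁, by positivity, fun f U hf z hz => ?_⟩
  have hne := sec_ne_zero h hf hz
  refine ⟨hne, ?_⟩
  have hpos : 0 < ‖f z‖ := norm_pos_iff.2 hne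
  obtain ⟨e0, e1, -⟩ := hf.2 z hz
  have hl0 : 0 ≤ Real.log B₀ := Real.log_nonneg hB₀
  have hl1 : 0 ≤ Real.log B₁ := Real.log_nonneg hB₁
  have key : ∀ (B : ℝ) (d : ℕ) (x : ℝ), 1 ≤ B → Real.exp x ≤ B * ‖f z‖ ^ d → x - Real.log B ≤ d * Real.log ‖f z‖ := by
    intro B d x hB hx
    have h2 := Real.log_le_log (Real.exp_pos x) hx
    rw [Real.log_exp, Real.log_mul (by positivity) (by positivity), Real.log_pow] at h2
    linarith
  have k0 := key B₀ (e 0) z.re hB₀ (by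
    have := h0 (f z)
    rwa [e0, Complex.norm_exp] at this)
  have k1 := key B₁ (e 1) (-z.re) hB₁ (by
    have := h1 (f z)
    rwa [e1, Complex.norm_exp, Complex.neg_re] at this)
  rw [div_mul_eq_mul_div, one_mul, sub_le_iff_le_add, div_le_iff₀ (by positivity)]
  have h3 : 0 ≤ Real.log B₀ * (e 0 + e 1 : ℝ) - Real.log B₀ := by nlinarith
  have h4 : 0 ≤ Real.log B₁ * (e 0 + e 1 : ℝ) - Real.log B₁ := by nlinarith
  have h5 : -(Real.log B₀ + Real.log B₁) ≤ (e 0 + e 1 : ℝ) * Real.log ‖f z‖ := by linarith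
  rcases le_total z.re 0 with hx | hx
  · rw [abs_of_nonpos hx]
    -- use k1, and a lower bound for `e 0 * log`
    by_cases hL : 0 ≤ Real.log ‖f z‖
    · nlinarith [mul_nonneg (by linarith : (0 : ℝ) ≤ e 0) hL]
    · have h6 : -(Real.log B₀ + Real.log B₁) ≤ Real.log ‖f z‖ := by
        push Not at hL
        have h7 : -z.re - Real.log B₁ ≤ Real.log ‖f z‖ := by nlinarith
        linarith
      push Not at hL
      nlinarith
  · rw [abs_of_nonneg hx]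
    by_cases hL : 0 ≤ Real.log ‖f z‖
    · nlinarith [mul_nonneg (by linarith : (0 : ℝ) ≤ e 1) hL]
    · have h6 : -(Real.log B₀ + Real.log B₁) ≤ Real.log ‖f z‖ := by
        push Not at hL
        have h7 : z.re - Real.log B₀ ≤ Real.log ‖f z‖ := by nlinarith
        linarith
      push Not at hL
      nlinarith

theorem norm_dt_le {N : ℕ} (v : EN N) (w : Fin (N + 1) → ℂ) : ‖dt (fun i => v i) w‖ ≤ ‖v‖ * ∑ i, ‖w i‖ := by
  unfold dt
  refine (norm_sum_le _ _).trans ?_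
  rw [Finset.mul_sum]
  refine Finset.sum_le_sum fun i _ => ?_
  rw [norm_mul]
  gcongr
  exact PiLp.norm_apply_le v i

theorem fs_lower (h : NPair Q e) (M : ℝ) : ∃ c : ℝ, 0 < c ∧ ∀ (f : ℂ → EN (n + 2)) (U : Set ℂ), IsOpen U → IsSec Q f U → ∀ z ∈ U,
    |z.re| ≤ 1 → ‖f z‖ ≤ M → c ≤ fs (f z) (deriv f z) := by
  have hg : ∀ j : Fin (n + 2), ∃ G : ℝ, ∀ x : EN (n + 2), ‖x‖ ≤ M → ∑ i, ‖grad (Q j) x i‖ ≤ G := by
    intro j
    have hc : Continuous fun x : EN (n + 2) => ∑ i, ‖grad (Q j) x i‖ :=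
      continuous_finsetSum _ fun i _ => ((continuous_apply i).comp (continuous_grad (Q j))).norm
    obtain ⟨G, hG⟩ := (isCompact_closedBall (0 : EN (n + 2)) M).exists_bound_of_continuousOn hc.continuousOn
    refine ⟨G, fun x hx => ?_⟩
    exact (le_abs_self _).trans (hG x (by simpa using hx))
  obtain ⟨G₀, hG₀⟩ := hg 0
  obtain ⟨G₁, hG₁⟩ := hg 1
  have he0 : (1 : ℝ) ≤ e 0 := by exact_mod_cast h.pos 0
  have he1 : (1 : ℝ) ≤ e 1 := by exact_mod_cast h.pos 1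
  set A : ℝ := e 1 * Real.exp 1 * |G₀| + e 0 * Real.exp 1 * |G₁| + 1 with hA
  have hApos : 0 < A := by positivity
  set M' : ℝ := max M 1 with hM'
  have hM'pos : 0 < M' := by positivity
  refine ⟨1 / (A * M'), by positivity, fun f U hU hf z hz hx hM => ?_⟩
  have hne := sec_ne_zero h hf hz
  have hpos : 0 < ‖f z‖ := norm_pos_iff.2 hne
  obtain ⟨d0, d1, -⟩ := dt_deriv_sec hU hf hz
  obtain ⟨e0, e1, -⟩ := hf.2 z hz
  -- the component of the derivative orthogonal to `f z`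
  set μ : ℂ := inner ℂ (f z) (deriv f z) / ((‖f z‖ ^ 2 : ℝ) : ℂ) with hμ
  set τ : EN (n + 2) := deriv f z - μ • f z with hτ
  have horth : inner ℂ (f z) τ = (0 : ℂ) := by
    have h0 : ((‖f z‖ ^ 2 : ℝ) : ℂ) ≠ 0 := by exact_mod_cast (pow_pos hpos 2).ne'
    have h1 : (inner ℂ (f z) (f z) : ℂ) = ((‖f z‖ ^ 2 : ℝ) : ℂ) := by
      rw [inner_self_eq_norm_sq_to_K]
      push_cast
      rfl
    rw [hτ, inner_sub_right, inner_smul_right, h1, hμ, div_mul_cancel₀ _ h0, sub_self]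
  have hwd : wd (f z) (deriv f z) = ‖f z‖ * ‖τ‖ := by
    have h1 := wd_inv (f z) (deriv f z) 1 (-μ)
    rw [one_smul, one_smul, norm_one, one_pow, one_mul, neg_smul, ← sub_eq_add_neg] at h1
    rw [← h1, ← Real.sqrt_sq (wd_nonneg (f z) _), wd_sq, horth, norm_zero]
    rw [← Real.sqrt_sq (by positivity : 0 ≤ ‖f z‖ * ‖τ‖)]
    congr 1
    ring
  have hfun : (fun i => τ i) = (fun i => deriv f z i) - μ • fun i => f z i := by
    funext i
    simp [hτ]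
  have t0 : dt (fun i => τ i) (grad (Q 0) (f z)) = Complex.exp z - μ * ((e 0 : ℂ) * Complex.exp z) := by
    rw [hfun, dt_sub_left, dt_smul_left, d0, dt_self_grad (h.hom 0), e0]
  have t1 : dt (fun i => τ i) (grad (Q 1) (f z)) = -Complex.exp (-z) - μ * ((e 1 : ℂ) * Complex.exp (-z)) := by
    rw [hfun, dt_sub_left, dt_smul_left, d1, dt_self_grad (h.hom 1), e1]
  have hexp : Complex.exp z * Complex.exp (-z) = 1 := by rw [← Complex.exp_add]; simp
  have hid : ((e 0 : ℂ) + e 1) = (e 1 : ℂ) * Complex.exp (-z) * dt (fun i => τ i) (grad (Q 0) (f z)) -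
      (e 0 : ℂ) * Complex.exp z * dt (fun i => τ i) (grad (Q 1) (f z)) := by
    rw [t0, t1]
    linear_combination (-(e 0 : ℂ) - e 1) * hexp
  have hexp1 : ‖Complex.exp z‖ ≤ Real.exp 1 := by
    rw [Complex.norm_exp]
    exact Real.exp_le_exp.2 ((le_abs_self _).trans hx)
  have hexp2 : ‖Complex.exp (-z)‖ ≤ Real.exp 1 := by
    rw [Complex.norm_exp, Complex.neg_re]
    exact Real.exp_le_exp.2 ((neg_le_abs _).trans hx)
  have b0 : ‖dt (fun i => τ i) (grad (Q 0) (f z))‖ ≤ ‖τ‖ * |G₀| :=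
    (norm_dt_le τ _).trans (mul_le_mul_of_nonneg_left ((hG₀ _ hM).trans (le_abs_self _)) (norm_nonneg _))
  have b1 : ‖dt (fun i => τ i) (grad (Q 1) (f z))‖ ≤ ‖τ‖ * |G₁| :=
    (norm_dt_le τ _).trans (mul_le_mul_of_nonneg_left ((hG₁ _ hM).trans (le_abs_self _)) (norm_nonneg _))
  have hτ1 : 1 ≤ A * ‖τ‖ := by
    have h2 : ‖((e 0 : ℂ) + e 1)‖ ≤ e 1 * Real.exp 1 * (‖τ‖ * |G₀|) + e 0 * Real.exp 1 * (‖τ‖ * |G₁|) := by
      rw [hid]
      refine (norm_sub_le _ _).trans ?_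
      rw [norm_mul, norm_mul, norm_mul, norm_mul, Complex.norm_natCast, Complex.norm_natCast]
      gcongr
    have h3 : ‖((e 0 : ℂ) + e 1)‖ = (e 0 : ℝ) + e 1 := by
      rw [← Nat.cast_add, Complex.norm_natCast, Nat.cast_add]
    rw [h3] at h2
    have h4 : A * ‖τ‖ = e 1 * Real.exp 1 * (‖τ‖ * |G₀|) + e 0 * Real.exp 1 * (‖τ‖ * |G₁|) + ‖τ‖ := by
      rw [hA]
      ring
    rw [h4]
    linarith [norm_nonneg τ]
  have hfs : fs (f z) (deriv f z) = ‖τ‖ / ‖f z‖ := by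
    unfold fs
    rw [hwd]
    field_simp
  rw [hfs, div_le_div_iff₀ (by positivity) hpos, one_mul]
  calc ‖f z‖ ≤ M' := hM.trans (le_max_left _ _)
    _ = 1 * M' := (one_mul _).symm
    _ ≤ (A * ‖τ‖) * M' := by gcongr
    _ = ‖τ‖ * (A * M') := by ring

end Pool.Agent.TCN
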