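import Pool.Agent.TC.GrA
import Pool.Agent.TC.GrB
import Pool.Agent.TCN.Bound
import Pool.Agent.TCN.Lower

/-!
# TCN Growth: linear growth of sections

`growth_core`.  Let `z₀ = x + i y`, `x ≥ 1`, `κ = min (1 / 2) (1 / (8 (L + 1)))`, `ρ = κ x`; on `ball z₀ ρ` `Re z ≥ x / 2`, so `fs * ρ ≤ L / (x / 2) * κ x = 2 L κ ≤ 1 / 4`.  `harnack_curve`: with `T = (log ‖F z₀‖ + C₀) / 3 - 1`:
`T ≤ log ‖F z‖ + C₀` on `closedBall z₀ (ρ / 2)`.  If `T ≤ 0` then `log ‖F z₀‖ ≤ 3 - C₀ ≤ 3 + |C₀|`.  Let `T > 0`, `r = κ x / 2`, `R = x - 1 / 2`, `p = 1 + i y`, `‖p - z₀‖ = x - 1`.  If `x - 1 ≤ r` then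
`T ≤ log ‖F p‖ + C₀ ≤ M + C₀`.  Otherwise `annulus` (`a = 2 L²`, `m = T`, `r < x - 1 < R`): `T log (R / (x - 1)) / log (R / r) ≤ M + C₀ + a log 2`; `log (R / (x - 1)) ≥ 1 - (x - 1) / R = (1 / 2) / R ≥ 1 / (2 x)`
(`log t ≥ 1 - 1 / t`) and `log (R / r) ≤ log (2 / κ)`, so `T ≤ 2 x log (2 / κ) (M + C₀ + a log 2)`.  All together `log ‖F z₀‖ ≤ A (1 + x)` with `A` depending on `L`, `C₀`, `M` (take absolute values).
(`log (R / r) > 0`; `log (2 / κ) ≥ log 4 > 0`.)

`growth`.  `F z = f (z + x₀)` resp. `F z = f (- z - x₀)` on `{0 < Re z}`; `f z ≠ 0` (`ev (Q 0) (f z) ≠ 0`); `norm_lower` gives `C₀` (`c |Re z| - C ≥ - C`); `fs_bound` on `ball (z + x₀) (Re z)`: `fs ≤ L (1 / Re z + 1 / (1 + ...)) ≤ 2 L / Re z`.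
For the second one: `deriv F z = - deriv f (- z - x₀)` and `fs x (-v) = fs x v` (`fs_smul_right` with `c = -1`).
-/

set_option autoImplicit false

open Topology Filter Metric

namespace Pool.Agent.TCN

open Pool.Agent.TC

open Pool.Agent.H36.BP (EN fs wd)

theorem growth_core (L C₀ M : ℝ) (hL : 0 < L) : ∃ A : ℝ, 0 < A ∧ ∀ (N : ℕ) (F : ℂ → EN N) (y : ℝ), DifferentiableOn ℂ F {z | 0 < z.re} →
    (∀ z : ℂ, 0 < z.re → F z ≠ 0 ∧ -C₀ ≤ Real.log ‖F z‖ ∧ (1 / 2 ≤ z.re → fs (F z) (deriv F z) * z.re ≤ L)) → Real.log ‖F ⟨1, y⟩‖ ≤ M →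
    ∀ x : ℝ, 1 ≤ x → Real.log ‖F ⟨x, y⟩‖ ≤ A * (1 + x) := by
  -- constants
  obtain ⟨κ, hκdef⟩ : ∃ κ : ℝ, κ = min (1 / 2) (1 / (8 * (L + 1))) := ⟨_, rfl⟩
  have hκ0 : 0 < κ := by rw [hκdef]; exact lt_min (by norm_num) (by positivity)
  have hκ1 : κ ≤ 1 / 2 := by rw [hκdef]; exact min_le_left _ _
  have hκ2 : κ * (8 * (L + 1)) ≤ 1 := by
    have h1 : κ ≤ 1 / (8 * (L + 1)) := by rw [hκdef]; exact min_le_right _ _
    rwa [le_div_iff₀ (by positivity)] at h1
  obtain ⟨K, hKdef⟩ : ∃ K : ℝ, K = Real.log (2 / κ) := ⟨_, rfl⟩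
  have hK1 : 1 ≤ K := by
    have h4 : (4 : ℝ) ≤ 2 / κ := by rw [le_div_iff₀ hκ0]; linarith
    have he : Real.exp 1 ≤ 2 / κ := by
      have := Real.exp_one_lt_d9
      linarith
    rw [hKdef]
    have := Real.log_le_log (Real.exp_pos 1) he
    rwa [Real.log_exp] at this
  obtain ⟨W, hWdef⟩ : ∃ W : ℝ, W = |M| + |C₀| + 2 * L ^ 2 * Real.log 2 := ⟨_, rfl⟩
  have hlog2 : 0 ≤ Real.log 2 := Real.log_nonneg (by norm_num)
  have hW0 : 0 ≤ W := by rw [hWdef]; positivity
  have hM := le_abs_self M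
  have hC := le_abs_self C₀
  have hC' := neg_abs_le C₀
  have hWM : M + C₀ + 2 * L ^ 2 * Real.log 2 ≤ W := by rw [hWdef]; linarith
  have hWM' : M + C₀ ≤ W := by
    have : 0 ≤ 2 * L ^ 2 * Real.log 2 := by positivity
    linarith
  have hWK0 : 0 ≤ W * K := mul_nonneg hW0 (by linarith)
  refine ⟨3 + |C₀| + 6 * (W * K), by positivity, ?_⟩
  intro N F y hF hz hp x hx
  obtain ⟨z₀, hz₀⟩ : ∃ z₀ : ℂ, z₀ = ⟨x, y⟩ := ⟨_, rfl⟩
  have hre : z₀.re = x := by rw [hz₀]
  have him : z₀.im = y := by rw [hz₀]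
  rw [← hz₀]
  obtain ⟨T, hT⟩ : ∃ T : ℝ, T = (Real.log ‖F z₀‖ + C₀) / 3 - 1 := ⟨_, rfl⟩
  have hx0 : 0 < x := by linarith
  have hρ0 : 0 < κ * x := by positivity
  have hball : ∀ z ∈ ball z₀ (κ * x), x / 2 ≤ z.re := by
    intro z hzb
    have h1 : |(z - z₀).re| ≤ ‖z - z₀‖ := Complex.abs_re_le_norm _
    have h2 : ‖z - z₀‖ < κ * x := by rwa [mem_ball, dist_eq_norm] at hzb
    have h3 : κ * x ≤ 1 / 2 * x := mul_le_mul_of_nonneg_right hκ1 hx0.le
    have h4 := neg_abs_le (z - z₀).re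
    rw [Complex.sub_re, hre] at h4 h1
    linarith
  have hpos : ∀ z ∈ ball z₀ (κ * x), 0 < z.re := fun z hzb => by linarith [hball z hzb]
  have hharn : ∀ z ∈ closedBall z₀ (κ * x / 2), T ≤ Real.log ‖F z‖ + C₀ := by
    intro z hzb
    rw [hT]
    refine harnack_curve hρ0 (hF.mono fun z hzb => hpos z hzb) (fun z hzb => (hz z (hpos z hzb)).1) ?_
      (fun z hzb => (hz z (hpos z hzb)).2.1) hzb
    intro w hw
    have h2 := hball w hw
    have h1 := (hz w (hpos w hw)).2.2 (by linarith)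
    have h3 : 0 ≤ fs (F w) (deriv F w) := Pool.Agent.H36.BP.fs_nonneg _ _
    have h4 : fs (F w) (deriv F w) * (κ * x) ≤ fs (F w) (deriv F w) * (κ * (2 * w.re)) := by
      refine mul_le_mul_of_nonneg_left (mul_le_mul_of_nonneg_left (by linarith) hκ0.le) h3
    have h5 : fs (F w) (deriv F w) * (κ * (2 * w.re)) = 2 * κ * (fs (F w) (deriv F w) * w.re) := by ring
    have h6 : 2 * κ * (fs (F w) (deriv F w) * w.re) ≤ 2 * κ * L :=
      mul_le_mul_of_nonneg_left h1 (by positivity)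
    nlinarith
  -- the bound for `T`
  have hTW : T ≤ 2 * x * (W * K) := by
    rcases le_or_gt T 0 with hT0 | hT0
    · exact hT0.trans (by positivity)
    · have hpre : (⟨1, y⟩ : ℂ) - z₀ = ((1 - x : ℝ) : ℂ) := by
        apply Complex.ext
        · simp [hre]
        · simp [him]
      have hdist : ‖(⟨1, y⟩ : ℂ) - z₀‖ = x - 1 := by
        rw [hpre, Complex.norm_real, Real.norm_eq_abs, abs_sub_comm, abs_of_nonneg (by linarith)]
      rcases le_or_gt (x - 1) (κ * x / 2) with hc | hc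
      · have h1 := hharn ⟨1, y⟩ (by rw [mem_closedBall, dist_eq_norm, hdist]; exact hc)
        have h2 : T ≤ W := by linarith
        have h3 : 1 ≤ 2 * x * K := by nlinarith
        calc T ≤ W := h2
          _ = 1 * W := (one_mul W).symm
          _ ≤ 2 * x * K * W := mul_le_mul_of_nonneg_right h3 hW0
          _ = 2 * x * (W * K) := by ring
      · have hx1 : 0 < x - 1 := lt_trans (by positivity) hc
        have hrR : κ * x / 2 < x - 1 / 2 := by linarith
        have hR0 : 0 < x - 1 / 2 := by linarith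
        have ha := annulus (F := F) (z₀ := z₀) (r := κ * x / 2) (R := x - 1 / 2) (a := 2 * L ^ 2) (m := T) (C₀ := C₀)
          (by positivity) hrR (by rw [hre]; linarith) (by positivity) hT0.le hF (fun z h => (hz z h).1)
          (fun z h => by
            have h1 := (hz z (by linarith)).2.2 h
            have h2 : 0 ≤ fs (F z) (deriv F z) * z.re := mul_nonneg (Pool.Agent.H36.BP.fs_nonneg _ _) (by linarith)
            have h3 : (fs (F z) (deriv F z) * z.re) ^ 2 ≤ L ^ 2 := pow_le_pow_left₀ h2 h1 2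
            linarith)
          (fun z h => (hz z h).2.1) hharn (z := ⟨1, y⟩) (by rw [hdist]; exact hc.le) (by rw [hdist]; linarith)
        rw [hdist] at ha
        have h2re : (2 : ℝ) * (⟨1, y⟩ : ℂ).re = 2 := by simp
        rw [h2re] at ha
        have hlogR : 0 < Real.log ((x - 1 / 2) / (κ * x / 2)) := by
          apply Real.log_pos
          rw [lt_div_iff₀ (by positivity)]
          linarith
        have hlogR2 : Real.log ((x - 1 / 2) / (κ * x / 2)) ≤ K := by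
          rw [hKdef]
          apply Real.log_le_log (by positivity)
          rw [div_le_div_iff₀ (by positivity) hκ0]
          nlinarith
        have hlogx : 1 / (2 * x) ≤ Real.log ((x - 1 / 2) / (x - 1)) := by
          have h1 : 0 < (x - 1 / 2) / (x - 1) := by positivity
          have h2 := Real.one_sub_inv_le_log_of_pos h1
          refine le_trans ?_ h2
          rw [inv_div, div_le_iff₀ (by positivity)]
          have h3 : (1 - (x - 1) / (x - 1 / 2)) * (2 * x) = x / (x - 1 / 2) := by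
            rw [eq_div_iff hR0.ne']
            have h4 : (x - 1) / (x - 1 / 2) * (x - 1 / 2) = x - 1 := div_mul_cancel₀ _ hR0.ne'
            calc (1 - (x - 1) / (x - 1 / 2)) * (2 * x) * (x - 1 / 2)
                = ((x - 1 / 2) - (x - 1) / (x - 1 / 2) * (x - 1 / 2)) * (2 * x) := by ring
              _ = x := by rw [h4]; ring
          rw [h3, le_div_iff₀ hR0]
          linarith
        have h5 : T * Real.log ((x - 1 / 2) / (x - 1)) / Real.log ((x - 1 / 2) / (κ * x / 2)) ≤ W := by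
          linarith
        rw [div_le_iff₀ hlogR] at h5
        have h6 : T * (1 / (2 * x)) ≤ W * K :=
          calc T * (1 / (2 * x)) ≤ T * Real.log ((x - 1 / 2) / (x - 1)) := mul_le_mul_of_nonneg_left hlogx hT0.le
            _ ≤ W * Real.log ((x - 1 / 2) / (κ * x / 2)) := h5
            _ ≤ W * K := mul_le_mul_of_nonneg_left hlogR2 hW0
        rw [mul_one_div, div_le_iff₀ (by positivity)] at h6
        linarith
  have hlogz : Real.log ‖F z₀‖ = 3 * (T + 1) - C₀ := by rw [hT]; ring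
  rw [hlogz]
  have hfin : (3 + |C₀| + 6 * (W * K)) * (1 + x) = 3 + |C₀| + 6 * x * (W * K) + ((3 + |C₀|) * x + 6 * (W * K)) := by ring
  have hrest : 0 ≤ (3 + |C₀|) * x + 6 * (W * K) := by positivity
  rw [hfin]
  linarith

variable {n : ℕ} {Q : Fin (n + 2) → MvPolynomial (Fin (n + 3)) ℂ} {e : Fin (n + 2) → ℕ}

theorem growth_xy (h : NPair Q e) (M x₀ : ℝ) (hx₀ : 0 ≤ x₀) : ∃ A : ℝ, 0 < A ∧
    (∀ f : ℂ → EN (n + 2), IsSec Q f {z | x₀ < z.re} → ∀ y : ℝ, Real.log ‖f ⟨x₀ + 1, y⟩‖ ≤ M →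
      ∀ x : ℝ, x₀ + 1 ≤ x → Real.log ‖f ⟨x, y⟩‖ ≤ A * (1 + x)) ∧
    ∀ f : ℂ → EN (n + 2), IsSec Q f {z | z.re < -x₀} → ∀ y : ℝ, Real.log ‖f ⟨-(x₀ + 1), y⟩‖ ≤ M →
      ∀ x : ℝ, x₀ + 1 ≤ x → Real.log ‖f ⟨-x, y⟩‖ ≤ A * (1 + x) := by
  obtain ⟨c, C, hc, hlow⟩ := norm_lower h
  obtain ⟨L, hL, hfs⟩ := fs_bound h
  obtain ⟨A, hA, hcore⟩ := growth_core (2 * L) C M (by positivity)
  have key : ∀ (f : ℂ → EN (n + 2)) (U : Set ℂ) (z w : ℂ), IsSec Q f U → w ∈ U → 0 < z.re → z.re ≤ |w.re| →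
      ball w z.re ⊆ U →
      f w ≠ 0 ∧ -C ≤ Real.log ‖f w‖ ∧ (1 / 2 ≤ z.re → fs (f w) (deriv f w) * z.re ≤ 2 * L) := by
    intro f U z w hf hw hz hzw hb
    refine ⟨?_, ?_, fun hz2 => ?_⟩
    · intro h0
      have h1 := (hf.2 w hw).1
      rw [h0] at h1
      have h2 : ev (Q 0) (0 : EN (n + 2)) = 0 := by
        have h3 := ev_smul (h.hom 0) (0 : ℂ) (0 : EN (n + 2))
        rw [smul_zero, zero_pow (Nat.one_le_iff_ne_zero.mp (h.pos 0)), zero_mul] at h3
        exact h3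
      rw [h2] at h1
      exact Complex.exp_ne_zero w h1.symm
    · have h1 := (hlow f U hf w hw).2
      have h2 : 0 ≤ c * |w.re| := by positivity
      linarith
    · have h1 := hfs f w z.re hz2 ⟨hf.1.mono hb, fun v hv => hf.2 v (hb hv)⟩
      have h2 : 1 / (1 + |w.re|) ≤ 1 / z.re := one_div_le_one_div_of_le hz (by linarith)
      have h3 : fs (f w) (deriv f w) ≤ 2 * L * (1 / z.re) := by
        have h4 : L * (1 / z.re + 1 / (1 + |w.re|)) ≤ L * (1 / z.re + 1 / z.re) :=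
          mul_le_mul_of_nonneg_left (by linarith) hL.le
        calc fs (f w) (deriv f w) ≤ _ := h1
          _ ≤ _ := h4
          _ = 2 * L * (1 / z.re) := by ring
      rw [mul_one_div, le_div_iff₀ hz] at h3
      exact h3
  refine ⟨A, hA, ?_, ?_⟩
  · intro f hf y hy x hx
    have hmem : ∀ z : ℂ, 0 < z.re → z + (x₀ : ℂ) ∈ {z : ℂ | x₀ < z.re} := by
      intro z hz
      simp only [Set.mem_ofPred_eq, Complex.add_re, Complex.ofReal_re]
      linarith
    have h1 := hcore (n + 2) (fun z => f (z + (x₀ : ℂ))) y ?_ ?_ ?_ (x - x₀) (by linarith)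
    · have he : (⟨x - x₀, y⟩ : ℂ) + (x₀ : ℂ) = ⟨x, y⟩ := by
        apply Complex.ext <;> simp
      simp only [he] at h1
      refine h1.trans (mul_le_mul_of_nonneg_left (by linarith) hA.le)
    · intro z hz
      have hd : DifferentiableWithinAt ℂ f {z : ℂ | x₀ < z.re} (z + (x₀ : ℂ)) := hf.1 _ (hmem z hz)
      have ho : IsOpen {z : ℂ | x₀ < z.re} := isOpen_lt continuous_const Complex.continuous_re
      have hd' := hd.differentiableAt (ho.mem_nhds (hmem z hz))
      exact (DifferentiableAt.comp z hd' (differentiableAt_id.add_const _)).differentiableWithinAt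
    · intro z hz
      have h2 := key f _ z (z + (x₀ : ℂ)) hf (hmem z hz) hz ?_ ?_
      · rw [show deriv (fun z => f (z + (x₀ : ℂ))) z = deriv f (z + (x₀ : ℂ)) from deriv_comp_add_const f _ z]
        exact h2
      · rw [Complex.add_re, Complex.ofReal_re, abs_of_nonneg (by linarith)]
        linarith
      · intro v hv
        rw [mem_ball, dist_eq_norm] at hv
        have h3 := Complex.abs_re_le_norm (v - (z + (x₀ : ℂ)))
        have h4 := neg_abs_le (v - (z + (x₀ : ℂ))).re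
        simp only [Complex.sub_re, Complex.add_re, Complex.ofReal_re] at h3 h4
        simp only [Set.mem_ofPred_eq]
        linarith
    · have he : (⟨1, y⟩ : ℂ) + (x₀ : ℂ) = ⟨x₀ + 1, y⟩ := by
        apply Complex.ext
        · simp [add_comm]
        · simp
      simp only [he]
      exact hy
  · intro f hf y hy x hx
    have hmem : ∀ z : ℂ, 0 < z.re → -z - (x₀ : ℂ) ∈ {z : ℂ | z.re < -x₀} := by
      intro z hz
      simp only [Set.mem_ofPred_eq, Complex.sub_re, Complex.neg_re, Complex.ofReal_re]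
      linarith
    have hderiv : ∀ z : ℂ, 0 < z.re → HasDerivAt (fun z => f (-z - (x₀ : ℂ))) ((-1 : ℂ) • deriv f (-z - (x₀ : ℂ))) z := by
      intro z hz
      have hd : DifferentiableWithinAt ℂ f {z : ℂ | z.re < -x₀} (-z - (x₀ : ℂ)) := hf.1 _ (hmem z hz)
      have ho : IsOpen {z : ℂ | z.re < -x₀} := isOpen_lt Complex.continuous_re continuous_const
      have hd' := (hd.differentiableAt (ho.mem_nhds (hmem z hz))).hasDerivAt
      have hg : HasDerivAt (fun z : ℂ => -z - (x₀ : ℂ)) (-1) z := (hasDerivAt_neg z).sub_const _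
      exact hd'.scomp z hg
    have h1 := hcore (n + 2) (fun z => f (-z - (x₀ : ℂ))) (-y) ?_ ?_ ?_ (x - x₀) (by linarith)
    · have he : -(⟨x - x₀, -y⟩ : ℂ) - (x₀ : ℂ) = ⟨-x, y⟩ := by
        apply Complex.ext
        · simp
        · simp
      simp only [he] at h1
      refine h1.trans (mul_le_mul_of_nonneg_left (by linarith) hA.le)
    · intro z hz
      exact (hderiv z hz).differentiableAt.differentiableWithinAt
    · intro z hz
      have h2 := key f _ z (-z - (x₀ : ℂ)) hf (hmem z hz) hz ?_ ?_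
      · rw [(hderiv z hz).deriv, Pool.Agent.H36.BP.fs_smul_right]
        simpa using h2
      · rw [Complex.sub_re, Complex.neg_re, Complex.ofReal_re, abs_of_nonpos (by linarith)]
        linarith
      · intro v hv
        rw [mem_ball, dist_eq_norm] at hv
        have h3 := Complex.abs_re_le_norm (v - (-z - (x₀ : ℂ)))
        have h4 := le_abs_self (v - (-z - (x₀ : ℂ))).re
        simp only [Complex.sub_re, Complex.neg_re, Complex.ofReal_re] at h3 h4
        simp only [Set.mem_ofPred_eq]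
        linarith
    · have he : -(⟨1, -y⟩ : ℂ) - (x₀ : ℂ) = ⟨-(x₀ + 1), y⟩ := by
        apply Complex.ext
        · simp; ring
        · simp
      simp only [he]
      exact hy

theorem growth (h : NPair Q e) (M : ℝ) {x₀ : ℝ} (hx₀ : 0 ≤ x₀) : ∃ A : ℝ, 0 < A ∧ ∀ f : ℂ → EN (n + 2),
    (IsSec Q f {z | x₀ < z.re} → ∀ z : ℂ, x₀ + 1 ≤ z.re → Real.log ‖f ⟨x₀ + 1, z.im⟩‖ ≤ M → Real.log ‖f z‖ ≤ A * (1 + |z.re|)) ∧
    (IsSec Q f {z | z.re < -x₀} → ∀ z : ℂ, z.re ≤ -(x₀ + 1) → Real.log ‖f ⟨-(x₀ + 1), z.im⟩‖ ≤ M → Real.log ‖f z‖ ≤ A * (1 + |z.re|)) := by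
  obtain ⟨A, hA, h1, h2⟩ := growth_xy h M x₀ hx₀
  refine ⟨A, hA, fun f => ⟨fun hf z hz hM => ?_, fun hf z hz hM => ?_⟩⟩
  · have h3 := h1 f hf z.im hM z.re hz
    rw [abs_of_nonneg (by linarith)]
    exact h3
  · have h3 := h2 f hf z.im hM (-z.re) (by linarith)
    rw [neg_neg] at h3
    rw [abs_of_nonpos (by linarith)]
    exact h3

end Pool.Agent.TCN
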