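import Pool.Agent.TC.Cross

/-!
# TCN Defs: surfaces minus two nodal hypersurface sections

Everything (`ev`, `grad`, `OnV`, `IsSec`, `Sec`, `nv`, `HP`, ...) is as in `TC/Defs.lean`; only the hypotheses are weaker: the curves `C₁ = {F₁ = 0}` and `C₂ = {F₂ = 0}` in `V` meet transversally, and each of them may have nodes
(outside of the other one).  A node is a point `x` with `F₁ x = 0` or `F₂ x = 0` and `nv Q x = 0`; nondegenerate means that the derivative of `nv Q` at `x` is injective on the tangent space `{v | dQ_j(x) v = 0, j ≥ 2}` of the cone of `V`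
modulo `ℂ x` (`nv Q` is homogeneous, so `D (nv Q) (x) x = 0`).
-/

set_option autoImplicit false

open Topology Filter Metric

namespace Pool.Agent.TCN

open Pool.Agent.H36.BP (EN fs wd Sub)
open Pool.Agent.TC (ev grad OnV IsSec Sec nv dt)

variable {n : ℕ}

/-- The hypotheses.  `smooth`: `V` is a smooth complete intersection; `meet`: the curves `{F₁ = 0}` and `{F₂ = 0}` in `V` are smooth and transversal at their common points; `node`: the singular points of the curves are nodes;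
`deg`: `K_V + C₁ + C₂` is ample. -/
structure NPair (Q : Fin (n + 2) → MvPolynomial (Fin (n + 3)) ℂ) (e : Fin (n + 2) → ℕ) : Prop where
  hom : ∀ j, (Q j).IsHomogeneous (e j)
  pos : ∀ j, 1 ≤ e j
  deg : n + 4 ≤ ∑ j, e j
  smooth : ∀ x : EN (n + 2), x ≠ 0 → OnV Q x → ∀ c : Fin (n + 2) → ℂ, c 0 = 0 → c 1 = 0 → ∑ j, c j • grad (Q j) x = 0 → c = 0
  meet : ∀ x : EN (n + 2), x ≠ 0 → OnV Q x → ev (Q 0) x = 0 → ev (Q 1) x = 0 → ∀ c : Fin (n + 2) → ℂ, ∑ j, c j • grad (Q j) x = 0 → c = 0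
  node : ∀ x : EN (n + 2), x ≠ 0 → OnV Q x → (ev (Q 0) x = 0 ∨ ev (Q 1) x = 0) → nv Q x = 0 → ∀ v : EN (n + 2),
    (∀ j : Fin (n + 2), 2 ≤ (j : ℕ) → dt (fun i => v i) (grad (Q j) x) = 0) → fderiv ℂ (nv Q) x v = 0 → ∃ a : ℂ, v = a • x

end Pool.Agent.TCN
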