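import Pool.Agent.TC.DQ
import Pool.Agent.TCN.Defs

/-!
# TC: the difference of two sections is a holomorphic multiple of the cross product of the difference quotients
-/

set_option autoImplicit false

open Topology Filter Metric

namespace Pool.Agent.TCN

open Pool.Agent.TC

open Pool.Agent.H36.BP (EN)

variable {n : ℕ} {Q : Fin (n + 2) → MvPolynomial (Fin (n + 3)) ℂ} {e : Fin (n + 2) → ℕ}

/-- the cross product of the difference quotients -/
noncomputable def gq (Q : Fin (n + 2) → MvPolynomial (Fin (n + 3)) ℂ) (x y : EN (n + 2)) : EN (n + 2) :=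
  WithLp.toLp 2 (cross fun j => dq (Q j) x y)

theorem gq_apply (x y : EN (n + 2)) (i : Fin (n + 3)) : gq Q x y i = cross (fun j => dq (Q j) x y) i := rfl

theorem nv_apply (x : EN (n + 2)) (i : Fin (n + 3)) : nv Q x i = cross (fun j => grad (Q j) x) i := rfl

theorem continuous_gq (Q : Fin (n + 2) → MvPolynomial (Fin (n + 3)) ℂ) :
    Continuous fun p : EN (n + 2) × EN (n + 2) => gq Q p.1 p.2 :=
  (PiLp.continuous_toLp 2 _).comp (continuous_cross.comp (continuous_pi fun j => continuous_dq (Q j)))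

theorem continuous_nv (Q : Fin (n + 2) → MvPolynomial (Fin (n + 3)) ℂ) : Continuous (nv Q) :=
  (PiLp.continuous_toLp 2 _).comp (continuous_cross.comp (continuous_pi fun j => continuous_grad (Q j)))

theorem gq_self (h : NPair Q e) (x : EN (n + 2)) : gq Q x x = nv Q x := by
  have h1 : (fun j => dq (Q j) x x) = fun j => grad (Q j) x := funext fun j => dq_self (h.pos j) (h.hom j) x
  rw [gq, nv, h1]

theorem gq_smul (h : NPair Q e) (c : ℂ) (x y : EN (n + 2)) :
    gq Q (c • x) (c • y) = c ^ (∑ j, (e j - 1)) • gq Q x y := by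
  have h1 : (fun j => dq (Q j) (c • x) (c • y)) = fun j => c ^ (e j - 1) • dq (Q j) x y :=
    funext fun j => dq_smul (h.pos j) (h.hom j) c x y
  rw [gq, gq, h1, cross_smul, Finset.prod_pow_eq_pow_sum]
  rfl

theorem nv_smul (h : NPair Q e) (c : ℂ) (x : EN (n + 2)) : nv Q (c • x) = c ^ (∑ j, (e j - 1)) • nv Q x := by
  rw [← gq_self h, ← gq_self h, gq_smul h]

theorem two_le_sum (h : NPair Q e) : 2 ≤ ∑ j, (e j - 1) := by
  have h1 : ∑ j, (e j - 1) + ∑ _j : Fin (n + 2), 1 = ∑ j, e j := by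
    rw [← Finset.sum_add_distrib]
    exact Finset.sum_congr rfl fun j _ => by have := h.pos j; omega
  have h2 : ∑ _j : Fin (n + 2), 1 = n + 2 := by simp
  have := h.deg
  omega

theorem gq_zero (h : NPair Q e) : gq Q 0 0 = 0 := by
  have h1 := gq_smul h 0 0 0
  have h2 := two_le_sum h
  rw [zero_pow (by omega)] at h1
  simpa using h1

/-- the scaled statement -/
theorem exists_scale (h : NPair Q e) {x : EN (n + 2)} (hx : x ≠ 0) (y : EN (n + 2)) :
    ∃ x' y' : EN (n + 2), ‖x'‖ = 1 ∧ ‖y' - x'‖ = ‖y - x‖ / ‖x‖ ∧ gq Q x y = ((‖x‖ : ℝ) : ℂ) ^ (∑ j, (e j - 1)) • gq Q x' y' ∧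
      nv Q x = ((‖x‖ : ℝ) : ℂ) ^ (∑ j, (e j - 1)) • nv Q x' ∧ x = ((‖x‖ : ℝ) : ℂ) • x' := by
  have hx' : ‖x‖ ≠ 0 := norm_ne_zero_iff.2 hx
  have hc : ((‖x‖ : ℝ) : ℂ) ≠ 0 := by exact_mod_cast hx'
  have hr : ∀ w : EN (n + 2), ((‖x‖ : ℝ) : ℂ) • (((‖x‖ : ℝ) : ℂ)⁻¹ • w) = w := fun w => smul_inv_smul₀ hc w
  refine ⟨((‖x‖ : ℝ) : ℂ)⁻¹ • x, ((‖x‖ : ℝ) : ℂ)⁻¹ • y, ?_, ?_, ?_, ?_, ?_⟩
  · rw [norm_smul, norm_inv, Complex.norm_real, norm_norm, inv_mul_cancel₀ hx']
  · rw [← smul_sub, norm_smul, norm_inv, Complex.norm_real, norm_norm, inv_mul_eq_div]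
  · rw [← gq_smul h, hr, hr]
  · rw [← nv_smul h, hr]
  · rw [hr]

theorem gq_le (h : NPair Q e) :
    ∃ C : ℝ, 0 < C ∧ ∀ x y : EN (n + 2), ‖y - x‖ ≤ ‖x‖ → ‖gq Q x y‖ ≤ C * ‖x‖ ^ (∑ j, (e j - 1)) := by
  obtain ⟨C, hC⟩ := (((isCompact_closedBall (0 : EN (n + 2)) 1).prod
    (isCompact_closedBall (0 : EN (n + 2)) 2)).exists_bound_of_continuousOn (continuous_gq Q).continuousOn)
  refine ⟨max C 1, by positivity, fun x y hxy => ?_⟩
  by_cases hx : x = 0
  · subst hx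
    have hy : y = 0 := by simpa using hxy
    subst hy
    rw [gq_zero h, norm_zero]
    positivity
  · obtain ⟨x', y', h1, h2, h3, -, -⟩ := exists_scale h hx y
    have hxp : 0 < ‖x‖ := norm_pos_iff.2 hx
    have h4 : ‖y' - x'‖ ≤ 1 := by
      rw [h2, div_le_one hxp]
      exact hxy
    have h5 : ‖gq Q x' y'‖ ≤ C := by
      refine hC (x', y') ⟨?_, ?_⟩
      · simp [h1]
      · rw [mem_closedBall_zero_iff]
        calc ‖y'‖ = ‖(y' - x') + x'‖ := by rw [sub_add_cancel]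
          _ ≤ ‖y' - x'‖ + ‖x'‖ := norm_add_le _ _
          _ ≤ 2 := by rw [h1]; linarith
    rw [h3, norm_smul, norm_pow, Complex.norm_real, norm_norm, mul_comm]
    gcongr
    exact h5.trans (le_max_left _ _)

theorem gq_close (h : NPair Q e) {η : ℝ} (hη : 0 < η) :
    ∃ ε : ℝ, 0 < ε ∧ ε ≤ 1 ∧ ∀ x y : EN (n + 2), ‖y - x‖ ≤ ε * ‖x‖ →
      ‖gq Q x y - nv Q x‖ ≤ η * ‖x‖ ^ (∑ j, (e j - 1)) := by
  have hK : IsCompact ((closedBall (0 : EN (n + 2)) 1) ×ˢ (closedBall (0 : EN (n + 2)) 2)) :=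
    (isCompact_closedBall _ _).prod (isCompact_closedBall _ _)
  have huc := hK.uniformContinuousOn_of_continuous (continuous_gq Q).continuousOn
  obtain ⟨δ, hδ, hd⟩ := Metric.uniformContinuousOn_iff.1 huc η hη
  refine ⟨min (δ / 2) 1, by positivity, min_le_right _ _, fun x y hxy => ?_⟩
  by_cases hx : x = 0
  · subst hx
    have hy : y = 0 := by simpa using hxy
    subst hy
    rw [← gq_self h, sub_self, norm_zero]
    positivity
  · obtain ⟨x', y', h1, h2, h3, h4, -⟩ := exists_scale h hx y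
    have hxp : 0 < ‖x‖ := norm_pos_iff.2 hx
    have h5 : ‖y' - x'‖ ≤ min (δ / 2) 1 := by
      rw [h2, div_le_iff₀ hxp]
      exact hxy
    have h6 : ‖y'‖ ≤ 2 := by
      calc ‖y'‖ = ‖(y' - x') + x'‖ := by rw [sub_add_cancel]
        _ ≤ ‖y' - x'‖ + ‖x'‖ := norm_add_le _ _
        _ ≤ 2 := by rw [h1]; linarith [h5.trans (min_le_right _ _)]
    have h7 := hd (x', y') ⟨by simp [h1], by simpa using h6⟩ (x', x') ⟨by simp [h1], by simp [h1]⟩ (by
      rw [Prod.dist_eq]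
      simp only [dist_self]
      rw [dist_eq_norm, max_eq_right (norm_nonneg _)]
      linarith [h5.trans (min_le_left _ _)])
    rw [dist_eq_norm] at h7
    simp only [gq_self h] at h7
    rw [h3, h4, ← smul_sub, norm_smul, norm_pow, Complex.norm_real, norm_norm, mul_comm]
    gcongr

theorem exists_l (h : NPair Q e) {f g : ℂ → EN (n + 2)} {z₀ : ℂ} (hf : AnalyticAt ℂ f z₀) (hg : AnalyticAt ℂ g z₀)
    (hfg : ∀ᶠ z in 𝓝 z₀, ∀ j, ev (Q j) (f z) = ev (Q j) (g z)) (h0 : gq Q (f z₀) (g z₀) ≠ 0) :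
    ∃ l : ℂ → ℂ, AnalyticAt ℂ l z₀ ∧ ∀ᶠ z in 𝓝 z₀, g z - f z = l z • gq Q (f z) (g z) := by
  obtain ⟨i, hi⟩ : ∃ i, gq Q (f z₀) (g z₀) i ≠ 0 := by
    by_contra hcon
    push Not at hcon
    exact h0 (PiLp.ext fun k => hcon k)
  have han : AnalyticAt ℂ (fun z => gq Q (f z) (g z) i) z₀ :=
    analyticAt_cross (fun j k => analyticAt_dq (Q j) hf hg k) i
  refine ⟨fun z => (g z - f z) i / gq Q (f z) (g z) i, ?_, ?_⟩
  · exact (analyticAt_apply (hg.sub hf) i).div han hi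
  · filter_upwards [hfg, han.continuousAt.eventually_ne hi] with z hz hzi
    have h1 := eq_smul_cross (u := fun j => dq (Q j) (f z) (g z)) (v := fun k => (g z - f z) k) (fun j => by
      rw [dt_comm, ← ev_sub_ev (h.pos j) (h.hom j), hz j, sub_self]) (i := i) hzi
    exact PiLp.ext fun k => congrFun h1 k

/-- the normal vector does not vanish at the points of a curve which is transversal to the pencil -/
theorem nv_ne_zero (h : NPair Q e) {x : EN (n + 2)} {v : Fin (n + 3) → ℂ} (hx : x ≠ 0) (hV : OnV Q x)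
    (hv : ∀ j : Fin (n + 2), 2 ≤ (j : ℕ) → dt v (grad (Q j) x) = 0)
    (hne : (e 1 : ℂ) * dt v (grad (Q 0) x) * ev (Q 1) x ≠ (e 0 : ℂ) * ev (Q 0) x * dt v (grad (Q 1) x)) :
    nv Q x ≠ 0 := by
  intro h0
  have h1 : cross (fun j => grad (Q j) x) ≠ 0 := by
    rw [cross_ne_zero_iff, Fintype.linearIndependent_iff]
    intro c hc
    have h2 : ∑ j, c j * dt v (grad (Q j) x) = 0 := by
      have := congrArg (dt v) hc
      rw [dt_sum_right, dt_zero_right] at this
      simpa [dt_smul_right] using this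
    have h3 : ∑ j, c j * ((e j : ℂ) * ev (Q j) x) = 0 := by
      have := congrArg (dt fun i => x i) hc
      rw [dt_sum_right, dt_zero_right] at this
      simpa [dt_smul_right, dt_self_grad (h.hom _)] using this
    rw [Fin.sum_univ_succ, Fin.sum_univ_succ] at h2 h3
    have h4 : ∑ i : Fin n, c i.succ.succ * dt v (grad (Q i.succ.succ) x) = 0 :=
      Finset.sum_eq_zero fun i _ => by rw [hv _ (by simp), mul_zero]
    have h5 : ∑ i : Fin n, c i.succ.succ * ((e i.succ.succ : ℂ) * ev (Q i.succ.succ) x) = 0 :=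
      Finset.sum_eq_zero fun i _ => by rw [hV _ (by simp), mul_zero, mul_zero]
    rw [h4, add_zero, Fin.succ_zero_eq_one] at h2
    rw [h5, add_zero, Fin.succ_zero_eq_one] at h3
    have hc0 : c 0 = 0 := by
      have : c 0 * ((e 1 : ℂ) * dt v (grad (Q 0) x) * ev (Q 1) x - (e 0 : ℂ) * ev (Q 0) x * dt v (grad (Q 1) x)) = 0 := by
        linear_combination (e 1 : ℂ) * ev (Q 1) x * h2 - dt v (grad (Q 1) x) * h3
      exact (mul_eq_zero.1 this).resolve_right (sub_ne_zero.2 hne)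
    have hc1 : c 1 = 0 := by
      have : c 1 * ((e 1 : ℂ) * dt v (grad (Q 0) x) * ev (Q 1) x - (e 0 : ℂ) * ev (Q 0) x * dt v (grad (Q 1) x)) = 0 := by
        linear_combination dt v (grad (Q 0) x) * h3 - (e 0 : ℂ) * ev (Q 0) x * h2
      exact (mul_eq_zero.1 this).resolve_right (sub_ne_zero.2 hne)
    intro j
    exact congrFun (h.smooth x hx hV c hc0 hc1 hc) j
  exact h1 (funext fun i => by
    have := congrArg (fun w : EN (n + 2) => w i) h0
    simpa [nv_apply] using this)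

theorem sec_ne_zero (h : NPair Q e) {f : ℂ → EN (n + 2)} {U : Set ℂ} (hf : IsSec Q f U) {z : ℂ} (hz : z ∈ U) : f z ≠ 0 := by
  intro h0
  have h1 := (hf.2 z hz).1
  have h2 : ev (Q 0) (f z) = 0 := by
    rw [h0]
    have := ev_smul (h.hom 0) 0 (0 : EN (n + 2))
    rw [zero_pow (by have := h.pos 0; omega)] at this
    simpa using this
  exact Complex.exp_ne_zero z (h1.symm.trans h2)

/-- the derivative of a section -/
theorem dt_deriv_sec {f : ℂ → EN (n + 2)} {U : Set ℂ} (hU : IsOpen U) (hf : IsSec Q f U) {z : ℂ} (hz : z ∈ U) :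
    dt (fun i => deriv f z i) (grad (Q 0) (f z)) = Complex.exp z ∧
      dt (fun i => deriv f z i) (grad (Q 1) (f z)) = -Complex.exp (-z) ∧
      ∀ j : Fin (n + 2), 2 ≤ (j : ℕ) → dt (fun i => deriv f z i) (grad (Q j) (f z)) = 0 := by
  have hd : HasDerivAt f (deriv f z) z := (hf.1.differentiableAt (hU.mem_nhds hz)).hasDerivAt
  refine ⟨?_, ?_, fun j hj => ?_⟩
  · refine (hasDerivAt_ev (Q 0) hd).unique ?_
    refine (Complex.hasDerivAt_exp z).congr_of_eventuallyEq ?_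
    filter_upwards [hU.mem_nhds hz] with w hw using (hf.2 w hw).1
  · refine (hasDerivAt_ev (Q 1) hd).unique ?_
    have h1 : HasDerivAt (fun w : ℂ => Complex.exp (-w)) (Complex.exp (-z) * -1) z :=
      (hasDerivAt_neg z).cexp
    have h2 : HasDerivAt (fun w : ℂ => Complex.exp (-w)) (-Complex.exp (-z)) z := by
      simpa using h1
    refine h2.congr_of_eventuallyEq ?_
    filter_upwards [hU.mem_nhds hz] with w hw using (hf.2 w hw).2.1
  · refine (hasDerivAt_ev (Q j) hd).unique ?_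
    refine (hasDerivAt_const z (0 : ℂ)).congr_of_eventuallyEq ?_
    filter_upwards [hU.mem_nhds hz] with w hw using (hf.2 w hw).2.2 j hj

theorem nv_ne_zero_sec (h : NPair Q e) {f : ℂ → EN (n + 2)} {U : Set ℂ} (hU : IsOpen U) (hf : IsSec Q f U) {z : ℂ}
    (hz : z ∈ U) : nv Q (f z) ≠ 0 := by
  obtain ⟨h0, h1, h2⟩ := dt_deriv_sec hU hf hz
  refine nv_ne_zero h (sec_ne_zero h hf hz) (hf.2 z hz).2.2 h2 ?_
  rw [h0, h1, (hf.2 z hz).1, (hf.2 z hz).2.1]
  have h3 : Complex.exp z * Complex.exp (-z) = 1 := by rw [← Complex.exp_add]; simp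
  have h4 : (e 1 : ℂ) * Complex.exp z * Complex.exp (-z) = e 1 := by rw [mul_assoc, h3, mul_one]
  have h5 : (e 0 : ℂ) * Complex.exp z * -Complex.exp (-z) = -e 0 := by
    rw [mul_assoc, mul_neg, h3, mul_neg, mul_one]
  rw [h4, h5]
  intro h6
  have h7 : ((e 1 + e 0 : ℕ) : ℂ) = 0 := by
    push_cast
    rw [h6]
    ring
  have h8 : e 1 + e 0 = 0 := by exact_mod_cast h7
  have := h.pos 0
  omega

theorem nv_lower_base (h : NPair Q e) : ∃ c : ℝ, 0 < c ∧ ∃ ε : ℝ, 0 < ε ∧ ∀ x : EN (n + 2), OnV Q x →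
    (‖ev (Q 0) x‖ ≤ ε * ‖x‖ ^ e 0 ∧ ‖ev (Q 1) x‖ ≤ ε * ‖x‖ ^ e 1) →
      c * ‖x‖ ^ (∑ j, (e j - 1)) ≤ ‖nv Q x‖ := by
  set S : Set (EN (n + 2)) := sphere 0 1 ∩ {x | OnV Q x} with hS
  have hcl : IsClosed {x : EN (n + 2) | OnV Q x} := by
    have : {x : EN (n + 2) | OnV Q x} = ⋂ (j : Fin (n + 2)) (_ : 2 ≤ (j : ℕ)), {x | ev (Q j) x = 0} := by
      ext x
      simp [OnV]
    rw [this]
    exact isClosed_iInter fun j => isClosed_iInter fun _ => isClosed_eq (continuous_ev (Q j)) continuous_const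
  have hSc : IsCompact S := (isCompact_sphere _ _).inter_right hcl
  set φ : EN (n + 2) → ℝ := fun x => max ‖nv Q x‖ (max ‖ev (Q 0) x‖ ‖ev (Q 1) x‖) with hφ
  have hφc : Continuous φ :=
    (continuous_nv Q).norm.max ((continuous_ev (Q 0)).norm.max (continuous_ev (Q 1)).norm)
  have hφp : ∀ x ∈ S, 0 < φ x := by
    rintro x ⟨hx1, hx2⟩
    have hx0 : x ≠ 0 := by
      rintro rfl
      simp at hx1
    by_contra hcon
    push Not at hcon
    have h1 : ‖nv Q x‖ ≤ 0 := (le_max_left _ _).trans hcon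
    have h2 : max ‖ev (Q 0) x‖ ‖ev (Q 1) x‖ ≤ 0 := (le_max_right _ _).trans hcon
    have h3 : ev (Q 0) x = 0 ∧ ev (Q 1) x = 0 :=
      ⟨norm_le_zero_iff.1 ((le_max_left _ _).trans h2), norm_le_zero_iff.1 ((le_max_right _ _).trans h2)⟩
    have h4 : cross (fun j => grad (Q j) x) ≠ 0 := by
      rw [cross_ne_zero_iff, Fintype.linearIndependent_iff]
      intro c hc j
      exact congrFun (h.meet x hx0 hx2 h3.1 h3.2 c hc) j
    apply h4
    funext i
    have := congrArg (fun w : EN (n + 2) => w i) (norm_le_zero_iff.1 h1)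
    simpa [nv_apply] using this
  obtain ⟨m, hm, hmS⟩ : ∃ m : ℝ, 0 < m ∧ ∀ x ∈ S, m ≤ φ x := by
    rcases S.eq_empty_or_nonempty with hE | hE
    · exact ⟨1, one_pos, fun x hx => by rw [hE] at hx; exact hx.elim⟩
    · obtain ⟨x₀, hx₀, hmin⟩ := hSc.exists_isMinOn hE hφc.continuousOn
      exact ⟨φ x₀, hφp x₀ hx₀, fun x hx => hmin hx⟩
  refine ⟨m, hm, m / 2, by positivity, fun x hxV hx => ?_⟩
  by_cases hx0 : x = 0
  · subst hx0
    have h2 := two_le_sum h
    rw [norm_zero, zero_pow (by omega), mul_zero]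
    exact norm_nonneg _
  · obtain ⟨x', -, h1, -, -, h4, h5⟩ := exists_scale h hx0 x
    have hxp : 0 < ‖x‖ := norm_pos_iff.2 hx0
    have hc : ((‖x‖ : ℝ) : ℂ) ≠ 0 := by exact_mod_cast hxp.ne'
    have hev : ∀ j, ‖ev (Q j) x‖ = ‖x‖ ^ e j * ‖ev (Q j) x'‖ := by
      intro j
      conv_lhs => rw [h5]
      rw [ev_smul (h.hom j), norm_mul, norm_pow, Complex.norm_real, norm_norm]
    have hx'V : OnV Q x' := by
      intro j hj
      have h6 := hxV j hj
      rw [h5, ev_smul (h.hom j)] at h6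
      exact (mul_eq_zero.1 h6).resolve_left (pow_ne_zero _ hc)
    have h7 : max ‖ev (Q 0) x'‖ ‖ev (Q 1) x'‖ ≤ m / 2 := by
      obtain ⟨hx, hx2⟩ := hx
      rw [hev, mul_comm (m / 2)] at hx hx2
      exact max_le (le_of_mul_le_mul_left hx (by positivity)) (le_of_mul_le_mul_left hx2 (by positivity))
    have h8 := hmS x' ⟨by simp [h1], hx'V⟩
    have h9 : m ≤ ‖nv Q x'‖ := by
      rcases le_max_iff.1 h8 with h9 | h9
      · exact h9
      · linarith
    rw [h4, norm_smul, norm_pow, Complex.norm_real, norm_norm, mul_comm]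
    gcongr

end Pool.Agent.TCN
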