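import Pool.Agent.TCN.NoExc

/-!
# TCN Strip: the entire sections are uniformly bounded on strips

`axis_bound`.  `L` from `fs_bound`; `Sec.fs_le`: `|x| fs ≤ L` for `f ∈ Sec Q`.  `K` from `no_exc` with `C₀ = L`.  Suppose there is no bound: for every `k : ℕ` there are `f k ∈ Sec Q`, `y k` with `‖f k (y k I)‖ > K + 1 + k`.
By `no_exc` for `σ = 1`, `ρ = y k` there is `y > y k` with `‖f k (y I)‖ < K`; by the intermediate value theorem (or `sInf` of `{y ≥ y k | ‖f k (y I)‖ ≤ K}`, a closed set which is bounded below) there is a smallest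
`b k > y k` with `‖f k (b k I)‖ = K`, and `K ≤ ‖f k (y I)‖` for `y ∈ [y k, b k]`.  `m k` = the integer of `exists_shift` for `b k`, `F k z = f k (z + 2 π m k I) ∈ Sec Q` (`Sec.shift`), `b' k = b k - 2 π m k ∈ [0, 2 π]`,
`y' k = y k - 2 π m k < b' k`.  Along `𝒰 = hyperfilter ℕ`: `b' k → b₀` (real), `lim_sec` (`ρ k = k`): `‖F k (b' k I)‖ = K`, so the second alternative holds: `G ∈ Sec Q`, `‖G (b₀ I)‖ = K`.
`y' k → - ∞` along `𝒰`: otherwise (ultrafilter: `y' k ≥ - M` for almost all `k` for some `M`) `y' k → y₀` and `‖F k (y' k I)‖ → ‖G (y₀ I)‖`, but it is `≥ k`.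
So for every `y < b₀`: `y' k ≤ y ≤ b' k` for almost all `k`, so `K ≤ ‖F k (y I)‖`, and in the limit `K ≤ ‖G (y I)‖`.  This contradicts `no_exc` for `σ = -1`, `ρ = - b₀`, `G`.

`strip_bound`: otherwise `f k ∈ Sec Q`, `z k`, `|(z k).re| ≤ W`, `‖f k (z k)‖ > k`; translate (`exists_shift` for `(z k).im`) and `lim_sec`: the second alternative contradicts `‖F k (z' k)‖ → ∞`, the first one
contradicts `axis_bound` at the point `0`.
`sec_lim`: `lim_sec`, the first alternative contradicts `axis_bound` (`z k = 0`).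
-/

set_option autoImplicit false

open Topology Filter Metric

namespace Pool.Agent.TCN

open Pool.Agent.TC

open Pool.Agent.H36.BP (EN fs wd Sub)

variable {n : ℕ} {Q : Fin (n + 2) → MvPolynomial (Fin (n + 3)) ℂ} {e : Fin (n + 2) → ℕ}

/-- the first crossing of the level `K` -/
private theorem Strip_cross (g : ℝ → ℝ) (hg : Continuous g) {K y₀ y₁ : ℝ} (h0 : K < g y₀)
    (h1 : g y₁ < K) (h01 : y₀ ≤ y₁) : ∃ b, y₀ < b ∧ g b = K ∧ ∀ y, y₀ ≤ y → y ≤ b → K ≤ g y := by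
  have hcpt : IsCompact (Set.Icc y₀ y₁ ∩ {y | g y ≤ K}) :=
    isCompact_Icc.inter_right (isClosed_le hg continuous_const)
  have hne : (Set.Icc y₀ y₁ ∩ {y | g y ≤ K}).Nonempty := ⟨y₁, ⟨h01, le_rfl⟩, h1.le⟩
  obtain ⟨b, hb, hmin⟩ := hcpt.exists_isLeast hne
  have hbK : g b ≤ K := hb.2
  obtain ⟨c, hc, hcK⟩ := intermediate_value_Icc' hb.1.1 hg.continuousOn ⟨hbK, h0.le⟩
  have hbc : b ≤ c := hmin ⟨⟨hc.1, hc.2.trans hb.1.2⟩, hcK.le⟩
  have hcb : c = b := le_antisymm hc.2 hbc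
  rw [hcb] at hcK
  refine ⟨b, lt_of_le_of_ne hb.1.1 (fun hyb => ?_), hcK, fun y hy hyb => ?_⟩
  · rw [← hyb] at hcK
    exact absurd hcK h0.ne'
  · by_contra hlt
    have hlt' : g y < K := not_le.1 hlt
    have h2 : b ≤ y := hmin ⟨⟨hy, hyb.trans hb.1.2⟩, hlt'.le⟩
    have h3 : y = b := le_antisymm hyb h2
    rw [h3, hcK] at hlt'
    exact lt_irrefl _ hlt'

private theorem Strip_cast (𝒰 : Ultrafilter ℕ) (h𝒰 : (𝒰 : Filter ℕ) ≤ atTop) :
    Tendsto (fun k : ℕ => (k : ℝ)) 𝒰 atTop := tendsto_natCast_atTop_atTop.mono_left h𝒰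

private theorem Strip_isSec {f : ℂ → EN (n + 2)} (hf : f ∈ Sec Q) (U : Set ℂ) : IsSec Q f U :=
  IsSec.mono (Q := Q) (show IsSec Q f Set.univ from hf) (Set.subset_univ U)

private theorem Strip_arg (y : ℝ) (m : ℤ) : ((y - 2 * Real.pi * m : ℝ) : ℂ) * Complex.I +
    2 * Real.pi * m * Complex.I = (y : ℂ) * Complex.I := by
  push_cast
  ring

private theorem Strip_norm (y : ℝ) (h0 : 0 ≤ y) (h1 : y ≤ 2 * Real.pi) :
    ‖(y : ℂ) * Complex.I‖ ≤ 2 * Real.pi := by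
  rw [norm_mul, Complex.norm_I, mul_one, Complex.norm_real, Real.norm_eq_abs, abs_of_nonneg h0]
  exact h1

theorem axis_bound (h : NPair Q e) : ∃ M : ℝ, 0 < M ∧ ∀ f ∈ Sec Q, ∀ y : ℝ, ‖f (y * Complex.I)‖ ≤ M := by
  obtain ⟨L, hL, hfb⟩ := fs_bound h
  have hle : ∀ f ∈ Sec Q, ∀ z : ℂ, |z.re| * fs (f z) (deriv f z) ≤ L := by
    intro f hf z
    have h1 := Sec.fs_le hfb hf z
    have h2 : 0 < 1 + |z.re| := by positivity
    calc |z.re| * fs (f z) (deriv f z) ≤ |z.re| * (L / (1 + |z.re|)) :=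
          mul_le_mul_of_nonneg_left h1 (abs_nonneg _)
      _ ≤ L := by
          rw [← mul_div_assoc, div_le_iff₀ h2]
          nlinarith [abs_nonneg z.re]
  obtain ⟨K, hK, hexc⟩ := no_exc h hL
  by_contra hcon
  push Not at hcon
  have hk : ∀ k : ℕ, ∃ f ∈ Sec Q, ∃ y : ℝ, K + 1 + k < ‖f (y * Complex.I)‖ := fun k =>
    hcon (K + 1 + k) (by positivity)
  choose f hf y hy using hk
  have hcont : ∀ k, Continuous (fun t : ℝ => ‖f k ((t : ℂ) * Complex.I)‖) := fun k =>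
    ((Sec.differentiable (hf k)).continuous.comp
      (Complex.continuous_ofReal.mul continuous_const)).norm
  have hb : ∀ k, ∃ b : ℝ, y k < b ∧ ‖f k ((b : ℂ) * Complex.I)‖ = K ∧
      ∀ t : ℝ, y k ≤ t → t ≤ b → K ≤ ‖f k ((t : ℂ) * Complex.I)‖ := by
    intro k
    obtain ⟨y₁, hy₁, hy₁K⟩ := hexc 1 (y k) (f k) (Or.inl rfl) (Strip_isSec (hf k) _)
      (fun z _ => hle _ (hf k) z)
    rw [one_mul] at hy₁
    refine Strip_cross _ (hcont k) ?_ hy₁K hy₁.le
    have h1 := hy k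
    have h2 : (0 : ℝ) ≤ k := Nat.cast_nonneg k
    linarith
  choose b hyb hbK hbge using hb
  choose m hm0 hm1 using fun k => exists_shift (b k)
  set F : ℕ → ℂ → EN (n + 2) := fun k z => f k (z + 2 * Real.pi * m k * Complex.I) with hF
  have hFS : ∀ k, F k ∈ Sec Q := fun k => Sec.shift (hf k) (m k)
  set 𝒰 : Ultrafilter ℕ := hyperfilter ℕ with h𝒰
  have h𝒰' : (𝒰 : Filter ℕ) ≤ atTop := Nat.hyperfilter_le_atTop
  set b' : ℕ → ℝ := fun k => b k - 2 * Real.pi * m k with hb'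
  set y' : ℕ → ℝ := fun k => y k - 2 * Real.pi * m k with hy'
  have hFt : ∀ (k : ℕ) (t : ℝ), F k ((t : ℂ) * Complex.I) =
      f k (((t + 2 * Real.pi * m k : ℝ) : ℂ) * Complex.I) := by
    intro k t
    simp only [hF]
    congr 1
    push_cast
    ring
  have hFb : ∀ k, ‖F k ((b' k : ℂ) * Complex.I)‖ = K := by
    intro k
    rw [hFt, ← hbK k]
    simp only [hb', sub_add_cancel]
  have hFy : ∀ k : ℕ, (k : ℝ) ≤ ‖F k ((y' k : ℂ) * Complex.I)‖ := by
    intro k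
    rw [hFt]
    simp only [hy', sub_add_cancel]
    have h1 := hy k
    linarith
  have hyb' : ∀ k, y' k ≤ b' k := fun k => by
    simp only [hy', hb']
    linarith [hyb k]
  obtain ⟨z₀, -, hz₀⟩ := exists_lim 𝒰 (z := fun k => (b' k : ℂ) * Complex.I) (R := 2 * Real.pi)
    (Eventually.of_forall fun k => Strip_norm _ (hm0 k) (hm1 k))
  have hbt : Tendsto b' 𝒰 (𝓝 z₀.im) := by
    have h1 := (Complex.continuous_im.tendsto z₀).comp hz₀
    refine h1.congr (fun k => ?_)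
    simp
  set b₀ : ℝ := z₀.im with hb₀
  have hbtI : Tendsto (fun k => (b' k : ℂ) * Complex.I) 𝒰 (𝓝 ((b₀ : ℂ) * Complex.I)) :=
    ((Complex.continuous_ofReal.tendsto b₀).comp hbt).mul tendsto_const_nhds
  rcases lim_sec h 𝒰 F (fun k => (k : ℝ)) (Strip_cast 𝒰 h𝒰')
    (Eventually.of_forall fun k => Strip_isSec (hFS k) _) with h1 | ⟨G, hG, hlim⟩
  · have h2 := (h1 _ _ hbtI).1
    simp only [hFb] at h2
    exact not_tendsto_const_atTop K _ h2
  · have hGK : ‖G ((b₀ : ℂ) * Complex.I)‖ = K := by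
      have h2 := (hlim _ _ hbtI).1.norm
      simp only [hFb] at h2
      exact tendsto_nhds_unique h2 tendsto_const_nhds |>.symm ▸ rfl
    have hyinf : ∀ t : ℝ, ∀ᶠ k in (𝒰 : Filter ℕ), y' k < t := by
      intro t
      by_contra hno
      rw [← Ultrafilter.eventually_not] at hno
      have hbd : ∀ᶠ k in (𝒰 : Filter ℕ), ‖(y' k : ℂ) * Complex.I‖ ≤ |t| + 2 * Real.pi := by
        filter_upwards [hno] with k hk
        rw [norm_mul, Complex.norm_I, mul_one, Complex.norm_real, Real.norm_eq_abs]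
        have h3 : t ≤ y' k := not_lt.1 hk
        have h4 : y' k ≤ 2 * Real.pi := (hyb' k).trans (hm1 k)
        rw [abs_le]
        constructor
        · have h5 := neg_abs_le t
          have h6 := Real.pi_pos
          linarith
        · have h5 := abs_nonneg t
          linarith
      obtain ⟨z₁, -, hz₁⟩ := exists_lim 𝒰 hbd
      have h3 := (hlim _ _ hz₁).1.norm
      have h4 : Tendsto (fun k => ‖F k ((y' k : ℂ) * Complex.I)‖) 𝒰 atTop :=
        tendsto_atTop_mono hFy (Strip_cast 𝒰 h𝒰')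
      exact not_tendsto_nhds_of_tendsto_atTop h4 _ h3
    have hGge : ∀ t : ℝ, t < b₀ → K ≤ ‖G ((t : ℂ) * Complex.I)‖ := by
      intro t ht
      have h3 := (hlim (fun _ => (t : ℂ) * Complex.I) _ tendsto_const_nhds).1.norm
      refine ge_of_tendsto h3 ?_
      filter_upwards [hyinf t, hbt.eventually (lt_mem_nhds ht)] with k hk1 hk2
      rw [hFt]
      refine hbge k _ ?_ ?_
      · simp only [hy'] at hk1
        linarith
      · simp only [hb'] at hk2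
        linarith
    obtain ⟨t, ht, htK⟩ := hexc (-1) (-b₀) G (Or.inr rfl) (Strip_isSec hG _)
      (fun z _ => hle _ hG z)
    exact absurd (hGge t (by linarith)) (not_le.2 htK)

theorem strip_bound (h : NPair Q e) (W : ℝ) : ∃ M : ℝ, 0 < M ∧ ∀ f ∈ Sec Q, ∀ z : ℂ, |z.re| ≤ W → ‖f z‖ ≤ M := by
  obtain ⟨M, hM, hMb⟩ := axis_bound h
  by_contra hcon
  push Not at hcon
  have hk : ∀ k : ℕ, ∃ f ∈ Sec Q, ∃ z : ℂ, |z.re| ≤ W ∧ (1 : ℝ) + k < ‖f z‖ := fun k =>
    hcon (1 + k) (by positivity)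
  choose f hf z hz hfz using hk
  choose m hm0 hm1 using fun k => exists_shift (z k).im
  set F : ℕ → ℂ → EN (n + 2) := fun k w => f k (w + 2 * Real.pi * m k * Complex.I) with hF
  have hFS : ∀ k, F k ∈ Sec Q := fun k => Sec.shift (hf k) (m k)
  set 𝒰 : Ultrafilter ℕ := hyperfilter ℕ with h𝒰
  have h𝒰' : (𝒰 : Filter ℕ) ≤ atTop := Nat.hyperfilter_le_atTop
  set z' : ℕ → ℂ := fun k => z k - 2 * Real.pi * m k * Complex.I with hz'
  have hz're : ∀ k, (z' k).re = (z k).re := fun k => by simp [hz']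
  have hz'im : ∀ k, (z' k).im = (z k).im - 2 * Real.pi * m k := fun k => by simp [hz']
  have hbd : ∀ k, ‖z' k‖ ≤ W + 2 * Real.pi := by
    intro k
    refine (Complex.norm_le_abs_re_add_abs_im _).trans ?_
    rw [hz're, hz'im, abs_of_nonneg (hm0 k)]
    exact add_le_add (hz k) (hm1 k)
  have hFz : ∀ k : ℕ, (k : ℝ) ≤ ‖F k (z' k)‖ := by
    intro k
    simp only [hF, hz', sub_add_cancel]
    linarith [hfz k]
  obtain ⟨z₀, -, hz₀⟩ := exists_lim 𝒰 (Eventually.of_forall hbd)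
  have htop : Tendsto (fun k => ‖F k (z' k)‖) 𝒰 atTop :=
    tendsto_atTop_mono hFz (Strip_cast 𝒰 h𝒰')
  rcases lim_sec h 𝒰 F (fun k => (k : ℝ)) (Strip_cast 𝒰 h𝒰')
    (Eventually.of_forall fun k => Strip_isSec (hFS k) _) with h1 | ⟨G, hG, hlim⟩
  · have h2 := (h1 (fun _ => ((0 : ℝ) : ℂ) * Complex.I) _ tendsto_const_nhds).1
    obtain ⟨k, hk⟩ := (h2.eventually (eventually_gt_atTop M)).exists
    exact absurd (hMb _ (hFS k) 0) (not_le.2 hk)
  · exact not_tendsto_nhds_of_tendsto_atTop htop _ (hlim _ _ hz₀).1.norm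

theorem sec_lim (h : NPair Q e) (𝒰 : Ultrafilter ℕ) {F : ℕ → ℂ → EN (n + 2)} (hF : ∀ᶠ k in (𝒰 : Filter ℕ), F k ∈ Sec Q) :
    ∃ G ∈ Sec Q, ∀ (z : ℕ → ℂ) (z₀ : ℂ), Tendsto z 𝒰 (𝓝 z₀) → Tendsto (fun k => F k (z k)) 𝒰 (𝓝 (G z₀)) ∧
      Tendsto (fun k => fs (F k (z k)) (deriv (F k) (z k))) 𝒰 (𝓝 (fs (G z₀) (deriv G z₀))) := by
  rcases Ultrafilter.le_cofinite_or_eq_pure 𝒰 with h𝒰 | ⟨k₀, h𝒰⟩
  · rw [Nat.cofinite_eq_atTop] at h𝒰
    obtain ⟨M, hM, hMb⟩ := axis_bound h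
    rcases lim_sec h 𝒰 F (fun k => (k : ℝ)) (Strip_cast 𝒰 h𝒰)
      (hF.mono fun k hk => Strip_isSec hk _) with h1 | h1
    · exfalso
      have h2 := (h1 (fun _ => ((0 : ℝ) : ℂ) * Complex.I) _ tendsto_const_nhds).1
      obtain ⟨k, hk, hk'⟩ := ((h2.eventually (eventually_gt_atTop M)).and hF).exists
      exact absurd (hMb _ hk' 0) (not_le.2 hk)
    · exact h1
  · subst h𝒰
    have hF' : F k₀ ∈ Sec Q := by
      rw [Ultrafilter.coe_pure] at hF
      exact (eventually_pure.1 hF)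
    refine ⟨F k₀, hF', fun z z₀ hz => ?_⟩
    rw [Ultrafilter.coe_pure] at hz ⊢
    have h1 : z k₀ = z₀ := tendsto_nhds_unique (tendsto_pure_nhds z k₀) hz
    have h2 := tendsto_pure_nhds (fun k => F k (z k)) k₀
    have h3 := tendsto_pure_nhds (fun k => fs (F k (z k)) (deriv (F k) (z k))) k₀
    simp only [h1] at h2 h3
    exact ⟨h2, h3⟩

end Pool.Agent.TCN
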