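import Pool.Agent.TCN.Growth
import Pool.Agent.TCN.Strip
import Pool.Agent.TCN.Cmp

/-!
# TCN Tame0: uniform constants for the entire sections

As `TC/Tame.lean`.
-/

set_option autoImplicit false

open Topology Filter Metric

namespace Pool.Agent.TCN

open Pool.Agent.TC

open Pool.Agent.H36.BP (EN fs wd Sub)

variable {n : ℕ} {Q : Fin (n + 2) → MvPolynomial (Fin (n + 3)) ℂ} {e : Fin (n + 2) → ℕ}

theorem sec_tame (h : NPair Q e) : ∃ C₀ c A : ℝ, 0 < C₀ ∧ 0 < c ∧ 0 < A ∧ ∀ f ∈ Sec Q, ∀ z, |z.re| * fs (f z) (deriv f z) ≤ C₀ ∧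
    (|z.re| ≤ 1 → c ≤ fs (f z) (deriv f z)) ∧ Real.log ‖f z‖ ≤ A * (1 + |z.re|) ∧ c ≤ ‖f z‖ := by
  obtain ⟨L, hL, hfb⟩ := fs_bound h
  obtain ⟨M, hM, hMb⟩ := strip_bound h 1
  obtain ⟨c₁, hc₁, hfl⟩ := fs_lower h M
  obtain ⟨A₁, hA₁, hgr⟩ := growth h (Real.log M) (x₀ := 0) le_rfl
  obtain ⟨c₃, C₃, hc₃, hnl⟩ := norm_lower h
  refine ⟨L, min c₁ (Real.exp (-C₃)), A₁ + |Real.log M|, hL,
    lt_min hc₁ (Real.exp_pos _), by positivity, ?_⟩
  intro f hf z
  have hsec : ∀ U : Set ℂ, IsSec Q f U := fun U =>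
    IsSec.mono (Q := Q) (show IsSec Q f Set.univ from hf) (Set.subset_univ U)
  obtain ⟨hne, hlog⟩ := hnl f Set.univ hf z (Set.mem_univ z)
  have hpos : 0 < ‖f z‖ := norm_pos_iff.mpr hne
  have habs : 0 ≤ |z.re| := abs_nonneg _
  have hlM : ∀ w : ℂ, |w.re| ≤ 1 → Real.log ‖f w‖ ≤ Real.log M := fun w hw =>
    Real.log_le_log (norm_pos_iff.mpr (hnl f Set.univ hf w (Set.mem_univ w)).1) (hMb f hf w hw)
  refine ⟨?_, ?_, ?_, ?_⟩
  · have h1 := Sec.fs_le hfb hf z
    have h2 : 0 < 1 + |z.re| := by positivity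
    calc |z.re| * fs (f z) (deriv f z) ≤ |z.re| * (L / (1 + |z.re|)) :=
          mul_le_mul_of_nonneg_left h1 habs
      _ = L * (|z.re| / (1 + |z.re|)) := by ring
      _ ≤ L * 1 := by
          refine mul_le_mul_of_nonneg_left ?_ hL.le
          rw [div_le_one h2]
          linarith
      _ = L := mul_one L
  · intro hz
    exact (min_le_left _ _).trans (hfl f Set.univ isOpen_univ hf z (Set.mem_univ z) hz (hMb f hf z hz))
  · rcases le_total |z.re| 1 with hz | hz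
    · have h1 := hlM z hz
      have h2 := le_abs_self (Real.log M)
      have h3 : 0 ≤ |Real.log M| := abs_nonneg _
      nlinarith [mul_nonneg h3 habs, mul_nonneg hA₁.le habs]
    · have h3 : 0 ≤ |Real.log M| * (1 + |z.re|) := by positivity
      rcases le_total 0 z.re with h0 | h0
      · rw [abs_of_nonneg h0] at hz
        have h1 := (hgr f).1 (hsec _) z (by linarith) (hlM _ (by simp))
        linarith [add_mul A₁ |Real.log M| (1 + |z.re|)]
      · rw [abs_of_nonpos h0] at hz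
        have h1 := (hgr f).2 (hsec _) z (by linarith) (hlM _ (by simp))
        linarith [add_mul A₁ |Real.log M| (1 + |z.re|)]
  · refine (min_le_right _ _).trans ?_
    rw [← Real.le_log_iff_exp_le hpos]
    have : 0 ≤ c₃ * |z.re| := mul_nonneg hc₃.le habs
    linarith

end Pool.Agent.TCN
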