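import Pool.Agent.TCN.ArmA
import Pool.Agent.TCN.SecFin
import Pool.Agent.TCN.Growth

/-!
# TCN ArmB: a section on a slit plane is the restriction of an entire section

* `arm_one`.  `δ₀` from `sec_sep`, `δ₁ = δ₀ / 4`; `arm_near` with `R = 8`, `δ₁`: `m₀`, and `G m ∈ Sec Q` for `m ≥ m₀`.  On `closedBall 0 1`: `f (z + 2 π (m + 1) I) = f ((z + 2 π I) + 2 π m I)` is `δ₁`-close to `G m (z + 2 π I)`
  (`‖z + 2 π I‖ ≤ 1 + 2 π < 8`) and to `G (m + 1) z`, so `G (m + 1) = G m (· + 2 π I)` (`Sec.shift`, `sec_sep`).  With `G z = G m₀ (z - 2 π m₀ I) ∈ Sec Q`: `G m z = G (z + 2 π m I)` for all `m ≥ m₀` (induction).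
  Given `W`, `δ`: `arm_near` with `R = max 8 (|W| + 7)`, `min δ δ₁`: for large `m` there is `G' ∈ Sec Q` close to `f (· + 2 π m I)` on `closedBall 0 R`; on `closedBall 0 1` `G'` and `G m` are `2 δ₁`-close, so `G' = G m`.  So `f` and `G` are
  `δ`-close at all `z + 2 π m I`, `‖z‖ ≤ R`, `m ≥ m₁`.  For `|z.re| ≤ W`, `z.im ≥ 2 π (m₁ + 1)` take `m = ⌊z.im / (2 π)⌋`.
* `arm_growth`: `x₀ = ‖b‖`; `{z | x₀ < z.re} ⊆ Slit b`, `{z | z.re < - x₀} ⊆ Slit b`.  By `arm_one` with `W = x₀ + 1`, `δ = 1` and `strip_bound` `‖f z‖ ≤ M` for `|z.re| ≤ x₀ + 1`, `z.im ≥ Y`; `growth` with `log M`; for `|z.re| ≤ x₀ + 1` `log ‖f z‖ ≤ |log M|`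
  (`f z ≠ 0` by `norm_lower`).
* `arm`.  Constants: `C₀` = the maximum of the constants of `arm_fs` and `fs_bound`, `W` from `half_axis_v2`, `M`, `c` from `strip_bound`, `strip_nv`, then `ε`.  `arm_one` with `W`, `δ = ε exp (-C₃)` (`exp (-C₃) ≤ ‖G z‖`): `‖f z - G z‖ ≤ ε ‖G z‖` for
  `|z.re| ≤ W`, `z.im ≥ Y`.  `half_axis_v2` with `σ = 1`, `ρ = max Y (3 ‖b‖ + 1)`, `f := G`, `g := f`.
-/

set_option autoImplicit false

open Topology Filter Metric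

namespace Pool.Agent.TCN

open Pool.Agent.TC

open Pool.Agent.H36.BP (EN fs wd Sub)

variable {n : ℕ} {Q : Fin (n + 2) → MvPolynomial (Fin (n + 3)) ℂ} {e : Fin (n + 2) → ℕ}

/-- two entire sections which are close to the same map on the unit disc are equal -/
private theorem ArmB_eq {δ₀ : ℝ} (hδ₀ : 0 < δ₀)
    (hsep : ∀ f ∈ Sec Q, ∀ g ∈ Sec Q, (∀ z ∈ closedBall (0 : ℂ) 1, ‖f z - g z‖ < δ₀) → f = g)
    {F G₁ G₂ : ℂ → EN (n + 2)} (h1 : G₁ ∈ Sec Q) (h2 : G₂ ∈ Sec Q)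
    (hF1 : ∀ z ∈ closedBall (0 : ℂ) 1, ‖F z - G₁ z‖ < δ₀ / 4)
    (hF2 : ∀ z ∈ closedBall (0 : ℂ) 1, ‖F z - G₂ z‖ < δ₀ / 4) : G₁ = G₂ := by
  refine hsep _ h1 _ h2 fun z hz => ?_
  have e1 : G₁ z - G₂ z = (F z - G₂ z) - (F z - G₁ z) := by abel
  rw [e1]
  have h3 := norm_sub_le (F z - G₂ z) (F z - G₁ z)
  have h4 := hF1 z hz
  have h5 := hF2 z hz
  linarith

private theorem ArmB_norm_le {z : ℂ} {W : ℝ} (h1 : |z.re| ≤ W) (h2 : 0 ≤ z.im) (h3 : z.im ≤ 2 * Real.pi) :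
    ‖z‖ ≤ |W| + 7 := by
  have h4 := Complex.norm_le_abs_re_add_abs_im z
  have h5 := Real.pi_lt_d2
  have h6 := le_abs_self W
  rw [abs_of_nonneg h2] at h4
  linarith

theorem arm_one (h : NPair Q e) {b : ℂ} {f : ℂ → EN (n + 2)} (hf : IsSec Q f (Slit b)) : ∃ G ∈ Sec Q, ∀ W δ : ℝ, 0 < δ → ∃ Y : ℝ, ∀ z : ℂ,
    |z.re| ≤ W → Y ≤ z.im → ‖f z - G z‖ < δ := by
  obtain ⟨δ₀, hδ₀, hsep⟩ := sec_sep h
  have hπ := Real.pi_lt_d2
  have hπ0 := Real.pi_pos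
  obtain ⟨m₀, hm₀⟩ := arm_near h hf 8 (show 0 < δ₀ / 4 by positivity)
  have hex : ∀ m : ℕ, ∃ G : ℂ → EN (n + 2), m₀ ≤ m → G ∈ Sec Q ∧
      ∀ z ∈ closedBall (0 : ℂ) 8, ‖f (z + 2 * Real.pi * m * Complex.I) - G z‖ < δ₀ / 4 := by
    intro m
    by_cases hm : m₀ ≤ m
    · obtain ⟨G, hG, hG'⟩ := hm₀ m hm
      exact ⟨G, fun _ => ⟨hG, hG'⟩⟩
    · exact ⟨f, fun h' => absurd h' hm⟩
  choose Gm hGm using hex
  have hsub : closedBall (0 : ℂ) 1 ⊆ closedBall (0 : ℂ) 8 := closedBall_subset_closedBall (by norm_num)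
  -- the step
  have hstep : ∀ m, m₀ ≤ m → ∀ z, Gm (m + 1) z = Gm m (z + 2 * Real.pi * Complex.I) := by
    intro m hm
    have h1 := (hGm m hm).1
    have h2 : (fun z => Gm m (z + 2 * Real.pi * ((1 : ℤ) : ℂ) * Complex.I)) ∈ Sec Q := Sec.shift h1 1
    have h3 : Gm (m + 1) = fun z => Gm m (z + 2 * Real.pi * ((1 : ℤ) : ℂ) * Complex.I) := by
      refine ArmB_eq hδ₀ hsep (F := fun z => f (z + 2 * Real.pi * ((m + 1 : ℕ) : ℂ) * Complex.I)) (hGm (m + 1) (by omega)).1 h2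
        (fun z hz => (hGm (m + 1) (by omega)).2 z (hsub hz)) fun z hz => ?_
      have h4 : z + 2 * Real.pi * ((1 : ℤ) : ℂ) * Complex.I ∈ closedBall (0 : ℂ) 8 := by
        rw [mem_closedBall_zero_iff] at hz ⊢
        have h5 := norm_add_le z (2 * Real.pi * ((1 : ℤ) : ℂ) * Complex.I)
        have h6 : ‖(2 * Real.pi * ((1 : ℤ) : ℂ) * Complex.I : ℂ)‖ = 2 * Real.pi := by
          simp [abs_of_pos hπ0]
        rw [h6] at h5
        linarith
      have h5 := (hGm m hm).2 _ h4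
      have h6 : z + 2 * Real.pi * ((1 : ℤ) : ℂ) * Complex.I + 2 * Real.pi * (m : ℂ) * Complex.I
          = z + 2 * Real.pi * ((m + 1 : ℕ) : ℂ) * Complex.I := by
        push_cast
        ring
      rw [h6] at h5
      exact h5
    intro z
    rw [h3]
    simp
  obtain ⟨G, hG⟩ : ∃ G : ℂ → EN (n + 2), ∀ z, G z = Gm m₀ (z + 2 * Real.pi * ((-(m₀ : ℤ) : ℤ) : ℂ) * Complex.I) :=
    ⟨_, fun _ => rfl⟩
  have hGS : G ∈ Sec Q := by
    have h1 := Sec.shift (hGm m₀ le_rfl).1 (-(m₀ : ℤ))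
    have h2 : G = fun z => Gm m₀ (z + 2 * Real.pi * ((-(m₀ : ℤ) : ℤ) : ℂ) * Complex.I) := funext hG
    rw [h2]
    exact h1
  have hind : ∀ k : ℕ, ∀ z, Gm (m₀ + k) z = G (z + 2 * Real.pi * ((m₀ + k : ℕ) : ℂ) * Complex.I) := by
    intro k
    induction k with
    | zero =>
      intro z
      rw [hG]
      congr 1
      push_cast
      ring
    | succ k ih =>
      intro z
      have h1 := hstep (m₀ + k) (by omega) z
      rw [← add_assoc, h1, ih]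
      congr 1
      push_cast
      ring
  have hGmG : ∀ m, m₀ ≤ m → ∀ z, Gm m z = G (z + 2 * Real.pi * (m : ℂ) * Complex.I) := by
    intro m hm z
    have h1 := hind (m - m₀) z
    rw [Nat.add_sub_cancel' hm] at h1
    exact h1
  refine ⟨G, hGS, fun W δ hδ => ?_⟩
  obtain ⟨m₂, hm₂⟩ := arm_near h hf (max 8 (|W| + 7)) (show 0 < min δ (δ₀ / 4) from lt_min hδ (by positivity))
  have hclose : ∀ m, max m₀ m₂ ≤ m → ∀ z ∈ closedBall (0 : ℂ) (max 8 (|W| + 7)),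
      ‖f (z + 2 * Real.pi * m * Complex.I) - G (z + 2 * Real.pi * m * Complex.I)‖ < δ := by
    intro m hm z hz
    have hm0 : m₀ ≤ m := le_trans (le_max_left _ _) hm
    obtain ⟨G', hG', hG'c⟩ := hm₂ m (le_trans (le_max_right _ _) hm)
    have h1 : Gm m = G' := by
      refine ArmB_eq hδ₀ hsep (F := fun z => f (z + 2 * Real.pi * (m : ℂ) * Complex.I)) (hGm m hm0).1 hG'
        (fun z hz => (hGm m hm0).2 z (hsub hz)) fun z hz => ?_
      refine lt_of_lt_of_le (hG'c z ?_) (min_le_right _ _)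
      exact closedBall_subset_closedBall (le_trans (by norm_num) (le_max_left _ _)) hz
    rw [← hGmG m hm0 z, h1]
    exact lt_of_lt_of_le (hG'c z hz) (min_le_left _ _)
  refine ⟨2 * Real.pi * ((max m₀ m₂ : ℕ) + 1), fun z hzW hzY => ?_⟩
  have h2π : 0 < 2 * Real.pi := by positivity
  have hzim : 0 ≤ z.im := le_trans (by positivity) hzY
  obtain ⟨m, hmdef⟩ : ∃ m : ℕ, m = ⌊z.im / (2 * Real.pi)⌋₊ := ⟨_, rfl⟩
  have hm1 : (m : ℝ) ≤ z.im / (2 * Real.pi) := by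
    rw [hmdef]
    exact Nat.floor_le (by positivity)
  have hm2 : z.im / (2 * Real.pi) < m + 1 := by
    rw [hmdef]
    exact Nat.lt_floor_add_one _
  rw [le_div_iff₀ h2π] at hm1
  rw [div_lt_iff₀ h2π] at hm2
  have hm3 : max m₀ m₂ ≤ m := by
    have h1 : 2 * Real.pi * (((max m₀ m₂ : ℕ) : ℝ) + 1) < (m + 1) * (2 * Real.pi) := lt_of_le_of_lt hzY hm2
    have h2 : (((max m₀ m₂ : ℕ) : ℝ) + 1) < m + 1 := by
      rw [mul_comm] at h1
      exact lt_of_mul_lt_mul_right h1 h2π.le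
    have h3 : ((max m₀ m₂ : ℕ) : ℝ) < m := by linarith
    exact_mod_cast h3.le
  obtain ⟨w, hw⟩ : ∃ w : ℂ, w = z - 2 * Real.pi * m * Complex.I := ⟨_, rfl⟩
  have hwre : w.re = z.re := by
    rw [hw]
    simp
  have hwim : w.im = z.im - 2 * Real.pi * m := by
    rw [hw]
    simp
  have hwz : w + 2 * Real.pi * m * Complex.I = z := by
    rw [hw]
    ring
  have h1 := hclose m hm3 w (by
    rw [mem_closedBall_zero_iff]
    refine le_trans (ArmB_norm_le (W := W) (by rw [hwre]; exact hzW) ?_ ?_) (le_max_right _ _)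
    · rw [hwim]
      linarith
    · rw [hwim]
      linarith)
  rw [hwz] at h1
  exact h1

/-- monotonicity of the logarithm, also at `0` -/
private theorem ArmB_log {x y : ℝ} (hx : 0 ≤ x) (hxy : x ≤ y) (hy : 1 ≤ y) : Real.log x ≤ Real.log y := by
  rcases hx.eq_or_lt with h0 | h0
  · rw [← h0, Real.log_zero]
    exact Real.log_nonneg hy
  · exact Real.log_le_log h0 hxy

theorem arm_growth (h : NPair Q e) {b : ℂ} {f : ℂ → EN (n + 2)} (hf : IsSec Q f (Slit b)) : ∃ A ρ : ℝ, 0 < A ∧ ∀ z ∈ HP 1 ρ,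
    Real.log ‖f z‖ ≤ A * (1 + |z.re|) := by
  obtain ⟨G, hG, hfG⟩ := arm_one h hf
  obtain ⟨Y, hY⟩ := hfG (‖b‖ + 1) 1 one_pos
  obtain ⟨M, hM, hMb⟩ := strip_bound h (‖b‖ + 1)
  have hb0 := norm_nonneg b
  have hbre : |b.re| ≤ ‖b‖ := Complex.abs_re_le_norm b
  obtain ⟨A, hA, hgr⟩ := growth h (Real.log (M + 1)) hb0
  have hlog0 : 0 ≤ Real.log (M + 1) := Real.log_nonneg (by linarith)
  have hstrip : ∀ z : ℂ, |z.re| ≤ ‖b‖ + 1 → Y ≤ z.im → Real.log ‖f z‖ ≤ Real.log (M + 1) := by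
    intro z hz1 hz2
    refine ArmB_log (norm_nonneg _) ?_ (by linarith)
    have h1 := hY z hz1 hz2
    have h2 := hMb G hG z hz1
    have h3 := norm_sub_norm_le (f z) (G z)
    linarith
  have hR : IsSec Q f {z | ‖b‖ < z.re} := hf.mono fun z hz => Or.inl (by
    have h1 : ‖b‖ < z.re := hz
    have h2 := le_abs_self b.re
    exact ne_of_gt (by linarith))
  have hL : IsSec Q f {z | z.re < -‖b‖} := hf.mono fun z hz => Or.inl (by
    have h1 : z.re < -‖b‖ := hz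
    have h2 := neg_abs_le b.re
    exact ne_of_lt (by linarith))
  refine ⟨max A (Real.log (M + 1)), Y, lt_of_lt_of_le hA (le_max_left _ _), fun z hz => ?_⟩
  have hz' : Y ≤ z.im := by
    have h1 : Y < 1 * z.im := hz
    linarith
  have hx0 : 0 ≤ |z.re| := abs_nonneg _
  by_cases hz1 : |z.re| ≤ ‖b‖ + 1
  · refine (hstrip z hz1 hz').trans ?_
    have h1 : Real.log (M + 1) ≤ max A (Real.log (M + 1)) := le_max_right _ _
    nlinarith
  · rw [not_le] at hz1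
    have hfin : A * (1 + |z.re|) ≤ max A (Real.log (M + 1)) * (1 + |z.re|) :=
      mul_le_mul_of_nonneg_right (le_max_left _ _) (by positivity)
    refine le_trans ?_ hfin
    rcases le_total 0 z.re with h0 | h0
    · rw [abs_of_nonneg h0] at hz1
      refine (hgr f).1 hR z hz1.le (hstrip _ ?_ hz')
      show |‖b‖ + 1| ≤ ‖b‖ + 1
      rw [abs_of_nonneg (by positivity)]
    · rw [abs_of_nonpos h0] at hz1
      refine (hgr f).2 hL z (by linarith) (hstrip _ ?_ hz')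
      show |-(‖b‖ + 1)| ≤ ‖b‖ + 1
      rw [abs_neg, abs_of_nonneg (by positivity)]

theorem arm (h : NPair Q e) {b : ℂ} {f : ℂ → EN (n + 2)} (hf : IsSec Q f (Slit b)) : ∃ G ∈ Sec Q, ∃ ρ : ℝ, ∀ z ∈ HP 1 ρ, f z = G z := by
  obtain ⟨C₁, hC₁, hfs⟩ := arm_fs h
  obtain ⟨L, hL, hfb⟩ := fs_bound h
  obtain ⟨c₃, C₃, hc₃, hnl⟩ := norm_lower h
  obtain ⟨W, hW, hhalf⟩ := half_axis_v2 h (max C₁ L)
  obtain ⟨M, hM, hMb⟩ := strip_bound h W
  obtain ⟨c, hc, hcb⟩ := strip_nv h W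
  obtain ⟨ε, hε, hhalf⟩ := hhalf c M hc
  obtain ⟨G, hG, hfG⟩ := arm_one h hf
  obtain ⟨Y, hY⟩ := hfG W (ε * Real.exp (-C₃)) (by positivity)
  have hb0 := norm_nonneg b
  obtain ⟨ρ, hρ⟩ : ∃ ρ : ℝ, ρ = max Y (3 * ‖b‖ + 1) := ⟨_, rfl⟩
  have hρY : Y ≤ ρ := hρ ▸ le_max_left _ _
  have hρb : 3 * ‖b‖ + 1 ≤ ρ := hρ ▸ le_max_right _ _
  have hHP : ∀ {ρ' : ℝ}, ρ' ≤ ρ → HP 1 ρ ⊆ HP 1 ρ' := fun hle z hz => lt_of_le_of_lt hle hz
  have hsl : HP 1 ρ ⊆ Slit b := (hHP (by linarith)).trans (HP_subset_slit b)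
  have hGlow : ∀ z, Real.exp (-C₃) ≤ ‖G z‖ := by
    intro z
    obtain ⟨hne, hlog⟩ := hnl G Set.univ hG z (Set.mem_univ z)
    have hpos : 0 < ‖G z‖ := norm_pos_iff.mpr hne
    rw [← Real.le_log_iff_exp_le hpos]
    have : 0 ≤ c₃ * |z.re| := mul_nonneg hc₃.le (abs_nonneg _)
    linarith
  refine ⟨G, hG, ρ, fun z hz => ?_⟩
  refine (hhalf 1 ρ G f (Or.inl rfl) (IsSec.mono hG (Set.subset_univ _)) (hf.mono hsl) ?_ ?_ ?_ z hz).symm
  · intro z _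
    refine le_trans ?_ (le_max_right _ _)
    have h1 := Sec.fs_le hfb hG z
    have h2 : 0 < 1 + |z.re| := by positivity
    calc |z.re| * fs (G z) (deriv G z) ≤ |z.re| * (L / (1 + |z.re|)) :=
          mul_le_mul_of_nonneg_left h1 (abs_nonneg _)
      _ = L * (|z.re| / (1 + |z.re|)) := by ring
      _ ≤ L * 1 := by
          refine mul_le_mul_of_nonneg_left ?_ hL.le
          rw [div_le_one h2]
          linarith
      _ = L := mul_one L
  · exact fun z hz => (hfs b f hf z (hHP hρb hz)).trans (le_max_left _ _)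
  · intro z hz hzW
    refine ⟨hMb G hG z hzW, hcb G hG z hzW, ?_⟩
    have h1 : ρ < 1 * z.im := hz
    have h2 := hY z hzW (by linarith)
    have h3 := mul_le_mul_of_nonneg_left (hGlow z) hε.le
    linarith

end Pool.Agent.TCN
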