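import Pool.Agent.TCN.LgDefs
import Pool.Agent.TC.Cmp

/-!
# TCN LgMin: the minors `mP` are forms, and they are the components of `nv`
-/

set_option autoImplicit false

open MvPolynomial

namespace Pool.Agent.TCN

open Pool.Agent.H36.BP (EN)
open Pool.Agent.TC (ev grad OnV nv dt)

variable {n : ℕ} {Q : Fin (n + 2) → MvPolynomial (Fin (n + 3)) ℂ} {e : Fin (n + 2) → ℕ}

/-- The minors are forms. -/
theorem mP_hom (h : ∀ j, (Q j).IsHomogeneous (e j)) (I : Fin (n + 2) → Fin (n + 3)) : (mP Q I).IsHomogeneous (∑ j, (e j - 1)) := by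
  rw [mP, Matrix.det_apply]
  refine IsHomogeneous.sum _ _ _ fun σ _ => ?_
  have h1 : (∏ b, Matrix.of (fun l m : Fin (n + 2) => pderiv (I m) (Q l)) (σ b) b).IsHomogeneous (∑ a, (e a - 1)) := by
    have h2 := IsHomogeneous.prod Finset.univ
      (fun b => Matrix.of (fun l m : Fin (n + 2) => pderiv (I m) (Q l)) (σ b) b)
      (fun b => e (σ b) - 1) (fun b _ => (h (σ b)).pderiv)
    rwa [Equiv.sum_comp σ (fun a => e a - 1)] at h2
  rcases Int.units_eq_one_or (Equiv.Perm.sign σ) with h2 | h2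
  · rw [h2, one_smul]
    exact h1
  · rw [h2, Units.neg_smul, one_smul]
    exact h1.neg

/-- the values of the minors -/
theorem eval_mP (Q : Fin (n + 2) → MvPolynomial (Fin (n + 3)) ℂ) (I : Fin (n + 2) → Fin (n + 3)) (x : Fin (n + 3) → ℂ) :
    eval x (mP Q I) = Matrix.det (Matrix.of fun l m => eval x (pderiv (I m) (Q l))) := by
  rw [mP, RingHom.map_det]
  rfl

/-- the minors at a point with coordinates in a `ℂ`-algebra -/
theorem aeval_mP {K : Type*} [CommRing K] [Algebra ℂ K] (Q : Fin (n + 2) → MvPolynomial (Fin (n + 3)) ℂ) (I : Fin (n + 2) → Fin (n + 3))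
    (x : Fin (n + 3) → K) : aeval x (mP Q I) = Matrix.det (Matrix.of fun l m => aeval x (pderiv (I m) (Q l))) := by
  rw [mP, AlgHom.map_det]
  rfl

/-- the components of the normal vector -/
theorem nv_eq_mP (Q : Fin (n + 2) → MvPolynomial (Fin (n + 3)) ℂ) (x : EN (n + 2)) (m : Fin (n + 3)) :
    nv Q x m = (-1) ^ (m : ℕ) * ev (mP Q m.succAbove) x := by
  rw [ev, eval_mP]
  rfl

/-- the normal vector is not zero iff one of the minors is not zero -/
theorem nv_ne_zero_iff (Q : Fin (n + 2) → MvPolynomial (Fin (n + 3)) ℂ) (x : EN (n + 2)) :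
    nv Q x ≠ 0 ↔ ∃ m : Fin (n + 3), ev (mP Q m.succAbove) x ≠ 0 := by
  constructor
  · intro h
    by_contra hcon
    push Not at hcon
    apply h
    ext m
    rw [nv_eq_mP, hcon, mul_zero]
    rfl
  · rintro ⟨m, hm⟩ h
    have h1 := nv_eq_mP Q x m
    rw [h] at h1
    exact mul_ne_zero (pow_ne_zero _ (neg_ne_zero.2 one_ne_zero)) hm h1.symm

end Pool.Agent.TCN
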