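import Pool.Agent.TCN.LgCurve
import Pool.Agent.TCN.LgMin

/-!
# TCN LgFib: entire curves in the boundary curves which avoid the nodes are constant; the tangent spaces of the surface

As `TC/LgtB.lean`, with the boundary `fibBd Q i` (the other curve and the nodes) of `curve_lgt`.
-/

set_option autoImplicit false

open MvPolynomial Topology Filter
open Pool.Agent.H17LG.Variety (FunField IsLogGeneralType OnBoundary)
open Pool.Agent.H62.SA (OnBd locVar)
open Pool.Agent.H62.FC (Homog)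

namespace Pool.Agent.TCN

open Pool.Agent.H36.BP (EN)
open Pool.Agent.TC (ev grad OnV nv dt ev_smul)

variable {n : ℕ} {Q : Fin (n + 2) → MvPolynomial (Fin (n + 3)) ℂ} {e : Fin (n + 2) → ℕ}

private theorem lgtB_cons_sum {N : ℕ} {A : Fin (n + 2) → MvPolynomial (Fin (N + 1)) ℂ} (c : Fin (n + 2) → ℂ) (x : EN N) (j : Fin (N + 1)) :
    (∑ i, c i • grad (A i) x) j = c 0 * ev (pderiv j (A 0)) x + (c 1 * ev (pderiv j (A 1)) x +
      ∑ l : Fin n, c l.succ.succ * ev (pderiv j (A l.succ.succ)) x) := by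
  rw [Finset.sum_apply, Fin.sum_univ_succ, Fin.sum_univ_succ]
  rfl

private theorem lgtB_onV {x : Fin (n + 3) → ℂ} (h : ∀ l : Fin n, eval x (Q l.succ.succ) = 0) : OnV Q (WithLp.toLp 2 x) := by
  intro j hj
  obtain ⟨l, rfl⟩ : ∃ l : Fin n, j = l.succ.succ := by
    refine ⟨⟨(j : ℕ) - 2, by have := j.2; omega⟩, ?_⟩
    ext
    simp only [Fin.val_succ]
    omega
  exact h l

private theorem lgtB_ne {x : Fin (n + 3) → ℂ} (h : x ≠ 0) : (WithLp.toLp 2 x : EN (n + 2)) ≠ 0 := by
  intro h0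
  apply h
  funext i
  have := congrArg (fun y : EN (n + 2) => y i) h0
  exact this

private theorem lgFib_fib (h : NPair Q e) {i i' : Fin (n + 2)} (hii : i = 0 ∧ i' = 1 ∨ i = 1 ∧ i' = 0) {a : ℂ} (ha : a ≠ 0)
    {G : ℂ → EN (n + 2)} (hG : Differentiable ℂ G) (hi : ∀ z, ev (Q i) (G z) = a) (hi' : ∀ z, ev (Q i') (G z) = 0)
    (hV : ∀ z, OnV Q (G z)) (hnv : ∀ z, nv Q (G z) ≠ 0) (z w : ℂ) : G z = G w := by
  classical
  have hG0 : ∀ z, G z ≠ 0 := by
    intro z hz
    have h1 := ev_smul (h.hom i) 0 (G z)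
    rw [zero_pow (by have := h.pos i; omega), zero_mul, zero_smul] at h1
    have h2 := hi z
    rw [hz, h1] at h2
    exact ha h2.symm
  have hφ0 : ∀ z, (fun k => G z k) ≠ 0 := by
    intro z hz
    apply hG0 z
    ext k
    exact congrFun hz k
  obtain ⟨f, hf⟩ : ∃ f : ℂ → Pool.Agent.H17.PN (n + 2), f = fun z => Projectivization.mk ℂ (fun k => G z k) (hφ0 z) := ⟨_, rfl⟩
  have hfh : Pool.Agent.H17.HolomorphicInto f Set.univ := by
    intro z₀ _
    refine ⟨fun z k => G z k, ?_, Eventually.of_forall fun z => ⟨hφ0 z, by rw [hf]⟩⟩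
    rw [analyticAt_pi_iff]
    intro k
    exact (((EuclideanSpace.proj (𝕜 := ℂ) k).differentiable.comp hG).analyticAt z₀)
  have hvan : ∀ {R : MvPolynomial (Fin (n + 3)) ℂ} {d : ℕ}, R.IsHomogeneous d → ∀ z,
      (Pool.Agent.H17.VanishesAt R (f z) ↔ ev R (G z) = 0) := by
    intro R d hR z
    rw [hf]
    exact Pool.Agent.H17BP.vanishesAt_mk hR (hφ0 z)
  by_cases hconst : ∀ z w, f z = f w
  · have hnorm : ∀ z, ‖G z‖ = ‖G w‖ := by
      intro z
      have h1 := hconst z w
      rw [hf] at h1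
      dsimp only at h1
      rw [Projectivization.mk_eq_mk_iff'] at h1
      obtain ⟨c, hc⟩ := h1
      have h2 : G z = c • G w := by
        ext k
        exact (congrFun hc k).symm
      have h3 := hi z
      rw [h2, ev_smul (h.hom i), hi w] at h3
      have h4 : c ^ e i = 1 := by
        have h5 : (c ^ e i - 1) * a = 0 := by rw [sub_mul, h3, one_mul, sub_self]
        rcases mul_eq_zero.1 h5 with h6 | h6
        · exact sub_eq_zero.1 h6
        · exact absurd h6 ha
      have h5 : ‖c‖ = 1 := by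
        have h6 := congrArg norm h4
        rw [norm_pow, norm_one] at h6
        exact (pow_eq_one_iff_of_nonneg (norm_nonneg c) (by have := h.pos i; omega)).1 h6
      rw [h2, norm_smul, h5, one_mul]
    refine hG.apply_eq_apply_of_bounded ?_ z w
    refine (Metric.isBounded_closedBall (x := (0 : EN (n + 2))) (r := ‖G w‖)).subset ?_
    rintro _ ⟨z, rfl⟩
    rw [mem_closedBall_zero_iff]
    exact (hnorm z).le
  · exfalso
    apply hconst
    obtain ⟨I, hI⟩ : ∃ I, I = Pool.Agent.H17BP.mapIdeal f Set.univ := ⟨_, rfl⟩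
    have hIp : I.IsPrime := by
      rw [hI]
      exact Pool.Agent.H17BP.mapIdeal_isPrime isOpen_univ isPreconnected_univ Set.univ_nonempty hfh
    have hIh : Homog I := by
      rw [hI]
      exact Pool.Agent.H17BP.mapIdeal_homog
    have hIX : ∃ i, (X i : MvPolynomial (Fin (n + 2 + 1)) ℂ) ∉ I := by
      rw [hI]
      exact Pool.Agent.H17BP.exists_X_notMem Set.univ_nonempty
    have hmem : ∀ {R : MvPolynomial (Fin (n + 3)) ℂ} {d : ℕ}, R.IsHomogeneous d → (∀ z, ev R (G z) = 0) → R ∈ I := by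
      intro R d hR h1
      rw [hI]
      exact (Pool.Agent.H17BP.mem_mapIdeal_form hR).2 fun z _ => (hvan hR z).2 (h1 z)
    have hQI : Q i ∉ I := by
      intro h1
      rw [hI] at h1
      have h2 := (Pool.Agent.H17BP.mem_mapIdeal_form (h.hom i)).1 h1 0 (Set.mem_univ _)
      rw [hvan (h.hom i), hi 0] at h2
      exact ha h2
    have hBdh : ∀ m : Fin (n + 3), (fibBd Q i m).IsHomogeneous (e i + ∑ j, (e j - 1)) := fun m => (h.hom i).mul (mP_hom h.hom _)
    have hmin : ∀ z, ∃ m : Fin (n + 3), ev (mP Q m.succAbove) (G z) ≠ 0 := fun z => (nv_ne_zero_iff Q (G z)).1 (hnv z)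
    have hfI : ∀ z, f z ∈ locVar I (fibBd Q i) := by
      intro z
      obtain ⟨m, hm⟩ := hmin z
      refine ⟨fun R hR k hk => ?_, m, ?_⟩
      · rw [hI] at hR
        exact (Pool.Agent.H17BP.mem_mapIdeal_form hk).1 hR z (Set.mem_univ z)
      · intro h1
        rw [hvan (hBdh m)] at h1
        have h2 : ev (fibBd Q i m) (G z) = ev (Q i) (G z) * ev (mP Q m.succAbove) (G z) := map_mul _ _ _
        rw [h2, hi z] at h1
        exact mul_ne_zero ha hm h1
    have hmI : ∃ m : Fin (n + 3), mP Q m.succAbove ∉ I := by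
      obtain ⟨m, hm⟩ := hmin 0
      refine ⟨m, fun h1 => ?_⟩
      rw [hI] at h1
      have h2 := (Pool.Agent.H17BP.mem_mapIdeal_form (mP_hom h.hom m.succAbove)).1 h1 0 (Set.mem_univ _)
      rw [hvan (mP_hom h.hom m.succAbove)] at h2
      exact hm h2
    obtain ⟨wd, hw⟩ := Pool.Agent.H62.FC.exists_fin_basis (P := I) hIX
    have hw0 : wd ≠ 0 := by
      rintro rfl
      apply hconst
      intro a b
      exact Pool.Agent.H17BP.eq_of_trdeg_zero hIh hIX hw _ ⟨(hfI a).1, fun m => m.elim0⟩ _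
        ⟨(hfI b).1, fun m => m.elim0⟩
    obtain ⟨k, rfl⟩ : ∃ k, wd = k + 1 := ⟨wd - 1, by omega⟩
    obtain ⟨rfl, hlg⟩ := h.curve_lgt hii I (fun j hj => hmem (h.hom j) fun z => hV z j hj) (hmem (h.hom i') hi') hQI hmI hw
    exact fun z w => Pool.Agent.H62.LGC.const_of_logGeneralType hIh hw (fun m => ⟨_, hBdh m⟩) hlg hfh hfI z w

theorem NPair.fib_bdry (h : NPair Q e) {a b : ℂ} (hab : a ≠ 0 ∨ b ≠ 0) (hab' : a = 0 ∨ b = 0) {G : ℂ → EN (n + 2)} (hG : Differentiable ℂ G)
    (ha : ∀ z, ev (Q 0) (G z) = a) (hb : ∀ z, ev (Q 1) (G z) = b) (hV : ∀ z, OnV Q (G z)) (hnv : ∀ z, nv Q (G z) ≠ 0) (z w : ℂ) : G z = G w := by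
  by_cases h0 : a = 0
  · subst h0
    exact lgFib_fib h (Or.inr ⟨rfl, rfl⟩) (hab.resolve_left fun h => h rfl) hG hb ha hV hnv z w
  · obtain rfl := hab'.resolve_left h0
    exact lgFib_fib h (Or.inl ⟨rfl, rfl⟩) h0 hG ha hb hV hnv z w

theorem NPair.tangent (h : NPair Q e) (P : Ideal (MvPolynomial (Fin (n + 3)) ℂ)) (hP : ∀ j : Fin (n + 2), 2 ≤ (j : ℕ) → Q j ∈ P)
    (x : Fin (n + 3) → ℂ) (hx : x ≠ 0) (hxP : ∀ R ∈ P, eval x R = 0) : Module.finrank ℂ (Pool.Agent.H13.SM.conTan P x) ≤ 3 := by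
  classical
  have key : ∀ α : Fin n → ℂ, (∑ l, α l • fun i : Fin (n + 3) => eval x (pderiv i (Q l.succ.succ))) = 0 → ∀ l, α l = 0 := by
    intro α hα l
    set c : Fin (n + 2) → ℂ := Fin.cons 0 (Fin.cons 0 α) with hc
    have hc0 : c 0 = 0 := rfl
    have hc1 : c 1 = 0 := rfl
    have hcl : ∀ l : Fin n, c l.succ.succ = α l := fun l => rfl
    have hcz : c = 0 := by
      refine h.smooth _ (lgtB_ne hx) (lgtB_onV fun l => hxP _ (hP _ (by simp))) c hc0 hc1 ?_
      funext j
      rw [lgtB_cons_sum, hc0, hc1]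
      simp only [hcl]
      have h1 := congrFun hα j
      rw [Finset.sum_apply] at h1
      rw [zero_mul, zero_mul, zero_add, zero_add]
      exact h1
    rw [← hcl, hcz]
    rfl
  set M : Matrix (Fin n) (Fin (n + 3)) ℂ := Matrix.of fun l i => eval x (pderiv i (Q l.succ.succ)) with hM
  have hli : LinearIndependent ℂ M := by
    have hli' : LinearIndependent ℂ fun (l : Fin n) (i : Fin (n + 3)) => eval x (pderiv i (Q l.succ.succ)) := by
      refine Fintype.linearIndependent_iff.2 ?_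
      exact key
    exact hli'
  have hrank : M.rank = n := by
    have := hli.rank_matrix
    simpa using this
  have hker : Module.finrank ℂ (LinearMap.ker M.mulVecLin) = 3 := by
    have h1 := M.mulVecLin.finrank_range_add_finrank_ker
    rw [Module.finrank_fin_fun] at h1
    have h2 : Module.finrank ℂ (LinearMap.range M.mulVecLin) = n := hrank
    omega
  have hle : Pool.Agent.H13.SM.conTan P x ≤ LinearMap.ker M.mulVecLin := by
    intro v hv
    rw [LinearMap.mem_ker, Matrix.mulVecLin_apply]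
    funext l
    have h1 := hv (Q l.succ.succ) (hP _ (by simp))
    simp only [Matrix.mulVec, dotProduct, Pi.zero_apply]
    rw [← h1]
    refine Finset.sum_congr rfl fun i _ => ?_
    simp only [hM, Matrix.of_apply]
    ring
  rw [← hker]
  exact Submodule.finrank_mono hle

end Pool.Agent.TCN
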