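import Pool.Agent.TCN.NodeChart
import Pool.Agent.H62.Log.Hurwitz

/-!
# TCN LimNode: limits of curves in the complement are not at the nodes of the boundary

Let `nv Q (G z₀) = 0`, `q = G z₀`; `node_chart` at `q`: `σ`, `φ`, `δ`, `ρ'`.  Choose `r > 0` with `‖G z - q‖ < ρ' / 2` for `‖z - z₀‖ ≤ r` (continuity).  For `z` in the closed ball, for almost all `k` (uniformly in `z`, `hlim` and compactness of the closed ball: otherwise choose bad `z k`, they converge along `𝒰`)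
`F k z ∈ ball q ρ'`.  The functions `s k = (σ ∘ F k).1` and `t k = (σ ∘ F k).2` are analytic on `ball z₀ r`, without zeros for almost all `k`: `ev (Q 0) (F k z) = ev (Q 0) (φ (σ (F k z))) = s k z * t k z ≠ 0`; the limits are `(σ (G z)).1` and `(σ (G z)).2` (`σ` is continuous on `ball q ρ'`), and they vanish at `z₀`
(`σ q = σ (φ 0) = 0`).  By `Pool.Agent.H62.Log.hurwitz` (a limit of functions without zeros has no zeros or vanishes identically) both limits vanish identically on `ball z₀ r`, so `G z = φ (σ (G z)) = φ 0 = q` there, and by the identity theorem `G` is constant: contradiction to `hnc`.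
-/

set_option autoImplicit false

open Topology Filter Metric

namespace Pool.Agent.TCN

open Pool.Agent.TC

open Pool.Agent.H36.BP (EN fs wd Sub)

variable {n : ℕ} {Q : Fin (n + 2) → MvPolynomial (Fin (n + 3)) ℂ} {e : Fin (n + 2) → ℕ}

theorem lim_nv (h : NPair Q e) (𝒰 : Ultrafilter ℕ) {F : ℕ → ℂ → EN (n + 2)} {ρ : ℕ → ℝ} (hρ : Tendsto ρ 𝒰 atTop)
    (hF : ∀ᶠ k in (𝒰 : Filter ℕ), DifferentiableOn ℂ (F k) (ball 0 (ρ k)) ∧ ∀ z ∈ ball (0 : ℂ) (ρ k),
      OnV Q (F k z) ∧ ev (Q 1) (F k z) = 1 ∧ ev (Q 0) (F k z) ≠ 0)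
    {G : ℂ → EN (n + 2)} (hG : Differentiable ℂ G) (hG2 : ∀ z, OnV Q (G z) ∧ ev (Q 0) (G z) = 0 ∧ ev (Q 1) (G z) = 1)
    (hlim : ∀ (z : ℕ → ℂ) (z₀ : ℂ), Tendsto z 𝒰 (𝓝 z₀) → Tendsto (fun k => F k (z k)) 𝒰 (𝓝 (G z₀)))
    (hnc : ∃ z, G z ≠ G 0) : ∀ z, nv Q (G z) ≠ 0 := by
  intro z₀ hnv
  obtain ⟨hV0, h00, h10⟩ := hG2 z₀
  obtain ⟨δ, ρ', C, c, φ, σ, hδ, hρ', -, -, hφ0, hφ, hσ⟩ := node_chart h hV0 h10 h00 hnv
  -- the radius
  obtain ⟨r, hr, hGr⟩ : ∃ r > 0, ∀ z ∈ closedBall z₀ r, G z ∈ ball (G z₀) ρ' := by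
    have h1 : ∀ᶠ z in 𝓝 z₀, G z ∈ ball (G z₀) ρ' :=
      hG.continuous.continuousAt.eventually (isOpen_ball.mem_nhds (mem_ball_self hρ'))
    obtain ⟨s, hs, hs'⟩ := Metric.eventually_nhds_iff_ball.1 h1
    exact ⟨s / 2, by positivity, fun z hz => hs' z (closedBall_subset_ball (by linarith) hz)⟩
  -- the curves are in the chart
  have hev : ∀ᶠ k in (𝒰 : Filter ℕ), ∀ z ∈ closedBall z₀ r, F k z ∈ ball (G z₀) ρ' := by
    by_contra hcon
    rw [← Ultrafilter.eventually_not] at hcon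
    push Not at hcon
    choose! w hw using fun (k : ℕ) (h : ∃ z ∈ closedBall z₀ r, F k z ∉ ball (G z₀) ρ') => h
    have hw1 : ∀ᶠ k in (𝒰 : Filter ℕ), w k ∈ closedBall z₀ r := hcon.mono fun k hk => (hw k hk).1
    have hw2 : ∀ᶠ k in (𝒰 : Filter ℕ), F k (w k) ∉ ball (G z₀) ρ' := hcon.mono fun k hk => (hw k hk).2
    obtain ⟨z', hz'mem, hz'⟩ : ∃ z' ∈ closedBall z₀ r, Tendsto w (𝒰 : Filter ℕ) (𝓝 z') := by
      obtain ⟨l, hl1, hl2⟩ := (isCompact_closedBall z₀ r).ultrafilter_le_nhds (𝒰.map w) (by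
        rw [le_principal_iff]
        exact hw1)
      exact ⟨l, hl1, hl2⟩
    have h1 := (hlim w z' hz').eventually (isOpen_ball.mem_nhds (hGr z' hz'mem))
    obtain ⟨k, hk1, hk2⟩ := (h1.and hw2).exists
    exact hk2 hk1
  have hsub : ∀ᶠ k in (𝒰 : Filter ℕ), closedBall z₀ r ⊆ ball 0 (ρ k) := by
    filter_upwards [hρ.eventually_gt_atTop (‖z₀‖ + r)] with k hk z hz
    rw [mem_ball_zero_iff]
    rw [mem_closedBall_iff_norm] at hz
    have := norm_add_le (z - z₀) z₀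
    rw [sub_add_cancel] at this
    linarith
  -- the coordinates
  have hd : ∀ᶠ k in (𝒰 : Filter ℕ), DifferentiableOn ℂ (fun z => σ (F k z)) (ball z₀ r) := by
    filter_upwards [hF, hev, hsub] with k hk1 hk2 hk3 z hz
    have hz' := ball_subset_closedBall hz
    have h1 : DifferentiableAt ℂ σ (F k z) := (hσ _ (hk2 z hz')).1.differentiableAt
    have h2 : DifferentiableAt ℂ (F k) z :=
      (hk1.1 z (hk3 hz')).differentiableAt (isOpen_ball.mem_nhds (hk3 hz'))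
    exact (h1.comp z h2).differentiableWithinAt
  have hne : ∀ᶠ k in (𝒰 : Filter ℕ), ∀ z ∈ ball z₀ r, (σ (F k z)).1 ≠ 0 ∧ (σ (F k z)).2 ≠ 0 := by
    filter_upwards [hF, hev, hsub] with k hk1 hk2 hk3 z hz
    have hz' := ball_subset_closedBall hz
    obtain ⟨a1, a2, a3⟩ := hk1.2 z (hk3 hz')
    obtain ⟨-, b1, b2⟩ := hσ _ (hk2 z hz')
    have b3 := b2 a1 a2
    have b4 := (hφ _ b1).2.2.2.1
    rw [b3] at b4
    rw [b4] at a3
    exact ⟨left_ne_zero_of_mul a3, right_ne_zero_of_mul a3⟩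
  have hdG : DifferentiableOn ℂ (fun z => σ (G z)) (ball z₀ r) := by
    intro z hz
    have hz' := ball_subset_closedBall hz
    have h1 : DifferentiableAt ℂ σ (G z) := (hσ _ (hGr z hz')).1.differentiableAt
    exact (h1.comp z (hG z)).differentiableWithinAt
  have hconv : ∀ (z : ℕ → ℂ) (z₁ : ℂ), z₁ ∈ ball z₀ r → Tendsto z (𝒰 : Filter ℕ) (𝓝 z₁) →
      Tendsto (fun k => σ (F k (z k))) (𝒰 : Filter ℕ) (𝓝 (σ (G z₁))) := by
    intro z z₁ hz₁ hz
    have h1 : ContinuousAt σ (G z₁) := (hσ _ (hGr z₁ (ball_subset_closedBall hz₁))).1.continuousAt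
    exact h1.tendsto.comp (hlim z z₁ hz)
  have hσ0 : σ (G z₀) = 0 := by
    have h1 := (hφ 0 (mem_ball_self hδ)).2.2.2.2.2.2
    rwa [hφ0] at h1
  have hz₀ : z₀ ∈ ball z₀ r := mem_ball_self hr
  have hs : ∀ z ∈ ball z₀ r, (σ (G z)).1 = 0 := by
    rcases Pool.Agent.H62.Log.hurwitz 𝒰 (φ := fun k z => (σ (F k z)).1) (ψ := fun z => (σ (G z)).1)
      (hd.mono fun k hk => hk.fst) (hne.mono fun k hk z hz => (hk z hz).1) hdG.fst
      (fun z z₁ h1 h2 => (continuous_fst.tendsto _).comp (hconv z z₁ h1 h2)) with h1 | h1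
    · exact h1
    · exact absurd (by rw [hσ0]; rfl) (h1 z₀ hz₀)
  have ht : ∀ z ∈ ball z₀ r, (σ (G z)).2 = 0 := by
    rcases Pool.Agent.H62.Log.hurwitz 𝒰 (φ := fun k z => (σ (F k z)).2) (ψ := fun z => (σ (G z)).2)
      (hd.mono fun k hk => hk.snd) (hne.mono fun k hk z hz => (hk z hz).2) hdG.snd
      (fun z z₁ h1 h2 => (continuous_snd.tendsto _).comp (hconv z z₁ h1 h2)) with h1 | h1
    · exact h1
    · exact absurd (by rw [hσ0]; rfl) (h1 z₀ hz₀)
  have hconst : ∀ z ∈ ball z₀ r, G z = G z₀ := by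
    intro z hz
    have h1 : σ (G z) = 0 := Prod.ext (hs z hz) (ht z hz)
    have h2 := (hσ _ (hGr z (ball_subset_closedBall hz))).2.2 (hG2 z).1 (hG2 z).2.2
    rw [← h2, h1, hφ0]
  have hall : G = fun _ => G z₀ := by
    have h1 : AnalyticOnNhd ℂ G Set.univ := fun z _ => hG.analyticAt z
    have h2 : AnalyticOnNhd ℂ (fun _ : ℂ => G z₀) Set.univ := fun z _ => analyticAt_const
    refine AnalyticOnNhd.eq_of_eventuallyEq (𝕜 := ℂ) h1 h2 (z₀ := z₀) ?_
    filter_upwards [isOpen_ball.mem_nhds hz₀] with z hz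
    exact hconst z hz
  obtain ⟨z, hz⟩ := hnc
  apply hz
  rw [hall]

end Pool.Agent.TCN
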