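import Pool.Agent.TCN.Cmp

/-!
# TCN Swap: the symmetry between the two boundary curves
-/

set_option autoImplicit false

open Topology Filter Metric

namespace Pool.Agent.TCN

open Pool.Agent.TC

open Pool.Agent.H36.BP (EN fs wd Sub)

/-- exchange the first two entries -/
def sw {n : ℕ} {α : Type*} (Q : Fin (n + 2) → α) : Fin (n + 2) → α := fun j => Q (Equiv.swap 0 1 j)

variable {n : ℕ} {Q : Fin (n + 2) → MvPolynomial (Fin (n + 3)) ℂ} {e : Fin (n + 2) → ℕ}

theorem sw_zero {α : Type*} (Q : Fin (n + 2) → α) : sw Q 0 = Q 1 := by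
  simp [sw]

theorem sw_one {α : Type*} (Q : Fin (n + 2) → α) : sw Q 1 = Q 0 := by
  simp [sw]

theorem sw_two {α : Type*} (Q : Fin (n + 2) → α) {j : Fin (n + 2)} (hj : 2 ≤ (j : ℕ)) : sw Q j = Q j := by
  unfold sw
  rw [Equiv.swap_apply_of_ne_of_ne]
  · intro h
    simp [h] at hj
  · intro h
    rw [h] at hj
    simp at hj

theorem sw_sw {α : Type*} (Q : Fin (n + 2) → α) : sw (sw Q) = Q := by
  funext j
  simp [sw]

theorem onV_sw (x : EN (n + 2)) : OnV (sw Q) x ↔ OnV Q x := by
  constructor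
  · intro h j hj
    have := h j hj
    rwa [sw_two Q hj] at this
  · intro h j hj
    rw [sw_two Q hj]
    exact h j hj

theorem nv_sw (x : EN (n + 2)) : nv (sw Q) x = -nv Q x := by
  have key : cross (fun j => grad (sw Q j) x) = -cross (fun j => grad (Q j) x) := by
    funext i
    simp only [cross, Pi.neg_apply]
    rw [← mul_neg]
    congr 1
    have h1 : (Matrix.of fun a b => grad (sw Q a) x (i.succAbove b)) =
        (Matrix.of fun a b => grad (Q a) x (i.succAbove b)).submatrix (Equiv.swap (0 : Fin (n + 2)) 1) id := by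
      ext a b
      rfl
    rw [h1, Matrix.det_permute]
    have h2 : Equiv.Perm.sign (Equiv.swap (0 : Fin (n + 2)) 1) = -1 := Equiv.Perm.sign_swap (by simp)
    rw [h2]
    simp
  unfold nv
  rw [key]
  rfl

theorem NPair.sw (h : NPair Q e) : NPair (sw Q) (sw e) where
  hom j := h.hom _
  pos j := h.pos _
  deg := by
    have h1 : ∑ j, TCN.sw e j = ∑ j, e j := Equiv.sum_comp (Equiv.swap (0 : Fin (n + 2)) 1) e
    rw [h1]
    exact h.deg
  smooth x hx hV c h0 h1 hc := by
    have h2 : ∑ j, TCN.sw c j • grad (Q j) x = 0 := by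
      rw [← Equiv.sum_comp (Equiv.swap (0 : Fin (n + 2)) 1)]
      rw [← hc]
      refine Finset.sum_congr rfl fun j _ => ?_
      simp [TCN.sw]
    have h3 := h.smooth x hx ((onV_sw x).1 hV) (TCN.sw c) (by rw [sw_zero]; exact h1) (by rw [sw_one]; exact h0) h2
    rw [← sw_sw c, h3]
    rfl
  meet x hx hV h0 h1 c hc := by
    have h2 : ∑ j, TCN.sw c j • grad (Q j) x = 0 := by
      rw [← Equiv.sum_comp (Equiv.swap (0 : Fin (n + 2)) 1)]
      rw [← hc]
      refine Finset.sum_congr rfl fun j _ => ?_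
      simp [TCN.sw]
    rw [sw_zero] at h0
    rw [sw_one] at h1
    have h3 := h.meet x hx ((onV_sw x).1 hV) h1 h0 (TCN.sw c) h2
    rw [← sw_sw c, h3]
    rfl
  node x hx hV h01 hn v hv hd := by
    rw [sw_zero, sw_one] at h01
    refine h.node x hx ((onV_sw x).1 hV) h01.symm ?_ v (fun j hj => ?_) ?_
    · rw [nv_sw] at hn
      exact neg_eq_zero.1 hn
    · have := hv j hj
      rwa [sw_two Q hj] at this
    · have h1 : nv (TCN.sw Q) = -nv Q := funext nv_sw
      rw [h1, fderiv_neg] at hd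
      simpa using hd

theorem IsSec.sw {f : ℂ → EN (n + 2)} {U : Set ℂ} (hf : IsSec Q f U) : IsSec (TCN.sw Q) (fun z => f (-z)) {z | -z ∈ U} := by
  refine ⟨?_, fun z hz => ?_⟩
  · intro z hz
    have h1 : DifferentiableWithinAt ℂ (fun z : ℂ => -z) {z | -z ∈ U} z := by fun_prop
    exact (hf.1 (-z) hz).comp z h1 fun w hw => hw
  · obtain ⟨h1, h2, h3⟩ := hf.2 (-z) hz
    refine ⟨?_, ?_, (onV_sw _).2 h3⟩
    · rw [sw_zero, h2, neg_neg]
    · rw [sw_one, h1]

end Pool.Agent.TCN
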