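import Pool.Agent.TCN.NormBad
import Pool.Agent.TCN.Swap
import Pool.Agent.TCN.LimNode
import Pool.Agent.TCN.LgFib

/-!
# TCN BoundU: sections on balls of radius at least one are Lipschitz at the scale `1 + |Re z|`

As `TC/Bound.lean` (copy its private lemmas `Bound_ne_zero`, `Bound_scale`, `Bound_data`, `Bound_re`, `Bound_exp` under new names).  Suppose not: for every `k` there are `f k`, `z k`, `r k ≥ 1` with `IsSec Q (f k) (ball (z k) (r k))` and
`fs (f k (z k)) _ > 4 (k + 1) (1 / r k + 1 / (1 + |Re (z k)|))`.  `𝒰 = hyperfilter ℕ`.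

Case 1: `|Re (z k)| ≤ X` for almost all `k`.  Change `z k` by a multiple of `2 π i` (the translate of a section is a section: `exp` does not change) such that the imaginary part is in `[0, 2 π]`; `z k → z₀` along `𝒰`; `f k` is a section on `ball z₀ (1 / 2) ⊆ ball (z k) 1` for almost all `k`; `norm_bad`: `fs (f k (z k)) _ ≤ L` for almost all `k`, but it is
`> 4 (k + 1) / (1 + X)`: contradiction.
Case 2, 3: `Re (z k) → + ∞` or `- ∞` along `𝒰`: as the cases 2, 3 in `TC/Bound.lean`; the limit `G` of the rescaled maps is in the fibre over `(1, 0)` resp. `(0, 1)` and not constant: contradiction to `NPair.fib_bdry` (`TC/LgtB.lean`) for `h`.  (`|Re (v k) - Re (z k)| ≤ R k / 2 ≤ (1 + |Re (z k)|) / 2`, so `Re (v k) → ± ∞` too.)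
-/

set_option autoImplicit false

open Topology Filter Metric

namespace Pool.Agent.TCN

open Pool.Agent.TC

open Pool.Agent.H36.BP (EN fs wd Sub)

variable {n : ℕ} {Q : Fin (n + 2) → MvPolynomial (Fin (n + 3)) ℂ} {e : Fin (n + 2) → ℕ}

private theorem BoundU_ne_zero (h : NPair Q e) {x : EN (n + 2)} (hx : ev (Q 0) x ≠ 0) : x ≠ 0 := by
  rintro rfl
  apply hx
  have h1 := ev_smul (h.hom 0) (0 : ℂ) (0 : EN (n + 2))
  rwa [smul_zero, zero_pow (by have := h.pos 0; omega), zero_mul] at h1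

private theorem BoundU_scale {N : ℕ} {F : ℂ → EN N} {g : ℂ → ℂ} {z : ℂ} (hF : DifferentiableAt ℂ F z) (hg : DifferentiableAt ℂ g z)
    (hF0 : F z ≠ 0) (hg0 : g z ≠ 0) : fs (g z • F z) (deriv (fun w => g w • F w) z) = fs (F z) (deriv F z) := by
  have hd : HasDerivAt (fun w => g w • F w) (g z • deriv F z + deriv g z • F z) z := hg.hasDerivAt.smul hF.hasDerivAt
  rw [hd.deriv]
  exact Pool.Agent.H36.BP.fs_inv hF0 (deriv F z) hg0 (deriv g z)

/-- rescaling of one section -/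
private theorem BoundU_data (h : NPair Q e) (k : ℕ) {f : ℂ → EN (n + 2)} {z : ℂ} {r : ℝ} (hr : 0 < r) (hs : IsSec Q f (ball z r))
    (hbig : 4 * ((k : ℝ) + 1) * (1 / r + 1 / (1 + |z.re|)) < fs (f z) (deriv f z)) :
    ∃ (v : ℂ) (a : ℝ) (F : ℂ → EN (n + 2)), |z.re| ≤ 2 * |v.re| + 1 ∧ 0 < a ∧ a * (4 * ((k : ℝ) + 1)) ≤ 2 + 2 * |v.re| ∧
      DifferentiableOn ℂ F (ball 0 ((k : ℝ) + 1)) ∧ fs (F 0) (deriv F 0) = 1 ∧ ∀ ζ ∈ ball (0 : ℂ) ((k : ℝ) + 1),
        OnV Q (F ζ) ∧ ev (Q 0) (F ζ) = Complex.exp (v + (a : ℂ) * ζ) ∧ ev (Q 1) (F ζ) = Complex.exp (-(v + (a : ℂ) * ζ)) ∧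
          fs (F ζ) (deriv F ζ) ≤ 2 := by
  set R : ℝ := min r (1 + |z.re|) with hRdef
  have hz1 : 0 < 1 + |z.re| := by positivity
  have hR : 0 < R := lt_min hr hz1
  have hk : (0 : ℝ) < 4 * ((k : ℝ) + 1) := by positivity
  have hR1 : 1 / R ≤ 1 / r + 1 / (1 + |z.re|) := by
    have h1 : 0 < 1 / r := by positivity
    have h2 : 0 < 1 / (1 + |z.re|) := by positivity
    rcases min_choice r (1 + |z.re|) with h3 | h3
    · rw [hRdef, h3]
      linarith
    · rw [hRdef, h3]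
      linarith
  have hbig' : 4 * ((k : ℝ) + 1) < R * fs (f z) (deriv f z) := by
    have h1 : 4 * ((k : ℝ) + 1) * (1 / R) < fs (f z) (deriv f z) :=
      lt_of_le_of_lt (mul_le_mul_of_nonneg_left hR1 hk.le) hbig
    have h2 : R * (4 * ((k : ℝ) + 1) * (1 / R)) < R * fs (f z) (deriv f z) := mul_lt_mul_of_pos_left h1 hR
    have h3 : R * (4 * ((k : ℝ) + 1) * (1 / R)) = 4 * ((k : ℝ) + 1) := by
      field_simp
    rwa [h3] at h2
  have hsub : ball z R ⊆ ball z r := ball_subset_ball (min_le_left _ _)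
  have hne : ∀ w ∈ ball z R, f w ≠ 0 := fun w hw => BoundU_ne_zero h (by
    rw [(hs.2 w (hsub hw)).1]
    exact Complex.exp_ne_zero _)
  obtain ⟨v, a, ha, haR, hv, hmem, h1, h2⟩ := rescale_ball hR (hs.1.mono hsub) hne k hbig'
  have hzv : |z.re| ≤ |v.re| + R / 2 := by
    have h4 : |z.re - v.re| ≤ ‖z - v‖ := by
      have := Complex.abs_re_le_norm (z - v)
      simpa using this
    have h5 : ‖z - v‖ ≤ R / 2 := by
      rw [norm_sub_rev]
      exact hv
    have h6 : |z.re| ≤ |z.re - v.re| + |v.re| := by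
      have := abs_add_le (z.re - v.re) v.re
      simpa using this
    linarith
  have hRz : R ≤ 1 + |z.re| := min_le_right _ _
  refine ⟨v, a, fun ζ => f (v + (a : ℂ) * ζ), by linarith, ha, by linarith, ?_, ?_, fun ζ hζ => ?_⟩
  · intro ζ hζ
    have h3 : DifferentiableAt ℂ f (v + (a : ℂ) * ζ) :=
      (hs.1 _ (hsub (hmem ζ hζ))).differentiableAt (isOpen_ball.mem_nhds (hsub (hmem ζ hζ)))
    have h4 : DifferentiableAt ℂ (fun ζ : ℂ => v + (a : ℂ) * ζ) ζ := by fun_prop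
    exact (DifferentiableAt.comp (g := f) ζ h3 h4).differentiableWithinAt
  · have h3 : f (v + (a : ℂ) * 0) = f v := by rw [mul_zero, add_zero]
    show fs (f (v + (a : ℂ) * 0)) _ = 1
    rw [h3]
    exact h1
  · obtain ⟨h3, h4, h5⟩ := hs.2 _ (hsub (hmem ζ hζ))
    exact ⟨h5, h3, h4, h2 ζ hζ⟩

private theorem BoundU_core (h : NPair Q e) (𝒰 : Ultrafilter ℕ) (F : ℕ → ℂ → EN (n + 2)) (ρ : ℕ → ℝ) (hρ : Tendsto ρ 𝒰 atTop)
    (α : ℕ → ℂ → ℂ)
    (hF : ∀ k, DifferentiableOn ℂ (F k) (ball 0 (ρ k)) ∧ ∀ z ∈ ball (0 : ℂ) (ρ k),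
      OnV Q (F k z) ∧ ev (Q 0) (F k z) = α k z ∧ ev (Q 1) (F k z) = 1 ∧ α k z ≠ 0 ∧ (1 : ℂ) ≠ 0 ∧
        fs (F k z) (deriv (F k) z) ≤ 2)
    (h1 : ∀ k, fs (F k 0) (deriv (F k) 0) = 1)
    (ha : ∀ (z : ℕ → ℂ) (z₀ : ℂ), Tendsto z 𝒰 (𝓝 z₀) → Tendsto (fun k => α k (z k)) 𝒰 (𝓝 0)) : False := by
  have hc : Tendsto (fun k => fs (F k 0) (deriv (F k) 0)) 𝒰 (𝓝 1) := by
    simp only [h1]
    exact tendsto_const_nhds
  rcases lim_alt h 𝒰 F ρ hρ (L := 2) two_pos α (fun _ _ => 1) (fun _ => 0) (fun _ => 1) (Eventually.of_forall hF)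
    ha (fun _ _ _ => tendsto_const_nhds) (fun _ => Or.inr one_ne_zero) with h2 | ⟨G, hG, hG2, hlim, hfs⟩
  · exact absurd (tendsto_nhds_unique (h2 0).1 hc) zero_ne_one
  · have h3 : fs (G 0) (deriv G 0) = 1 := tendsto_nhds_unique (hfs 0) hc
    have h7 : ¬ ∀ z, G z = G 0 := by
      intro h4
      have h5 : deriv G 0 = 0 := by
        have h6 : G = fun _ => G 0 := funext h4
        rw [h6]
        exact deriv_const _ _
      rw [h5] at h3
      have h6 := Pool.Agent.H36.BP.fs_smul_right (G 0) (0 : EN (n + 2)) (0 : ℂ)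
      rw [smul_zero, norm_zero, zero_mul] at h6
      rw [h6] at h3
      exact zero_ne_one h3
    push Not at h7
    have h8 := lim_nv h 𝒰 hρ (F := F) (Eventually.of_forall fun k => ⟨(hF k).1, fun z hz => by
      obtain ⟨g1, g2, g3, g4, -, -⟩ := (hF k).2 z hz
      exact ⟨g1, g3, by rw [g2]; exact g4⟩⟩) hG hG2 hlim h7
    obtain ⟨z, hz⟩ := h7
    exact hz (h.fib_bdry (Or.inr one_ne_zero) (Or.inl rfl) hG (fun z => (hG2 z).2.1) (fun z => (hG2 z).2.2) (fun z => (hG2 z).1)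
      h8 z 0)

private theorem BoundU_re {𝒰 : Ultrafilter ℕ} (h𝒰 : (𝒰 : Filter ℕ) ≤ atTop) {v : ℕ → ℂ} {a : ℕ → ℝ} (ha : ∀ k, 0 < a k)
    (hav : ∀ k, a k * (4 * ((k : ℝ) + 1)) ≤ 2 + 2 * |(v k).re|) {σ : ℝ} (hσ : |σ| = 1)
    (hx : Tendsto (fun k => σ * (v k).re) 𝒰 atTop) {z : ℕ → ℂ} {z₀ : ℂ} (hz : Tendsto z 𝒰 (𝓝 z₀)) :
    Tendsto (fun k => σ * (v k + (a k : ℂ) * z k).re) 𝒰 atTop := by
  have h1 : ∀ᶠ k in (𝒰 : Filter ℕ), ‖z k‖ < ‖z₀‖ + 1 := hz.norm.eventually_lt_const (by linarith)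
  have h2 : ∀ᶠ k : ℕ in (𝒰 : Filter ℕ), ‖z₀‖ + 1 ≤ (k : ℝ) + 1 := by
    have : Tendsto (fun k : ℕ => (k : ℝ) + 1) atTop atTop := tendsto_atTop_add_const_right _ _ tendsto_natCast_atTop_atTop
    exact (this.mono_left h𝒰).eventually_ge_atTop _
  have h3 : ∀ᶠ k in (𝒰 : Filter ℕ), 0 ≤ σ * (v k).re := hx.eventually_ge_atTop 0
  have h4 : Tendsto (fun k => (σ * (v k).re - 1) / 2) 𝒰 atTop :=
    (tendsto_atTop_add_const_right _ (-1) hx).atTop_div_const two_pos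
  refine tendsto_atTop_mono' _ ?_ h4
  filter_upwards [h1, h2, h3] with k h1 h2 h3
  have h5 : |(v k).re| = σ * (v k).re := by
    rw [← abs_of_nonneg h3, abs_mul, hσ, one_mul]
  have h6 : a k * ‖z k‖ ≤ (1 + σ * (v k).re) / 2 := by
    have h7 : a k * ‖z k‖ ≤ a k * ((k : ℝ) + 1) := mul_le_mul_of_nonneg_left (by linarith) (ha k).le
    have h8 := hav k
    rw [h5] at h8
    linarith
  have h7 : |σ * ((a k : ℂ) * z k).re| ≤ a k * ‖z k‖ := by
    rw [abs_mul, hσ, one_mul]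
    refine (Complex.abs_re_le_norm _).trans ?_
    rw [norm_mul, Complex.norm_real, Real.norm_of_nonneg (ha k).le]
  have h8 := neg_abs_le (σ * ((a k : ℂ) * z k).re)
  rw [Complex.add_re, mul_add]
  linarith

/-- the parameter far away: `exp (-s w / d) ^ m * exp (-s w)` tends to `0` -/
private theorem BoundU_exp {𝒰 : Ultrafilter ℕ} {w : ℕ → ℂ} {σ : ℝ} (hw : Tendsto (fun k => σ * (w k).re) 𝒰 atTop) (d m : ℕ) :
    Tendsto (fun k => Complex.exp (-((σ : ℂ) * w k / (d : ℂ))) ^ m * Complex.exp (-((σ : ℂ) * w k))) 𝒰 (𝓝 0) := by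
  rw [tendsto_zero_iff_norm_tendsto_zero]
  have h1 : Tendsto (fun k => Real.exp (-(σ * (w k).re))) 𝒰 (𝓝 0) :=
    Real.tendsto_exp_neg_atTop_nhds_zero.comp hw
  refine squeeze_zero' (Eventually.of_forall fun k => norm_nonneg _) ?_ h1
  filter_upwards [hw.eventually_ge_atTop 0] with k hk
  have h2 : ((σ : ℂ) * w k).re = σ * (w k).re := by simp
  rw [norm_mul, norm_pow, Complex.norm_exp, Complex.norm_exp, Complex.neg_re, Complex.neg_re, Complex.div_natCast_re, h2]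
  have h3 : Real.exp (-(σ * (w k).re / d)) ≤ 1 := by
    rw [Real.exp_le_one_iff]
    have : 0 ≤ σ * (w k).re / d := by positivity
    linarith
  have h4 : Real.exp (-(σ * (w k).re / d)) ^ m ≤ 1 := pow_le_one₀ (Real.exp_pos _).le h3
  exact mul_le_of_le_one_left (Real.exp_pos _).le h4

theorem fs_boundU (h : NPair Q e) : ∃ L : ℝ, 0 < L ∧ ∀ (f : ℂ → EN (n + 2)) (z₀ : ℂ) (r : ℝ), 1 / 2 ≤ r → IsSec Q f (ball z₀ r) →
    fs (f z₀) (deriv f z₀) ≤ L * (1 / r + 1 / (1 + |z₀.re|)) := by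
  by_contra hcon
  push Not at hcon
  choose f z r hr hs hbig using fun k : ℕ => hcon (4 * ((k : ℝ) + 1)) (by positivity)
  have hdata := fun k : ℕ => BoundU_data h k (lt_of_lt_of_le (by norm_num : (0 : ℝ) < 1 / 2) (hr k)) (hs k) (hbig k)
  choose v a F hzv ha hav hFd hF1 hF using hdata
  set 𝒰 : Ultrafilter ℕ := hyperfilter ℕ with h𝒰def
  have h𝒰 : (𝒰 : Filter ℕ) ≤ atTop := by
    have := hyperfilter_le_cofinite (α := ℕ)
    rwa [Nat.cofinite_eq_atTop] at this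
  have hρ : Tendsto (fun k : ℕ => (k : ℝ) + 1) 𝒰 atTop :=
    (tendsto_atTop_add_const_right _ _ tendsto_natCast_atTop_atTop).mono_left h𝒰
  have hw : ∀ k, Differentiable ℂ (fun z : ℂ => v k + (a k : ℂ) * z) := fun k => by fun_prop
  have hFne : ∀ k : ℕ, ∀ z ∈ ball (0 : ℂ) ((k : ℝ) + 1), F k z ≠ 0 := fun k z hz => BoundU_ne_zero h (by
    rw [(hF k z hz).2.1]
    exact Complex.exp_ne_zero _)
  -- the rescaled curves are multiplied by a function `g` without zeros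
  have hmul : ∀ g : ℕ → ℂ → ℂ, (∀ k, Differentiable ℂ (g k)) → (∀ k z, g k z ≠ 0) →
      (∀ k : ℕ, DifferentiableOn ℂ (fun z => g k z • F k z) (ball 0 ((k : ℝ) + 1)) ∧ ∀ z ∈ ball (0 : ℂ) ((k : ℝ) + 1),
        OnV Q (g k z • F k z) ∧ ev (Q 0) (g k z • F k z) = g k z ^ e 0 * Complex.exp (v k + (a k : ℂ) * z) ∧
        ev (Q 1) (g k z • F k z) = g k z ^ e 1 * Complex.exp (-(v k + (a k : ℂ) * z)) ∧
        fs (g k z • F k z) (deriv (fun z => g k z • F k z) z) ≤ 2) ∧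
      ∀ k, fs (g k 0 • F k 0) (deriv (fun z => g k z • F k z) 0) = 1 := by
    intro g hg hg0
    refine ⟨fun k => ⟨(hg k).differentiableOn.smul (hFd k), fun z hz => ⟨(hF k z hz).1.smulN h _, ?_, ?_, ?_⟩⟩, fun k => ?_⟩
    · rw [ev_smul (h.hom 0), (hF k z hz).2.1]
    · rw [ev_smul (h.hom 1), (hF k z hz).2.2.1]
    · rw [BoundU_scale ((hFd k z hz).differentiableAt (isOpen_ball.mem_nhds hz)) (hg k z) (hFne k z hz) (hg0 k z)]
      exact (hF k z hz).2.2.2
    · have h0 : (0 : ℂ) ∈ ball (0 : ℂ) ((k : ℝ) + 1) := by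
        exact mem_ball_self (by positivity)
      rw [BoundU_scale ((hFd k 0 h0).differentiableAt (isOpen_ball.mem_nhds h0)) (hg k 0) (hFne k 0 h0) (hg0 k 0)]
      exact hF1 k
  -- the parameter tends to infinity
  have hfar : ∀ σ : ℝ, (σ = 1 ∨ σ = -1) → ¬ Tendsto (fun k => σ * (v k).re) 𝒰 atTop := by
    rintro σ hσ hx
    have hσ1 : |σ| = 1 := by
      rcases hσ with rfl | rfl <;> simp
    have hre : ∀ (z : ℕ → ℂ) (z₀ : ℂ), Tendsto z 𝒰 (𝓝 z₀) → Tendsto (fun k => σ * (v k + (a k : ℂ) * z k).re) 𝒰 atTop :=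
      fun z z₀ hz => BoundU_re h𝒰 ha hav hσ1 hx hz
    rcases hσ with rfl | rfl
    · have he : ((e 0 : ℕ) : ℂ) ≠ 0 := by
        have := h.pos 0
        exact_mod_cast (by omega : e 0 ≠ 0)
      obtain ⟨h1, h2⟩ := hmul (fun k z => Complex.exp (-((((1 : ℝ)) : ℂ) * (v k + (a k : ℂ) * z) / ((e 0 : ℕ) : ℂ))))
        (fun k => by fun_prop) (fun k z => Complex.exp_ne_zero _)
      have h3 : ∀ k z, Complex.exp (-((((1 : ℝ)) : ℂ) * (v k + (a k : ℂ) * z) / ((e 0 : ℕ) : ℂ))) ^ e 0 *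
          Complex.exp (v k + (a k : ℂ) * z) = 1 := by
        intro k z
        rw [← Complex.exp_nat_mul, ← Complex.exp_add]
        rw [Complex.ofReal_one, one_mul]
        have : ((e 0 : ℕ) : ℂ) * -((v k + (a k : ℂ) * z) / ((e 0 : ℕ) : ℂ)) + (v k + (a k : ℂ) * z) = 0 := by
          field_simp
          ring
        rw [this, Complex.exp_zero]
      refine BoundU_core h.sw 𝒰 (fun k z => Complex.exp (-((((1 : ℝ)) : ℂ) * (v k + (a k : ℂ) * z) / ((e 0 : ℕ) : ℂ))) • F k z)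
        (fun k : ℕ => (k : ℝ) + 1) hρ
        (fun k z => Complex.exp (-((((1 : ℝ)) : ℂ) * (v k + (a k : ℂ) * z) / ((e 0 : ℕ) : ℂ))) ^ e 1 *
          Complex.exp (-(v k + (a k : ℂ) * z)))
        (fun k => ⟨(h1 k).1, fun z hz => ⟨(onV_sw _).2 ((h1 k).2 z hz).1, by rw [sw_zero]; exact ((h1 k).2 z hz).2.2.1,
          by rw [sw_one]; exact ((h1 k).2 z hz).2.1.trans (h3 k z),
          mul_ne_zero (pow_ne_zero _ (Complex.exp_ne_zero _)) (Complex.exp_ne_zero _), one_ne_zero, ((h1 k).2 z hz).2.2.2⟩⟩)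
        h2 (fun z z₀ hz => ?_)
      have h5 := BoundU_exp (hre z z₀ hz) (e 0) (e 1)
      refine h5.congr fun k => ?_
      congr 2
      rw [Complex.ofReal_one, one_mul]
    · have he : ((e 1 : ℕ) : ℂ) ≠ 0 := by
        have := h.pos 1
        exact_mod_cast (by omega : e 1 ≠ 0)
      obtain ⟨h1, h2⟩ := hmul (fun k z => Complex.exp (-((((-1 : ℝ)) : ℂ) * (v k + (a k : ℂ) * z) / ((e 1 : ℕ) : ℂ))))
        (fun k => by fun_prop) (fun k z => Complex.exp_ne_zero _)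
      have h3 : ∀ k z, Complex.exp (-((((-1 : ℝ)) : ℂ) * (v k + (a k : ℂ) * z) / ((e 1 : ℕ) : ℂ))) ^ e 1 *
          Complex.exp (-(v k + (a k : ℂ) * z)) = 1 := by
        intro k z
        rw [← Complex.exp_nat_mul, ← Complex.exp_add]
        rw [Complex.ofReal_neg, Complex.ofReal_one, neg_one_mul]
        have : ((e 1 : ℕ) : ℂ) * -(-(v k + (a k : ℂ) * z) / ((e 1 : ℕ) : ℂ)) + -(v k + (a k : ℂ) * z) = 0 := by
          field_simp
          ring
        rw [this, Complex.exp_zero]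
      refine BoundU_core h 𝒰 (fun k z => Complex.exp (-((((-1 : ℝ)) : ℂ) * (v k + (a k : ℂ) * z) / ((e 1 : ℕ) : ℂ))) • F k z)
        (fun k : ℕ => (k : ℝ) + 1) hρ
        (fun k z => Complex.exp (-((((-1 : ℝ)) : ℂ) * (v k + (a k : ℂ) * z) / ((e 1 : ℕ) : ℂ))) ^ e 0 *
          Complex.exp (v k + (a k : ℂ) * z))
        (fun k => ⟨(h1 k).1, fun z hz => ⟨((h1 k).2 z hz).1, ((h1 k).2 z hz).2.1, ((h1 k).2 z hz).2.2.1.trans (h3 k z),
          mul_ne_zero (pow_ne_zero _ (Complex.exp_ne_zero _)) (Complex.exp_ne_zero _), one_ne_zero, ((h1 k).2 z hz).2.2.2⟩⟩)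
        h2 (fun z z₀ hz => ?_)
      have h5 := BoundU_exp (hre z z₀ hz) (e 1) (e 0)
      refine h5.congr fun k => ?_
      congr 2
      rw [Complex.ofReal_neg, Complex.ofReal_one, neg_one_mul, neg_neg]
  -- so it is bounded
  have hbdd : ∃ B : ℝ, ∀ᶠ k in (𝒰 : Filter ℕ), |(v k).re| ≤ B := by
    by_contra hB
    push Not at hB
    have h1 : Tendsto (fun k => |(v k).re|) 𝒰 atTop := by
      rw [Filter.tendsto_atTop]
      intro B
      filter_upwards [hB B] with k hk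
      exact hk.le
    by_cases h2 : ∀ᶠ k in (𝒰 : Filter ℕ), 0 ≤ (v k).re
    · refine hfar 1 (Or.inl rfl) (h1.congr' ?_)
      filter_upwards [h2] with k hk
      rw [abs_of_nonneg hk, one_mul]
    · refine hfar (-1) (Or.inr rfl) (h1.congr' ?_)
      filter_upwards [Ultrafilter.eventually_not.2 h2] with k hk
      rw [abs_of_neg (not_le.1 hk), neg_one_mul]
  obtain ⟨B, hB⟩ := hbdd
  -- the centres, changed by periods
  set m : ℕ → ℂ := fun k => (⌊(z k).im / (2 * Real.pi)⌋ : ℂ) * (2 * Real.pi * Complex.I) with hm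
  have hexp : ∀ k w, Complex.exp (w + m k) = Complex.exp w := by
    intro k w
    rw [Complex.exp_add, hm, Complex.exp_int_mul_two_pi_mul_I, mul_one]
  have hexp' : ∀ k w, Complex.exp (-(w + m k)) = Complex.exp (-w) := by
    intro k w
    rw [Complex.exp_neg, Complex.exp_neg, hexp]
  have hmem : ∀ᶠ k in (𝒰 : Filter ℕ), z k - m k ∈ (Set.Icc (-(2 * B + 1)) (2 * B + 1) ×ℂ Set.Icc 0 (2 * Real.pi)) := by
    filter_upwards [hB] with k hk
    have hpi : (0 : ℝ) < 2 * Real.pi := by positivity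
    have h1 : (z k - m k).re = (z k).re := by simp [hm]
    have h2 : (z k - m k).im = (z k).im - (⌊(z k).im / (2 * Real.pi)⌋ : ℝ) * (2 * Real.pi) := by simp [hm]
    refine ⟨?_, ?_⟩
    · rw [Set.mem_preimage, h1]
      exact abs_le.1 ((hzv k).trans (by linarith))
    · rw [Set.mem_preimage, h2]
      have h3 := Int.floor_le ((z k).im / (2 * Real.pi))
      have h4 := Int.lt_floor_add_one ((z k).im / (2 * Real.pi))
      rw [le_div_iff₀ hpi] at h3
      rw [div_lt_iff₀ hpi] at h4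
      constructor <;> nlinarith
  have hcomp : IsCompact (Set.Icc (-(2 * B + 1)) (2 * B + 1) ×ℂ Set.Icc 0 (2 * Real.pi)) := isCompact_Icc.reProdIm isCompact_Icc
  obtain ⟨z₀, -, hz₀⟩ := hcomp.ultrafilter_le_nhds (𝒰.map fun k => z k - m k) (by
    rw [le_principal_iff]
    exact hmem)
  have hlz : Tendsto (fun k => z k - m k) 𝒰 (𝓝 z₀) := hz₀
  have hsec : ∀ᶠ k in (𝒰 : Filter ℕ), IsSec Q (fun w => f k (w + m k)) (ball z₀ (1 / 4)) := by
    filter_upwards [hlz (ball_mem_nhds z₀ (by norm_num : (0 : ℝ) < 1 / 4))] with k hk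
    have hk' : dist (z k - m k) z₀ < 1 / 4 := hk
    have hsub : ∀ w ∈ ball z₀ (1 / 4 : ℝ), w + m k ∈ ball (z k) (r k) := by
      intro w hw
      have hw' : dist w z₀ < 1 / 4 := hw
      have h1 : dist (w + m k) (z k) = dist w (z k - m k) := by
        rw [dist_eq_norm, dist_eq_norm]
        congr 1
        ring
      rw [mem_ball, h1]
      have h2 := dist_triangle_right w (z k - m k) z₀
      have h3 := hr k
      linarith
    refine ⟨fun w hw => ?_, fun w hw => ?_⟩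
    · have h1 : DifferentiableAt ℂ (f k) (w + m k) :=
        ((hs k).1 _ (hsub w hw)).differentiableAt (isOpen_ball.mem_nhds (hsub w hw))
      have h2 : DifferentiableAt ℂ (fun w : ℂ => w + m k) w := by fun_prop
      exact (DifferentiableAt.comp (g := f k) w h1 h2).differentiableWithinAt
    · obtain ⟨h1, h2, h3⟩ := (hs k).2 _ (hsub w hw)
      exact ⟨h1.trans (hexp k w), h2.trans (hexp' k w), h3⟩
  obtain ⟨r', L, hr', -, hL, hbd⟩ := norm_bad h h𝒰 (by norm_num : (0 : ℝ) < 1 / 4) hsec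
  have hX : (0 : ℝ) < 1 + (2 * |B| + 1) := by positivity
  have hlarge : ∀ᶠ k : ℕ in (𝒰 : Filter ℕ), L * (1 + (2 * |B| + 1)) ≤ (k : ℝ) + 1 := hρ.eventually_ge_atTop _
  have hnear : ∀ᶠ k in (𝒰 : Filter ℕ), z k - m k ∈ ball z₀ r' := hlz.eventually (ball_mem_nhds z₀ hr')
  obtain ⟨k, hk1, hk2', hk3, hk4⟩ := (hbd.and (hnear.and (hB.and hlarge))).exists
  have h1 := hk1 _ hk2'
  have h2 : deriv (fun w => f k (w + m k)) (z k - m k) = deriv (f k) (z k) := by
    rw [deriv_comp_add_const, sub_add_cancel]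
  rw [h2] at h1
  simp only [sub_add_cancel] at h1
  have h3 := hbig k
  have hr0 : 0 < 1 / r k := by
    have := hr k
    positivity
  have h4 : |(z k).re| ≤ 2 * |B| + 1 := (hzv k).trans (by
    linarith [le_abs_self B])
  have h5 : 1 / (1 + (2 * |B| + 1)) ≤ 1 / (1 + |(z k).re|) :=
    one_div_le_one_div_of_le (by positivity) (by linarith)
  have h6 : L ≤ ((k : ℝ) + 1) * (1 / (1 + (2 * |B| + 1))) := by
    rw [mul_one_div, le_div_iff₀ hX]
    exact hk4
  have h7 : (0 : ℝ) < (k : ℝ) + 1 := by positivity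
  have h8 : ((k : ℝ) + 1) * (1 / (1 + (2 * |B| + 1))) ≤ ((k : ℝ) + 1) * (1 / r k + 1 / (1 + |(z k).re|)) :=
    mul_le_mul_of_nonneg_left (by linarith) h7.le
  have h9 : 0 < ((k : ℝ) + 1) * (1 / r k + 1 / (1 + |(z k).re|)) := lt_of_lt_of_le (lt_of_lt_of_le hL h6) h8
  nlinarith

end Pool.Agent.TCN
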