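import Pool.Agent.TCN.NodeChart
import Pool.Agent.TCN.Swap
import Pool.Agent.EG.TM.Main
import Pool.Agent.H87.JZ.HalfJ

/-!
# TCN Bridge: from the pair of nodal curves to the left end, two sections on a half plane
-/

set_option autoImplicit false

open Topology Filter Metric

namespace Pool.Agent.TCN

open Pool.Agent.TC (ev grad OnV IsSec Sec nv dt HP ev_smul)
open Pool.Agent.EG.TM (NodeAt LS LeftEnd leftEnd)

open Pool.Agent.H36.BP (EN fs wd Sub)

variable {n : ℕ} {Q : Fin (n + 2) → MvPolynomial (Fin (n + 3)) ℂ} {e : Fin (n + 2) → ℕ}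

theorem nodeAt (h : NPair Q e) {x : EN (n + 2)} (hx : x ≠ 0) (hV : OnV Q x) (h0 : ev (Q 0) x = 0) (h1 : ev (Q 1) x ≠ 0) (hn : nv Q x = 0) :
    NodeAt Q x := by
  have he1 : e 1 ≠ 0 := by have := h.pos 1; omega
  obtain ⟨c, hc⟩ := IsAlgClosed.exists_pow_nat_eq (ev (Q 1) x) (Nat.pos_of_ne_zero he1)
  have hc0 : c ≠ 0 := by
    rintro rfl
    rw [zero_pow he1] at hc
    exact h1 hc.symm
  set q : EN (n + 2) := c⁻¹ • x with hq
  have hqV : OnV Q q := hV.smulN h _
  have hq1 : ev (Q 1) q = 1 := by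
    rw [hq, ev_smul (h.hom 1), ← hc, ← mul_pow, inv_mul_cancel₀ hc0, one_pow]
  have hq0 : ev (Q 0) q = 0 := by
    rw [hq, ev_smul (h.hom 0), h0, mul_zero]
  have hqn : nv Q q = 0 := by
    rw [hq, nv_smul h, hn, smul_zero]
  obtain ⟨δ, ρ, C, c', φ, τ, hδ, hρ, -, -, hφ0, hφ, hτ⟩ := node_chart h hqV hq1 hq0 hqn
  have hxq : c • q = x := by
    rw [hq, smul_smul, mul_inv_cancel₀ hc0, one_smul]
  -- the linear change of the first coordinate
  set a : ℂ := (c ^ e 0)⁻¹ with ha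
  have ha0 : a ≠ 0 := inv_ne_zero (pow_ne_zero _ hc0)
  set L : ℂ × ℂ →L[ℂ] ℂ × ℂ := (a • ContinuousLinearMap.fst ℂ ℂ ℂ).prod (ContinuousLinearMap.snd ℂ ℂ ℂ) with hL
  have hLap : ∀ p : ℂ × ℂ, L p = (a * p.1, p.2) := fun p => rfl
  have hL0 : L 0 = 0 := map_zero L
  have hφan : AnalyticAt ℂ φ (L 0) := by
    rw [hL0]
    exact (hφ 0 (mem_ball_self hδ)).1
  have hφL : AnalyticAt ℂ (fun p => φ (L p)) 0 := hφan.comp (L.analyticAt 0)
  have hnear : ∀ᶠ p in 𝓝 (0 : ℂ × ℂ), L p ∈ ball (0 : ℂ × ℂ) δ := by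
    have h2 : Tendsto (fun p => L p) (𝓝 0) (𝓝 (L 0)) := L.continuous.tendsto 0
    rw [hL0] at h2
    exact h2.eventually (ball_mem_nhds 0 hδ)
  have hsan : AnalyticAt ℂ (fun p => c • φ (L p)) 0 := (analyticAt_const (v := c)).smul hφL
  refine ⟨fun p => c • φ (L p), hsan, ?_, ?_, ?_⟩
  · change c • φ (L 0) = x
    rw [hL0, hφ0, hxq]
  · filter_upwards [hnear] with p hp
    obtain ⟨-, b1, -, b3, -⟩ := hφ _ hp
    refine ⟨b1.smulN h c, ?_⟩
    rw [ev_smul (h.hom 0), b3, hLap]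
    change c ^ e 0 * (a * p.1 * p.2) = p.1 * p.2
    rw [ha]
    have hce : c ^ e 0 ≠ 0 := pow_ne_zero _ hc0
    field_simp
  · -- independence
    have hφd : DifferentiableAt ℂ φ 0 := by
      have := hφan.differentiableAt
      rwa [hL0] at this
    have hfd : ∀ v : ℂ × ℂ, fderiv ℂ (fun p => c • φ (L p)) 0 v = c • fderiv ℂ φ 0 (L v) := by
      intro v
      have e1 : HasFDerivAt φ (fderiv ℂ φ 0) (L 0) := by
        rw [hL0]
        exact hφd.hasFDerivAt
      have e2 : HasFDerivAt (fun p => φ (L p)) ((fderiv ℂ φ 0).comp L) 0 := e1.comp 0 L.hasFDerivAt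
      have e3 : HasFDerivAt (fun p => c • φ (L p)) (c • (fderiv ℂ φ 0).comp L) 0 := e2.const_smul c
      rw [e3.fderiv]
      rfl
    -- the left inverse
    have hinj : ∀ w : ℂ × ℂ, fderiv ℂ φ 0 w = 0 → w = 0 := by
      intro w hw
      have hτd : DifferentiableAt ℂ τ (φ 0) := by
        rw [hφ0]
        exact (hτ q (mem_ball_self hρ)).1.differentiableAt
      have e1 : HasFDerivAt (fun p => τ (φ p)) ((fderiv ℂ τ (φ 0)).comp (fderiv ℂ φ 0)) 0 :=
        hτd.hasFDerivAt.comp 0 hφd.hasFDerivAt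
      have e2 : (fun p => τ (φ p)) =ᶠ[𝓝 0] fun p => p := by
        filter_upwards [ball_mem_nhds (0 : ℂ × ℂ) hδ] with p hp
        exact (hφ p hp).2.2.2.2.2.2
      have e3 : HasFDerivAt (fun p => τ (φ p)) (ContinuousLinearMap.id ℂ (ℂ × ℂ)) 0 :=
        (hasFDerivAt_id (0 : ℂ × ℂ)).congr_of_eventuallyEq e2
      have e4 := e1.unique e3
      have e5 := congrArg (fun T : ℂ × ℂ →L[ℂ] ℂ × ℂ => T w) e4
      simp only [ContinuousLinearMap.comp_apply, hw, map_zero, ContinuousLinearMap.id_apply] at e5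
      exact e5.symm
    -- the derivative of the second form
    have hdF : ∀ w : ℂ × ℂ, fderiv ℂ (ev (Q 1)) q (fderiv ℂ φ 0 w) = 0 := by
      intro w
      have e1 : HasFDerivAt (ev (Q 1)) (fderiv ℂ (ev (Q 1)) q) (φ 0) := by
        rw [hφ0]
        exact (differentiable_ev (Q 1) q).hasFDerivAt
      have e2 : HasFDerivAt (fun p => ev (Q 1) (φ p)) ((fderiv ℂ (ev (Q 1)) q).comp (fderiv ℂ φ 0)) 0 :=
        e1.comp 0 hφd.hasFDerivAt
      have e3 : (fun p => ev (Q 1) (φ p)) =ᶠ[𝓝 0] fun _ => (1 : ℂ) := by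
        filter_upwards [ball_mem_nhds (0 : ℂ × ℂ) hδ] with p hp
        exact (hφ p hp).2.2.1
      have e4 : HasFDerivAt (fun p => ev (Q 1) (φ p)) (0 : ℂ × ℂ →L[ℂ] ℂ) 0 :=
        (hasFDerivAt_const (1 : ℂ) (0 : ℂ × ℂ)).congr_of_eventuallyEq e3
      have e5 := congrArg (fun T : ℂ × ℂ →L[ℂ] ℂ => T w) (e2.unique e4)
      simpa using e5
    have hdFq : fderiv ℂ (ev (Q 1)) q q = e 1 := by
      have e1 : HasDerivAt (fun w : ℂ => w • q) q 1 := by
        have := (hasDerivAt_id (1 : ℂ)).smul_const q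
        simpa using this
      have e2 : HasFDerivAt (ev (Q 1)) (fderiv ℂ (ev (Q 1)) q) ((1 : ℂ) • q) := by
        rw [one_smul]
        exact (differentiable_ev (Q 1) q).hasFDerivAt
      have e3 := e2.comp_hasDerivAt 1 e1
      have e4 : HasDerivAt (fun w : ℂ => ev (Q 1) (w • q)) (e 1 : ℂ) 1 := by
        have e5 : (fun w : ℂ => ev (Q 1) (w • q)) = fun w => w ^ e 1 := by
          funext w
          rw [ev_smul (h.hom 1), hq1, mul_one]
        rw [e5]
        have := hasDerivAt_pow (e 1) (1 : ℂ)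
        simpa using this
      exact e3.unique e4
    rw [Fintype.linearIndependent_iff]
    intro g hg
    have hsum : g 0 • x + g 1 • (c • fderiv ℂ φ 0 (L (1, 0))) + g 2 • (c • fderiv ℂ φ 0 (L (0, 1))) = 0 := by
      have := hg
      rw [Fin.sum_univ_three] at this
      simp only [Matrix.cons_val_zero, Matrix.cons_val_one, Matrix.cons_val_two, Matrix.head_cons, Matrix.tail_cons] at this
      rw [hfd, hfd] at this
      exact this
    have hg0 : g 0 = 0 := by
      have e1 := congrArg (fun v => fderiv ℂ (ev (Q 1)) q v) hsum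
      simp only [map_add, map_smul, hdF, smul_zero, add_zero, map_zero] at e1
      rw [← hxq, map_smul, hdFq, smul_eq_mul, smul_eq_mul] at e1
      rcases mul_eq_zero.1 e1 with e2 | e2
      · exact e2
      · exfalso
        rcases mul_eq_zero.1 e2 with e3 | e3
        · exact hc0 e3
        · exact he1 (by exact_mod_cast e3)
    have hw : fderiv ℂ φ 0 (a * g 1, g 2) = 0 := by
      rw [hg0, zero_smul, zero_add] at hsum
      have e1 : c • fderiv ℂ φ 0 (a * g 1, g 2) = 0 := by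
        have e2 : ((a * g 1, g 2) : ℂ × ℂ) = g 1 • L (1, 0) + g 2 • L (0, 1) := by
          rw [hLap, hLap]
          ext
          · simp only [Prod.fst_add, Prod.smul_fst, smul_eq_mul, mul_one, mul_zero, add_zero]
            ring
          · simp only [Prod.snd_add, Prod.smul_snd, smul_eq_mul, mul_one, mul_zero, zero_add]
        rw [e2, map_add, map_smul, map_smul, smul_add, smul_comm c (g 1), smul_comm c (g 2)]
        exact hsum
      exact (smul_eq_zero.1 e1).resolve_left hc0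
    have hw0 := hinj _ hw
    have hg1 : g 1 = 0 := by
      have := congrArg Prod.fst hw0
      simp only [Prod.fst_zero] at this
      exact (mul_eq_zero.1 this).resolve_left ha0
    have hg2 : g 2 = 0 := congrArg Prod.snd hw0
    intro i
    fin_cases i
    · exact hg0
    · exact hg1
    · exact hg2

theorem NPair.ls (h : NPair Q e) : LS Q e where
  hom := h.hom
  pos := h.pos
  deg := h.deg
  smooth := h.smooth
  base := h.meet
  node _ hx hV h0 h1 hn := nodeAt h hx hV h0 h1 hn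

/-- **Two sections on a half plane.** -/
theorem half_axis_v2 (h : NPair Q e) (C₀ : ℝ) : ∃ W : ℝ, 0 < W ∧ ∀ c B : ℝ, 0 < c → ∃ ε : ℝ, 0 < ε ∧ ∀ (σ ρ : ℝ) (f g : ℂ → EN (n + 2)), (σ = 1 ∨ σ = -1) →
      IsSec Q f (HP σ ρ) → IsSec Q g (HP σ ρ) →
      (∀ z ∈ HP σ ρ, |z.re| * fs (f z) (deriv f z) ≤ C₀) → (∀ z ∈ HP σ ρ, |z.re| * fs (g z) (deriv g z) ≤ C₀) →
      (∀ z ∈ HP σ ρ, |z.re| ≤ W → ‖f z‖ ≤ B ∧ c ≤ ‖nv Q (f z)‖ ∧ ‖g z - f z‖ ≤ ε * ‖f z‖) → ∀ z ∈ HP σ ρ, f z = g z := by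
  obtain ⟨L⟩ := leftEnd h.ls
  obtain ⟨L'⟩ := leftEnd h.sw.ls
  exact Pool.Agent.H87.JZ.half_axis_J L L' h.hom h.pos (two_le_sum h) C₀

end Pool.Agent.TCN
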