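import Pool.Agent.TCN.NodeNear
import Mathlib.RingTheory.Nullstellensatz

/-!
# TCN Crit: finitely many critical values of the pencil

As `TC/Crit.lean`, for nodal curves: let `K` be the set of the unit vectors `u` on the cone of `V` with `nv Q u = 0` and `F₂ u ≠ 0`.  It is closed: if `u` is in its closure and `F₂ u = 0`, then `u` is a node of `C₂`, and the points `x` near `u` with `nv Q x = 0` are multiples of `u`
(`node_isol`), so `F₂ x = 0`.  So `F₁` is bounded on the critical points with `F₂ = 1`, and takes only finitely many values there (`crit_alg`).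
-/

set_option autoImplicit false

open Topology Filter Metric

namespace Pool.Agent.TCN

open Pool.Agent.H36.BP (EN fs wd Sub)
open Pool.Agent.TC (ev grad OnV IsSec Sec nv dt cross cross_ne_zero_iff nv_apply continuous_nv continuous_ev isClosed_onV ev_smul)

variable {n : ℕ} {Q : Fin (n + 2) → MvPolynomial (Fin (n + 3)) ℂ} {e : Fin (n + 2) → ℕ}

/-- a polynomial which is bounded on the zero set of an ideal is there a root of a fixed polynomial in one variable -/
private theorem crit_alg {σ : Type} [Finite σ] (I : Ideal (MvPolynomial σ ℂ)) (f : MvPolynomial σ ℂ) (B : ℝ)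
    (hB : ∀ x : σ → ℂ, (∀ p ∈ I, MvPolynomial.eval x p = 0) → ‖MvPolynomial.eval x f‖ ≤ B) :
    ∃ P : Polynomial ℂ, P ≠ 0 ∧ ∀ x : σ → ℂ, (∀ p ∈ I, MvPolynomial.eval x p = 0) → P.eval (MvPolynomial.eval x f) = 0 := by
  classical
  have h1 : ∀ c : {c : ℂ // B < ‖c‖}, ∃ b : MvPolynomial σ ℂ, b * (f - MvPolynomial.C c.1) - 1 ∈ I := by
    intro c
    have htop : I ⊔ Ideal.span {f - MvPolynomial.C c.1} = ⊤ := by
      by_contra hne
      obtain ⟨M, hM, hle⟩ := Ideal.exists_le_maximal _ hne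
      obtain ⟨x, hx⟩ := MvPolynomial.isMaximal_iff_eq_vanishingIdeal_singleton.1 hM
      have hz : ∀ p ∈ M, MvPolynomial.eval x p = 0 := by
        intro p hp
        rw [hx, MvPolynomial.mem_vanishingIdeal_singleton_iff] at hp
        simpa [MvPolynomial.aeval_eq_eval] using hp
      have h2 : MvPolynomial.eval x f = c.1 := by
        have h3 := hz (f - MvPolynomial.C c.1) (hle (Ideal.mem_sup_right (Ideal.mem_span_singleton_self _)))
        rw [map_sub, MvPolynomial.eval_C, sub_eq_zero] at h3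
        exact h3
      have h4 := hB x fun p hp => hz p (hle (Ideal.mem_sup_left hp))
      rw [h2] at h4
      exact absurd c.2 (not_lt.2 h4)
    have hmem : (1 : MvPolynomial σ ℂ) ∈ I ⊔ Ideal.span {f - MvPolynomial.C c.1} := by rw [htop]; trivial
    obtain ⟨a, ha, b, hb, hab⟩ := Submodule.mem_sup.1 hmem
    obtain ⟨d, hd⟩ := Ideal.mem_span_singleton'.1 hb
    refine ⟨d, ?_⟩
    rw [hd, ← hab]
    have : b - (a + b) = -a := by ring
    rw [this]
    exact I.neg_mem ha
  choose b hb using h1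
  have hli : ¬ LinearIndependent ℂ fun c : {c : ℂ // B < ‖c‖} => (Ideal.Quotient.mkₐ ℂ I) (b c) := by
    intro hli
    have h2 := hli.cardinal_le_rank
    have h3 : Module.rank ℂ (MvPolynomial σ ℂ ⧸ I) ≤ Module.rank ℂ (MvPolynomial σ ℂ) :=
      LinearMap.rank_le_of_surjective (Ideal.Quotient.mkₐ ℂ I).toLinearMap (Ideal.Quotient.mkₐ_surjective ℂ I)
    have h4 : Module.rank ℂ (MvPolynomial σ ℂ) ≤ Cardinal.aleph0 := by
      rw [← (MvPolynomial.basisMonomials σ ℂ).mk_eq_rank'']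
      exact Cardinal.mk_le_aleph0
    have h5 : Countable {c : ℂ // B < ‖c‖} := Cardinal.mk_le_aleph0_iff.1 (h2.trans (h3.trans h4))
    have h6 : ({c : ℂ | B < ‖c‖} : Set ℂ).Countable := h5
    have h7 : Dense ({c : ℂ | B < ‖c‖} : Set ℂ)ᶜ := h6.dense_compl ℝ
    have hopen : IsOpen {c : ℂ | B < ‖c‖} := isOpen_lt continuous_const continuous_norm
    have hne : ({c : ℂ | B < ‖c‖} : Set ℂ).Nonempty := by
      refine ⟨((|B| + 1 : ℝ) : ℂ), ?_⟩
      rw [Set.mem_ofPred_eq, Complex.norm_real, Real.norm_eq_abs, abs_of_pos (by positivity)]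
      linarith [le_abs_self B]
    obtain ⟨c, hc1, hc2⟩ := h7.inter_open_nonempty _ hopen hne
    exact hc2 hc1
  obtain ⟨s, g, hsum, i₀, hi₀, hg⟩ := not_linearIndependent_iff.1 hli
  refine ⟨∑ i ∈ s, Polynomial.C (g i) * ∏ j ∈ s.erase i, (Polynomial.X - Polynomial.C j.1), ?_, ?_⟩
  · intro h0
    have h2 := congrArg (Polynomial.eval i₀.1) h0
    rw [Polynomial.eval_finsetSum, Polynomial.eval_zero, Finset.sum_eq_single i₀] at h2
    · rw [Polynomial.eval_mul, Polynomial.eval_C, Polynomial.eval_prod, mul_eq_zero] at h2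
      rcases h2 with h2 | h2
      · exact hg h2
      · obtain ⟨j, hj, h3⟩ := Finset.prod_eq_zero_iff.1 h2
        rw [Polynomial.eval_sub, Polynomial.eval_X, Polynomial.eval_C, sub_eq_zero] at h3
        exact (Finset.ne_of_mem_erase hj) (Subtype.ext h3.symm)
    · intro i _ hi
      rw [Polynomial.eval_mul, Polynomial.eval_prod]
      rw [Finset.prod_eq_zero (Finset.mem_erase.2 ⟨hi.symm, hi₀⟩), mul_zero]
      rw [Polynomial.eval_sub, Polynomial.eval_X, Polynomial.eval_C, sub_self]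
    · intro h3
      exact absurd hi₀ h3
  · intro x hx
    have hβ : ∀ i, MvPolynomial.eval x (b i) * (MvPolynomial.eval x f - i.1) = 1 := by
      intro i
      have h2 := hx _ (hb i)
      rw [map_sub, map_mul, map_sub, MvPolynomial.eval_C, map_one, sub_eq_zero] at h2
      exact h2
    have hmem : (∑ i ∈ s, MvPolynomial.C (g i) * b i) ∈ I := by
      rw [← Ideal.Quotient.eq_zero_iff_mem]
      rw [map_sum]
      rw [← hsum]
      refine Finset.sum_congr rfl fun i _ => ?_
      rw [← map_smul, MvPolynomial.smul_eq_C_mul]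
      rfl
    have h0 := hx _ hmem
    rw [map_sum] at h0
    have h3 : ∀ i ∈ s, MvPolynomial.eval x (MvPolynomial.C (g i) * b i) * ∏ j ∈ s, (MvPolynomial.eval x f - j.1) =
        Polynomial.eval (MvPolynomial.eval x f) (Polynomial.C (g i) * ∏ j ∈ s.erase i, (Polynomial.X - Polynomial.C j.1)) := by
      intro i hi
      rw [← Finset.mul_prod_erase s (fun j => MvPolynomial.eval x f - j.1) hi, map_mul, MvPolynomial.eval_C,
        Polynomial.eval_mul, Polynomial.eval_C, Polynomial.eval_prod]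
      simp only [Polynomial.eval_sub, Polynomial.eval_X, Polynomial.eval_C]
      have := hβ i
      linear_combination (g i * ∏ j ∈ s.erase i, (MvPolynomial.eval x f - j.1)) * this
    rw [Polynomial.eval_finsetSum, ← Finset.sum_congr rfl h3, ← Finset.sum_mul, h0, zero_mul]

/-- the components of the normal vector are polynomials -/
private theorem crit_poly (Q : Fin (n + 2) → MvPolynomial (Fin (n + 3)) ℂ) (i : Fin (n + 3)) :
    ∃ p : MvPolynomial (Fin (n + 3)) ℂ, ∀ x : EN (n + 2), ev p x = nv Q x i := by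
  refine ⟨(-1) ^ (i : ℕ) * Matrix.det (Matrix.of fun a b => MvPolynomial.pderiv (i.succAbove b) (Q a)), fun x => ?_⟩
  rw [nv_apply, cross, ev, map_mul, map_pow, map_neg, map_one, RingHom.map_det]
  rfl

private theorem crit_onV_smul (h : NPair Q e) {x : EN (n + 2)} (hx : OnV Q x) (c : ℂ) : OnV Q (c • x) := fun j hj => by
  rw [ev_smul (h.hom j), hx j hj, mul_zero]

private theorem crit_nv_smul (h : NPair Q e) {x : EN (n + 2)} (hx : nv Q x = 0) (c : ℂ) : nv Q (c • x) = 0 := by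
  ext i
  rw [nv_apply]
  have h1 : (fun j => grad (Q j) (c • x)) = fun j => (c ^ (e j - 1)) • grad (Q j) x := by
    funext j
    rw [Pool.Agent.TC.grad_smul (h.pos j) (h.hom j)]
  rw [h1, Pool.Agent.TC.cross_smul]
  have h2 : cross (fun j => grad (Q j) x) i = 0 := by
    rw [← nv_apply, hx]
    rfl
  simp [h2]

/-- the first form is bounded on the critical points where the second form is `1` -/
private theorem crit_bdd (h : NPair Q e) : ∃ B : ℝ, ∀ x : EN (n + 2), OnV Q x → nv Q x = 0 → ev (Q 1) x = 1 → ‖ev (Q 0) x‖ ≤ B := by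
  set K : Set (EN (n + 2)) := {u | ‖u‖ = 1 ∧ OnV Q u ∧ nv Q u = 0 ∧ ev (Q 1) u ≠ 0} with hK
  have hKc : IsCompact K := by
    have h1 : IsClosed K := by
      have h2 : IsClosed ({u : EN (n + 2) | ‖u‖ = 1} ∩ ({u | OnV Q u} ∩ {u | nv Q u = 0})) :=
        (isClosed_eq continuous_norm continuous_const).inter
          ((isClosed_onV Q).inter (isClosed_eq (continuous_nv Q) continuous_const))
      rw [← closure_subset_iff_isClosed]
      intro u hu
      obtain ⟨hu1, hu2, hu3⟩ := h2.closure_subset_iff.2 (fun w hw => ⟨hw.1, hw.2.1, hw.2.2.1⟩) hu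
      refine ⟨hu1, hu2, hu3, fun h0 => ?_⟩
      have hu0 : u ≠ 0 := by
        rintro rfl
        have h4 : ‖(0 : EN (n + 2))‖ = 1 := hu1
        rw [norm_zero] at h4
        exact zero_ne_one h4
      obtain ⟨x, hx, hxK⟩ := (mem_closure_iff_nhds.1 hu _ (h.node_isol hu0 hu2 (Or.inr h0) hu3))
      obtain ⟨a, rfl⟩ := hx hxK.2.1 hxK.2.2.1
      exact hxK.2.2.2 (by rw [ev_smul (h.hom 1), h0, mul_zero])
    refine (isCompact_sphere (0 : EN (n + 2)) 1).of_isClosed_subset h1 ?_
    intro u hu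
    rw [mem_sphere_zero_iff_norm]
    exact hu.1
  have hpos := h.pos 1
  have hunit : ∀ x : EN (n + 2), OnV Q x → nv Q x = 0 → ev (Q 1) x = 1 →
      0 < ‖x‖ ∧ (((‖x‖⁻¹ : ℝ) : ℂ) • x) ∈ K ∧ ‖ev (Q 1) (((‖x‖⁻¹ : ℝ) : ℂ) • x)‖ = (‖x‖⁻¹) ^ e 1 := by
    intro x hV hnv h1
    have hx : x ≠ 0 := by
      rintro rfl
      have h2 := ev_smul (h.hom 1) 0 (0 : EN (n + 2))
      rw [smul_zero, zero_pow (by omega), zero_mul, h1] at h2
      exact one_ne_zero h2
    have hn : 0 < ‖x‖ := norm_pos_iff.2 hx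
    refine ⟨hn, ⟨?_, crit_onV_smul h hV _, crit_nv_smul h hnv _, ?_⟩, ?_⟩
    · rw [norm_smul, Complex.norm_real, Real.norm_eq_abs, abs_of_pos (by positivity), inv_mul_cancel₀ hn.ne']
    · rw [ev_smul (h.hom 1), h1, mul_one]
      exact pow_ne_zero _ (by exact_mod_cast (inv_pos.2 hn).ne')
    · rw [ev_smul (h.hom 1), h1, mul_one, norm_pow, Complex.norm_real, Real.norm_eq_abs, abs_of_pos (by positivity)]
  rcases K.eq_empty_or_nonempty with hKe | hKne
  · refine ⟨0, fun x hV hnv h1 => ?_⟩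
    have := (hunit x hV hnv h1).2.1
    rw [hKe] at this
    exact absurd this (Set.notMem_empty _)
  · obtain ⟨u₀, hu₀, hmin⟩ := hKc.exists_isMinOn hKne (continuous_ev (Q 1)).norm.continuousOn
    have hm : 0 < ‖ev (Q 1) u₀‖ := by
      rw [norm_pos_iff]
      exact hu₀.2.2.2
    obtain ⟨B, hB⟩ := (isCompact_closedBall (0 : EN (n + 2)) (max 1 (‖ev (Q 1) u₀‖⁻¹))).exists_bound_of_continuousOn
      (continuous_ev (Q 0)).continuousOn
    refine ⟨B, fun x hV hnv h1 => hB x ?_⟩
    obtain ⟨hn, hu, hval⟩ := hunit x hV hnv h1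
    rw [mem_closedBall_zero_iff]
    by_cases hle : ‖x‖ ≤ 1
    · exact hle.trans (le_max_left _ _)
    · push Not at hle
      have h2 : ‖ev (Q 1) u₀‖ ≤ (‖x‖⁻¹) ^ e 1 := by
        rw [← hval]
        exact hmin hu
      have h3 : (‖x‖⁻¹) ^ e 1 ≤ ‖x‖⁻¹ := pow_le_of_le_one (by positivity) (inv_le_one_of_one_le₀ hle.le) (by omega)
      have h4 : ‖x‖ ≤ ‖ev (Q 1) u₀‖⁻¹ := by
        rw [le_inv_comm₀ hn hm]
        exact h2.trans h3
      exact h4.trans (le_max_right _ _)

theorem NPair.crit_finite (h : NPair Q e) : ∃ T : Finset ℂ, ∀ x : EN (n + 2), OnV Q x → nv Q x = 0 → ev (Q 1) x ≠ 0 →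
    ∃ τ ∈ T, ev (Q 0) x ^ e 1 = τ * ev (Q 1) x ^ e 0 := by
  classical
  obtain ⟨B, hB⟩ := crit_bdd h
  choose np hnp using crit_poly Q
  set Z : Set (Fin (n + 3) → ℂ) := {y | OnV Q (WithLp.toLp 2 y) ∧ nv Q (WithLp.toLp 2 y) = 0 ∧ ev (Q 1) (WithLp.toLp 2 y) = 1} with hZ
  have hmemZ : ∀ y : Fin (n + 3) → ℂ, (∀ p ∈ MvPolynomial.vanishingIdeal ℂ Z, MvPolynomial.eval y p = 0) → y ∈ Z := by
    intro y hy
    refine ⟨fun j hj => ?_, ?_, ?_⟩
    · refine hy (Q j) ?_
      rw [MvPolynomial.mem_vanishingIdeal_iff]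
      intro z hz
      exact hz.1 j hj
    · ext i
      rw [← hnp i]
      refine hy (np i) ?_
      rw [MvPolynomial.mem_vanishingIdeal_iff]
      intro z hz
      have h1 := hnp i (WithLp.toLp 2 z)
      rw [hz.2.1] at h1
      exact h1
    · have h1 := hy (Q 1 - 1) (by
        rw [MvPolynomial.mem_vanishingIdeal_iff]
        intro z hz
        rw [map_sub, map_one, sub_eq_zero]
        exact hz.2.2)
      rw [map_sub, map_one, sub_eq_zero] at h1
      exact h1
  obtain ⟨P, hP, hroot⟩ := crit_alg (MvPolynomial.vanishingIdeal ℂ Z) (Q 0) B (fun y hy => by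
    obtain ⟨h1, h2, h3⟩ := hmemZ y hy
    exact hB _ h1 h2 h3)
  refine ⟨P.roots.toFinset.image fun y => y ^ e 1, ?_⟩
  intro x hV hnv hne
  obtain ⟨c, hc⟩ := IsAlgClosed.exists_pow_nat_eq (ev (Q 1) x)⁻¹ (h.pos 1)
  have hc1 : c ^ e 1 * ev (Q 1) x = 1 := by rw [hc, inv_mul_cancel₀ hne]
  have hval : P.eval (ev (Q 0) (c • x)) = 0 := by
    refine hroot (fun i => (c • x) i) ?_
    intro p hp
    rw [MvPolynomial.mem_vanishingIdeal_iff] at hp
    refine hp (fun i => (c • x) i) ⟨crit_onV_smul h hV c, ?_, ?_⟩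
    · exact crit_nv_smul h hnv c
    · have h1 := ev_smul (h.hom 1) c x
      rw [hc1] at h1
      exact h1
  refine ⟨ev (Q 0) (c • x) ^ e 1, ?_, ?_⟩
  · rw [Finset.mem_image]
    exact ⟨ev (Q 0) (c • x), by rw [Multiset.mem_toFinset, Polynomial.mem_roots hP]; exact hval, rfl⟩
  · rw [ev_smul (h.hom 0)]
    have h1 : (c ^ e 0 * ev (Q 0) x) ^ e 1 * ev (Q 1) x ^ e 0 = ev (Q 0) x ^ e 1 * (c ^ e 1 * ev (Q 1) x) ^ e 0 := by ring
    rw [h1, hc1, one_pow, mul_one]

end Pool.Agent.TCN
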