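import Pool.Agent.TCN.Cmp

/-!
# TCN EndA: a section can not run along a line through a base point

`p` is a base point, `|p| = 1`, `l x = ⟨p, x⟩`.  For a section `f` put `lam = l ∘ f`, `w = f - lam p`.  Suppose that `w` is bounded, that `w` is close to
`w₁` where `lam` is bounded, and that the line `L Λ = Λ p + w₁` satisfies `Q j (L Λ) = val j z₁` for all `Λ`.  The `N + 1` rows `(0, l)`,
`(b j z, dq (Q j) (L (lam z)) (f z))` in `ℂ^(N+2)`, `val j z - val j z₁ = (z - z₁) b j z`, are orthogonal to the vector `(-(z - z₁), f z - L (lam z))` and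
linearly independent, so this vector is `t z • X z` with the cross product `X`, and `t` is holomorphic.  `X z 0 = ⟨p, gq (L (lam z)) (f z)⟩ ~ c₀ lam z ^ K`
for large `lam`, so `c₀ G - (z - z₁)` is small on a circle, hence inside, for `G = - t lam ^ K`.  This contradicts the double zero of `G` at a zero of `lam`.
-/

set_option autoImplicit false

open Topology Filter Metric

namespace Pool.Agent.TCN

open Pool.Agent.TC

open Pool.Agent.H36.BP (EN)

variable {n : ℕ} {Q : Fin (n + 2) → MvPolynomial (Fin (n + 3)) ℂ} {e : Fin (n + 2) → ℕ}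

/-- the right hand sides of the equations of a section -/
noncomputable def vl (j : Fin (n + 2)) (z : ℂ) : ℂ :=
  if j = 0 then Complex.exp z else if j = 1 then Complex.exp (-z) else 0

theorem vl_zero (z : ℂ) : vl (0 : Fin (n + 2)) z = Complex.exp z := by simp [vl]

theorem vl_one (z : ℂ) : vl (1 : Fin (n + 2)) z = Complex.exp (-z) := by simp [vl]

theorem vl_two {j : Fin (n + 2)} (hj : 2 ≤ (j : ℕ)) (z : ℂ) : vl j z = 0 := by
  have h0 : j ≠ 0 := by
    rintro rfl
    simp at hj
  have h1 : j ≠ 1 := by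
    rintro rfl
    simp at hj
  simp [vl, h0, h1]

theorem fin_cases2 (j : Fin (n + 2)) : j = 0 ∨ j = 1 ∨ 2 ≤ (j : ℕ) := by
  rcases j with ⟨j, hj⟩
  rcases j with _ | _ | j
  · left; rfl
  · right; left; rfl
  · right; right; simp

theorem sec_eq_vl {f : ℂ → EN (n + 2)} {U : Set ℂ} (hf : IsSec Q f U) {z : ℂ} (hz : z ∈ U) (j : Fin (n + 2)) :
    ev (Q j) (f z) = vl j z := by
  obtain ⟨h0, h1, h2⟩ := hf.2 z hz
  rcases fin_cases2 j with rfl | rfl | hj
  · rw [h0, vl_zero]
  · rw [h1, vl_one]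
  · rw [h2 j hj, vl_two hj]

theorem differentiable_vl (j : Fin (n + 2)) : Differentiable ℂ (vl j) := by
  rcases fin_cases2 j with rfl | rfl | hj
  · rw [show (vl (0 : Fin (n + 2))) = Complex.exp from funext fun z => vl_zero z]
    exact Complex.differentiable_exp
  · rw [show (vl (1 : Fin (n + 2))) = fun z => Complex.exp (-z) from funext fun z => vl_one z]
    exact differentiable_neg.cexp
  · rw [show vl j = fun _ => (0 : ℂ) from funext fun z => vl_two hj z]
    exact differentiable_const _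

/-- the divided differences of the right hand sides -/
noncomputable def bq (z₁ : ℂ) (z : ℂ) (j : Fin (n + 2)) : ℂ := dslope (vl j) z₁ z

theorem differentiable_bq (z₁ : ℂ) (j : Fin (n + 2)) : Differentiable ℂ fun z => bq z₁ z j := by
  have h := (Complex.differentiableOn_dslope (f := vl j) (c := z₁) (s := Set.univ) Filter.univ_mem).2
    (differentiable_vl j).differentiableOn
  exact differentiableOn_univ.1 h

theorem sub_mul_bq (z₁ z : ℂ) (j : Fin (n + 2)) : (z - z₁) * bq z₁ z j = vl j z - vl j z₁ := by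
  have := sub_smul_dslope (vl j) z₁ z
  rwa [smul_eq_mul] at this

theorem bq_zero (z₁ : ℂ) : bq z₁ z₁ (0 : Fin (n + 2)) = Complex.exp z₁ := by
  rw [bq, dslope_same, show (vl (0 : Fin (n + 2))) = Complex.exp from funext fun z => vl_zero z, Complex.deriv_exp]

theorem bq_one (z₁ : ℂ) : bq z₁ z₁ (1 : Fin (n + 2)) = -Complex.exp (-z₁) := by
  rw [bq, dslope_same, show (vl (1 : Fin (n + 2))) = fun z => Complex.exp (-z) from funext fun z => vl_one z]
  have h1 : HasDerivAt (fun w : ℂ => Complex.exp (-w)) (Complex.exp (-z₁) * -1) z₁ := (hasDerivAt_neg z₁).cexp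
  rw [h1.deriv]
  ring

theorem bq_two (z₁ : ℂ) {j : Fin (n + 2)} (hj : 2 ≤ (j : ℕ)) : bq z₁ z₁ j = 0 := by
  rw [bq, dslope_same, show vl j = fun _ => (0 : ℂ) from funext fun z => vl_two hj z]
  simp

/-- the rows `(0, l)` and `(b j, dq (Q j) x y)` -/
noncomputable def rws (Q : Fin (n + 2) → MvPolynomial (Fin (n + 3)) ℂ) (p : EN (n + 2)) (b : Fin (n + 2) → ℂ) (x y : EN (n + 2)) :
    Fin (n + 3) → Fin (n + 4) → ℂ :=
  Fin.cons (Fin.cons 0 fun i => (starRingEnd ℂ) (p i)) fun j => Fin.cons (b j) (dq (Q j) x y)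

theorem inner_eq_dt (p v : EN (n + 2)) : inner ℂ p v = dt (fun i => (starRingEnd ℂ) (p i)) fun i => v i := by
  rw [PiLp.inner_apply]
  unfold dt
  refine Finset.sum_congr rfl fun i _ => ?_
  rw [RCLike.inner_apply, mul_comm]

theorem cross_rws_zero (p : EN (n + 2)) (b : Fin (n + 2) → ℂ) (x y : EN (n + 2)) :
    cross (rws Q p b x y) 0 = inner ℂ p (gq Q x y) := by
  rw [inner_eq_dt]
  have h1 : (fun i => gq Q x y i) = cross fun j => dq (Q j) x y := rfl
  rw [h1, dt_cross]
  unfold cross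
  rw [Fin.val_zero, pow_zero, one_mul]
  congr 1
  ext a i
  refine Fin.cases ?_ (fun j => ?_) a
  · simp [rws, consMat]
  · simp [rws, consMat]

/-- the vector `(-s, η)` is orthogonal to the rows -/
theorem dt_rws {p : EN (n + 2)} {b : Fin (n + 2) → ℂ} {x y η : EN (n + 2)} {s : ℂ} (h0 : inner ℂ p η = 0)
    (h1 : ∀ j, dt (fun i => η i) (dq (Q j) x y) = s * b j) (a : Fin (n + 3)) :
    dt (rws Q p b x y a) (Fin.cons (-s) fun i => η i) = 0 := by
  refine Fin.cases ?_ (fun j => ?_) a
  · rw [inner_eq_dt] at h0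
    unfold dt at h0 ⊢
    rw [Fin.sum_univ_succ]
    simpa [rws] using h0
  · have h2 := h1 j
    unfold dt at h2 ⊢
    rw [Fin.sum_univ_succ]
    simp only [rws, Fin.cons_succ, Fin.cons_zero]
    have h3 : ∑ i, dq (Q j) x y i * η i = s * b j := by
      rw [← h2]
      exact Finset.sum_congr rfl fun i _ => mul_comm _ _
    rw [h3]
    ring

theorem cross_rws_ne_zero (h : NPair Q e) {p L : EN (n + 2)} {z₁ : ℂ} (hp : ‖p‖ = 1)
    (hg : ∀ j, dt (fun i => p i) (grad (Q j) L) = 0) (hL : ∀ j, ev (Q j) L = vl j z₁) :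
    cross (rws Q p (bq z₁ z₁) L L) ≠ 0 := by
  have hL0 : L ≠ 0 := by
    rintro rfl
    have h1 := hL 0
    have h2 := ev_smul (h.hom 0) 0 (0 : EN (n + 2))
    rw [zero_pow (by have := h.pos 0; omega), zero_mul, smul_zero] at h2
    rw [h2, vl_zero] at h1
    exact Complex.exp_ne_zero _ h1.symm
  have hV : OnV Q L := fun j hj => by rw [hL j, vl_two hj]
  rw [cross_ne_zero_iff, Fintype.linearIndependent_iff]
  intro y hy
  rw [Fin.sum_univ_succ] at hy
  have hc0 : ∑ j : Fin (n + 2), y j.succ * bq z₁ z₁ j = 0 := by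
    have := congrFun hy 0
    simpa [rws] using this
  have hcs : ∀ i : Fin (n + 3), y 0 * (starRingEnd ℂ) (p i) + ∑ j : Fin (n + 2), y j.succ * grad (Q j) L i = 0 := by
    intro i
    have := congrFun hy i.succ
    simpa [rws, dq_self (h.pos _) (h.hom _)] using this
  have hpp : dt (fun i => p i) (fun i => (starRingEnd ℂ) (p i)) = 1 := by
    rw [dt_comm, ← inner_eq_dt, inner_self_eq_norm_sq_to_K, hp]
    norm_num
  have hvec : y 0 • (fun i => (starRingEnd ℂ) (p i)) + ∑ j : Fin (n + 2), y j.succ • grad (Q j) L = 0 := by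
    funext i
    have := hcs i
    simpa using this
  have hy0 : y 0 = 0 := by
    have := congrArg (dt fun i => p i) hvec
    rw [dt_add_right, dt_smul_right, hpp, dt_sum_right, dt_zero_right] at this
    simpa [dt_smul_right, hg] using this
  rw [hy0, zero_smul, zero_add] at hvec
  have h3 : ∑ j : Fin (n + 2), y j.succ * ((e j : ℂ) * vl j z₁) = 0 := by
    have := congrArg (dt fun i => L i) hvec
    rw [dt_sum_right, dt_zero_right] at this
    simpa [dt_smul_right, dt_self_grad (h.hom _), hL] using this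
  have h4 : ∑ i : Fin n, y i.succ.succ.succ * bq z₁ z₁ i.succ.succ = 0 :=
    Finset.sum_eq_zero fun i _ => by rw [bq_two z₁ (by simp), mul_zero]
  have h5 : ∑ i : Fin n, y i.succ.succ.succ * ((e i.succ.succ : ℂ) * vl i.succ.succ z₁) = 0 :=
    Finset.sum_eq_zero fun i _ => by rw [vl_two (by simp), mul_zero, mul_zero]
  have hc0' : y (Fin.succ 0) * bq z₁ z₁ (0 : Fin (n + 2)) + y (Fin.succ (1 : Fin (n + 2))) * bq z₁ z₁ (1 : Fin (n + 2)) = 0 := by
    have h9 := hc0
    rw [Fin.sum_univ_succ, Fin.sum_univ_succ, h4, add_zero] at h9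
    exact h9
  have h3' : y (Fin.succ 0) * ((e 0 : ℂ) * vl (0 : Fin (n + 2)) z₁) +
      y (Fin.succ (1 : Fin (n + 2))) * ((e 1 : ℂ) * vl (1 : Fin (n + 2)) z₁) = 0 := by
    have h9 := h3
    rw [Fin.sum_univ_succ, Fin.sum_univ_succ, h5, add_zero] at h9
    exact h9
  rw [bq_zero, bq_one] at hc0'
  rw [vl_zero, vl_one] at h3'
  have he : Complex.exp z₁ * Complex.exp (-z₁) = 1 := by rw [← Complex.exp_add]; simp
  have hne : ((e 0 : ℂ) + e 1) ≠ 0 := by
    have h6 : ((e 0 + e 1 : ℕ) : ℂ) ≠ 0 := by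
      have := h.pos 0
      exact_mod_cast (by omega : e 0 + e 1 ≠ 0)
    push_cast at h6
    exact h6
  have hy1 : y (Fin.succ 0) = 0 := by
    have h7 : y (Fin.succ 0) * (((e 0 : ℂ) + e 1) * Complex.exp z₁) = 0 := by
      linear_combination (e 1 : ℂ) * hc0' + h3'
    exact (mul_eq_zero.1 h7).resolve_right (mul_ne_zero hne (Complex.exp_ne_zero _))
  have hy2 : y (Fin.succ (1 : Fin (n + 2))) = 0 := by
    rw [hy1, zero_mul, zero_add] at hc0'
    exact (mul_eq_zero.1 hc0').resolve_right (neg_ne_zero.2 (Complex.exp_ne_zero _))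
  have hc : (fun j : Fin (n + 2) => y j.succ) = 0 :=
    h.smooth L hL0 hV (fun j => y j.succ) hy1 hy2 hvec
  intro a
  refine Fin.cases hy0 (fun j => ?_) a
  exact congrFun hc j

theorem inner_nv_ne_zero (h : NPair Q e) {p : EN (n + 2)} (hp : ‖p‖ = 1) (hV : OnV Q p) (h0 : ev (Q 0) p = 0)
    (h1 : ev (Q 1) p = 0) : inner ℂ p (nv Q p) ≠ 0 := by
  have hp0 : p ≠ 0 := by
    rintro rfl
    simp at hp
  have hev : ∀ j, ev (Q j) p = 0 := by
    intro j
    rcases fin_cases2 j with rfl | rfl | hj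
    · exact h0
    · exact h1
    · exact hV j hj
  have hcr : cross (fun j => grad (Q j) p) ≠ 0 := by
    rw [cross_ne_zero_iff, Fintype.linearIndependent_iff]
    intro c hc j
    exact congrFun (h.meet p hp0 hV h0 h1 c hc) j
  obtain ⟨t, ht⟩ := exists_smul_cross (u := fun j => grad (Q j) p) (v := fun i => p i) (fun j => by
    rw [dt_comm, dt_self_grad (h.hom j), hev j, mul_zero]) hcr
  have ht' : p = t • nv Q p := by
    refine PiLp.ext fun i => ?_
    have := congrFun ht i
    simpa [nv_apply] using this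
  intro hcon
  have h3 : inner ℂ p (t • nv Q p) = (0 : ℂ) := by
    rw [inner_smul_right, hcon, mul_zero]
  rw [← ht'] at h3
  exact hp0 (inner_self_eq_zero.1 h3)

end Pool.Agent.TCN
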