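import Pool.Agent.TC.DQ
import Pool.Agent.TCN.Defs
import Pool.Agent.H62.EF.PrA

/-!
# TCN Eul: homogeneous polynomials, Euler's identity, the tangent line of a section
-/

set_option autoImplicit false

open Topology Filter Metric

namespace Pool.Agent.TCN

open Pool.Agent.TC

open Pool.Agent.H36.BP (EN fs wd Sub)

section Poly

variable {N : ℕ}

theorem ev_zero (x : EN N) : ev (0 : MvPolynomial (Fin (N + 1)) ℂ) x = 0 := by
  simp [ev]

theorem ev_add (P Q : MvPolynomial (Fin (N + 1)) ℂ) (x : EN N) : ev (P + Q) x = ev P x + ev Q x := by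
  simp [ev]

theorem ev_mul (P Q : MvPolynomial (Fin (N + 1)) ℂ) (x : EN N) : ev (P * Q) x = ev P x * ev Q x := by
  simp [ev]

theorem differentiable_ev (P : MvPolynomial (Fin (N + 1)) ℂ) : Differentiable ℂ (ev P) := by
  unfold ev
  induction P using MvPolynomial.induction_on with
  | C a => simp only [MvPolynomial.eval_C]; exact differentiable_const _
  | add p q hp hq => simp only [map_add]; exact hp.add hq
  | mul_X p i hp =>
    simp only [map_mul, MvPolynomial.eval_X]
    exact hp.mul (EuclideanSpace.proj (𝕜 := ℂ) i).differentiable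

theorem hasDerivAt_ev' (P : MvPolynomial (Fin (N + 1)) ℂ) {f : ℂ → EN N} {v : EN N} {z : ℂ} (hf : HasDerivAt f v z) :
    HasDerivAt (fun w => ev P (f w)) (∑ i, v i * grad P (f z) i) z := hasDerivAt_ev P hf

/-- Euler's identity -/
theorem euler {P : MvPolynomial (Fin (N + 1)) ℂ} {d : ℕ} (hP : P.IsHomogeneous d) (x : EN N) :
    ∑ i, x i * grad P x i = d * ev P x := by
  have h1 : HasDerivAt (fun w : ℂ => w • x) x 1 := by
    have := (hasDerivAt_id (1 : ℂ)).smul_const x
    simpa using this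
  have h2 := hasDerivAt_ev' P h1
  have h3 : HasDerivAt (fun w : ℂ => ev P (w • x)) (d * ev P x) 1 := by
    have h4 : (fun w : ℂ => ev P (w • x)) = fun w => w ^ d * ev P x := by
      funext w
      exact ev_smul hP w x
    rw [h4]
    have := (hasDerivAt_pow d (1 : ℂ)).mul_const (ev P x)
    simpa using this
  have h5 := h2.unique h3
  simpa using h5

end Poly

variable {n : ℕ} {Q : Fin (n + 2) → MvPolynomial (Fin (n + 3)) ℂ} {e : Fin (n + 2) → ℕ}

theorem _root_.Pool.Agent.TC.OnV.smulN (h : NPair Q e) {x : EN (n + 2)} (hx : OnV Q x) (c : ℂ) : OnV Q (c • x) := by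
  intro j hj
  rw [ev_smul (h.hom j), hx j hj, mul_zero]

theorem isClosed_onV (Q : Fin (n + 2) → MvPolynomial (Fin (n + 3)) ℂ) : IsClosed {x | OnV Q x} := by
  have : {x | OnV Q x} = ⋂ j : Fin (n + 2), ⋂ (_ : 2 ≤ (j : ℕ)), {x | ev (Q j) x = 0} := by
    ext x
    simp [OnV]
  rw [this]
  exact isClosed_iInter fun j => isClosed_iInter fun _ => isClosed_eq (continuous_ev _) continuous_const

/-- the cone over the surface -/
theorem isCone (h : NPair Q e) : Pool.Agent.H14.PP.IsCone {x : EN (n + 2) | x ≠ 0 ∧ OnV Q x} := by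
  refine ⟨fun h0 => h0.1 rfl, fun x hx c hc => ⟨smul_ne_zero hc hx.1, hx.2.smulN h c⟩, ?_⟩
  have h0 : OnV Q (0 : EN (n + 2)) := by
    intro j hj
    have h1 := ev_smul (h.hom j) 0 0
    rw [smul_zero, zero_pow (by have := h.pos j; omega), zero_mul] at h1
    exact h1
  have : insert 0 {x : EN (n + 2) | x ≠ 0 ∧ OnV Q x} = {x | OnV Q x} := by
    ext x
    constructor
    · rintro (rfl | hx)
      · exact h0
      · exact hx.2
    · intro hx
      by_cases hx0 : x = 0
      · exact Or.inl hx0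
      · exact Or.inr ⟨hx0, hx⟩
  rw [this]
  exact isClosed_onV Q

/-- the vectors which are annihilated by `n + 2` independent gradients form a line -/
theorem kernel_line {x v : EN (n + 2)} (hx : x ≠ 0) (hind : ∀ c : Fin (n + 2) → ℂ, ∑ j, c j • grad (Q j) x = 0 → c = 0)
    (hxk : ∀ j, ∑ i, x i * grad (Q j) x i = 0) (hvk : ∀ j, ∑ i, v i * grad (Q j) x i = 0) : ∃ a : ℂ, v = a • x := by
  classical
  set M : Matrix (Fin (n + 2)) (Fin (n + 3)) ℂ := Matrix.of fun j => grad (Q j) x with hM
  have hli : LinearIndependent ℂ M := by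
    rw [Fintype.linearIndependent_iff]
    intro c hc j
    exact congrFun (hind c hc) j
  have hrank : M.rank = n + 2 := by
    have := hli.rank_matrix
    simpa using this
  have hker : Module.finrank ℂ (LinearMap.ker M.mulVecLin) = 1 := by
    have h1 := M.mulVecLin.finrank_range_add_finrank_ker
    rw [Module.finrank_fin_fun] at h1
    have h2 : Module.finrank ℂ (LinearMap.range M.mulVecLin) = n + 2 := hrank
    omega
  have hmem : ∀ w : EN (n + 2), (∀ j, ∑ i, w i * grad (Q j) x i = 0) → (fun i => w i) ∈ LinearMap.ker M.mulVecLin := by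
    intro w hw
    rw [LinearMap.mem_ker, Matrix.mulVecLin_apply]
    funext j
    simp only [Matrix.mulVec, dotProduct, Pi.zero_apply]
    rw [← hw j]
    refine Finset.sum_congr rfl fun i _ => ?_
    simp only [hM, Matrix.of_apply]
    ring
  have hx' := hmem x hxk
  have hv' := hmem v hvk
  have hx0 : (⟨_, hx'⟩ : LinearMap.ker M.mulVecLin) ≠ 0 := by
    intro h0
    apply hx
    have h1 : (fun i => x i) = 0 := congrArg Subtype.val h0
    ext i
    exact congrFun h1 i
  obtain ⟨a, ha⟩ := (finrank_eq_one_iff_of_nonzero' _ hx0).1 hker ⟨_, hv'⟩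
  refine ⟨a, ?_⟩
  have h1 : a • (fun i => x i) = fun i => v i := congrArg Subtype.val ha
  ext i
  exact (congrFun h1 i).symm

/-- the conditions on the gradients on the boundary curves -/
theorem NPair.base_tangent (h : NPair Q e) {x v : EN (n + 2)} (hx : x ≠ 0) (hV : OnV Q x) (h0 : ev (Q 0) x = 0) (h1 : ev (Q 1) x = 0)
    (hvk : ∀ j, ∑ i, v i * grad (Q j) x i = 0) : ∃ a : ℂ, v = a • x := by
  refine kernel_line hx (h.meet x hx hV h0 h1) (fun j => ?_) hvk
  rw [euler (h.hom j)]
  have : ev (Q j) x = 0 := by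
    by_cases hj : 2 ≤ (j : ℕ)
    · exact hV j hj
    · have : j = 0 ∨ j = 1 := by
        rcases j with ⟨j, hj'⟩
        simp only [Fin.ext_iff, Fin.val_zero, Fin.val_one] at hj ⊢
        omega
      rcases this with rfl | rfl
      · exact h0
      · exact h1
  rw [this, mul_zero]

/-- a curve in the base locus is constant -/
theorem NPair.base_fs (h : NPair Q e) {G : ℂ → EN (n + 2)} {z : ℂ} (hG : DifferentiableAt ℂ G z) (hG0 : G z ≠ 0)
    (hV : ∀ᶠ w in 𝓝 z, OnV Q (G w)) (h0 : ∀ᶠ w in 𝓝 z, ev (Q 0) (G w) = 0) (h1 : ∀ᶠ w in 𝓝 z, ev (Q 1) (G w) = 0) :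
    fs (G z) (deriv G z) = 0 := by
  have hz : ∀ j, ∀ᶠ w in 𝓝 z, ev (Q j) (G w) = 0 := by
    intro j
    by_cases hj : 2 ≤ (j : ℕ)
    · exact hV.mono fun w hw => hw j hj
    · have : j = 0 ∨ j = 1 := by
        rcases j with ⟨j, hj'⟩
        simp only [Fin.ext_iff, Fin.val_zero, Fin.val_one] at hj ⊢
        omega
      rcases this with rfl | rfl
      · exact h0
      · exact h1
  obtain ⟨a, ha⟩ := h.base_tangent hG0 hV.self_of_nhds h0.self_of_nhds h1.self_of_nhds (v := deriv G z) (fun j => by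
    have h2 := hasDerivAt_ev' (Q j) hG.hasDerivAt
    have h3 : HasDerivAt (fun w => ev (Q j) (G w)) 0 z :=
      (hasDerivAt_const z (0 : ℂ)).congr_of_eventuallyEq (hz j)
    exact h2.unique h3)
  rw [ha, Pool.Agent.H36.BP.fs_smul_right]
  have h2 := Pool.Agent.H36.BP.fs_inv hG0 (0 : EN (n + 2)) (one_ne_zero (α := ℂ)) 1
  have h3 := Pool.Agent.H36.BP.fs_smul_right (G z) (0 : EN (n + 2)) (0 : ℂ)
  rw [one_smul, smul_zero, zero_add] at h2
  rw [zero_smul, norm_zero, zero_mul] at h3
  rw [h2, h3, mul_zero]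

end Pool.Agent.TCN
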