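import Pool.Agent.TCN.ArmB

/-!
# TCN Ord2: sections over `z ↦ z² + b`

Let `ω = exp (π i / 4)`, `ω² = i`.  For `w ∈ Slit b` the number `(w - b) / i` is in `Complex.slitPlane` (`(w - b) / i` has real part `w.im - b.im` and imaginary part `b.re - w.re`).
`fh w = f (ω ((w - b) / i) ^ (1 / 2 : ℂ))` is holomorphic on `Slit b`, `(ω ((w - b) / i) ^ (1 / 2))² = i (w - b) / i = w - b`, so `fh` is a section on `Slit b`.
`arm`: `G ∈ Sec Q`, `ρ` with `fh = G` on `HP 1 ρ`.  Let `U = {z | 0 < (z / ω).re ∧ ρ < (z ^ 2 + b).im ∧ |b.im| < (z ^ 2 + b).im}`, open and nonempty (`z = t ω`, `t` real and large: `z ^ 2 = i t ^ 2`).  For `z ∈ U` `w = z ^ 2 + b ∈ Slit b ∩ HP 1 ρ` and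
`(w - b) / i = (z / ω) ^ 2` with `0 < (z / ω).re`, so `((w - b) / i) ^ (1 / 2) = z / ω` (`Complex.sq_cpow_two_inv` or the uniqueness of the square root with positive real part), `fh w = f z`.  So `f z = G (z ^ 2 + b)` on `U`, and everywhere by the identity theorem.
-/

set_option autoImplicit false

open Topology Filter Metric

namespace Pool.Agent.TCN

open Pool.Agent.TC

open Pool.Agent.H36.BP (EN fs wd Sub)

variable {n : ℕ} {Q : Fin (n + 2) → MvPolynomial (Fin (n + 3)) ℂ} {e : Fin (n + 2) → ℕ}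

theorem ord_two (h : NPair Q e) {f : ℂ → EN (n + 2)} {b : ℂ} (hf : Differentiable ℂ f) (h0 : ∀ z, ev (Q 0) (f z) = Complex.exp (z ^ 2 + b))
    (h1 : ∀ z, ev (Q 1) (f z) = Complex.exp (-(z ^ 2 + b))) (hV : ∀ z, OnV Q (f z)) : ∃ G ∈ Sec Q, ∀ z, f z = G (z ^ 2 + b) := by
  obtain ⟨om, hom⟩ : ∃ om : ℂ, om ^ 2 = Complex.I :=
    ⟨Complex.I ^ (2⁻¹ : ℂ), Complex.cpow_nat_inv_pow Complex.I (n := 2) two_ne_zero⟩
  have hom0 : om ≠ 0 := by
    rintro rfl
    rw [zero_pow two_ne_zero] at hom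
    exact Complex.I_ne_zero hom.symm
  have hre : ∀ w : ℂ, ((w - b) / Complex.I).re = w.im - b.im := fun w => by
    rw [Complex.div_I]
    simp
  have him : ∀ w : ℂ, ((w - b) / Complex.I).im = b.re - w.re := fun w => by
    rw [Complex.div_I]
    simp
  have hslit : ∀ w ∈ Slit b, (w - b) / Complex.I ∈ Complex.slitPlane := by
    intro w hw
    rw [Complex.mem_slitPlane_iff, hre, him]
    rcases hw with hw | hw
    · right
      intro h3
      apply hw
      linarith
    · left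
      linarith
  obtain ⟨fh, hfh⟩ : ∃ fh : ℂ → EN (n + 2), ∀ w, fh w =
      f (om * ((w - b) / Complex.I) ^ (2⁻¹ : ℂ)) := ⟨_, fun _ => rfl⟩
  have hsq : ∀ w : ℂ, (om * ((w - b) / Complex.I) ^ (2⁻¹ : ℂ)) ^ 2 + b = w := by
    intro w
    have h3 : (((w - b) / Complex.I) ^ (2⁻¹ : ℂ)) ^ 2 = (w - b) / Complex.I :=
      Complex.cpow_nat_inv_pow ((w - b) / Complex.I) (n := 2) two_ne_zero
    rw [mul_pow, hom, h3, mul_div_cancel₀ _ Complex.I_ne_zero, sub_add_cancel]
  have hsec : IsSec Q fh (Slit b) := by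
    refine ⟨?_, fun w _ => ?_⟩
    · intro w hw
      have h3 : DifferentiableAt ℂ (fun w : ℂ => om * ((w - b) / Complex.I) ^ (2⁻¹ : ℂ)) w := by
        have h5 : DifferentiableAt ℂ (fun w : ℂ => (w - b) / Complex.I) w :=
          (differentiableAt_id.sub_const b).div_const _
        exact DifferentiableAt.const_mul (h5.cpow_const (hslit w hw)) om
      have h4 : DifferentiableAt ℂ fh w := by
        have h5 : fh = fun w => f (om * ((w - b) / Complex.I) ^ (2⁻¹ : ℂ)) := funext hfh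
        rw [h5]
        exact (hf _).comp w h3
      exact h4.differentiableWithinAt
    · rw [hfh]
      have h3 := hsq w
      refine ⟨?_, ?_, hV _⟩
      · rw [h0, h3]
      · rw [h1, h3]
  obtain ⟨G, hG, ρ, hρ⟩ := arm h hsec
  refine ⟨G, hG, ?_⟩
  have hGd : Differentiable ℂ G := fun z => (hG.1 z (Set.mem_univ z)).differentiableAt Filter.univ_mem
  have hgd : Differentiable ℂ fun z : ℂ => G (z ^ 2 + b) := fun z =>
    (hGd _).comp z ((differentiableAt_id.pow 2).add_const b)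
  -- the open set where the two functions agree
  have key : ∀ z : ℂ, 0 < (z / om).re → ρ < (z ^ 2 + b).im → |b.im| < (z ^ 2 + b).im →
      f z = G (z ^ 2 + b) := by
    intro z hz1 hz2 hz3
    have h3 : z ^ 2 + b ∈ HP 1 ρ := by
      show ρ < 1 * (z ^ 2 + b).im
      rw [one_mul]
      exact hz2
    rw [← hρ _ h3, hfh]
    have h4 : (z ^ 2 + b - b) / Complex.I = (z / om) ^ 2 := by
      rw [add_sub_cancel_right, div_pow, hom]
    rw [h4, Complex.sq_cpow_two_inv hz1, mul_div_cancel₀ _ hom0]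
  obtain ⟨t, ht⟩ : ∃ t : ℝ, t = 1 + |ρ| + 2 * |b.im| := ⟨_, rfl⟩
  have ht1 : 1 ≤ t := by
    rw [ht]
    have := abs_nonneg ρ
    have := abs_nonneg b.im
    linarith
  have hz0 : ((t : ℂ) * om / om).re = t := by
    rw [mul_div_cancel_right₀ _ hom0, Complex.ofReal_re]
  have hz1 : (((t : ℂ) * om) ^ 2 + b).im = t ^ 2 + b.im := by
    rw [mul_pow, hom, Complex.add_im]
    congr 1
    rw [← Complex.ofReal_pow, Complex.im_ofReal_mul, Complex.I_im, mul_one]
  have ht2 : t ≤ t ^ 2 := by nlinarith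
  have ha := abs_nonneg ρ
  have hb := abs_nonneg b.im
  have hb2 := neg_abs_le b.im
  have ha2 := le_abs_self ρ
  have e1 : 0 < ((t : ℂ) * om / om).re := by
    rw [hz0]
    linarith
  have e2 : ρ < (((t : ℂ) * om) ^ 2 + b).im := by
    rw [hz1]
    linarith
  have e3 : |b.im| < (((t : ℂ) * om) ^ 2 + b).im := by
    rw [hz1]
    linarith
  have c1 : ContinuousAt (fun z : ℂ => (z / om).re) ((t : ℂ) * om) := by fun_prop
  have c2 : ContinuousAt (fun z : ℂ => (z ^ 2 + b).im) ((t : ℂ) * om) := by fun_prop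
  have hev : f =ᶠ[𝓝 ((t : ℂ) * om)] fun z => G (z ^ 2 + b) := by
    filter_upwards [c1.eventually (lt_mem_nhds e1), c2.eventually (lt_mem_nhds e2),
      c2.eventually (lt_mem_nhds e3)] with z h3 h4 h5
    exact key z h3 h4 h5
  have hA : AnalyticOnNhd ℂ f Set.univ := fun z _ => hf.analyticAt z
  have hB : AnalyticOnNhd ℂ (fun z : ℂ => G (z ^ 2 + b)) Set.univ := fun z _ => hgd.analyticAt z
  intro z
  exact congrFun (hA.eq_of_eventuallyEq hB hev) z

end Pool.Agent.TCN
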