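import Pool.Agent.TC.Meet

/-!
# TCN Meet2: a projective surface meets two hypersurfaces in a common point

Let `f`, `g` be forms of degrees `d`, `d' ≥ 1`.  After replacing them by `f ^ d'`, `g ^ d` they have the same degree `d`.  Suppose that there is no such point `x`.  By the Nullstellensatz there is `M ≥ 1` with `X i ^ M ∈ P ⊔ span {f, g}` for all `i`, and `f ∉ P` (`exists_meet` for `g`).
Let `x` be the generic point and `t = g x / f x`.  For every form `G` of degree `m₀ + d` there are forms `G'`, `G''` of degree `m₀` with `G x = G' x * f x + G'' x * g x`, so `G x / f x` is in the `ℂ[t]`-module `W` spanned by the `H x`, `H` a form of degree `m₀`.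
So `G x / f x` is integral over `ℂ[t]` for every form of degree `d`, and `K` is algebraic over `ℂ(t)`: contradiction to the transcendence degree `2`.
-/

set_option autoImplicit false

open MvPolynomial
open Pool.Agent.H17LG.Variety (FunField)
open Pool.Agent.H62.FC (Homog)

namespace Pool.Agent.TCN

private lemma meet2_alg {K : Type} [Field K] [Algebra ℂ K] {S : Set K} (h : IntermediateField.adjoin ℂ S = ⊤) :
    Algebra.IsAlgebraic (Algebra.adjoin ℂ S) K := by
  refine ⟨fun y => ?_⟩
  have hy : y ∈ IntermediateField.adjoin ℂ S := by rw [h]; trivial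
  induction hy using IntermediateField.adjoin_induction with
  | mem y hy => exact isAlgebraic_algebraMap (⟨y, Algebra.subset_adjoin hy⟩ : Algebra.adjoin ℂ S)
  | algebraMap c => exact isAlgebraic_algebraMap (algebraMap ℂ (Algebra.adjoin ℂ S) c)
  | add y y' _ _ h1 h2 => exact h1.add h2
  | inv y _ h1 => exact h1.inv
  | mul y y' _ _ h1 h2 => exact h1.mul h2

/-- a homogeneous component of a product with a form -/
private lemma meet2_comp {N d : ℕ} {q f : MvPolynomial (Fin (N + 1)) ℂ} (hf : f.IsHomogeneous d) (m : ℕ) :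
    homogeneousComponent (m + d) (q * f) = homogeneousComponent m q * f := by
  have h1 : ∀ i, homogeneousComponent (m + d) (homogeneousComponent i q * f) = if m = i then homogeneousComponent m q * f else 0 := by
    intro i
    have h2 : homogeneousComponent i q * f ∈ homogeneousSubmodule (Fin (N + 1)) ℂ (i + d) :=
      (homogeneousComponent_isHomogeneous i q).mul hf
    rw [homogeneousComponent_of_mem h2]
    by_cases h : m = i
    · subst h
      simp
    · rw [if_neg h, if_neg (by omega)]
  conv_lhs => rw [← sum_homogeneousComponent q, Finset.sum_mul, map_sum]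
  rw [Finset.sum_congr rfl fun i _ => h1 i, Finset.sum_ite_eq]
  split_ifs with h
  · rfl
  · rw [homogeneousComponent_eq_zero m q (by simpa using h), zero_mul]

/-- forms of large degree are in the ideal -/
private lemma meet2_mem {N : ℕ} {I : Ideal (MvPolynomial (Fin (N + 1)) ℂ)} {M : Fin (N + 1) → ℕ} (hM : ∀ i, X i ^ M i ∈ I)
    {m : ℕ} (hm : ∑ i, M i ≤ m) {G : MvPolynomial (Fin (N + 1)) ℂ} (hG : G.IsHomogeneous m) : G ∈ I := by
  rw [G.as_sum]
  refine Ideal.sum_mem _ fun s hs => ?_
  have h1 : ∑ i, s i = m := by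
    have h2 := hG (mem_support_iff.1 hs)
    rw [Finsupp.weight_apply, Finsupp.sum_fintype] at h2
    · simpa using h2
    · simp
  obtain ⟨i, -, hi⟩ := Finset.exists_le_of_sum_le (s := Finset.univ) Finset.univ_nonempty (h1 ▸ hm)
  have h3 : monomial s (coeff s G) = monomial (s - Finsupp.single i (M i)) (coeff s G) * X i ^ M i := by
    rw [X_pow_eq_monomial, monomial_mul, mul_one, tsub_add_cancel_of_le]
    rw [Finsupp.single_le_iff]
    exact hi
  rw [h3]
  exact Ideal.mul_mem_left _ _ (hM i)

private lemma meet2_core {N : ℕ} (P : Ideal (MvPolynomial (Fin (N + 1)) ℂ)) [P.IsPrime] (hP : Homog P)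
    (z : Fin 2 → Pool.Agent.H17GT.functionField P) (hz : IsTranscendenceBasis ℂ z) {f g : MvPolynomial (Fin (N + 1)) ℂ} {d : ℕ}
    (hf : f.IsHomogeneous d) (hg : g.IsHomogeneous d) (hd : 1 ≤ d) :
    ∃ x : Fin (N + 1) → ℂ, x ≠ 0 ∧ (∀ R ∈ P, eval x R = 0) ∧ eval x f = 0 ∧ eval x g = 0 := by
  classical
  by_contra hcon
  push Not at hcon
  set I : Ideal (MvPolynomial (Fin (N + 1)) ℂ) := P ⊔ Ideal.span {f, g} with hI
  have hI1 : ∀ i, ∃ M : ℕ, (X i : MvPolynomial (Fin (N + 1)) ℂ) ^ M ∈ I := by
    intro i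
    have h1 : (X i : MvPolynomial (Fin (N + 1)) ℂ) ∈ vanishingIdeal ℂ (zeroLocus ℂ I) := by
      rw [mem_vanishingIdeal_iff]
      intro y hy
      have hy0 : y = 0 := by
        by_contra hne
        refine hcon y hne (fun R hR => ?_) ?_ ?_
        · have h2 := hy R (Ideal.mem_sup_left hR)
          rwa [aeval_eq_eval] at h2
        · have h2 := hy f (Ideal.mem_sup_right (Ideal.subset_span (by simp)))
          rwa [aeval_eq_eval] at h2
        · have h2 := hy g (Ideal.mem_sup_right (Ideal.subset_span (by simp)))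
          rwa [aeval_eq_eval] at h2
      rw [hy0, aeval_X]
      rfl
    rw [vanishingIdeal_zeroLocus_eq_radical] at h1
    exact h1
  choose M hM using hI1
  obtain ⟨x, hx, hgen, -, hFx, -, -⟩ := Pool.Agent.H17LG.exists_point_log P z hz
  obtain ⟨j, hj⟩ : ∃ j, x j ≠ 0 := by
    by_contra h
    push Not at h
    exact hx (funext h)
  have hfx : aeval x f ≠ 0 := by
    intro h0
    have h1 : f ∈ P := (hFx d f hf).1 h0
    obtain ⟨y, hy, hyP, hyg⟩ := Pool.Agent.TC.exists_meet P hP (k := 1) ⟨z, hz⟩ hg hd
    exact hcon y hy hyP (hyP f h1) hyg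
  set t : Pool.Agent.H17GT.functionField P := aeval x g / aeval x f with ht
  set m₀ : ℕ := ∑ i, M i with hm₀
  -- division by `f` and `g`
  have hdiv : ∀ G : MvPolynomial (Fin (N + 1)) ℂ, G.IsHomogeneous (m₀ + d) →
      ∃ G' G'' : MvPolynomial (Fin (N + 1)) ℂ, G'.IsHomogeneous m₀ ∧ G''.IsHomogeneous m₀ ∧
        aeval x G = aeval x G' * aeval x f + aeval x G'' * aeval x g := by
    intro G hG
    have h1 : G ∈ I := meet2_mem hM (by omega) hG
    obtain ⟨p, hp, r, hr, hpg⟩ := Submodule.mem_sup.1 h1
    obtain ⟨q, q', rfl⟩ := Ideal.mem_span_pair.1 hr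
    refine ⟨homogeneousComponent m₀ q, homogeneousComponent m₀ q', homogeneousComponent_isHomogeneous m₀ q,
      homogeneousComponent_isHomogeneous m₀ q', ?_⟩
    have h2 : G = homogeneousComponent (m₀ + d) p + (homogeneousComponent m₀ q * f + homogeneousComponent m₀ q' * g) := by
      rw [← meet2_comp hf, ← meet2_comp hg, ← map_add, ← map_add, hpg, homogeneousComponent_eq_self hG]
    have h3 : aeval x (homogeneousComponent (m₀ + d) p) = 0 :=
      (hFx _ _ (homogeneousComponent_isHomogeneous _ p)).2 (hP p hp _)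
    conv_lhs => rw [h2]
    rw [map_add, h3, zero_add, map_add, map_mul, map_mul]
  set A : Subalgebra ℂ (Pool.Agent.H17GT.functionField P) := Algebra.adjoin ℂ {t} with hA
  have htA : t ∈ A := Algebra.subset_adjoin rfl
  set W₀ : Submodule ℂ (Pool.Agent.H17GT.functionField P) :=
    (homogeneousSubmodule (Fin (N + 1)) ℂ m₀).map (aeval x : MvPolynomial (Fin (N + 1)) ℂ →ₐ[ℂ] _).toLinearMap with hW₀
  have hWfg₀ : W₀.FG := (homogeneousSubmodule_fg _ _ m₀).map _
  set W : Submodule A (Pool.Agent.H17GT.functionField P) := Submodule.span A (W₀ : Set (Pool.Agent.H17GT.functionField P)) with hW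
  have hWfg : W.FG := by
    obtain ⟨s, hs⟩ := hWfg₀
    refine ⟨s, le_antisymm (Submodule.span_le.2 fun y hy => Submodule.subset_span ?_) (Submodule.span_le.2 fun y hy => ?_)⟩
    · show y ∈ W₀
      rw [← hs]
      exact Submodule.subset_span hy
    · have h1 : y ∈ W₀ := hy
      rw [← hs] at h1
      have h2 : (Submodule.span ℂ (s : Set (Pool.Agent.H17GT.functionField P))) ≤
          (Submodule.span A (s : Set (Pool.Agent.H17GT.functionField P))).restrictScalars ℂ :=
        Submodule.span_le_restrictScalars ℂ A _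
      exact h2 h1
  have hWne : W ≠ ⊥ := by
    intro h0
    have h1 : aeval x ((X j : MvPolynomial (Fin (N + 1)) ℂ) ^ m₀) ∈ W :=
      Submodule.subset_span ⟨_, by simpa using (isHomogeneous_X ℂ j).pow m₀, rfl⟩
    rw [h0, Submodule.mem_bot, map_pow, aeval_X] at h1
    exact pow_ne_zero _ hj h1
  have hint : ∀ G : MvPolynomial (Fin (N + 1)) ℂ, G.IsHomogeneous d → IsAlgebraic A (aeval x G / aeval x f) := by
    intro G hG
    have h1 : IsIntegral A (aeval x G / aeval x f) := by
      refine isIntegral_of_smul_mem_submodule W hWne hWfg _ ?_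
      intro y hy
      induction hy using Submodule.span_induction with
      | mem y hy =>
        obtain ⟨H, hH, rfl⟩ := hy
        obtain ⟨G', G'', hG', hG'', h2⟩ := hdiv (H * G) (IsHomogeneous.mul hH hG)
        have h3 : (aeval x G / aeval x f) • (aeval x : MvPolynomial (Fin (N + 1)) ℂ →ₐ[ℂ] _).toLinearMap H =
            aeval x G' + (⟨t, htA⟩ : A) • aeval x G'' := by
          change aeval x G / aeval x f * aeval x H = aeval x G' + t * aeval x G''
          rw [map_mul] at h2
          rw [ht]
          field_simp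
          rw [mul_comm (aeval x G) (aeval x H), h2]
          ring
        rw [h3]
        exact W.add_mem (Submodule.subset_span ⟨G', hG', rfl⟩)
          (W.smul_mem _ (Submodule.subset_span ⟨G'', hG'', rfl⟩))
      | zero => rw [smul_zero]; exact W.zero_mem
      | add y y' _ _ h1 h2 => rw [smul_add]; exact W.add_mem h1 h2
      | smul a y _ h1 => rw [smul_comm]; exact W.smul_mem a h1
    exact h1.isAlgebraic
  have hratio : ∀ i l, IsAlgebraic A (x i / x l) := by
    intro i l
    by_cases hl : x l = 0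
    · rw [hl, div_zero]
      exact isAlgebraic_zero
    · obtain ⟨d', rfl⟩ : ∃ d', d = d' + 1 := ⟨d - 1, by omega⟩
      have h1 := hint (X l ^ d' * X i) (by simpa using ((isHomogeneous_X ℂ l).pow d').mul (isHomogeneous_X ℂ i))
      have h2 := hint (X l ^ d' * X l) (by simpa using ((isHomogeneous_X ℂ l).pow d').mul (isHomogeneous_X ℂ l))
      have h3 : x i / x l = (aeval x (X l ^ d' * X i : MvPolynomial (Fin (N + 1)) ℂ) / aeval x f) *
          (aeval x (X l ^ d' * X l : MvPolynomial (Fin (N + 1)) ℂ) / aeval x f)⁻¹ := by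
        simp only [map_mul, map_pow, aeval_X]
        field_simp
      rw [h3]
      exact h1.mul h2.inv
  have hall : Algebra.IsAlgebraic A (Pool.Agent.H17GT.functionField P) := by
    refine ⟨fun y => ?_⟩
    have hy : y ∈ IntermediateField.adjoin ℂ {y | ∃ i j, y = x i / x j} := by rw [hgen]; trivial
    induction hy using IntermediateField.adjoin_induction with
    | mem y hy =>
      obtain ⟨i, l, rfl⟩ := hy
      exact hratio i l
    | algebraMap c => exact isAlgebraic_algebraMap (algebraMap ℂ A c)
    | add y y' _ _ h1 h2 => exact h1.add h2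
    | inv y _ h1 => exact h1.inv
    | mul y y' _ _ h1 h2 => exact h1.mul h2
  obtain ⟨T, hTS, hT⟩ := exists_isTranscendenceBasis_subset (R := ℂ) ({t} : Set (Pool.Agent.H17GT.functionField P))
  have hcard := hT.cardinalMk_eq hz
  obtain ⟨e⟩ := Cardinal.eq.1 hcard
  have h0 : (e.symm 0 : Pool.Agent.H17GT.functionField P) = e.symm 1 :=
    (hTS (e.symm 0).2 : _ = t).trans (hTS (e.symm 1).2 : _ = t).symm
  exact absurd (e.symm.injective (Subtype.ext h0)) (by simp)

/-- a projective surface meets two hypersurfaces in a common point -/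
theorem exists_meet2 {N : ℕ} (P : Ideal (MvPolynomial (Fin (N + 1)) ℂ)) [P.IsPrime] (hP : Homog P)
    (hz : ∃ z : Fin 2 → FunField P, IsTranscendenceBasis ℂ z) {f g : MvPolynomial (Fin (N + 1)) ℂ} {d d' : ℕ} (hf : f.IsHomogeneous d)
    (hd : 1 ≤ d) (hg : g.IsHomogeneous d') (hd' : 1 ≤ d') :
    ∃ x : Fin (N + 1) → ℂ, x ≠ 0 ∧ (∀ R ∈ P, eval x R = 0) ∧ eval x f = 0 ∧ eval x g = 0 := by
  obtain ⟨z, hz⟩ := hz
  obtain ⟨x, hx, hxP, h1, h2⟩ := meet2_core P hP z hz (f := f ^ d') (g := g ^ d) (hf.pow d') (by
    have := hg.pow d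
    rwa [mul_comm] at this) (Nat.mul_pos hd hd')
  refine ⟨x, hx, hxP, ?_, ?_⟩
  · rw [map_pow] at h1
    exact pow_eq_zero_iff (by omega) |>.1 h1
  · rw [map_pow] at h2
    exact pow_eq_zero_iff (by omega) |>.1 h2

end Pool.Agent.TCN
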