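import Mathlib

/-!
# TC: bounded affine algebraic sets over `ℂ` are finite
-/

set_option autoImplicit false

open MvPolynomial

namespace Pool.Agent.TCN

/-- if `x - c` is a unit for all large complex numbers `c`, then `x` is algebraic (for an algebra of countable dimension) -/
theorem exists_poly_of_unit {A : Type} [CommRing A] [Algebra ℂ A] (hA : Module.rank ℂ A ≤ Cardinal.aleph0) (x : A) (R : ℝ)
    (hu : ∀ c : ℂ, R < ‖c‖ → IsUnit (x - algebraMap ℂ A c)) : ∃ q : Polynomial ℂ, q ≠ 0 ∧ Polynomial.aeval x q = 0 := by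
  classical
  by_contra hcon
  push Not at hcon
  let S : Type := {c : ℂ // R < ‖c‖}
  let w : S → A := fun c => ((hu c.1 c.2).unit⁻¹ : Aˣ)
  have hw : ∀ c : S, (x - algebraMap ℂ A c.1) * w c = 1 := fun c => (hu c.1 c.2).mul_val_inv
  have hli : LinearIndependent ℂ w := by
    rw [linearIndependent_iff']
    intro s a ha j hj
    let q : Polynomial ℂ := ∑ c ∈ s, Polynomial.C (a c) * ∏ d ∈ s.erase c, (Polynomial.X - Polynomial.C (d.1 : ℂ))
    have hq : Polynomial.aeval x q = 0 := by
      have h1 : Polynomial.aeval x q = (∏ d ∈ s, (x - algebraMap ℂ A d.1)) * ∑ c ∈ s, a c • w c := by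
        simp only [q, map_sum, map_mul, map_prod, Polynomial.aeval_C, map_sub, Polynomial.aeval_X]
        rw [Finset.mul_sum]
        refine Finset.sum_congr rfl fun c hc => ?_
        rw [← Finset.mul_prod_erase s _ hc, Algebra.smul_def]
        have := hw c
        calc algebraMap ℂ A (a c) * ∏ d ∈ s.erase c, (x - algebraMap ℂ A d.1)
            = algebraMap ℂ A (a c) * (∏ d ∈ s.erase c, (x - algebraMap ℂ A d.1)) * ((x - algebraMap ℂ A c.1) * w c) := by
              rw [this, mul_one]
          _ = _ := by ring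
      rw [h1, ha, mul_zero]
    have hq0 : q = 0 := by
      by_contra h0
      exact hcon q h0 hq
    have h2 : Polynomial.eval (j.1 : ℂ) q = a j * ∏ d ∈ s.erase j, ((j.1 : ℂ) - d.1) := by
      simp only [q, Polynomial.eval_finsetSum, Polynomial.eval_mul, Polynomial.eval_C, Polynomial.eval_prod, Polynomial.eval_sub,
        Polynomial.eval_X]
      rw [Finset.sum_eq_single j]
      · intro c hc hcj
        rw [Finset.prod_eq_zero (Finset.mem_erase.2 ⟨hcj.symm, hj⟩) (sub_self _), mul_zero]
      · intro h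
        exact absurd hj h
    rw [hq0, Polynomial.eval_zero] at h2
    have h3 : ∏ d ∈ s.erase j, ((j.1 : ℂ) - d.1) ≠ 0 := by
      refine Finset.prod_ne_zero_iff.2 fun d hd => ?_
      rw [sub_ne_zero]
      intro h
      exact (Finset.mem_erase.1 hd).1 (Subtype.ext h.symm)
    rcases mul_eq_zero.1 h2.symm with h | h
    · exact h
    · exact absurd h h3
  have h4 : Cardinal.mk S ≤ Cardinal.aleph0 := (hli.cardinal_le_rank).trans hA
  have h5 : Set.Countable {c : ℂ | R < ‖c‖} := by
    have : Countable S := Cardinal.mk_le_aleph0_iff.1 h4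
    exact Set.countable_coe_iff.1 this
  have h6 := h5.dense_compl ℝ
  have hopen : IsOpen {c : ℂ | R < ‖c‖} := isOpen_lt continuous_const continuous_norm
  have hne : ({c : ℂ | R < ‖c‖}).Nonempty := by
    refine ⟨((|R| + 1 : ℝ) : ℂ), ?_⟩
    simp only [Set.mem_ofPred_eq, Complex.norm_real, Real.norm_eq_abs]
    have := le_abs_self R
    have := le_abs_self (|R| + 1)
    linarith
  obtain ⟨y, hy, hy'⟩ := h6.inter_open_nonempty _ hopen hne
  exact hy' hy

/-- bounded affine algebraic sets are finite -/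
theorem finite_of_bounded {M : ℕ} (I : Set (MvPolynomial (Fin M) ℂ)) (R : ℝ)
    (hb : ∀ x : Fin M → ℂ, (∀ P ∈ I, eval x P = 0) → ∀ i, ‖x i‖ ≤ R) : {x : Fin M → ℂ | ∀ P ∈ I, eval x P = 0}.Finite := by
  classical
  let J : Ideal (MvPolynomial (Fin M) ℂ) := Ideal.span I
  have hrank : Module.rank ℂ (MvPolynomial (Fin M) ℂ ⧸ J) ≤ Cardinal.aleph0 := by
    have h1 : Module.rank ℂ (MvPolynomial (Fin M) ℂ ⧸ J) ≤ Module.rank ℂ (MvPolynomial (Fin M) ℂ) :=
      LinearMap.rank_le_of_surjective (Ideal.Quotient.mkₐ ℂ J).toLinearMap (Ideal.Quotient.mkₐ_surjective ℂ J)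
    refine h1.trans ?_
    rw [MvPolynomial.rank_eq_lift]
    rw [Cardinal.lift_le_aleph0]
    exact Cardinal.mk_le_aleph0
  have hzero : ∀ x ∈ zeroLocus ℂ J, ∀ P ∈ I, eval x P = 0 := by
    intro x hx P hP
    have := hx P (Ideal.subset_span hP)
    simpa [aeval_eq_eval] using this
  have hpoly : ∀ i : Fin M, ∃ q : Polynomial ℂ, q ≠ 0 ∧ Polynomial.aeval (Ideal.Quotient.mk J (X i)) q = 0 := by
    intro i
    refine exists_poly_of_unit hrank _ R fun c hc => ?_
    have htop : J ⊔ Ideal.span {X i - C c} = ⊤ := by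
      rw [← Ideal.radical_eq_top, ← vanishingIdeal_zeroLocus_eq_radical (K := ℂ)]
      have : zeroLocus ℂ (J ⊔ Ideal.span {X i - C c}) = ∅ := by
        ext x
        simp only [Set.mem_empty_iff_false, iff_false]
        intro hx
        have h1 := hx (X i - C c) (Ideal.mem_sup_right (Ideal.subset_span rfl))
        simp only [map_sub, aeval_X, aeval_C, Algebra.algebraMap_self, RingHom.id_apply] at h1
        have h2 := hb x (hzero x (zeroLocus_anti_mono le_sup_left hx)) i
        rw [sub_eq_zero.1 h1] at h2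
        linarith
      rw [this, vanishingIdeal_empty]
    have h1 : (1 : MvPolynomial (Fin M) ℂ) ∈ J ⊔ Ideal.span {X i - C c} := by
      rw [htop]
      trivial
    obtain ⟨y, hy, z, hz, hyz⟩ := Submodule.mem_sup.1 h1
    obtain ⟨w, hw⟩ := Ideal.mem_span_singleton'.1 hz
    have h2 : (Ideal.Quotient.mk J (X i) - algebraMap ℂ _ c) * Ideal.Quotient.mk J w = 1 := by
      have h3 : algebraMap ℂ (MvPolynomial (Fin M) ℂ ⧸ J) c = Ideal.Quotient.mk J (C c) := rfl
      rw [h3, ← map_sub, ← map_mul, mul_comm, hw]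
      have h4 : Ideal.Quotient.mk J y = 0 := Ideal.Quotient.eq_zero_iff_mem.2 hy
      have h5 : Ideal.Quotient.mk J (y + z) = 1 := by rw [hyz, map_one]
      rw [map_add, h4, zero_add] at h5
      exact h5
    exact IsUnit.of_mul_eq_one _ h2
  choose q hq0 hq using hpoly
  refine Set.Finite.subset (Set.Finite.pi (t := fun i : Fin M => {c : ℂ | Polynomial.eval c (q i) = 0}) fun i => ?_) ?_
  · refine Set.Finite.subset ((q i).roots.toFinset.finite_toSet) fun c hc => ?_
    simp only [Finset.mem_coe, Multiset.mem_toFinset]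
    exact (Polynomial.mem_roots (hq0 i)).2 hc
  · intro x hx i _
    have h1 : ∀ P ∈ J, eval x P = 0 := by
      intro P hP
      refine Submodule.span_induction (p := fun P _ => eval x P = 0) ?_ ?_ ?_ ?_ hP
      · exact fun P hP => hx P hP
      · simp
      · intro a b _ _ ha hb
        simp [ha, hb]
      · intro a b _ hb
        simp [hb]
    have h2 : Polynomial.aeval (X i : MvPolynomial (Fin M) ℂ) (q i) ∈ J := by
      rw [← Ideal.Quotient.eq_zero_iff_mem]
      have := hq i
      rw [← Ideal.Quotient.mkₐ_eq_mk ℂ, Polynomial.aeval_algHom_apply] at this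
      exact this
    have h3 := h1 _ h2
    have h4 : eval x (Polynomial.aeval (X i : MvPolynomial (Fin M) ℂ) (q i)) = Polynomial.eval (x i) (q i) := by
      have h5 := Polynomial.aeval_algHom_apply (MvPolynomial.aeval x : MvPolynomial (Fin M) ℂ →ₐ[ℂ] ℂ) (X i) (q i)
      rw [aeval_X] at h5
      rw [← Polynomial.coe_aeval_eq_eval, h5, aeval_eq_eval]
    rw [h4] at h3
    exact h3

end Pool.Agent.TCN
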