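import Pool.Agent.TCN.LgGen
import Pool.Agent.TCN.Pencil
import Pool.Agent.H62.SA.Defs

/-!
# TCN LgSurf: the surface `V ∖ {F₁ F₂ = 0}` is of log general type
-/

set_option autoImplicit false

open MvPolynomial
open Pool.Agent.H17LG.Variety (FunField IsLogGeneralType)
open Pool.Agent.H62.SA (OnBd)
open Pool.Agent.H62.FC (Homog)
open Pool.Agent.H23 (PrimeDivisorOver)

noncomputable section

namespace Pool.Agent.TCN

open Pool.Agent.H36.BP (EN)
open Pool.Agent.TC (ev grad OnV nv dt)

variable {n : ℕ} {Q : Fin (n + 2) → MvPolynomial (Fin (n + 3)) ℂ} {e : Fin (n + 2) → ℕ}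

private def surfFun (n : ℕ) : Fin n ⊕ Fin 2 → Fin (n + 2) := Sum.elim (fun l => l.succ.succ) ![0, 1]

private theorem surfFun_injective (n : ℕ) : Function.Injective (surfFun n) := by
  rintro (a | a) (b | b) hab
  · have h1 : a.succ.succ = b.succ.succ := hab
    rw [Fin.succ_inj, Fin.succ_inj] at h1
    rw [h1]
  · exfalso
    have h1 : a.succ.succ = (![0, 1] : Fin 2 → Fin (n + 2)) b := hab
    fin_cases b
    · exact Fin.succ_ne_zero _ h1
    · exact Fin.succ_ne_zero a (Fin.succ_injective _ h1)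
  · exfalso
    have h1 : (![0, 1] : Fin 2 → Fin (n + 2)) a = b.succ.succ := hab
    fin_cases a
    · exact Fin.succ_ne_zero _ h1.symm
    · exact Fin.succ_ne_zero b (Fin.succ_injective _ h1.symm)
  · have h1 : (![0, 1] : Fin 2 → Fin (n + 2)) a = (![0, 1] : Fin 2 → Fin (n + 2)) b := hab
    fin_cases a <;> fin_cases b
    · rfl
    · exact absurd h1 (by simp)
    · exact absurd h1 (by simp)
    · rfl

private def surfEquiv (n : ℕ) : Fin n ⊕ Fin 2 ≃ Fin (n + 2) :=
  Equiv.ofBijective (surfFun n) ((Fintype.bijective_iff_injective_and_card _).2 ⟨surfFun_injective n, by simp⟩)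

theorem NPair.cert0 (h : NPair Q e) {x : Fin (n + 3) → ℂ} {j : Fin (n + 3)} (hj : x j ≠ 0)
    (hQ : ∀ l : Fin n, eval x (Q l.succ.succ) = 0)
    (hm : ∀ I : Fin n → Fin (n + 3), eval x (Matrix.det (Matrix.of fun l m => pderiv (I m) (Q l.succ.succ))) = 0) : False := by
  have hx0 : (WithLp.toLp 2 x : EN (n + 2)) ≠ 0 := by
    intro h0
    exact hj (congrArg (fun y : EN (n + 2) => y j) h0)
  have hV : OnV Q (WithLp.toLp 2 x : EN (n + 2)) := by
    intro i hi
    obtain ⟨l, rfl⟩ : ∃ l : Fin n, i = l.succ.succ := by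
      refine ⟨⟨(i : ℕ) - 2, by have := i.2; omega⟩, ?_⟩
      ext
      simp only [Fin.val_succ]
      omega
    exact hQ l
  have hli : LinearIndependent ℂ fun (l : Fin n) (i : Fin (n + 3)) => grad (Q l.succ.succ) (WithLp.toLp 2 x : EN (n + 2)) i := by
    rw [Fintype.linearIndependent_iff]
    intro c hc l
    set c' : Fin (n + 2) → ℂ := Fin.cons 0 (Fin.cons 0 c) with hc'
    have h1 : c' = 0 := by
      refine h.smooth _ hx0 hV c' rfl rfl ?_
      rw [Fin.sum_univ_succ, Fin.sum_univ_succ]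
      have h2 : c' 0 = 0 := rfl
      have h3 : c' (Fin.succ 0) = 0 := rfl
      rw [h2, h3, zero_smul, zero_smul, zero_add, zero_add]
      exact hc
    exact congrFun h1 l.succ.succ
  obtain ⟨I, hI⟩ := exists_minor_gen _ hli
  apply hI
  rw [← hm I, RingHom.map_det]
  rfl

theorem NPair.logGeneralType (h : NPair Q e) (P : Ideal (MvPolynomial (Fin (n + 3)) ℂ)) [P.IsPrime] (hPh : Homog P)
    (hP : ∀ j : Fin (n + 2), 2 ≤ (j : ℕ) → Q j ∈ P)
    (h0 : Q 0 ∉ P) (h1 : Q 1 ∉ P) (hdim : ∃ z : Fin 2 → FunField P, IsTranscendenceBasis ℂ z) :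
    IsLogGeneralType (K := FunField P) (k := 2) (OnBd P (fun _ : Fin 1 => Q 0 * Q 1)) := by
  classical
  obtain ⟨y, hy, hyP, -, -, hcross⟩ := h.exists_base P hPh hP hdim
  have hmP : ∃ I, mP Q I ∉ P := by
    obtain ⟨i, hi⟩ := Function.ne_iff.1 hcross
    have hdet : (Matrix.of fun a b => grad (Q a) (WithLp.toLp 2 y : EN (n + 2)) (i.succAbove b)).det ≠ 0 :=
      right_ne_zero_of_mul hi
    refine ⟨i.succAbove, fun hc => hdet ?_⟩
    have h1 := hyP _ hc
    rw [← ev_mP]
    exact h1
  obtain ⟨z, hz⟩ := hdim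
  have hcore := h.lgt_core (G := fun l : Fin n => Q l.succ.succ) (H := (![Q 0, Q 1] : Fin 2 → _)) (surfEquiv n)
    (by
      rintro (l | m)
      · rfl
      · fin_cases m <;> rfl)
    P (fun l => hP _ (by simp)) (fun l => hP _ (by simp))
    (by
      intro m
      fin_cases m
      · exact h0
      · exact h1)
    hmP (F := fun _ : Fin 1 => Q 0 * Q 1)
    (by
      intro K _ _ k E y j hy hyj hQ hG m hm
      have e0 := ord_aeval E hy (Q 0)
      have e1 := ord_aeval E hy (Q 1)
      rw [map_mul, AddValuation.map_mul] at hm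
      have h2 : E.ord (aeval y (Q 0)) = 0 := by
        refine le_antisymm ?_ e0
        rw [← hm]
        exact le_add_of_nonneg_right e1
      have h3 : E.ord (aeval y (Q 1)) = 0 := by
        rw [h2, zero_add] at hm
        exact hm
      refine ⟨fun m => ?_, Or.inr ?_⟩
      · fin_cases m
        · exact h2
        · exact h3
      · obtain ⟨a, ha⟩ := exists_unit_of_null E
          (Sum.elim (fun l : Fin n => Q l.succ.succ) fun I : Fin n → Fin (n + 3) =>
            Matrix.det (Matrix.of fun l m => pderiv (I m) (Q l.succ.succ))) hy hyj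
          (fun x hxj hx => h.cert0 hxj (fun l => hx (Sum.inl l)) fun I => hx (Sum.inr I))
        rcases a with l | I
        · change E.ord (aeval y (Q l.succ.succ)) = 0 at ha
          rw [hQ l, AddValuation.map_zero] at ha
          exact absurd ha (by simp)
        · refine ⟨I, ?_⟩
          rw [← Pool.Agent.H17GT.FormX.minor_eq]
          exact ha)
    (by
      intro K _ _ k E y j hy hyj hQ hG hm
      refine ⟨hm 0, ?_⟩
      rintro (h2 | h2)
      · exact ⟨0, h2⟩
      · exact ⟨1, h2⟩)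
    (k := 1) z hz
  exact Pool.Agent.H17LG.isLogGeneralType_translate (K := Pool.Agent.H17GT.functionField P) (fun E => Iff.rfl) (hcore.2 (by omega))

end Pool.Agent.TCN
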