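import Pool.Agent.TCN.FinA
import Pool.Agent.TCN.LgSurf
import Pool.Agent.TCN.LgFib
import Pool.Agent.Results.MP_64ff02_ag.SmoothSurfaces

/-!
# TCN FinB: the four properties for the complement of two hypersurface sections
-/

set_option autoImplicit false

open MvPolynomial Topology Filter Metric
open Pool.Agent.H17 (PN VanishesAt ZariskiClosedIn HolomorphicInto vanishesAt_mk_iff)
open Pool.Agent.H17LG.Variety (FunField IsLogGeneralType)
open Pool.Agent.H62.FC (Homog)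
open Pool.Agent.H62.SA (locVar OnBd IsProperMap)
open Pool.Agent.H13.OT (OrderTwo PseudoBrodyOrderTwo)
open Pool.Agent.Results.MP_64ff02_ag.SmoothSurfaces (FourProperties)

namespace Pool.Agent.TCN

open Pool.Agent.TC

open Pool.Agent.H36.BP (EN fs wd)

variable {n : ℕ} {Q : Fin (n + 2) → MvPolynomial (Fin (n + 3)) ℂ} {e : Fin (n + 2) → ℕ}

/-- the two norms -/
private theorem norm_toLp_le {N : ℕ} (x : Fin (N + 1) → ℂ) : ‖(WithLp.toLp 2 x : EN N)‖ ≤ Real.sqrt (N + 1) * ‖x‖ := by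
  rw [EuclideanSpace.norm_eq]
  have h1 : ∑ i, ‖(WithLp.toLp 2 x : EN N) i‖ ^ 2 ≤ (N + 1) * ‖x‖ ^ 2 := by
    calc ∑ i, ‖(WithLp.toLp 2 x : EN N) i‖ ^ 2 ≤ ∑ _i : Fin (N + 1), ‖x‖ ^ 2 := by
          refine Finset.sum_le_sum fun i _ => ?_
          exact pow_le_pow_left₀ (norm_nonneg _) (norm_le_pi_norm x i) 2
      _ = (N + 1) * ‖x‖ ^ 2 := by simp
  calc Real.sqrt (∑ i, ‖(WithLp.toLp 2 x : EN N) i‖ ^ 2) ≤ Real.sqrt ((N + 1) * ‖x‖ ^ 2) := Real.sqrt_le_sqrt h1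
    _ = Real.sqrt (N + 1) * ‖x‖ := by
      rw [Real.sqrt_mul (by positivity), Real.sqrt_sq (norm_nonneg _)]

/-- an entire curve of order two in the complement of the two sections, in the coordinates of the cone -/
private theorem lift_data (h : NPair Q e) (P : Ideal (MvPolynomial (Fin (n + 3)) ℂ)) [P.IsPrime]
    (hQ : ∀ j : Fin (n + 2), 2 ≤ (j : ℕ) → Q j ∈ P) {f : ℂ → PN (n + 2)} (hf : OrderTwo f)
    (hU : ∀ z, f z ∈ locVar P (fun _ : Fin 1 => Q 0 * Q 1)) (hne : ∃ z w, f z ≠ f w) :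
    ∃ F₀ : ℂ → EN (n + 2), Differentiable ℂ F₀ ∧ (∀ z, ∃ h0 : WithLp.ofLp (F₀ z) ≠ 0, f z = Projectivization.mk ℂ (WithLp.ofLp (F₀ z)) h0) ∧
      (∀ z, F₀ z ≠ 0) ∧ (∀ z, OnV Q (F₀ z)) ∧ (∀ z, ev (Q 0) (F₀ z) ≠ 0) ∧ (∀ z, ev (Q 1) (F₀ z) ≠ 0) ∧
      (∃ A : ℝ, ∀ r : ℝ, 0 < r → Real.circleAverage (fun z => Real.log ‖F₀ z‖) 0 r ≤ A * (1 + r ^ 2)) ∧
      (∃ z w, ∀ c : ℂ, F₀ z ≠ c • F₀ w) := by
  obtain ⟨F, A, hF, hFf, hA⟩ := hf
  have hn0 : ∀ z, F z ≠ 0 := fun z => (hFf z).1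
  have hff : ∀ z, f z = Projectivization.mk ℂ (F z) (hn0 z) := fun z => (hFf z).2
  have hF₀ : Differentiable ℂ fun z => (WithLp.toLp 2 (F z) : EN (n + 2)) :=
    (PiLp.continuousLinearEquiv 2 ℂ (fun _ : Fin (n + 3) => ℂ)).symm.differentiable.comp hF
  have hn1 : ∀ z, (WithLp.toLp 2 (F z) : EN (n + 2)) ≠ 0 := by
    intro z h1
    apply hn0 z
    funext i
    exact congrArg (fun y : EN (n + 2) => y i) h1
  have hmul : ∀ z, ev (Q 0) (WithLp.toLp 2 (F z)) * ev (Q 1) (WithLp.toLp 2 (F z)) ≠ 0 := by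
    intro z h1
    obtain ⟨m, hm⟩ := (hU z).2
    apply hm
    rw [hff z, vanishesAt_mk_iff ((h.hom 0).mul (h.hom 1)), map_mul]
    exact h1
  refine ⟨fun z => WithLp.toLp 2 (F z), hF₀, fun z => ⟨hn0 z, hff z⟩, hn1, fun z j hj => ?_, fun z h1 => hmul z (by rw [h1, zero_mul]),
    fun z h1 => hmul z (by rw [h1, mul_zero]), ⟨|A| + |Real.log (Real.sqrt ((n + 2 : ℕ) + 1))|, fun r hr => ?_⟩, ?_⟩
  · have h1 := (hU z).1 (Q j) (hQ j hj) (e j) (h.hom j)
    rw [hff z, vanishesAt_mk_iff (h.hom j)] at h1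
    exact h1
  · have hc1 : Continuous fun z => Real.log ‖(WithLp.toLp 2 (F z) : EN (n + 2))‖ :=
      Continuous.log hF₀.continuous.norm fun z => norm_ne_zero_iff.2 (hn1 z)
    have hc2 : Continuous fun z => Real.log ‖F z‖ := Continuous.log hF.continuous.norm fun z => norm_ne_zero_iff.2 (hn0 z)
    set K := Real.log (Real.sqrt ((n + 2 : ℕ) + 1)) with hK
    have h2 : Real.circleAverage (fun z => Real.log ‖(WithLp.toLp 2 (F z) : EN (n + 2))‖) 0 r ≤ Real.circleAverage (fun z => K + Real.log ‖F z‖) 0 r := by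
      refine Real.circleAverage_mono hc1.continuousOn.circleIntegrable' (continuous_const.add hc2).continuousOn.circleIntegrable' fun z _ => ?_
      have h3 : 0 < Real.sqrt ((n + 2 : ℕ) + 1) := Real.sqrt_pos.2 (by positivity)
      have h4 : 0 < ‖F z‖ := norm_pos_iff.2 (hn0 z)
      rw [hK, ← Real.log_mul h3.ne' h4.ne']
      exact Real.log_le_log (norm_pos_iff.2 (hn1 z)) (norm_toLp_le _)
    have h5 : Real.circleAverage (fun z => K + Real.log ‖F z‖) 0 r = K + Real.circleAverage (fun z => Real.log ‖F z‖) 0 r := by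
      rw [Real.circleAverage_fun_add (f₁ := fun _ => K) continuous_const.continuousOn.circleIntegrable' hc2.continuousOn.circleIntegrable',
        Real.circleAverage_const]
    have h6 := hA r hr
    have h7 : K ≤ |K| := le_abs_self K
    have h8 : A * (1 + r ^ 2) ≤ |A| * (1 + r ^ 2) := mul_le_mul_of_nonneg_right (le_abs_self A) (by positivity)
    have h9 : 0 ≤ |K| * r ^ 2 := by positivity
    linarith
  · obtain ⟨z, w, hzw⟩ := hne
    refine ⟨z, w, fun c h1 => hzw ?_⟩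
    rw [hff z, hff w, Projectivization.mk_eq_mk_iff']
    refine ⟨c, ?_⟩
    funext i
    exact (congrArg (fun y : EN (n + 2) => y i) h1).symm

theorem NPair.pseudoBrody (h : NPair Q e) (P : Ideal (MvPolynomial (Fin (n + 3)) ℂ)) [P.IsPrime] (hP : Homog P)
    (hQ : ∀ j : Fin (n + 2), 2 ≤ (j : ℕ) → Q j ∈ P) (hdim : ∃ z : Fin 2 → FunField P, IsTranscendenceBasis ℂ z) :
    PseudoBrodyOrderTwo (locVar P (fun _ : Fin 1 => Q 0 * Q 1)) := by
  obtain ⟨D, R, hR, hRP, hfin⟩ := final_form h P hP hQ hdim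
  obtain ⟨h0, h1⟩ := h.notMem P hP hQ hdim
  refine ⟨{x | x ∈ locVar P (fun _ : Fin 1 => Q 0 * Q 1) ∧ ∀ S ∈ ({R} : Set (MvPolynomial (Fin (n + 3)) ℂ)), VanishesAt S x},
    ⟨{R}, fun S hS => ⟨D, by rw [Set.mem_singleton_iff.1 hS]; exact hR⟩, rfl⟩, ?_, ?_⟩
  · intro heq
    apply hRP
    have hX : ∃ i, X i ∉ P := by
      obtain ⟨t, ht⟩ := exists_triple P hP hdim
      have h2 := ht 1 (X 0) (isHomogeneous_X ℂ 0) (X_ne_zero 0)
      rw [rename_X] at h2
      exact ⟨t 0, h2⟩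
    refine Pool.Agent.H17R.mem_of_vanishes_openVar hP (H := ![Q 0, Q 1]) (fun m => ?_) (fun m => ?_) hX hR fun x hx => ?_
    · fin_cases m
      · exact ⟨_, h.hom 0⟩
      · exact ⟨_, h.hom 1⟩
    · fin_cases m
      · exact h0
      · exact h1
    · have hxU : x ∈ locVar P (fun _ : Fin 1 => Q 0 * Q 1) := by
        refine ⟨hx.1, 0, fun h2 => ?_⟩
        unfold VanishesAt at h2
        rw [map_mul] at h2
        rcases mul_eq_zero.1 h2 with h3 | h3
        · exact hx.2 0 h3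
        · exact hx.2 1 h3
      rw [← heq] at hxU
      exact hxU.2 R rfl
  · intro f _ hf hU hne z
    obtain ⟨F₀, hF₀, hff, hn0, hV, he0, he1, hA, hnc⟩ := lift_data h P hQ hf hU hne
    refine ⟨hU z, fun S hS => ?_⟩
    rw [Set.mem_singleton_iff.1 hS]
    obtain ⟨hz0, hz⟩ := hff z
    rw [hz, vanishesAt_mk_iff hR]
    exact hfin F₀ hF₀ hn0 hV he0 he1 hA hnc z

/-- `U` is affine -/
theorem NPair.proper (h : NPair Q e) (P : Ideal (MvPolynomial (Fin (n + 3)) ℂ)) [P.IsPrime] :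
    IsProperMap P (fun _ : Fin 1 => Q 0 * Q 1) (fun _ => Fin.cons (Q 0 * Q 1) fun i : Fin (n + 3) => X i ^ (e 0 + e 1))
      (fun _ => e 0 + e 1) where
  hom m j := by
    refine Fin.cases ?_ (fun i => ?_) j
    · rw [Fin.cons_zero]
      exact (h.hom 0).mul (h.hom 1)
    · rw [Fin.cons_succ]
      have := (isHomogeneous_X ℂ i).pow (e 0 + e 1)
      rwa [one_mul] at this
  zero m := rfl
  rel m k j := by
    obtain rfl : m = k := Subsingleton.elim _ _
    rw [sub_self]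
    exact P.zero_mem
  noZero x _ := by
    obtain ⟨i, hi⟩ : ∃ i, x.rep i ≠ 0 := by
      by_contra hcon
      push Not at hcon
      exact x.rep_nonzero (funext hcon)
    refine ⟨0, i.succ, fun h2 => ?_⟩
    unfold VanishesAt at h2
    rw [Fin.cons_succ, map_pow, eval_X] at h2
    exact hi (pow_eq_zero_iff (by have := h.pos 0; omega) |>.1 h2)

theorem NPair.exists_four (h : NPair Q e) (P : Ideal (MvPolynomial (Fin (n + 3)) ℂ)) [P.IsPrime] (hP : Homog P)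
    (hQ : ∀ j : Fin (n + 2), 2 ≤ (j : ℕ) → Q j ∈ P) (hdim : ∃ z : Fin 2 → FunField P, IsTranscendenceBasis ℂ z) :
    ∃ Ξ : Set (PN (n + 2)), FourProperties P (fun _ : Fin 1 => Q 0 * Q 1) Ξ := by
  obtain ⟨h0, h1⟩ := h.notMem P hP hQ hdim
  have hmain := Pool.Agent.Results.MP_64ff02_ag.SmoothSurfaces.result P (fun _ : Fin 1 => Q 0 * Q 1) _ _ hP hdim
    (fun x hx hxP => h.tangent P hQ x hx hxP) (h.proper P) (h.logGeneralType P hP hQ h0 h1 hdim)
  exact (hmain.2.out 1 0).1 (h.pseudoBrody P hP hQ hdim)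

end Pool.Agent.TCN
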