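import Pool.Agent.TC.Eul

/-!
# TCN HessA: second derivatives of polynomials, derivative of the normal vector
-/

set_option autoImplicit false

open MvPolynomial Topology Filter Metric

namespace Pool.Agent.TCN

open Pool.Agent.H36.BP (EN)
open Pool.Agent.TC

section Poly

variable {N : ℕ}

theorem pderiv_comm (i j : Fin (N + 1)) (P : MvPolynomial (Fin (N + 1)) ℂ) : pderiv i (pderiv j P) = pderiv j (pderiv i P) := by
  classical
  have h : ⁅pderiv (R := ℂ) i, pderiv (R := ℂ) j⁆ = 0 := by
    refine MvPolynomial.derivation_ext fun k => ?_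
    rw [Derivation.commutator_apply]
    have h0 : ∀ a b : Fin (N + 1), pderiv (R := ℂ) a (Pi.single (M := fun _ : Fin (N + 1) => MvPolynomial (Fin (N + 1)) ℂ) b 1 k) = 0 := by
      intro a b
      rw [Pi.single_apply]
      split_ifs
      · exact pderiv_one
      · exact map_zero _
    rw [pderiv_X, pderiv_X, h0, h0, sub_zero]
    rfl
  have h1 := congrArg (fun D : Derivation ℂ (MvPolynomial (Fin (N + 1)) ℂ) (MvPolynomial (Fin (N + 1)) ℂ) => D P) h
  simp only [Derivation.commutator_apply, Derivation.coe_zero, Pi.zero_apply] at h1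
  exact sub_eq_zero.1 h1

/-- the derivative of the gradient in the direction `v` -/
noncomputable def hv (P : MvPolynomial (Fin (N + 1)) ℂ) (x v : EN N) : Fin (N + 1) → ℂ := fun l => dt (fun k => v k) (grad (pderiv l P) x)

theorem hasDerivAt_grad (P : MvPolynomial (Fin (N + 1)) ℂ) (x v : EN N) : HasDerivAt (fun s : ℂ => grad P (x + s • v)) (hv P x v) 0 := by
  rw [hasDerivAt_pi]
  intro l
  have h1 : HasDerivAt (fun s : ℂ => x + s • v) v 0 := by
    have := ((hasDerivAt_id (0 : ℂ)).smul_const v).const_add x
    simpa using this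
  have h2 := hasDerivAt_ev (pderiv l P) h1
  rw [zero_smul, add_zero] at h2
  exact h2

/-- Euler's formula for the second derivatives -/
theorem dt_hv_self {P : MvPolynomial (Fin (N + 1)) ℂ} {d : ℕ} (hP : P.IsHomogeneous d) (x v : EN N) :
    dt (fun i => x i) (hv P x v) = ((d - 1 : ℕ) : ℂ) * dt (fun i => v i) (grad P x) := by
  have h1 : dt (fun i => x i) (hv P x v) = ∑ k, v k * dt (fun i => x i) (grad (pderiv k P) x) := by
    simp only [dt, hv, Finset.mul_sum]
    rw [Finset.sum_comm]
    refine Finset.sum_congr rfl fun k _ => Finset.sum_congr rfl fun l _ => ?_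
    simp only [grad]
    rw [pderiv_comm k l]
    ring
  rw [h1]
  simp only [dt_self_grad (hP.pderiv) x]
  simp only [dt, Finset.mul_sum]
  refine Finset.sum_congr rfl fun k _ => ?_
  simp only [grad]
  ring

theorem hv_add (P Q : MvPolynomial (Fin (N + 1)) ℂ) (x v : EN N) : hv (P + Q) x v = hv P x v + hv Q x v := by
  funext l
  simp only [hv, dt, grad, map_add, Pi.add_apply, ev_add, mul_add, Finset.sum_add_distrib]

theorem ev_C_mul (c : ℂ) (P : MvPolynomial (Fin (N + 1)) ℂ) (x : EN N) : ev (C c * P) x = c * ev P x := by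
  simp [ev]

theorem hv_C_mul (c : ℂ) (P : MvPolynomial (Fin (N + 1)) ℂ) (x v : EN N) : hv (C c * P) x v = c • hv P x v := by
  funext l
  simp only [hv, dt, grad, pderiv_C_mul, ev_C_mul, Pi.smul_apply, smul_eq_mul, Finset.mul_sum]
  refine Finset.sum_congr rfl fun k _ => ?_
  ring

theorem grad_mul (P Q : MvPolynomial (Fin (N + 1)) ℂ) (x : EN N) : grad (P * Q) x = ev Q x • grad P x + ev P x • grad Q x := by
  funext l
  simp only [grad, pderiv_mul, ev_add, ev_mul, Pi.add_apply, Pi.smul_apply, smul_eq_mul]
  ring

theorem hv_mul (P Q : MvPolynomial (Fin (N + 1)) ℂ) (x v : EN N) :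
    hv (P * Q) x v = ev Q x • hv P x v + ev P x • hv Q x v + dt (fun k => v k) (grad Q x) • grad P x + dt (fun k => v k) (grad P x) • grad Q x := by
  funext l
  simp only [hv, dt, grad, pderiv_mul, map_add, ev_add, ev_mul, Pi.add_apply, Pi.smul_apply, smul_eq_mul, Finset.mul_sum, Finset.sum_mul, ← Finset.sum_add_distrib]
  refine Finset.sum_congr rfl fun k _ => ?_
  ring

end Poly

section Cross

variable {m : ℕ}

theorem cross_update_smul (u : Fin m → Fin (m + 1) → ℂ) (i : Fin m) (c : ℂ) (w : Fin (m + 1) → ℂ) :
    cross (Function.update u i (c • w)) = c • cross (Function.update u i w) := by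
  have h1 : ∀ w' : Fin (m + 1) → ℂ, ∀ l : Fin (m + 1), (Matrix.of fun a b : Fin m => (Function.update u i w') a (l.succAbove b)) =
      (Matrix.of fun a b : Fin m => u a (l.succAbove b)).updateRow i fun b => w' (l.succAbove b) := by
    intro w' l
    ext a b
    rw [Matrix.updateRow_apply, Matrix.of_apply]
    by_cases h : a = i
    · subst h
      simp
    · simp [h]
  funext l
  simp only [cross, Pi.smul_apply, smul_eq_mul]
  rw [h1, h1]
  have h2 : (fun b : Fin m => (c • w) (l.succAbove b)) = c • fun b : Fin m => w (l.succAbove b) := rfl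
  rw [h2, Matrix.det_updateRow_smul]
  ring

theorem cross_update_sum (u : Fin m → Fin (m + 1) → ℂ) (i : Fin m) (c : Fin m → ℂ) :
    cross (Function.update u i (∑ k, c k • u k)) = c i • cross u := by
  have h1 : ∀ w' : Fin (m + 1) → ℂ, ∀ l : Fin (m + 1), (Matrix.of fun a b : Fin m => (Function.update u i w') a (l.succAbove b)) =
      (Matrix.of fun a b : Fin m => u a (l.succAbove b)).updateRow i fun b => w' (l.succAbove b) := by
    intro w' l
    ext a b
    rw [Matrix.updateRow_apply, Matrix.of_apply]
    by_cases h : a = i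
    · subst h
      simp
    · simp [h]
  funext l
  simp only [cross, Pi.smul_apply, smul_eq_mul]
  rw [h1]
  have h2 : (fun b : Fin m => (∑ k, c k • u k) (l.succAbove b)) = ∑ k, c k • (Matrix.of fun a b : Fin m => u a (l.succAbove b)) k := by
    funext b
    simp [Finset.sum_apply]
  rw [h2, Matrix.det_updateRow_sum]
  simp only [smul_eq_mul]
  ring

end Cross

variable {n : ℕ} {Q : Fin (n + 2) → MvPolynomial (Fin (n + 3)) ℂ}

private theorem hessA_analyticAt_nv (Q : Fin (n + 2) → MvPolynomial (Fin (n + 3)) ℂ) (x : EN (n + 2)) : AnalyticAt ℂ (nv Q) x := by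
  refine analyticAt_toLp fun i => ?_
  refine analyticAt_cross (fun j k => ?_) i
  exact analyticAt_ev _ analyticAt_id

/-- the derivative of the normal vector at a point where the gradients are dependent -/
theorem fderiv_nv_crit (i : Fin (n + 2)) {c : Fin (n + 2) → ℂ} {x : EN (n + 2)} (hc : ∑ k, c k • grad (Q k) x = 0) (v : EN (n + 2)) :
    c i • WithLp.ofLp (fderiv ℂ (nv Q) x v) = cross (Function.update (fun j => grad (Q j) x) i (∑ k, c k • hv (Q k) x v)) := by
  have hnv : ∀ y, c i • (WithLp.ofLp (nv Q y)) = cross (Function.update (fun j => grad (Q j) y) i (∑ k, c k • grad (Q k) y)) := by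
    intro y
    rw [cross_update_sum]
    rfl
  -- the derivative of the left hand side
  have h1 : HasDerivAt (fun s : ℂ => x + s • v) v 0 := by
    have := ((hasDerivAt_id (0 : ℂ)).smul_const v).const_add x
    simpa using this
  have h2 : HasFDerivAt (nv Q) (fderiv ℂ (nv Q) x) (x + (0 : ℂ) • v) := by
    rw [zero_smul, add_zero]
    exact (hessA_analyticAt_nv Q x).differentiableAt.hasFDerivAt
  have h3 := h2.comp_hasDerivAt (0 : ℂ) h1
  have h4 : HasDerivAt (fun s : ℂ => c i • WithLp.ofLp (nv Q (x + s • v))) (c i • WithLp.ofLp (fderiv ℂ (nv Q) x v)) 0 := by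
    have h5 := ((PiLp.continuousLinearEquiv 2 ℂ (fun _ : Fin (n + 3) => ℂ)).toContinuousLinearMap.hasFDerivAt.comp_hasDerivAt (0 : ℂ) h3).const_smul (c i)
    exact h5
  -- the derivative of the right hand side
  have hw : HasDerivAt (fun s : ℂ => ∑ k, c k • grad (Q k) (x + s • v)) (∑ k, c k • hv (Q k) x v) 0 := by
    refine HasDerivAt.fun_sum fun k _ => ?_
    exact (hasDerivAt_grad (Q k) x v).const_smul (c k)
  have h6 : HasDerivAt (fun s : ℂ => c i • WithLp.ofLp (nv Q (x + s • v)))
      (cross (Function.update (fun j => grad (Q j) x) i (∑ k, c k • hv (Q k) x v))) 0 := by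
    rw [hasDerivAt_iff_tendsto_slope]
    have h7 : Tendsto (fun s : ℂ => cross (Function.update (fun j => grad (Q j) (x + s • v)) i (slope (fun s : ℂ => ∑ k, c k • grad (Q k) (x + s • v)) 0 s)))
        (𝓝[≠] 0) (𝓝 (cross (Function.update (fun j => grad (Q j) x) i (∑ k, c k • hv (Q k) x v)))) := by
      refine (continuous_cross.tendsto _).comp ?_
      rw [tendsto_pi_nhds]
      intro j
      by_cases hj : j = i
      · subst hj
        simp only [Function.update_self]
        exact hasDerivAt_iff_tendsto_slope.1 hw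
      · simp only [Function.update_of_ne hj]
        have h8 : Tendsto (fun s : ℂ => x + s • v) (𝓝[≠] 0) (𝓝 x) := by
          have := h1.continuousAt.tendsto
          rw [zero_smul, add_zero] at this
          exact this.mono_left nhdsWithin_le_nhds
        exact ((continuous_grad (Q j)).tendsto x).comp h8
    refine h7.congr' ?_
    filter_upwards [self_mem_nhdsWithin] with s hs
    have hs0 : s ≠ 0 := hs
    have h9 : slope (fun s : ℂ => ∑ k, c k • grad (Q k) (x + s • v)) 0 s = s⁻¹ • ∑ k, c k • grad (Q k) (x + s • v) := by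
      rw [slope_def_module]
      simp only [zero_smul, add_zero, hc, sub_zero]
    rw [h9, cross_update_smul, ← hnv, slope_def_module]
    have h10 : c i • WithLp.ofLp (nv Q (x + (0 : ℂ) • v)) = 0 := by
      rw [hnv, zero_smul, add_zero, hc]
      have := cross_update_smul (fun j => grad (Q j) x) i 0 0
      rw [zero_smul, zero_smul] at this
      exact this
    rw [h10, sub_zero, sub_zero]
  exact h4.unique h6

end Pool.Agent.TCN
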