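import Pool.Agent.TCN.Defs
import Pool.Agent.TCN.HessA

/-!
# TCN HessB: ordinary double points in terms of second derivatives

The condition `NodalAt`: if `F = F₁ F₂` has the gradient `∑_{j ≥ 2} c_j grad Q_j` at `x`, then the form `Hess (F - ∑ c_j Q_j)` on the tangent space of the cone of `V` at `x` has the kernel `ℂ x`.
-/

set_option autoImplicit false

open MvPolynomial Topology Filter Metric

namespace Pool.Agent.TCN

open Pool.Agent.H36.BP (EN)
open Pool.Agent.TC

variable {n : ℕ} {Q : Fin (n + 2) → MvPolynomial (Fin (n + 3)) ℂ} {e : Fin (n + 2) → ℕ}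

/-- every singular point `x` of the divisor `F = 0` of `V` is an ordinary double point -/
def NodalAt (Q : Fin (n + 2) → MvPolynomial (Fin (n + 3)) ℂ) (F : MvPolynomial (Fin (n + 3)) ℂ) (x : EN (n + 2)) : Prop :=
  ∀ c : Fin (n + 2) → ℂ, c 0 = 0 → c 1 = 0 → grad F x = ∑ j, c j • grad (Q j) x →
    ∀ v : EN (n + 2), (∀ j : Fin (n + 2), 2 ≤ (j : ℕ) → dt (fun i => v i) (grad (Q j) x) = 0) →
      (∀ w : EN (n + 2), (∀ j : Fin (n + 2), 2 ≤ (j : ℕ) → dt (fun i => w i) (grad (Q j) x) = 0) →
        dt (fun i => w i) (hv (F - ∑ j, C (c j) * Q j) x v) = 0) → ∃ a : ℂ, v = a • x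

theorem hv_sub {N : ℕ} (P R : MvPolynomial (Fin (N + 1)) ℂ) (x v : EN N) : hv (P - R) x v = hv P x v - hv R x v := by
  have h := hv_add (P - R) R x v
  rw [sub_add_cancel] at h
  rw [h, add_sub_cancel_right]

theorem hv_sum {N : ℕ} {ι : Type*} (s : Finset ι) (c : ι → ℂ) (P : ι → MvPolynomial (Fin (N + 1)) ℂ) (x v : EN N) :
    hv (∑ j ∈ s, C (c j) * P j) x v = ∑ j ∈ s, c j • hv (P j) x v := by
  classical
  induction s using Finset.induction_on with
  | empty =>
    have h := hv_C_mul 0 (0 : MvPolynomial (Fin (N + 1)) ℂ) x v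
    rw [map_zero, zero_mul, zero_smul] at h
    rw [Finset.sum_empty, Finset.sum_empty, h]
  | insert a s ha ih => rw [Finset.sum_insert ha, Finset.sum_insert ha, hv_add, ih, hv_C_mul]

theorem dt_sum_left {m : ℕ} {ι : Type*} (s : Finset ι) (v : Fin (m + 1) → ℂ) (w : ι → Fin (m + 1) → ℂ) :
    dt v (∑ j ∈ s, w j) = ∑ j ∈ s, dt v (w j) := dt_sum_right s v w

theorem idx_cases (j : Fin (n + 2)) : j = 0 ∨ j = 1 ∨ 2 ≤ (j : ℕ) := by
  rcases Nat.lt_or_ge (j : ℕ) 2 with h | h
  · interval_cases hj : (j : ℕ)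
    · exact Or.inl (Fin.ext (by rw [hj]; rfl))
    · exact Or.inr (Or.inl (Fin.ext (by rw [hj]; rfl)))
  · exact Or.inr (Or.inr h)

/-- a dependent family of gradients has a common kernel of dimension at least two -/
theorem kernel_two {u : Fin (n + 2) → Fin (n + 3) → ℂ} (hu : ¬ LinearIndependent ℂ u) (x : Fin (n + 3) → ℂ)
    (hx : ∀ v : Fin (n + 3) → ℂ, (∀ j, dt v (u j) = 0) → ∃ a : ℂ, v = a • x) : False := by
  classical
  set M : Matrix (Fin (n + 2)) (Fin (n + 3)) ℂ := Matrix.of u with hM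
  have hrank : M.rank ≤ n + 1 := by
    by_contra hcon
    push Not at hcon
    apply hu
    rw [linearIndependent_iff_card_le_finrank_span]
    have h1 : M.rank = Module.finrank ℂ (Submodule.span ℂ (Set.range M.row)) := Matrix.rank_eq_finrank_span_row M
    have h2 : (Set.range u).finrank ℂ = M.rank := by
      rw [h1]
      rfl
    rw [h2, Fintype.card_fin]
    omega
  have hker : 2 ≤ Module.finrank ℂ (LinearMap.ker M.mulVecLin) := by
    have h1 := M.mulVecLin.finrank_range_add_finrank_ker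
    rw [Module.finrank_fin_fun] at h1
    have h2 : Module.finrank ℂ (LinearMap.range M.mulVecLin) ≤ n + 1 := hrank
    omega
  have hle : LinearMap.ker M.mulVecLin ≤ Submodule.span ℂ {x} := by
    intro v hv
    rw [LinearMap.mem_ker, Matrix.mulVecLin_apply] at hv
    obtain ⟨a, ha⟩ := hx v (fun j => by
      have h1 := congrFun hv j
      rw [dt_comm]
      exact h1)
    rw [Submodule.mem_span_singleton]
    exact ⟨a, ha.symm⟩
  have h3 := Submodule.finrank_mono hle
  have h4 : Module.finrank ℂ (Submodule.span ℂ {x}) ≤ 1 := by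
    have h5 := finrank_span_finset_le_card (R := ℂ) ({x} : Finset (Fin (n + 3) → ℂ))
    rw [Finset.card_singleton, Finset.coe_singleton] at h5
    exact h5
  omega

/-- the gradients are independent at the common points of the curves -/
theorem meet_of_nodal
    {x : EN (n + 2)} (h0 : ev (Q 0) x = 0) (h1 : ev (Q 1) x = 0) (hN : NodalAt Q (Q 0 * Q 1) x)
    (c : Fin (n + 2) → ℂ) (hc : ∑ j, c j • grad (Q j) x = 0) : c = 0 := by
  by_contra hc0
  have hdep : ¬ LinearIndependent ℂ fun j => grad (Q j) x := by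
    rw [Fintype.not_linearIndependent_iff]
    refine ⟨c, hc, ?_⟩
    by_contra hcon
    push Not at hcon
    exact hc0 (funext hcon)
  refine kernel_two hdep (fun i => x i) fun v hv => ?_
  obtain ⟨a, ha⟩ := hN 0 rfl rfl (by
    rw [grad_mul, h0, h1, zero_smul, zero_smul, add_zero]
    simp) (WithLp.toLp 2 v) (fun j _ => hv j) (fun w _ => by
    rw [hv_sub, hv_mul, h0, h1, hv_sum]
    have e0 : dt (fun k => (WithLp.toLp 2 v : EN (n + 2)) k) (grad (Q 0) x) = 0 := hv 0
    have e1 : dt (fun k => (WithLp.toLp 2 v : EN (n + 2)) k) (grad (Q 1) x) = 0 := hv 1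
    rw [e0, e1]
    simp [dt_zero_right])
  refine ⟨a, ?_⟩
  funext i
  exact congrArg (fun y : EN (n + 2) => y i) ha

/-- nodes are nondegenerate zeros of the normal vector -/
theorem node_of_nodal (hom : ∀ j, (Q j).IsHomogeneous (e j)) (pos : ∀ j, 1 ≤ e j)
    (hV : ∀ x : EN (n + 2), x ≠ 0 → OnV Q x → ∀ c : Fin (n + 2) → ℂ, c 0 = 0 → c 1 = 0 → ∑ j, c j • grad (Q j) x = 0 → c = 0)
    {i i' : Fin (n + 2)} (hii : i = 0 ∧ i' = 1 ∨ i = 1 ∧ i' = 0) {x : EN (n + 2)} (hx : x ≠ 0) (hxV : OnV Q x) (hi : ev (Q i) x = 0)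
    (hi' : ev (Q i') x ≠ 0) (hN : NodalAt Q (Q i * Q i') x) (hnv : nv Q x = 0) {v : EN (n + 2)}
    (hvt : ∀ j : Fin (n + 2), 2 ≤ (j : ℕ) → dt (fun i => v i) (grad (Q j) x) = 0) (hdv : fderiv ℂ (nv Q) x v = 0) : ∃ a : ℂ, v = a • x := by
  classical
  have hne : i ≠ i' := by
    rcases hii with ⟨rfl, rfl⟩ | ⟨rfl, rfl⟩
    · exact Fin.zero_ne_one
    · exact Fin.zero_ne_one.symm
  have hcases : ∀ j, j = i ∨ j = i' ∨ 2 ≤ (j : ℕ) := by
    intro j
    rcases hii with ⟨rfl, rfl⟩ | ⟨rfl, rfl⟩
    · exact idx_cases j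
    · rcases idx_cases j with h | h | h
      · exact Or.inr (Or.inl h)
      · exact Or.inl h
      · exact Or.inr (Or.inr h)
  have hVc : ∀ c : Fin (n + 2) → ℂ, c i = 0 → c i' = 0 → ∑ j, c j • grad (Q j) x = 0 → c = 0 := by
    intro c h1 h2 h3
    rcases hii with ⟨rfl, rfl⟩ | ⟨rfl, rfl⟩
    · exact hV x hx hxV c h1 h2 h3
    · exact hV x hx hxV c h2 h1 h3
  have hev : ∀ j, j ≠ i' → ev (Q j) x = 0 := by
    intro j hj
    rcases hcases j with rfl | rfl | h
    · exact hi
    · exact absurd rfl hj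
    · exact hxV j h
  have heul : ∀ c : Fin (n + 2) → ℂ, dt (fun k => x k) (∑ j, c j • grad (Q j) x) = c i' * (e i' * ev (Q i') x) := by
    intro c
    rw [dt_sum_right]
    simp only [dt_smul_right, dt_self_grad (hom _)]
    rw [Finset.sum_eq_single i' (fun j _ hj => by rw [hev j hj, mul_zero, mul_zero]) (fun h => absurd (Finset.mem_univ _) h)]
  have hei' : (e i' : ℂ) * ev (Q i') x ≠ 0 := by
    refine mul_ne_zero ?_ hi'
    have := pos i'
    exact_mod_cast (by omega : e i' ≠ 0)
  -- the relation of the gradients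
  have hdep : ¬ LinearIndependent ℂ fun j => grad (Q j) x := by
    rw [← cross_ne_zero_iff]
    intro h
    apply h
    have h1 := congrArg WithLp.ofLp hnv
    exact h1
  rw [Fintype.not_linearIndependent_iff] at hdep
  obtain ⟨c, hc, j₀, hj₀⟩ := hdep
  have hci' : c i' = 0 := by
    have h1 := heul c
    rw [hc, dt_zero_right] at h1
    exact (mul_eq_zero.1 h1.symm).resolve_right hei'
  have hci : c i ≠ 0 := by
    intro h1
    exact hj₀ (congrFun (hVc c h1 hci' hc) j₀)
  -- on the tangent space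
  have hT : ∀ w : EN (n + 2), (∀ j : Fin (n + 2), 2 ≤ (j : ℕ) → dt (fun i => w i) (grad (Q j) x) = 0) → dt (fun k => w k) (grad (Q i) x) = 0 := by
    intro w hw
    have h1 : dt (fun k => w k) (∑ j, c j • grad (Q j) x) = c i * dt (fun k => w k) (grad (Q i) x) := by
      rw [dt_sum_right]
      simp only [dt_smul_right]
      refine Finset.sum_eq_single i (fun j _ hj => ?_) (fun h => absurd (Finset.mem_univ _) h)
      rcases hcases j with h | rfl | h
      · exact absurd h hj
      · rw [hci', zero_mul]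
      · rw [hw j h, mul_zero]
    rw [hc, dt_zero_right] at h1
    exact (mul_eq_zero.1 h1.symm).resolve_left hci
  -- the derivative of the normal vector
  obtain ⟨W, hWdef⟩ : ∃ W : Fin (n + 3) → ℂ, W = ∑ k, c k • hv (Q k) x v := ⟨_, rfl⟩
  have hcr : cross (Function.update (fun j => grad (Q j) x) i W) = 0 := by
    rw [hWdef, ← fderiv_nv_crit i hc v, hdv]
    exact smul_zero _
  have hdep2 : ¬ LinearIndependent ℂ (Function.update (fun j => grad (Q j) x) i W) := by
    rw [← cross_ne_zero_iff]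
    exact fun h => h hcr
  rw [Fintype.not_linearIndependent_iff] at hdep2
  obtain ⟨b, hb, j₁, hj₁⟩ := hdep2
  have hb' : b i • W + ∑ j, (Function.update b i 0) j • grad (Q j) x = 0 := by
    rw [← hb]
    have h1 : ∀ j, b j • (Function.update (fun j => grad (Q j) x) i W) j = (if j = i then b i • W else 0) + (Function.update b i 0) j • grad (Q j) x := by
      intro j
      by_cases h : j = i
      · subst h
        rw [Function.update_self, Function.update_self, if_pos rfl, zero_smul, add_zero]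
      · rw [Function.update_of_ne h, Function.update_of_ne h, if_neg h, zero_add]
    rw [Finset.sum_congr rfl fun j _ => h1 j, Finset.sum_add_distrib, Finset.sum_ite_eq' Finset.univ i, if_pos (Finset.mem_univ i)]
  have hxW : dt (fun k => x k) W = 0 := by
    rw [hWdef, dt_sum_right]
    refine Finset.sum_eq_zero fun k _ => ?_
    rw [dt_smul_right, dt_hv_self (hom k)]
    rcases hcases k with rfl | rfl | h
    · rw [hT v hvt, mul_zero, mul_zero]
    · rw [hci', zero_mul]
    · rw [hvt k h, mul_zero, mul_zero]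
  have hbi' : b i' = 0 := by
    have h1 := congrArg (dt fun k => x k) hb'
    rw [dt_add_right, dt_smul_right, hxW, mul_zero, zero_add, heul, Function.update_of_ne hne.symm, dt_zero_right] at h1
    exact (mul_eq_zero.1 h1).resolve_right hei'
  have hbi : b i ≠ 0 := by
    intro h1
    rw [h1, zero_smul, zero_add] at hb'
    have h2 := hVc _ (Function.update_self i 0 b) (by rw [Function.update_of_ne hne.symm]; exact hbi') hb'
    apply hj₁
    by_cases h : j₁ = i
    · rw [h, h1]
    · have h3 := congrFun h2 j₁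
      rwa [Function.update_of_ne h] at h3
  have hwW : ∀ w : EN (n + 2), (∀ j : Fin (n + 2), 2 ≤ (j : ℕ) → dt (fun i => w i) (grad (Q j) x) = 0) → dt (fun k => w k) W = 0 := by
    intro w hw
    have h1 := congrArg (dt fun k => w k) hb'
    rw [dt_add_right, dt_smul_right, dt_sum_right, dt_zero_right] at h1
    have h2 : ∑ j, dt (fun k => w k) ((Function.update b i 0) j • grad (Q j) x) = 0 := by
      refine Finset.sum_eq_zero fun j _ => ?_
      rw [dt_smul_right]
      rcases hcases j with rfl | rfl | h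
      · rw [Function.update_self, zero_mul]
      · rw [Function.update_of_ne hne.symm, hbi', zero_mul]
      · rw [hw j h, mul_zero]
    rw [h2, add_zero] at h1
    exact (mul_eq_zero.1 h1).resolve_left hbi
  -- the multipliers
  obtain ⟨q, hq⟩ : ∃ q, q = ev (Q i') x := ⟨_, rfl⟩
  obtain ⟨c', hc'⟩ : ∃ c' : Fin (n + 2) → ℂ, c' = fun j => -(q / c i) * (Function.update c i 0) j := ⟨_, rfl⟩
  have hc'i : c' i = 0 := by rw [hc']; simp
  have hc'i' : c' i' = 0 := by
    rw [hc']
    simp only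
    rw [Function.update_of_ne hne.symm, hci', mul_zero]
  have hsum : ∀ {M : Type} [AddCommGroup M] [Module ℂ M] (f : Fin (n + 2) → M), ∑ j, c' j • f j = q • f i - (q / c i) • ∑ j, c j • f j := by
    intro M _ _ f
    have h1 : ∀ j, c' j • f j = (if j = i then q • f i else 0) - (q / c i) • (c j • f j) := by
      intro j
      rw [hc']
      simp only
      by_cases h : j = i
      · subst h
        rw [Function.update_self, if_pos rfl, mul_zero, zero_smul, smul_smul, div_mul_cancel₀ _ hci, sub_self]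
      · rw [Function.update_of_ne h, if_neg h, zero_sub, smul_smul, neg_mul, neg_smul]
    rw [Finset.sum_congr rfl fun j _ => h1 j, Finset.sum_sub_distrib, Finset.sum_ite_eq' Finset.univ i, if_pos (Finset.mem_univ i), Finset.smul_sum]
  have hc01 : c' 0 = 0 ∧ c' 1 = 0 := by
    rcases hii with ⟨h1, h2⟩ | ⟨h1, h2⟩
    · exact ⟨h1 ▸ hc'i, h2 ▸ hc'i'⟩
    · exact ⟨h2 ▸ hc'i', h1 ▸ hc'i⟩
  refine hN c' hc01.1 hc01.2 ?_ v hvt fun w hw => ?_
  · rw [hsum, hc, smul_zero, sub_zero, grad_mul, hi, zero_smul, add_zero, hq]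
  · rw [hv_sub, hv_mul, hv_sum, hsum, ← hWdef, hi, zero_smul, add_zero, hT v hvt, zero_smul, add_zero, ← hq]
    have h1 : q • hv (Q i) x v + dt (fun k => v k) (grad (Q i') x) • grad (Q i) x - (q • hv (Q i) x v - (q / c i) • W) =
        dt (fun k => v k) (grad (Q i') x) • grad (Q i) x + (q / c i) • W := by abel
    rw [h1, dt_add_right, dt_smul_right, dt_smul_right, hT w hw, hwW w hw, mul_zero, mul_zero, add_zero]

theorem npair_of_nodal (hom : ∀ j, (Q j).IsHomogeneous (e j)) (pos : ∀ j, 1 ≤ e j) (deg : n + 4 ≤ ∑ j, e j)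
    (hV : ∀ x : EN (n + 2), x ≠ 0 → OnV Q x → ∀ c : Fin (n + 2) → ℂ, c 0 = 0 → c 1 = 0 → ∑ j, c j • grad (Q j) x = 0 → c = 0)
    (hN : ∀ x : EN (n + 2), x ≠ 0 → OnV Q x → ev (Q 0 * Q 1) x = 0 → NodalAt Q (Q 0 * Q 1) x) : NPair Q e where
  hom := hom
  pos := pos
  deg := deg
  smooth := hV
  meet x hx hxV h0 h1 c hc := meet_of_nodal h0 h1 (hN x hx hxV (by rw [ev_mul, h0, zero_mul])) c hc
  node x hx hxV h01 hnv v hv hdv := by
    have hF : ev (Q 0 * Q 1) x = 0 := by
      rw [ev_mul]
      rcases h01 with h | h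
      · rw [h, zero_mul]
      · rw [h, mul_zero]
    have hnot : ¬ (ev (Q 0) x = 0 ∧ ev (Q 1) x = 0) := by
      rintro ⟨h0, h1⟩
      have hind : LinearIndependent ℂ fun j => grad (Q j) x := by
        rw [Fintype.linearIndependent_iff]
        intro c hc j
        exact congrFun (meet_of_nodal h0 h1 (hN x hx hxV hF) c hc) j
      rw [← cross_ne_zero_iff] at hind
      exact hind (congrArg WithLp.ofLp hnv)
    rcases h01 with h | h
    · exact node_of_nodal hom pos hV (Or.inl ⟨rfl, rfl⟩) hx hxV h (fun h1 => hnot ⟨h, h1⟩) (hN x hx hxV hF) hnv hv hdv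
    · refine node_of_nodal hom pos hV (Or.inr ⟨rfl, rfl⟩) hx hxV h (fun h1 => hnot ⟨h1, h⟩) ?_ hnv hv hdv
      rw [mul_comm]
      exact hN x hx hxV hF

end Pool.Agent.TCN
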