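import Pool.Agent.TCN.LgCore
import Pool.Agent.H17LG.ModLFORM

/-!
# TCN LgNod: log general type from minors which need not be units
-/

set_option autoImplicit false

open MvPolynomial
open Pool.Agent.H23 (RatForm regularForms PrimeDivisorOver dualDer fc)
open Pool.Agent.H17GT
open Pool.Agent.H17LG

noncomputable section

namespace Pool.Agent.TCN

variable {K : Type} [Field K] [Algebra ℂ K]

open FormX in
/-- the canonical form along a prime divisor at the centre of which the forms `H` are units and a minor of the Jacobian matrix of the forms `G` is a unit -/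
theorem core0 {N c b k : ℕ} {d : Fin c → ℕ} {δ : Fin b → ℕ} (hd : ∀ l, 1 ≤ d l)
    {G : Fin c → MvPolynomial (Fin (N + 1)) ℂ} {H : Fin b → MvPolynomial (Fin (N + 1)) ℂ}
    (hG : ∀ l, (G l).IsHomogeneous (d l)) (hH : ∀ m, (H m).IsHomogeneous (δ m))
    {x : Fin (N + 1) → K} (hGx : ∀ l, aeval x (G l) = 0)
    (D' : Fin 0 → Derivation ℤ K K)
    (e : (Unit ⊕ (Fin 0 ⊕ Fin (k + 1))) ⊕ Fin c ≃ Fin (N + 1)) (hcard : k + 2 + c = N + 1) {n : ℕ}
    (hdeg : N + 1 + (n + 1) = ∑ l, d l + ∑ m, δ m)
    (ν₀ : Fin c → Fin (N + 1) → K)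
    (hν₀ : Matrix.det (Matrix.of fun a b => jac G x (ν₀ a) b) ≠ 0)
    (E : PrimeDivisorOver K (k + 1)) {g : Fin (k + 1) → K}
    (β : Module.Basis (Fin (k + 1)) K Ω[K⁄ℂ])
    (hη : ∀ i f, 0 ≤ E.ord f → 0 ≤ E.ord (dualDer β i f))
    (s : K) (hs0 : s ≠ 0) (hyO : ∀ i, 0 ≤ E.ord (x i / s))
    (hHy : ∀ m, E.ord (aeval (fun i => x i / s) (H m)) = 0)
    (I : Fin c → Fin (N + 1)) (hI : E.ord (minor G (fun i => x i / s) I) = 0) (i₀ j₀ : Fin (N + 1)) :
    0 ≤ E.ord ((x i₀ * x j₀ ^ n) * (rdet e (Sum.elim (fam x D' (dualDer β)) ν₀) /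
      (Matrix.det (Matrix.of fun a b => jac G x (ν₀ a) b) * ∏ m, aeval x (H m)))) := by
  set y : Fin (N + 1) → K := fun i => x i / s with hy
  have hxy : x = fun i => s * y i := by
    funext i
    rw [hy]
    field_simp
  have hGy : ∀ l, aeval y (G l) = 0 := by
    intro l
    have h1 := hGx l
    rw [hxy, aeval_scale (hG l)] at h1
    exact (mul_eq_zero.1 h1).resolve_left (pow_ne_zero _ hs0)
  set Q : K := ∏ m, aeval y (H m) with hQdef
  have hQord : E.ord Q = 0 := by
    rw [hQdef]
    have : ∀ S : Finset (Fin b), E.ord (∏ m ∈ S, aeval y (H m)) = 0 := by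
      intro S
      induction S using Finset.induction_on with
      | empty => rw [Finset.prod_empty, AddValuation.map_one]
      | insert a S ha ih => rw [Finset.prod_insert ha, AddValuation.map_mul, ih, hHy, add_zero]
    exact this _
  have hQ0 : Q ≠ 0 := by
    intro h0
    rw [h0, AddValuation.map_zero] at hQord
    exact absurd hQord (by simp)
  have hHx' : ∏ m, aeval x (H m) = s ^ (∑ m, δ m) * Q := by
    rw [hQdef, ← Finset.prod_pow_eq_pow_sum, ← Finset.prod_mul_distrib]
    refine Finset.prod_congr rfl fun m _ => ?_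
    conv_lhs => rw [hxy]
    exact aeval_scale (hH m) s y
  set ν : Fin c → Fin (N + 1) → K := fun a => Pi.single (I a) 1 with hν
  have hm0 : minor G y I ≠ 0 := by
    intro h0
    rw [h0, AddValuation.map_zero] at hI
    exact absurd hI (by simp)
  have hJν : Matrix.det (Matrix.of fun a b => jac G x (ν a) b) =
      s ^ (∑ l, (d l - 1)) * minor G y I := by
    have h1 : (Matrix.of fun a b => jac G x (ν a) b) =
        Matrix.of fun a b => s ^ (d b - 1) * (Matrix.of fun a b => jac G y (ν a) b) a b := by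
      ext a b
      rw [Matrix.of_apply, Matrix.of_apply, Matrix.of_apply]
      conv_lhs => rw [hxy]
      exact jac_scale hG s y (ν a) b
    rw [h1, Matrix.det_mul_row, Finset.prod_pow_eq_pow_sum]
    rfl
  have hJν0 : Matrix.det (Matrix.of fun a b => jac G x (ν a) b) ≠ 0 := by
    rw [hJν]
    exact mul_ne_zero (pow_ne_zero _ hs0) hm0
  have hdet := det_mul_det e (jac G x) (fam x D' (dualDer β)) (by
    rintro (u | i | i)
    · exact jac_self hG hGx
    · exact i.elim0
    · exact jac_der hGx (dualDer β i)) ν₀ ν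
  have hscale : rdet e (Sum.elim (fam x D' (dualDer β)) ν) =
      s ^ (k + 2) * rdet e (Sum.elim (fam y D' (dualDer β)) ν) := by
    have h1 := rdet_scale e s y D' D' (dualDer β) ν (fun i => i.elim0) (fun i => i.elim0) (fun i => i.elim0)
    rw [← hxy] at h1
    rw [h1]
    congr 2
    simp
    omega
  have hexp : (n + 1) + (k + 2) = ∑ l, (d l - 1) + ∑ m, δ m := by
    have h1 : ∑ l, (d l - 1) + c = ∑ l, d l := by
      have : ∑ l, d l = ∑ l, ((d l - 1) + 1) := Finset.sum_congr rfl fun l _ => by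
        have := hd l
        omega
      rw [this, Finset.sum_add_distrib, Finset.sum_const, Finset.card_univ, Fintype.card_fin,
        smul_eq_mul, mul_one]
    omega
  have hmain : (x i₀ * x j₀ ^ n) * (rdet e (Sum.elim (fam x D' (dualDer β)) ν₀) /
      (Matrix.det (Matrix.of fun a b => jac G x (ν₀ a) b) * ∏ m, aeval x (H m))) =
      (y i₀ * y j₀ ^ n) * (rdet e (Sum.elim (fam y D' (dualDer β)) ν) *
        (minor G y I * Q)⁻¹) := by
    have h1 : rdet e (Sum.elim (fam x D' (dualDer β)) ν₀) /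
        (Matrix.det (Matrix.of fun a b => jac G x (ν₀ a) b) * ∏ m, aeval x (H m)) =
        rdet e (Sum.elim (fam x D' (dualDer β)) ν) /
        (Matrix.det (Matrix.of fun a b => jac G x (ν a) b) * ∏ m, aeval x (H m)) := by
      rw [← div_div, ← div_div]
      congr 1
      rw [div_eq_div_iff hν₀ hJν0]
      exact hdet
    rw [h1, hscale, hJν, hHx']
    have h2 : x i₀ = s * y i₀ := congrFun hxy i₀
    have h3 : x j₀ = s * y j₀ := congrFun hxy j₀
    have h4 : s ^ (∑ l, (d l - 1)) * minor G y I * (s ^ (∑ m, δ m) * Q) =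
        s ^ ((n + 1) + (k + 2)) * (minor G y I * Q) := by
      rw [hexp, pow_add]
      ring
    rw [h4, h2, h3]
    exact alg_id s (y i₀) (y j₀) _ _ n _ hs0 (mul_ne_zero hm0 hQ0)
  rw [hmain]
  have hO : ∀ i, y i ∈ E.localRing := hyO
  change _ ∈ E.localRing
  refine E.localRing.mul_mem (E.localRing.mul_mem (hO _) (E.localRing.pow_mem (hO _) n))
    (E.localRing.mul_mem ?_ ?_)
  · apply Pool.Agent.H23.det_mem
    intro i j
    rw [Matrix.of_apply]
    rcases e.symm i with (u | i | i) | m
    · exact hO j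
    · exact i.elim0
    · exact hη i _ (hO j)
    · change (Pi.single (I m) 1 : Fin (N + 1) → K) j ∈ E.localRing
      rw [Pi.single_apply]
      split_ifs
      · exact E.localRing.one_mem
      · exact E.localRing.zero_mem
  · change 0 ≤ E.ord _
    have h5 : E.ord (minor G y I * Q) = 0 := by
      rw [AddValuation.map_mul, hI, hQord, add_zero]
    rw [Pool.Agent.H23.val_inv E.ord h5]

/-- What is needed at a prime divisor outside of the boundary. -/
def RegAt {N c b k : ℕ} (G : Fin c → MvPolynomial (Fin (N + 1)) ℂ) (H : Fin b → MvPolynomial (Fin (N + 1)) ℂ) (x : Fin (N + 1) → K)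
    (E : PrimeDivisorOver K k) : Prop :=
  ∃ s : K, s ≠ 0 ∧ (∀ i, 0 ≤ E.ord (x i / s)) ∧ (∀ m, E.ord (aeval (fun i => x i / s) (H m)) = 0) ∧
    ((∃ I, E.ord (allJac G H (fun i => x i / s) I) = 0) ∨ ∃ I, E.ord (FormX.minor G (fun i => x i / s) I) = 0)

/-- What is needed at a prime divisor in the boundary. -/
def LogAt {N c b k : ℕ} (G : Fin c → MvPolynomial (Fin (N + 1)) ℂ) (H : Fin b → MvPolynomial (Fin (N + 1)) ℂ) (x : Fin (N + 1) → K)
    (E : PrimeDivisorOver K k) : Prop :=
  ∃ s : K, s ≠ 0 ∧ (∀ i, 0 ≤ E.ord (x i / s)) ∧ ∃ I, allJac G H (fun i => x i / s) I ≠ 0 ∧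
    (∀ η : Derivation ℂ K K, (∀ f, E.ord f ≤ E.ord (η f)) → ∀ j, E.ord (allJac G H (fun i => x i / s) I) ≤ E.ord (η (x j / s))) ∧
    (E.ord (allJac G H (fun i => x i / s) I) = 0 ∨ ∃ m₁, E.ord (aeval (fun i => x i / s) (H m₁)) = 0 ∧
      ∀ η : Derivation ℂ K K, (∀ f, E.ord f ≤ E.ord (η f)) →
        E.ord (allJac G H (fun i => x i / s) I) ≤ E.ord (η (aeval (fun i => x i / s) (H m₁))))

open FormX in
theorem isLogGeneralType_nod [Algebra.EssFiniteType ℂ K] {N c b k : ℕ} {d : Fin c → ℕ}
    {δ : Fin b → ℕ} (hd : ∀ l, 1 ≤ d l) {G : Fin c → MvPolynomial (Fin (N + 1)) ℂ}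
    {H : Fin b → MvPolynomial (Fin (N + 1)) ℂ} (hG : ∀ l, (G l).IsHomogeneous (d l))
    (hH : ∀ m, (H m).IsHomogeneous (δ m)) {x : Fin (N + 1) → K}
    (hx : x ≠ 0) (hgen : IntermediateField.adjoin ℂ {y | ∃ i j, y = x i / x j} = ⊤)
    (hGx : ∀ l, aeval x (G l) = 0) (hHx : ∀ m, aeval x (H m) ≠ 0) {z : Fin (k + 1) → K}
    (hz : IsTranscendenceBasis ℂ z)
    (η : Fin (k + 1) → Derivation ℂ K K)
    (hli : LinearIndependent K (Sum.elim (fun _ : Unit => x) fun i j => η i (x j)))
    (hcard : k + 2 + c = N + 1) (hb : b = k + 1) (hdeg : N + 2 ≤ ∑ l, d l + ∑ m, δ m)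
    (hmin : ∃ I, minor G x I ≠ 0)
    {B : PrimeDivisorOver K (k + 1) → Prop} (h1 : ∀ E, ¬ B E → RegAt G H x E) (h2 : ∀ E, B E → LogAt G H x E) :
    IsLogGeneralType B := by
  obtain ⟨bb, hbb⟩ := Pool.Agent.H23.exists_basis_kaehler hz
  let e : (Unit ⊕ (Fin 0 ⊕ Fin (k + 1))) ⊕ Fin c ≃ Fin (N + 1) := Fintype.equivOfCardEq (by
    rw [Fintype.card_sum, Fintype.card_sum, Fintype.card_sum, Fintype.card_unit, Fintype.card_fin,
      Fintype.card_fin, Fintype.card_fin, Fintype.card_fin]
    omega)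
  let D' : Fin 0 → Derivation ℤ K K := fun i => i.elim0
  obtain ⟨j₀, hj₀⟩ : ∃ j, x j ≠ 0 := by
    by_contra hcon
    push Not at hcon
    exact hx (funext hcon)
  obtain ⟨I, hI⟩ := hmin
  set ν₀ : Fin c → Fin (N + 1) → K := fun a => Pi.single (I a) 1 with hν₀
  set Δ : K := Matrix.det (Matrix.of fun a b => jac G x (ν₀ a) b) with hΔ
  have hΔ0 : Δ ≠ 0 := hI
  set Hp : K := ∏ m, aeval x (H m) with hHp
  have hHx0 : Hp ≠ 0 := Finset.prod_ne_zero_iff.mpr fun m _ => hHx m
  obtain ⟨n, hn⟩ : ∃ n, N + 1 + (n + 1) = ∑ l, d l + ∑ m, δ m :=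
    ⟨∑ l, d l + ∑ m, δ m - (N + 1 + 1), by omega⟩
  have hli' : LinearIndependent K (fam x D' η) := by
    let e1 : Unit ⊕ (Fin 0 ⊕ Fin (k + 1)) ≃ Unit ⊕ Fin (k + 1) :=
      (Equiv.refl Unit).sumCongr (Equiv.emptySum (Fin 0) (Fin (k + 1)))
    have h5 := hli.comp e1 e1.injective
    have h6 : fam x D' η = (Sum.elim (fun _ : Unit => x) fun i j => η i (x j)) ∘ e1 := by
      funext s
      rcases s with u | i | i
      · rfl
      · exact i.elim0
      · rfl
    rw [h6]
    exact h5
  -- nonvanishing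
  have hδ : rdet e (Sum.elim (fam x D' η) ν₀) ≠ 0 := by
    have hB : LinearIndependent K (Sum.elim (fam x D' η) ν₀) := by
      rw [Fintype.linearIndependent_iff]
      intro a ha
      rw [Fintype.sum_sum_type] at ha
      simp only [Sum.elim_inl, Sum.elim_inr] at ha
      have hJ0 : ∀ t, jac G x (fam x D' η t) = 0 := by
        rintro (u | i | i)
        · exact jac_self hG hGx
        · exact i.elim0
        · exact jac_der hGx (η i)
      have h1 := congrArg (jac G x) ha
      rw [map_add, map_sum, map_sum, map_zero] at h1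
      simp only [map_smul, hJ0, smul_zero, Finset.sum_const_zero, zero_add] at h1
      have h2 : Matrix.vecMul (fun m => a (Sum.inr m)) (Matrix.of fun a b => jac G x (ν₀ a) b) =
          0 := by
        rw [← h1]
        funext l
        rw [Matrix.vecMul, dotProduct, Finset.sum_apply]
        rfl
      have h3 := Matrix.eq_zero_of_vecMul_eq_zero hΔ0 h2
      have h4 : ∀ m, a (Sum.inr m) = 0 := fun m => congrFun h3 m
      simp only [h4, zero_smul, Finset.sum_const_zero, add_zero] at ha
      have h5 := Fintype.linearIndependent_iff.1 hli' (fun t => a (Sum.inl t)) ha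
      rintro (t | m)
      · exact h5 t
      · exact h4 m
    have h2 : LinearIndependent K (Matrix.of fun i j => Sum.elim (fam x D' η) ν₀ (e.symm i) j).row :=
      hB.comp _ e.symm.injective
    rw [Matrix.linearIndependent_rows_iff_isUnit, Matrix.isUnit_iff_isUnit_det] at h2
    exact h2.ne_zero
  have hchg : rdet e (Sum.elim (fam x D' η) ν₀) = (Matrix.of fun i j => η i (z j)).det *
      rdet e (Sum.elim (fam x D' (dualDer bb)) ν₀) :=
    rdet_change e x D' (dualDer bb) η ν₀ _ fun i f => der_eq_sum bb hbb (η i) f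
  have hR0 : rdet e (Sum.elim (fam x D' (dualDer bb)) ν₀) ≠ 0 := by
    intro h0
    rw [h0, mul_zero] at hchg
    exact hδ hchg
  set R : K := rdet e (Sum.elim (fam x D' (dualDer bb)) ν₀) / (Δ * Hp) with hR
  have hRne : R ≠ 0 := div_ne_zero hR0 (mul_ne_zero hΔ0 hHx0)
  have hform : ∀ bE : Module.Basis (Fin (k + 1)) K Ω[K⁄ℂ],
      R • exteriorPower.ιMulti K (k + 1) (fun i => bb i) =
        (rdet e (Sum.elim (fam x D' (dualDer bE)) ν₀) / (Δ * Hp)) •
          exteriorPower.ιMulti K (k + 1) (fun i => bE i) := by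
    intro bE
    have h1 := Pool.Agent.H23.ιMulti_eq bE (fun i => bb i)
    rw [h1, smul_smul]
    congr 1
    rw [rdet_change e x D' (dualDer bb) (dualDer bE) ν₀ (bE.toMatrix bb) fun i f =>
      dualDer_change bb bE i f, hR, Module.Basis.det_apply]
    ring
  refine ⟨1, le_rfl, R • exteriorPower.ιMulti K (k + 1) (fun i => bb i), ?_, N + 1,
    Fin.cons (x j₀ * x j₀ ^ n) fun i => x i * x j₀ ^ n, ?_, ?_, ?_⟩
  · intro h0
    have h1 := congrArg (fc bb) h0
    rw [map_smul, Pool.Agent.H23.fc_self, map_zero, smul_eq_mul, mul_one] at h1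
    exact hRne h1
  · rw [Fin.cons_zero]
    exact mul_ne_zero hj₀ (pow_ne_zero _ hj₀)
  · intro i E
    obtain ⟨g, bE, hbE, hg0, hg, hη, hη', hη0⟩ := exists_logDivisorCoords hz E
    have hmem : exteriorPower.ιMulti K (k + 1) (fun i => bE i) ∈
        regularForms (k + 1) E.localRing := by
      apply AddSubgroup.subset_closure
      refine ⟨1, g, E.localRing.one_mem, hg, ?_⟩
      rw [one_smul]
      simp only [hbE]
    constructor
    · intro hE
      obtain ⟨s, hs0, hyO, hHy, hcase⟩ := h1 E hE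
      have key : ∀ i, 0 ≤ E.ord ((x i * x j₀ ^ n) * (rdet e (Sum.elim (fam x D' (dualDer bE)) ν₀) / (Δ * Hp))) := by
        intro i
        rcases hcase with ⟨I', hI'⟩ | ⟨I', hI'⟩
        · have h5 := core hd hG hH hGx hHx D' e hcard hb hn ν₀ hΔ0 E (g := g) bE s hs0 hyO (dualDer bE) 1
            (fun i f => by simp [Matrix.one_apply]) I' (fun h0 => by
              rw [h0, AddValuation.map_zero] at hI'
              exact absurd hI' (by simp)) (fun i j => by rw [hI']; exact hη i _ (hyO j))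
            (fun i m => by
              rw [hHy]
              exact hη i _ (by rw [hHy])) (Or.inl hI') i j₀
          rw [Matrix.det_one, one_mul] at h5
          exact h5
        · exact core0 hd hG hH hGx D' e hcard hn ν₀ hΔ0 E (g := g) bE hη s hs0 hyO hHy I' hI' i j₀
      refine ⟨_, _, hmem, hform bE, ?_⟩
      rw [pow_one]
      refine Fin.cases ?_ (fun i => ?_) i
      · rw [Fin.cons_zero]
        exact key j₀
      · rw [Fin.cons_succ]
        exact key i
    · intro hE
      obtain ⟨s, hs0, hyO, I', hI', hη1, hcase⟩ := h2 E hE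
      have hlog : ∀ i f, E.ord f ≤
          E.ord (((Fin.cons (g 0) fun _ => 1 : Fin (k + 1) → K) i • dualDer bE i) f) := by
        intro i f
        rw [Derivation.smul_apply, smul_eq_mul]
        refine Fin.cases ?_ (fun i => ?_) i
        · rw [Fin.cons_zero]
          exact hη0 f
        · rw [Fin.cons_succ, one_mul]
          exact hη' i.succ (Fin.succ_ne_zero i) f
      have key : ∀ i, 0 ≤ E.ord ((x i * x j₀ ^ n) * (rdet e (Sum.elim (fam x D' (dualDer bE)) ν₀) / (Δ * Hp))) + 1 := by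
        intro i
        have h := core hd hG hH hGx hHx D' e hcard hb hn ν₀ hΔ0 E (g := g) bE s hs0 hyO
          (fun i => (Fin.cons (g 0) fun _ => 1 : Fin (k + 1) → K) i • dualDer bE i)
          (Matrix.diagonal (Fin.cons (g 0) fun _ => 1)) (by
            intro i f
            rw [Derivation.smul_apply, smul_eq_mul]
            simp only [Matrix.diagonal_apply, ite_mul, zero_mul, Finset.sum_ite_eq, Finset.mem_univ,
              if_true]) I' hI' (fun i j => hη1 _ (hlog i) j) (fun i m => hlog i _)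
          (by
            rcases hcase with h | ⟨m₁, hm₁, h⟩
            · exact Or.inl h
            · exact Or.inr ⟨m₁, hm₁, fun i => h _ (hlog i)⟩) i j₀
        rw [Matrix.det_diagonal, Fin.prod_univ_succ, AddValuation.map_mul] at h
        simp only [Fin.cons_zero, Fin.cons_succ, Finset.prod_const_one, mul_one] at h
        rw [hg0, add_comm] at h
        exact h
      refine ⟨_, _, hmem, hform bE, ?_⟩
      rw [pow_one]
      refine Fin.cases ?_ (fun i => ?_) i
      · rw [Fin.cons_zero]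
        exact key j₀
      · rw [Fin.cons_succ]
        exact key i
  · set F := IntermediateField.adjoin ℂ (Set.range fun i =>
      (Fin.cons (x j₀ * x j₀ ^ n) (fun i => x i * x j₀ ^ n) : Fin (N + 1 + 1) → K) i /
        (Fin.cons (x j₀ * x j₀ ^ n) (fun i => x i * x j₀ ^ n) : Fin (N + 1 + 1) → K) 0) with hF
    have hmem : ∀ i, x i / x j₀ ∈ F := by
      intro i
      apply IntermediateField.subset_adjoin
      refine ⟨i.succ, ?_⟩
      simp only [Fin.cons_succ, Fin.cons_zero]
      rw [mul_div_mul_right _ _ (pow_ne_zero _ hj₀)]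
    have htop : F = ⊤ := by
      rw [← top_le_iff, ← hgen, IntermediateField.adjoin_le_iff]
      rintro _ ⟨i, j, rfl⟩
      have h1 : x i / x j = (x i / x j₀) / (x j / x j₀) := by
        rw [div_div_div_cancel_right₀ hj₀]
      rw [h1]
      exact F.div_mem (hmem i) (hmem j)
    rw [htop]
    exact ⟨fun a => isAlgebraic_algebraMap (⟨a, trivial⟩ : (⊤ : IntermediateField ℂ K))⟩

end Pool.Agent.TCN
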