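import Pool.Agent.TCN.LgDefs
import Pool.Agent.TCN.LgNod
import Pool.Agent.TC.Cmp
import Pool.Agent.TC.Eul

/-!
# TCN LgCert: certificates (Nullstellensatz) and places

A finite family of polynomials whose common zeros `x` satisfy `x j = 0`: at a place with `y j = 1` one of the values is a unit.
-/

set_option autoImplicit false

open MvPolynomial
open Pool.Agent.H23 (RatForm regularForms PrimeDivisorOver dualDer fc)

noncomputable section

namespace Pool.Agent.TCN

open Pool.Agent.H36.BP (EN)
open Pool.Agent.TC (ev grad OnV nv dt)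

/-- A matrix with independent rows has a nonzero maximal minor. -/
theorem exists_minor_gen {F : Type*} [Field F] {κ ρ : Type} [Fintype κ] [DecidableEq κ] [Fintype ρ]
    (v : κ → ρ → F) (hv : LinearIndependent F v) :
    ∃ I : κ → ρ, Matrix.det (Matrix.of fun l m => v l (I m)) ≠ 0 := by
  classical
  set A : Matrix κ ρ F := Matrix.of v with hA
  have hrank : A.rank = Fintype.card κ := by
    have h1 := LinearIndependent.rank_matrix (M := A) hv
    simpa using h1
  have hspan : Submodule.span F (Set.range A.col) = ⊤ := by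
    apply Submodule.eq_top_of_finrank_eq
    rw [← Matrix.rank_eq_finrank_span_cols, hrank]
    simp
  obtain ⟨ι, a, ha, hsp, hli⟩ := exists_linearIndependent' F A.col
  rw [hspan] at hsp
  let b := Module.Basis.mk hli hsp.ge
  have : Fintype ι := FiniteDimensional.fintypeBasisIndex b
  have hcard : Fintype.card κ = Fintype.card ι := by
    have h1 := Module.finrank_eq_card_basis b
    simpa using h1
  let e : κ ≃ ι := Fintype.equivOfCardEq hcard
  refine ⟨a ∘ e, ?_⟩
  have h2 : LinearIndependent F (fun m => A.col (a (e m))) := hli.comp e e.injective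
  have h3 : LinearIndependent F (Matrix.of fun l m => v l ((a ∘ e) m)).col := h2
  rw [Matrix.linearIndependent_cols_iff_isUnit] at h3
  exact ((Matrix.isUnit_iff_isUnit_det _).mp h3).ne_zero

/-- Nullstellensatz -/
theorem null_cert {σ : Type} [Finite σ] {ι : Type} [Fintype ι] (Φ : ι → MvPolynomial σ ℂ) (j : σ)
    (h : ∀ x : σ → ℂ, (∀ i, eval x (Φ i) = 0) → x j = 0) :
    ∃ (M : ℕ) (a : ι → MvPolynomial σ ℂ), (X j) ^ M = ∑ i, a i * Φ i := by
  classical
  have h1 : X j ∈ (Ideal.span (Set.range Φ)).radical := by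
    rw [← MvPolynomial.vanishingIdeal_zeroLocus_eq_radical (k := ℂ) (K := ℂ)]
    rw [MvPolynomial.mem_vanishingIdeal_iff]
    intro x hx
    rw [MvPolynomial.mem_zeroLocus_iff] at hx
    rw [aeval_X]
    refine h x fun i => ?_
    have h3 := hx (Φ i) (Ideal.subset_span ⟨i, rfl⟩)
    simpa [MvPolynomial.aeval_eq_eval] using h3
  obtain ⟨M, hM⟩ := h1
  rw [Ideal.mem_span_range_iff_exists_fun] at hM
  obtain ⟨a, ha⟩ := hM
  exact ⟨M, a, ha.symm⟩

section Place

variable {K : Type} [Field K] [Algebra ℂ K]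

theorem ord_aeval {k : ℕ} (E : PrimeDivisorOver K k) {σ : Type} {y : σ → K} (hy : ∀ i, 0 ≤ E.ord (y i)) (F : MvPolynomial σ ℂ) :
    0 ≤ E.ord (aeval y F) :=
  Pool.Agent.H17GT.FormX.aeval_mem E.localRing hy F

/-- one of the values is a unit -/
theorem exists_unit_of_null {k : ℕ} (E : PrimeDivisorOver K k) {σ : Type} [Finite σ] {ι : Type} [Fintype ι] (Φ : ι → MvPolynomial σ ℂ)
    {y : σ → K} (hy : ∀ i, 0 ≤ E.ord (y i)) {j : σ} (hyj : y j = 1)
    (h : ∀ x : σ → ℂ, x j ≠ 0 → (∀ i, eval x (Φ i) = 0) → False) : ∃ i, E.ord (aeval y (Φ i)) = 0 := by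
  classical
  by_contra hcon
  push Not at hcon
  obtain ⟨M, a, ha⟩ := null_cert Φ j fun x hx => by
    by_contra h0
    exact h x h0 hx
  have h1 := congrArg (aeval y) ha
  rw [map_pow, aeval_X, hyj, one_pow, map_sum] at h1
  have h2 : (0 : WithTop ℤ) < E.ord (∑ i, aeval y (a i * Φ i)) := by
    refine AddValuation.map_lt_sum E.ord ?_ fun i _ => ?_
    · exact WithTop.coe_ne_top
    rw [map_mul, AddValuation.map_mul]
    have h3 := ord_aeval E hy (a i)
    have h4 : 0 < E.ord (aeval y (Φ i)) := lt_of_le_of_ne (ord_aeval E hy (Φ i)) (Ne.symm (hcon i))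
    exact lt_of_lt_of_le h4 (le_add_of_nonneg_left h3)
  rw [← h1, AddValuation.map_one] at h2
  exact lt_irrefl _ h2

/-- the adjugate estimate -/
theorem ord_of_mulVec {k : ℕ} (E : PrimeDivisorOver K k) {τ : Type} [Fintype τ] [DecidableEq τ] (S : Matrix τ τ K)
    (hS : ∀ a b, 0 ≤ E.ord (S a b)) (hdet : E.ord S.det = 0) (v : τ → K) {μ : WithTop ℤ} (h : ∀ a, μ ≤ E.ord (S.mulVec v a)) (b : τ) :
    μ ≤ E.ord (v b) := by
  have h0 : S.det ≠ 0 := by
    intro h0
    rw [h0, AddValuation.map_zero] at hdet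
    exact absurd hdet (by simp)
  have h1 : S.det * v b = ∑ a, S.adjugate b a * S.mulVec v a := by
    have h2 : S.adjugate.mulVec (S.mulVec v) = S.det • v := by
      rw [Matrix.mulVec_mulVec, Matrix.adjugate_mul, Matrix.smul_mulVec, Matrix.one_mulVec]
    have h3 := congrFun h2 b
    rw [Pi.smul_apply, smul_eq_mul] at h3
    rw [← h3]
    rfl
  have h2 : E.ord (v b) = E.ord (S.det * v b) := by
    rw [AddValuation.map_mul, hdet, zero_add]
  rw [h2, h1]
  refine AddValuation.map_le_sum E.ord fun a _ => ?_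
  rw [AddValuation.map_mul]
  have h3 : (0 : WithTop ℤ) ≤ E.ord (S.adjugate b a) := by
    have h4 : S.adjugate b a ∈ E.localRing := by
      rw [Matrix.adjugate_apply]
      refine Pool.Agent.H17LG.RegB.det_mem' E.localRing _ fun i j => ?_
      rw [Matrix.updateRow_apply]
      split_ifs
      · rw [Pi.single_apply]
        split_ifs
        · exact E.localRing.one_mem
        · exact E.localRing.zero_mem
      · exact hS i j
    exact h4
  exact (h a).trans (le_add_of_nonneg_left h3)

end Place

end Pool.Agent.TCN
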