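import Pool.Agent.H17LG.ModLREGB

/-!
# TCN LgCore: the canonical form of a pair along a prime divisor, with a minor which need not be a unit

The forms `G` (`c` of them) and `H` (`b = k + 1` of them) in `c + b + 1` variables.  `u` is a maximal minor of the Jacobian matrix of all the forms at the point `y`.  If the
order of `u` is at most the order of `η (y j)` for all derivations `η = η' i` and all `j`, and at most the order of `η (H m₁ (y))` for one `m₁` such that `H m₁ (y)` is a unit,
then the form is regular (with respect to the `η' i`) as if `u` were a unit.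
-/

set_option autoImplicit false

open MvPolynomial
open Pool.Agent.H23 (RatForm regularForms PrimeDivisorOver dualDer)
open Pool.Agent.H17GT
open Pool.Agent.H17LG

noncomputable section

namespace Pool.Agent.TCN

variable {K : Type} [Field K] [Algebra ℂ K]

/-- a product of elements of order at least `0`, one of them of order at least `μ` -/
theorem ord_prod {k : ℕ} (E : PrimeDivisorOver K k) {τ : Type*} [Fintype τ] [DecidableEq τ] (f : τ → K) (hf : ∀ i, 0 ≤ E.ord (f i))
    {μ : WithTop ℤ} {i₀ : τ} (h : μ ≤ E.ord (f i₀)) : μ ≤ E.ord (∏ i, f i) := by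
  rw [← Finset.mul_prod_erase Finset.univ f (Finset.mem_univ i₀), AddValuation.map_mul]
  refine h.trans (le_add_of_nonneg_right ?_)
  have h1 : ∏ i ∈ Finset.univ.erase i₀, f i ∈ E.localRing := E.localRing.prod_mem fun i _ => hf i
  exact h1

/-- If in two columns all entries outside of one row have order at least `μ`, then the determinant has order at least `μ`. -/
theorem ord_det {k : ℕ} (E : PrimeDivisorOver K k) {τ : Type*} [Fintype τ] [DecidableEq τ] (A : Matrix τ τ K)
    (hA : ∀ i j, 0 ≤ E.ord (A i j)) {μ : WithTop ℤ} (i₀ j₁ j₂ : τ) (hj : j₁ ≠ j₂)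
    (h1 : ∀ i, i ≠ i₀ → μ ≤ E.ord (A i j₁)) (h2 : ∀ i, i ≠ i₀ → μ ≤ E.ord (A i j₂)) : μ ≤ E.ord A.det := by
  rw [Matrix.det_apply']
  refine AddValuation.map_le_sum E.ord fun σ _ => ?_
  rw [AddValuation.map_mul]
  have h3 : (0 : WithTop ℤ) ≤ E.ord (((Equiv.Perm.sign σ : ℤ) : K)) := by
    have : ((Equiv.Perm.sign σ : ℤ) : K) ∈ E.localRing := intCast_mem E.localRing _
    exact this
  refine le_trans ?_ (le_add_of_nonneg_left h3)
  by_cases hσ : σ j₁ = i₀
  · have hσ2 : σ j₂ ≠ i₀ := fun h => hj (σ.injective (hσ.trans h.symm))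
    exact ord_prod E (fun i => A (σ i) i) (fun i => hA _ _) (i₀ := j₂) (h2 _ hσ2)
  · exact ord_prod E (fun i => A (σ i) i) (fun i => hA _ _) (i₀ := j₁) (h1 _ hσ)

/-- the derivatives of the forms in all variables, `G` and `H` together -/
def allJac {N c b : ℕ} (G : Fin c → MvPolynomial (Fin (N + 1)) ℂ) (H : Fin b → MvPolynomial (Fin (N + 1)) ℂ) (y : Fin (N + 1) → K)
    (I : Fin c ⊕ Fin b → Fin (N + 1)) : K :=
  Matrix.det (Matrix.of fun l m => aeval y (pderiv (I m) (Sum.elim G H l)))

open FormX RegB in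
theorem core {N c b k : ℕ} {d : Fin c → ℕ} {δ : Fin b → ℕ} (hd : ∀ l, 1 ≤ d l)
    {G : Fin c → MvPolynomial (Fin (N + 1)) ℂ} {H : Fin b → MvPolynomial (Fin (N + 1)) ℂ}
    (hG : ∀ l, (G l).IsHomogeneous (d l)) (hH : ∀ m, (H m).IsHomogeneous (δ m))
    {x : Fin (N + 1) → K} (hGx : ∀ l, aeval x (G l) = 0) (hHx : ∀ m, aeval x (H m) ≠ 0)
    (D' : Fin 0 → Derivation ℤ K K)
    (e : (Unit ⊕ (Fin 0 ⊕ Fin (k + 1))) ⊕ Fin c ≃ Fin (N + 1)) (hcard : k + 2 + c = N + 1) (hb : b = k + 1) {n : ℕ}
    (hdeg : N + 1 + (n + 1) = ∑ l, d l + ∑ m, δ m)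
    (ν₀ : Fin c → Fin (N + 1) → K)
    (hν₀ : Matrix.det (Matrix.of fun a b => jac G x (ν₀ a) b) ≠ 0)
    (E : PrimeDivisorOver K (k + 1)) {g : Fin (k + 1) → K}
    (β : Module.Basis (Fin (k + 1)) K Ω[K⁄ℂ])
    (s : K) (hs0 : s ≠ 0) (hyO : ∀ i, 0 ≤ E.ord (x i / s))
    (η' : Fin (k + 1) → Derivation ℂ K K) (M : Matrix (Fin (k + 1)) (Fin (k + 1)) K)
    (hM : ∀ i f, η' i f = ∑ j, M i j * dualDer β j f)
    (I : Fin c ⊕ Fin b → Fin (N + 1)) (hI : allJac G H (fun i => x i / s) I ≠ 0)
    (hη : ∀ i j, E.ord (allJac G H (fun i => x i / s) I) ≤ E.ord (η' i (x j / s)))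
    (hη' : ∀ i m, E.ord (aeval (fun i => x i / s) (H m)) ≤ E.ord (η' i (aeval (fun i => x i / s) (H m))))
    (hm : E.ord (allJac G H (fun i => x i / s) I) = 0 ∨ ∃ m₁, E.ord (aeval (fun i => x i / s) (H m₁)) = 0 ∧
      ∀ i, E.ord (allJac G H (fun i => x i / s) I) ≤ E.ord (η' i (aeval (fun i => x i / s) (H m₁))))
    (i₀ j₀ : Fin (N + 1)) :
    0 ≤ E.ord (M.det * ((x i₀ * x j₀ ^ n) * (rdet e (Sum.elim (fam x D' (dualDer β)) ν₀) /
      (Matrix.det (Matrix.of fun a b => jac G x (ν₀ a) b) * ∏ m, aeval x (H m))))) := by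
  classical
  set y : Fin (N + 1) → K := fun i => x i / s with hy
  have hxy : x = fun i => s * y i := by
    funext i
    rw [hy]
    field_simp
  have hGy : ∀ l, aeval y (G l) = 0 := by
    intro l
    have h1 := hGx l
    rw [hxy, aeval_scale (hG l)] at h1
    exact (mul_eq_zero.1 h1).resolve_left (pow_ne_zero _ hs0)
  have hHxy : ∀ m, aeval x (H m) = s ^ δ m * aeval y (H m) := by
    intro m
    conv_lhs => rw [hxy]
    exact aeval_scale (hH m) s y
  have hHy : ∀ m, aeval y (H m) ≠ 0 := by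
    intro m h0
    apply hHx m
    rw [hHxy m, h0, mul_zero]
  have hO : ∀ i, y i ∈ E.localRing := hyO
  have hPO : ∀ P : MvPolynomial (Fin (N + 1)) ℂ, 0 ≤ E.ord (aeval y P) := fun P =>
    aeval_mem E.localRing hO P
  set J : Matrix (Fin c) (Fin (N + 1)) K := Matrix.of fun l i => aeval y (pderiv i (G l)) with hJ
  set J' : Matrix (Fin b) (Fin (N + 1)) K := Matrix.of fun m i => aeval y (pderiv i (H m)) with hJ'
  have hmin : allJac G H y I = Matrix.det (Matrix.of fun l m => Sum.elim J J' l (I m)) := by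
    unfold allJac
    congr 1
    ext l m
    rcases l with l | l
    · rfl
    · rfl
  have hIO : 0 ≤ E.ord (allJac G H y I) := by
    have h1 : allJac G H y I ∈ E.localRing := by
      refine det_mem' E.localRing _ fun l m => ?_
      exact hPO _
    exact h1
  rw [hmin] at hI hη hm hIO
  have hyy : jac G y y = 0 := jac_self hG hGy
  have ht : ∀ i, J.mulVec (fam y D' η' i) = 0 := by
    rintro (u | i | i)
    · exact hyy
    · exact i.elim0
    · exact jac_der hGy (η' i)
  obtain ⟨q, e', ρ, ε, hε, hdet⟩ := block e J J' (fam y D' η') ht ν₀ I hI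
  have hq : q = 1 := by
    have h1 := Fintype.card_congr e'
    rw [Fintype.card_sum, Fintype.card_sum, Fintype.card_sum, Fintype.card_fin, Fintype.card_fin, Fintype.card_fin,
      Fintype.card_fin, Fintype.card_unit] at h1
    omega
  subst hq
  set u₀ : K := Matrix.det (Matrix.of fun l m => Sum.elim J J' l (I m)) with hu₀
  set u : K := ε * u₀ with hu
  have hu0 : E.ord u = E.ord u₀ := by
    rw [hu]
    rcases hε with rfl | rfl
    · rw [one_mul]
    · rw [neg_one_mul, AddValuation.map_neg]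
  have hu1 : u ≠ 0 := by
    rw [hu]
    rcases hε with rfl | rfl
    · rwa [one_mul]
    · rwa [neg_one_mul, neg_ne_zero]
  set Δ : K := Matrix.det (Matrix.of fun a b => J.mulVec (ν₀ a) b) with hΔ
  have hΔx : Matrix.det (Matrix.of fun a b => jac G x (ν₀ a) b) = s ^ (∑ l, (d l - 1)) * Δ := by
    have h1 : (Matrix.of fun a b => jac G x (ν₀ a) b) =
        Matrix.of fun a b => s ^ (d b - 1) * (Matrix.of fun a b => J.mulVec (ν₀ a) b) a b := by
      ext a b
      rw [Matrix.of_apply, Matrix.of_apply, Matrix.of_apply]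
      conv_lhs => rw [hxy]
      exact jac_scale hG s y (ν₀ a) b
    rw [h1, Matrix.det_mul_row, Finset.prod_pow_eq_pow_sum]
  have hΔ0 : Δ ≠ 0 := by
    intro h0
    rw [hΔx, h0, mul_zero] at hν₀
    exact hν₀ rfl
  have hscale : rdet e (Sum.elim (fam x D' (dualDer β)) ν₀) =
      s ^ (k + 2) * rdet e (Sum.elim (fam y D' (dualDer β)) ν₀) := by
    have h1 := rdet_scale e s y D' D' (dualDer β) ν₀ (fun i => i.elim0) (fun i => i.elim0) (fun i => i.elim0)
    rw [← hxy] at h1
    rw [h1]
    congr 2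
    simp
    omega
  have hchange : rdet e (Sum.elim (fam y D' η') ν₀) =
      M.det * rdet e (Sum.elim (fam y D' (dualDer β)) ν₀) :=
    rdet_change e y D' (dualDer β) η' ν₀ M hM
  have hexp : (n + 1) + (k + 2) = ∑ l, (d l - 1) + ∑ m, δ m := by
    have h1 : ∑ l, (d l - 1) + c = ∑ l, d l := by
      have : ∑ l, d l = ∑ l, ((d l - 1) + 1) := Finset.sum_congr rfl fun l _ => by
        have := hd l
        omega
      rw [this, Finset.sum_add_distrib, Finset.sum_const, Finset.card_univ, Fintype.card_fin,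
        smul_eq_mul, mul_one]
    omega
  set T : Matrix (Unit ⊕ (Fin 0 ⊕ Fin (k + 1))) (Unit ⊕ (Fin 0 ⊕ Fin (k + 1))) K :=
    Matrix.of fun i i' => Sum.elim (fun p => fam y D' η' i (ρ p))
      (fun m => J'.mulVec (fam y D' η' i) m) (e'.symm i') with hT
  set C : Fin 1 ⊕ Fin b → K := Sum.elim (fun _ => 1) (fun m => aeval y (H m)) with hC
  have hC0 : ∀ a, C a ≠ 0 := by
    rintro (a | a)
    · exact one_ne_zero
    · exact hHy a
  have hJ'v : ∀ (v : Fin (N + 1) → K) (m : Fin b),
      J'.mulVec v m = ∑ j, aeval y (pderiv j (H m)) * v j := fun v m => rfl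
  have hJη : ∀ i m, J'.mulVec (fam y D' η' (Sum.inr (Sum.inr i))) m = η' i (aeval y (H m)) := by
    intro i m
    rw [hJ'v, der_aeval_complex]
    rfl
  have hcol : ∀ i i', E.ord (C (e'.symm i')) ≤ E.ord (T i i') := by
    intro i i'
    rw [hT, Matrix.of_apply]
    rcases e'.symm i' with p | m
    · change E.ord (1 : K) ≤ E.ord (fam y D' η' i (ρ p))
      rw [AddValuation.map_one]
      rcases i with u | i | i
      · exact hO (ρ p)
      · exact i.elim0
      · exact hIO.trans (hη i _)
    · change E.ord (aeval y (H m)) ≤ E.ord (J'.mulVec (fam y D' η' i) m)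
      rcases i with u | i | i
      · have h1 : J'.mulVec (fam y D' η' (Sum.inl u)) m = (δ m : K) * aeval y (H m) := by
          rw [hJ'v]
          have h := congrArg (aeval y) (hH m).sum_X_mul_pderiv
          rw [map_sum, map_nsmul] at h
          simp only [map_mul, aeval_X] at h
          rw [nsmul_eq_mul] at h
          rw [← h]
          exact Finset.sum_congr rfl fun i _ => mul_comm _ _
        rw [h1, AddValuation.map_mul]
        exact le_add_of_nonneg_left (natCast_mem E.localRing (δ m))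
      · exact i.elim0
      · rw [hJη]
        exact hη' i m
  set T' : Matrix (Unit ⊕ (Fin 0 ⊕ Fin (k + 1))) (Unit ⊕ (Fin 0 ⊕ Fin (k + 1))) K :=
    Matrix.of fun i i' => T i i' / C (e'.symm i') with hT'
  have hT'O : ∀ i i', 0 ≤ E.ord (T' i i') := fun i i' => div_mem E (hC0 _) (hcol i i')
  have hT'det : E.ord u₀ ≤ E.ord T'.det := by
    rcases hm with hm | ⟨m₁, hm₁, hm₂⟩
    · rw [hm]
      exact det_mem' E.localRing _ hT'O
    · refine ord_det E T' hT'O (Sum.inl ()) (e' (Sum.inl 0)) (e' (Sum.inr m₁)) (fun h => ?_) (fun i hi => ?_) fun i hi => ?_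
      · have := e'.injective h
        simp at this
      · rw [hT', Matrix.of_apply, hT, Matrix.of_apply, Equiv.symm_apply_apply]
        change E.ord u₀ ≤ E.ord (fam y D' η' i (ρ 0) / 1)
        rw [div_one]
        rcases i with u | i | i
        · exact absurd rfl hi
        · exact i.elim0
        · exact hη i _
      · rw [hT', Matrix.of_apply, hT, Matrix.of_apply, Equiv.symm_apply_apply]
        change E.ord u₀ ≤ E.ord (J'.mulVec (fam y D' η' i) m₁ / aeval y (H m₁))
        rcases i with u | i | i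
        · exact absurd rfl hi
        · exact i.elim0
        · rw [hJη, div_eq_mul_inv, AddValuation.map_mul, Pool.Agent.H23.val_inv E.ord hm₁, add_zero]
          exact hm₂ i
  set P : K := ∏ m, aeval y (H m) with hP
  have hP0 : P ≠ 0 := Finset.prod_ne_zero_iff.2 fun m _ => hHy m
  have hTdet : T.det = P * T'.det := by
    have h1 : T = Matrix.of fun i i' => C (e'.symm i') * T' i i' := by
      ext i i'
      rw [Matrix.of_apply, hT', Matrix.of_apply, mul_div_cancel₀ _ (hC0 _)]
    have h2 : ∏ i', C (e'.symm i') = P := by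
      rw [Equiv.prod_comp e'.symm C, Fintype.prod_sum_type]
      simp only [hC, Sum.elim_inl, Sum.elim_inr, Finset.prod_const_one, one_mul]
      rfl
    conv_lhs => rw [h1]
    rw [Matrix.det_mul_row, h2]
  have hprod : ∏ m, aeval x (H m) = s ^ (∑ m, δ m) * (P * 1) := by
    rw [mul_one, Finset.prod_congr rfl fun m _ => hHxy m, Finset.prod_mul_distrib,
      Finset.prod_pow_eq_pow_sum]
  have hdet' : rdet e (Sum.elim (fam y D' η') ν₀) * u = P * T'.det * Δ := by
    rw [← hTdet]
    exact hdet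
  have hmain := alg_id2 s (y i₀) (y j₀) (rdet e (Sum.elim (fam y D' (dualDer β)) ν₀)) M.det
    (rdet e (Sum.elim (fam y D' η') ν₀)) u T'.det Δ P 1 n (k + 2)
    (∑ l, (d l - 1)) (∑ m, δ m) hs0 hΔ0 hP0 one_ne_zero hu1 hchange hdet' hexp
  have h2 : x i₀ = s * y i₀ := congrFun hxy i₀
  have h3 : x j₀ = s * y j₀ := congrFun hxy j₀
  rw [h2, h3, hscale, hΔx, hprod, hmain, inv_one, mul_one]
  change _ ∈ E.localRing
  refine E.localRing.mul_mem (E.localRing.mul_mem (hO _) (E.localRing.pow_mem (hO _) n)) ?_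
  have h4 : 0 ≤ E.ord (T'.det / u) := div_mem E hu1 (by rw [hu0]; exact hT'det)
  rw [div_eq_mul_inv] at h4
  exact h4

end Pool.Agent.TCN
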