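import Pool.Agent.TCN.LgGen
import Pool.Agent.H62.SA.Defs
import Pool.Agent.TC.LgtA
import Pool.Agent.H62.LGC.Final
import Pool.Agent.H13.SM.Grad

/-!
# TCN LgCurve: the curve `{Q i' = 0}` minus the other curve and the nodes is of log general type
-/

set_option autoImplicit false

open MvPolynomial
open Pool.Agent.H17LG.Variety (FunField IsLogGeneralType)
open Pool.Agent.H62.SA (OnBd)
open Pool.Agent.H23 (PrimeDivisorOver)

noncomputable section

namespace Pool.Agent.TCN

open Pool.Agent.H36.BP (EN)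

variable {n : ℕ} {Q : Fin (n + 2) → MvPolynomial (Fin (n + 3)) ℂ} {e : Fin (n + 2) → ℕ}

private def curveFun (n : ℕ) (i i' : Fin (n + 2)) : Fin (n + 1) ⊕ Fin 1 → Fin (n + 2) :=
  Sum.elim (Fin.cons i' fun l => l.succ.succ) fun _ => i

private theorem curveFun_injective (n : ℕ) {i i' : Fin (n + 2)} (hii : i = 0 ∧ i' = 1 ∨ i = 1 ∧ i' = 0) :
    Function.Injective (curveFun n i i') := by
  have hne : i ≠ i' := by
    rcases hii with ⟨rfl, rfl⟩ | ⟨rfl, rfl⟩
    · exact Fin.zero_ne_one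
    · exact Fin.zero_ne_one.symm
  have hi : ∀ l : Fin n, i ≠ l.succ.succ := by
    intro l hl
    rcases hii with ⟨rfl, rfl⟩ | ⟨rfl, rfl⟩
    · exact Fin.succ_ne_zero _ hl.symm
    · exact Fin.succ_ne_zero l (Fin.succ_injective _ hl.symm)
  have hi' : ∀ l : Fin n, i' ≠ l.succ.succ := by
    intro l hl
    rcases hii with ⟨rfl, rfl⟩ | ⟨rfl, rfl⟩
    · exact Fin.succ_ne_zero l (Fin.succ_injective _ hl.symm)
    · exact Fin.succ_ne_zero _ hl.symm
  have hcons : Function.Injective (Fin.cons i' (fun l : Fin n => l.succ.succ) : Fin (n + 1) → Fin (n + 2)) := by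
    rw [Fin.cons_injective_iff]
    refine ⟨?_, fun a b hab => by simpa using hab⟩
    rintro ⟨l, hl⟩
    exact hi' l hl.symm
  have hconsi : ∀ a : Fin (n + 1), (Fin.cons i' (fun l : Fin n => l.succ.succ) : Fin (n + 1) → Fin (n + 2)) a ≠ i := by
    intro a
    refine Fin.cases ?_ (fun l => ?_) a
    · exact hne.symm
    · exact (hi l).symm
  rintro (a | a) (b | b) hab
  · exact congrArg Sum.inl (hcons hab)
  · exact absurd hab (hconsi a)
  · exact absurd hab.symm (hconsi b)
  · rw [Subsingleton.elim a b]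

private def curveEquiv (n : ℕ) {i i' : Fin (n + 2)} (hii : i = 0 ∧ i' = 1 ∨ i = 1 ∧ i' = 0) : Fin (n + 1) ⊕ Fin 1 ≃ Fin (n + 2) :=
  Equiv.ofBijective (curveFun n i i') ((Fintype.bijective_iff_injective_and_card _).2 ⟨curveFun_injective n hii, by simp⟩)

theorem NPair.curve_lgt (h : NPair Q e) {i i' : Fin (n + 2)} (hii : i = 0 ∧ i' = 1 ∨ i = 1 ∧ i' = 0) (P : Ideal (MvPolynomial (Fin (n + 3)) ℂ)) [P.IsPrime]
    (hP : ∀ j : Fin (n + 2), 2 ≤ (j : ℕ) → Q j ∈ P) (hi' : Q i' ∈ P) (hi : Q i ∉ P) (hnv : ∃ m : Fin (n + 3), mP Q m.succAbove ∉ P) {k : ℕ}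
    (hz : ∃ z : Fin (k + 1) → FunField P, IsTranscendenceBasis ℂ z) :
    k = 0 ∧ IsLogGeneralType (K := FunField P) (k := k + 1) (OnBd P (fibBd Q i)) := by
  classical
  obtain ⟨z, hz⟩ := hz
  obtain ⟨m₀, hm₀⟩ := hnv
  have hcore := h.lgt_core (G := (Fin.cons (Q i') fun l : Fin n => Q l.succ.succ : Fin (n + 1) → _)) (H := fun _ : Fin 1 => Q i)
    (curveEquiv n hii)
    (by
      rintro (l | m)
      · refine Fin.cases ?_ (fun l => ?_) l
        · rfl
        · rfl
      · rfl)
    P (fun l => hP _ (by simp))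
    (fun l => by
      refine Fin.cases ?_ (fun l => ?_) l
      · exact hi'
      · exact hP _ (by simp))
    (fun _ => hi) ⟨_, hm₀⟩ (F := fibBd Q i)
    (by
      intro K _ _ k E y j hy hyj hQ hG m hm
      have e0 := ord_aeval E hy (Q i)
      have e1 := ord_aeval E hy (mP Q m.succAbove)
      rw [fibBd, map_mul, AddValuation.map_mul] at hm
      have h2 : E.ord (aeval y (Q i)) = 0 := by
        refine le_antisymm ?_ e0
        rw [← hm]
        exact le_add_of_nonneg_right e1
      have h3 : E.ord (aeval y (mP Q m.succAbove)) = 0 := by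
        rw [h2, zero_add] at hm
        exact hm
      exact ⟨fun _ => h2, Or.inl ⟨_, h3⟩⟩)
    (by
      intro K _ _ k E y j hy hyj hQ hG hm
      have hi'0 : aeval y (Q i') = 0 := hG 0
      have h01 : aeval y (Q 0 * Q 1) = 0 := by
        rw [map_mul]
        rcases hii with ⟨-, rfl⟩ | ⟨-, rfl⟩
        · rw [hi'0, mul_zero]
        · rw [hi'0, zero_mul]
      refine ⟨?_, fun h2 => ⟨0, ?_⟩⟩
      · rw [h01, AddValuation.map_zero]
        exact WithTop.coe_lt_top 0
      · have hne : ¬ E.ord (aeval y (Q i')) = 0 := by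
          rw [hi'0, AddValuation.map_zero]
          simp
        rcases hii with ⟨rfl, rfl⟩ | ⟨rfl, rfl⟩
        · exact h2.resolve_right hne
        · exact h2.resolve_left hne)
    (k := k) z hz
  obtain rfl : k = 0 := by
    have := hcore.1
    omega
  exact ⟨rfl, Pool.Agent.H17LG.isLogGeneralType_translate (K := Pool.Agent.H17GT.functionField P) (fun E => Iff.rfl) (hcore.2 (by omega))⟩

end Pool.Agent.TCN
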