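import Pool.Agent.TCN.Defs
import Pool.Agent.H62.SA.Defs

/-!
# TCN LgDefs: the minors of the Jacobian matrix of all forms
-/

set_option autoImplicit false

open MvPolynomial

noncomputable section

namespace Pool.Agent.TCN

open Pool.Agent.H36.BP (EN)
open Pool.Agent.TC (ev grad OnV nv dt)

variable {n : ℕ}

/-- the minor of the Jacobian matrix of all forms with the columns `I` -/
def mP (Q : Fin (n + 2) → MvPolynomial (Fin (n + 3)) ℂ) (I : Fin (n + 2) → Fin (n + 3)) : MvPolynomial (Fin (n + 3)) ℂ :=
  Matrix.det (Matrix.of fun l m => pderiv (I m) (Q l))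

/-- the boundary for the curve `{Q i' = 0}`: the other curve and the nodes -/
def fibBd (Q : Fin (n + 2) → MvPolynomial (Fin (n + 3)) ℂ) (i : Fin (n + 2)) : Fin (n + 3) → MvPolynomial (Fin (n + 3)) ℂ :=
  fun m => Q i * mP Q m.succAbove

end Pool.Agent.TCN
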