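import Pool.Agent.TCN.LgPlace
import Pool.Agent.H17LG.Main
import Pool.Agent.H17LG.Variety
import Pool.Agent.H17LG.Translate

/-!
# TCN LgGen: log general type for the surface and for the curves, common part
-/

set_option autoImplicit false

open MvPolynomial
open Pool.Agent.H23 (PrimeDivisorOver)
open Pool.Agent.H17GT (functionField coordFun)

noncomputable section

namespace Pool.Agent.TCN

section Der

variable {K : Type} [Field K] [Algebra ℂ K]

theorem gen_sum_apply {ι : Type*} (s : Finset ι) (F : ι → Derivation ℂ K K) (f : K) :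
    (∑ i ∈ s, F i) f = ∑ i ∈ s, F i f := by
  classical
  induction s using Finset.induction_on with
  | empty => rfl
  | insert a s ha ih =>
    rw [Finset.sum_insert ha, Finset.sum_insert ha, Derivation.add_apply, ih]

theorem gen_exists_der {k : ℕ} {z : Fin (k + 1) → K} (hz : IsTranscendenceBasis ℂ z) :
    ∃ δ : Fin (k + 1) → Derivation ℂ K K, ∀ b : Fin (k + 1) → K,
      ∑ j, b j • δ j = 0 → b = 0 := by
  obtain ⟨B, hB⟩ := Pool.Agent.H23.exists_basis_kaehler hz
  refine ⟨fun i => Pool.Agent.H23.dualDer B i, fun b hb => ?_⟩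
  funext j
  have h1 : (∑ i, b i • Pool.Agent.H23.dualDer B i) (z j) = 0 := by
    rw [hb]
    rfl
  have h2 : (∑ i, b i • Pool.Agent.H23.dualDer B i) (z j) = ∑ i, b i * Pool.Agent.H23.dualDer B i (z j) := by
    rw [gen_sum_apply]
    rfl
  rw [h2, Finset.sum_eq_single j] at h1
  · rw [Pool.Agent.H23.dualDer_coord B hB, if_pos rfl, mul_one] at h1
    exact h1
  · intro i _ hij
    rw [Pool.Agent.H23.dualDer_coord B hB, if_neg hij, mul_zero]
  · intro h
    exact absurd (Finset.mem_univ j) h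

theorem gen_linearIndependent {N k : ℕ} {x : Fin (N + 1) → K} (hx : x ≠ 0)
    (hgen : IntermediateField.adjoin ℂ {y | ∃ i j, y = x i / x j} = ⊤)
    {δ : Fin (k + 1) → Derivation ℂ K K}
    (hδ : ∀ b : Fin (k + 1) → K, ∑ j, b j • δ j = 0 → b = 0) :
    LinearIndependent K (Sum.elim (fun _ : Unit => x) fun i j => δ i (x j)) := by
  rw [Fintype.linearIndependent_iff]
  intro g hg
  rw [Fintype.sum_sum_type] at hg
  simp only [Finset.univ_unique, Finset.sum_singleton, Sum.elim_inl, Sum.elim_inr] at hg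
  set a : K := g (Sum.inl default) with ha
  set b : Fin (k + 1) → K := fun i => g (Sum.inr i) with hb
  set D : Derivation ℂ K K := ∑ j, b j • δ j with hD
  have hDapp : ∀ f, D f = ∑ j, b j * δ j f := by
    intro f
    rw [hD, gen_sum_apply]
    rfl
  have hDx : ∀ i, D (x i) = -a * x i := by
    intro i
    have h1 := congrFun hg i
    rw [Pi.add_apply, Finset.sum_apply] at h1
    simp only [Pi.smul_apply, smul_eq_mul, Pi.zero_apply] at h1
    rw [hDapp]
    linear_combination h1
  have hD0 : D = 0 := by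
    ext f
    have hf : f ∈ IntermediateField.adjoin ℂ {y | ∃ i j, y = x i / x j} := by
      rw [hgen]
      exact IntermediateField.mem_top
    induction hf using IntermediateField.adjoin_induction with
    | mem y hy =>
      obtain ⟨i, j, rfl⟩ := hy
      rw [D.leibniz_div, hDx, hDx]
      simp only [smul_eq_mul, Derivation.coe_zero, Pi.zero_apply]
      ring
    | algebraMap c =>
      rw [D.map_algebraMap]
      rfl
    | add y y' _ _ h1 h2 =>
      rw [map_add, h1, h2]
      simp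
    | inv y _ h1 =>
      rw [D.leibniz_inv, h1]
      simp
    | mul y y' _ _ h1 h2 =>
      rw [D.leibniz, h1, h2]
      simp
  have hb0 : b = 0 := hδ b hD0
  have ha0 : a = 0 := by
    by_contra hne
    apply hx
    funext i
    have h1 := hDx i
    rw [hD0, Derivation.coe_zero, Pi.zero_apply] at h1
    have h2 : a * x i = 0 := by linear_combination h1
    exact (mul_eq_zero.1 h2).resolve_left hne
  rintro (u | i)
  · exact ha0
  · exact congrFun hb0 i

theorem gen_lin {F : Type*} [Field F] {m : ℕ} {ι κ : Type*} [Fintype ι] [Fintype κ]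
    (w : ι → Fin m → F) (u : κ → Fin m → F) (hw : LinearIndependent F w)
    (hu : LinearIndependent F u) (h : ∀ i j, ∑ l, w i l * u j l = 0) :
    Fintype.card ι + Fintype.card κ ≤ m := by
  classical
  have h1 : (Matrix.of w).rank = Fintype.card ι := LinearIndependent.rank_matrix hw
  have h2 : (Matrix.of u).rank = Fintype.card κ := LinearIndependent.rank_matrix hu
  have h3 : Matrix.of w * (Matrix.of u).transpose = 0 := by
    ext i j
    rw [Matrix.mul_apply]
    exact h i j
  have h4 := Matrix.rank_add_rank_le_card_of_mul_eq_zero h3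
  rw [Matrix.rank_transpose, h1, h2, Fintype.card_fin] at h4
  exact h4

/-- A matrix with a maximal minor different from zero has linearly independent rows. -/
theorem gen_rows {F : Type*} [Field F] {κ ρ : Type} [Fintype κ] [DecidableEq κ] (g : κ → ρ → F)
    (I : κ → ρ) (h : (Matrix.of fun a b => g a (I b)).det ≠ 0) :
    LinearIndependent F g := by
  rw [Fintype.linearIndependent_iff]
  intro c hc
  have h1 : Matrix.vecMul c (Matrix.of fun a b => g a (I b)) = 0 := by
    funext b
    have h2 := congrFun hc (I b)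
    rw [Finset.sum_apply] at h2
    rw [Matrix.vecMul, dotProduct]
    exact h2
  have h2 := Matrix.eq_zero_of_vecMul_eq_zero h h1
  exact fun j => congrFun h2 j

end Der

variable {n : ℕ} {Q : Fin (n + 2) → MvPolynomial (Fin (n + 3)) ℂ} {e : Fin (n + 2) → ℕ}

theorem NPair.lgt_core (h : NPair Q e) {c b s : ℕ} {G : Fin c → MvPolynomial (Fin (n + 3)) ℂ} {H : Fin b → MvPolynomial (Fin (n + 3)) ℂ}
    (ε : Fin c ⊕ Fin b ≃ Fin (n + 2)) (hε : ∀ a, Sum.elim G H a = Q (ε a)) (P : Ideal (MvPolynomial (Fin (n + 3)) ℂ)) [P.IsPrime]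
    (hQP : ∀ l : Fin n, Q l.succ.succ ∈ P) (hGP : ∀ l, G l ∈ P) (hHP : ∀ m, H m ∉ P) (hmP : ∃ I, mP Q I ∉ P)
    {F : Fin s → MvPolynomial (Fin (n + 3)) ℂ}
    (hreg : ∀ {K : Type} [Field K] [Algebra ℂ K] {k : ℕ} (E : PrimeDivisorOver K k) (y : Fin (n + 3) → K) (j : Fin (n + 3)),
      (∀ i, 0 ≤ E.ord (y i)) → y j = 1 → (∀ l : Fin n, aeval y (Q l.succ.succ) = 0) → (∀ l, aeval y (G l) = 0) →
      ∀ m, E.ord (aeval y (F m)) = 0 → (∀ m, E.ord (aeval y (H m)) = 0) ∧
        ((∃ I, E.ord (aeval y (mP Q I)) = 0) ∨ ∃ I, E.ord (Pool.Agent.H17GT.FormX.minor G y I) = 0))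
    (hlog : ∀ {K : Type} [Field K] [Algebra ℂ K] {k : ℕ} (E : PrimeDivisorOver K k) (y : Fin (n + 3) → K) (j : Fin (n + 3)),
      (∀ i, 0 ≤ E.ord (y i)) → y j = 1 → (∀ l : Fin n, aeval y (Q l.succ.succ) = 0) → (∀ l, aeval y (G l) = 0) →
      (∀ m, 0 < E.ord (aeval y (F m))) → 0 < E.ord (aeval y (Q 0 * Q 1)) ∧
        (E.ord (aeval y (Q 0)) = 0 ∨ E.ord (aeval y (Q 1)) = 0 → ∃ m, E.ord (aeval y (H m)) = 0))
    {k : ℕ} (z : Fin (k + 1) → functionField P) (hz : IsTranscendenceBasis ℂ z) :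
    k + 2 + c ≤ n + 3 ∧ (k + 2 + c = n + 3 →
      Pool.Agent.H17LG.IsLogGeneralType (K := functionField P) (k := k + 1) fun E => ∃ j, coordFun P j ≠ 0 ∧
        (∀ i, 0 ≤ E.ord (Pool.Agent.H17LG.ratio P i j)) ∧ ∀ m, 0 < E.ord (aeval (fun i => Pool.Agent.H17LG.ratio P i j) (F m))) := by
  classical
  have hess := Pool.Agent.H17GT.essFiniteType_functionField P
  obtain ⟨x, hx, hgen, -, hFx, hx0, hxr⟩ := Pool.Agent.H17LG.exists_point_log P z hz
  have hG : ∀ l, (G l).IsHomogeneous (e (ε (Sum.inl l))) := by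
    intro l
    have h1 := hε (Sum.inl l)
    rw [Sum.elim_inl] at h1
    rw [h1]
    exact h.hom _
  have hH : ∀ m, (H m).IsHomogeneous (e (ε (Sum.inr m))) := by
    intro m
    have h1 := hε (Sum.inr m)
    rw [Sum.elim_inr] at h1
    rw [h1]
    exact h.hom _
  have hQx : ∀ l : Fin n, aeval x (Q l.succ.succ) = 0 := fun l => (hFx _ _ (h.hom _)).2 (hQP l)
  have hGx : ∀ l, aeval x (G l) = 0 := fun l => (hFx _ _ (hG l)).2 (hGP l)
  have hHx : ∀ m, aeval x (H m) ≠ 0 := fun m h0 => hHP m ((hFx _ _ (hH m)).1 h0)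
  obtain ⟨I₀, hI₀⟩ := hmP
  have hI₀x : aeval x (mP Q I₀) ≠ 0 := fun h0 => hI₀ ((hFx _ _ (mP_hom h.hom I₀)).1 h0)
  have hrows : LinearIndependent (functionField P) fun (l : Fin (n + 2)) (i : Fin (n + 3)) => aeval x (pderiv i (Q l)) := by
    refine gen_rows _ I₀ ?_
    rw [mP, AlgHom.map_det] at hI₀x
    exact hI₀x
  have hGrows : LinearIndependent (functionField P) fun (l : Fin c) (i : Fin (n + 3)) => aeval x (pderiv i (G l)) := by
    have h1 := hrows.comp (fun l : Fin c => ε (Sum.inl l)) fun a b hab => Sum.inl_injective (ε.injective hab)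
    have h2 : (fun (l : Fin c) (i : Fin (n + 3)) => aeval x (pderiv i (G l))) =
        (fun (l : Fin (n + 2)) (i : Fin (n + 3)) => aeval x (pderiv i (Q l))) ∘ fun l : Fin c => ε (Sum.inl l) := by
      funext l i
      have h3 := hε (Sum.inl l)
      rw [Sum.elim_inl] at h3
      rw [h3]
      rfl
    rw [h2]
    exact h1
  obtain ⟨η, hη⟩ := gen_exists_der hz
  have hli := gen_linearIndependent hx hgen hη
  have hcard : k + 2 + c ≤ n + 3 := by
    have h4 := gen_lin _ _ hGrows hli (by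
      intro l t
      rcases t with t | t
      · simp only [Sum.elim_inl]
        exact congrFun (Pool.Agent.H17GT.FormX.jac_self hG hGx) l
      · simp only [Sum.elim_inr]
        exact congrFun (Pool.Agent.H17GT.FormX.jac_der hGx (η t)) l)
    rw [Fintype.card_fin, Fintype.card_sum, Fintype.card_unit, Fintype.card_fin] at h4
    omega
  refine ⟨hcard, fun hkc => ?_⟩
  have hcb : c + b = n + 2 := by
    have h1 := Fintype.card_congr ε
    rw [Fintype.card_sum, Fintype.card_fin, Fintype.card_fin, Fintype.card_fin] at h1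
    exact h1
  have hdeg : n + 2 + 2 ≤ ∑ l, e (ε (Sum.inl l)) + ∑ m, e (ε (Sum.inr m)) := by
    rw [← Fintype.sum_sum_type fun a => e (ε a), Equiv.sum_comp ε e]
    exact h.deg
  have hmin : ∃ I, Pool.Agent.H17GT.FormX.minor G x I ≠ 0 := by
    obtain ⟨I, hI⟩ := exists_minor_gen _ hGrows
    refine ⟨I, ?_⟩
    rw [← Pool.Agent.H17GT.FormX.minor_eq, AlgHom.map_det]
    exact hI
  -- passing to the coordinates `y`
  have hscale : ∀ {d : ℕ} {R : MvPolynomial (Fin (n + 3)) ℂ}, R.IsHomogeneous d → ∀ j, x j ≠ 0 →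
      aeval x R = x j ^ d * aeval (fun i => x i / x j) R := by
    intro d R hR j hj
    have h1 := Pool.Agent.H17GT.FormX.aeval_scale hR (x j) (fun i => x i / x j)
    rw [← h1]
    congr 2
    funext i
    field_simp
  have hzero : ∀ {d : ℕ} {R : MvPolynomial (Fin (n + 3)) ℂ}, R.IsHomogeneous d → ∀ j, x j ≠ 0 → aeval x R = 0 →
      aeval (fun i => x i / x j) R = 0 := by
    intro d R hR j hj h0
    rw [hscale hR j hj] at h0
    exact (mul_eq_zero.1 h0).resolve_left (pow_ne_zero _ hj)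
  have hbd : ∀ E : PrimeDivisorOver (functionField P) (k + 1), (∃ j, x j ≠ 0 ∧ (∀ i, 0 ≤ E.ord (x i / x j)) ∧
      ∀ m, 0 < E.ord (aeval (fun i => x i / x j) (F m))) ↔ ∃ j, coordFun P j ≠ 0 ∧
        (∀ i, 0 ≤ E.ord (Pool.Agent.H17LG.ratio P i j)) ∧ ∀ m, 0 < E.ord (aeval (fun i => Pool.Agent.H17LG.ratio P i j) (F m)) := by
    intro E
    refine exists_congr fun j => ?_
    rw [ne_eq, hx0 j]
    simp only [hxr]
  refine Pool.Agent.H17LG.isLogGeneralType_congr hbd ?_
  refine isLogGeneralType_nod (N := n + 2) (d := fun l => e (ε (Sum.inl l))) (δ := fun m => e (ε (Sum.inr m))) (fun l => h.pos _) hG hH hx hgen hGx hHx hz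
    η hli (by omega) (by omega) hdeg hmin (fun E hE => ?_) fun E hE => ?_
  · obtain ⟨j, hj, hy⟩ := Pool.Agent.H17LG.RegB.exists_min E hx
    have hex : ∃ m, E.ord (aeval (fun i => x i / x j) (F m)) = 0 := by
      by_contra hcon
      push Not at hcon
      exact hE ⟨j, hj, hy, fun m => lt_of_le_of_ne (ord_aeval E hy (F m)) (Ne.symm (hcon m))⟩
    obtain ⟨m, hm⟩ := hex
    obtain ⟨h1, h2⟩ := hreg E (fun i => x i / x j) j hy (div_self hj) (fun l => hzero (h.hom _) j hj (hQx l))
      (fun l => hzero (hG l) j hj (hGx l)) m hm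
    refine ⟨x j, hj, hy, h1, ?_⟩
    rcases h2 with ⟨I, hI⟩ | h2
    · refine Or.inl ⟨I ∘ ε, ?_⟩
      rw [show allJac G H (fun i => x i / x j) (I ∘ ε) = aeval (fun i => x i / x j) (mP Q I) from allJac_mP ε hε _ I]
      exact hI
    · exact Or.inr h2
  · obtain ⟨j, hj, hy, hm⟩ := hE
    obtain ⟨h1, h2⟩ := hlog E (fun i => x i / x j) j hy (div_self hj) (fun l => hzero (h.hom _) j hj (hQx l))
      (fun l => hzero (hG l) j hj (hGx l)) hm
    refine h.logAt ε hε E hj hy (fun l => hzero (h.hom _) j hj (hQx l)) ⟨I₀, fun h0 => hI₀x ?_⟩ h1 h2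
    rw [hscale (mP_hom h.hom I₀) j hj, h0, mul_zero]

end Pool.Agent.TCN
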