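import Pool.Agent.TCN.LgCert
import Pool.Agent.TCN.LgMin

/-!
# TCN LgPlace: the certificates of a nodal pair

`certA`: at a common zero of all forms one of the minors does not vanish (`meet`).  `certB`: at a common zero of the forms `Q j`, `j ≥ 2`, of `Q 0 * Q 1` and of all minors (a node), the matrix with the rows `d Q j`, `j ≥ 2`, `d (mP Q I)`
and `e_j` has a nonzero maximal minor (`node`).  `logAt_nod`: so at a place in the boundary either a minor is a unit, or the orders of `η (y j)` are at least the minimum of the orders of the minors, for all logarithmic derivations `η`.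
-/

set_option autoImplicit false

open MvPolynomial
open Pool.Agent.H23 (RatForm regularForms PrimeDivisorOver dualDer fc)

noncomputable section

namespace Pool.Agent.TCN

open Pool.Agent.H36.BP (EN)
open Pool.Agent.TC (ev grad OnV nv dt differentiable_ev)

variable {n : ℕ} {Q : Fin (n + 2) → MvPolynomial (Fin (n + 3)) ℂ} {e : Fin (n + 2) → ℕ}

theorem ev_mP (Q : Fin (n + 2) → MvPolynomial (Fin (n + 3)) ℂ) (I : Fin (n + 2) → Fin (n + 3)) (x : EN (n + 2)) :
    ev (mP Q I) x = Matrix.det (Matrix.of fun l m => grad (Q l) x (I m)) := by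
  unfold ev mP
  rw [RingHom.map_det]
  rfl

private theorem place_fderiv_ev {N : ℕ} (P : MvPolynomial (Fin (N + 1)) ℂ) (x v : EN N) :
    fderiv ℂ (ev P) x v = dt (fun i => v i) (grad P x) := by
  have h1 : HasDerivAt (fun t : ℂ => x + t • v) v 0 := by
    have := ((hasDerivAt_id (0 : ℂ)).smul_const v).const_add x
    simpa using this
  have h2 := Pool.Agent.TC.hasDerivAt_ev P h1
  have h3 : HasFDerivAt (ev P) (fderiv ℂ (ev P) x) (x + (0 : ℂ) • v) := by
    rw [zero_smul, add_zero]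
    exact (differentiable_ev P x).hasFDerivAt
  have h4 := h3.comp_hasDerivAt (0 : ℂ) h1
  have h5 := h4.unique h2
  rw [h5]
  simp

private theorem place_differentiable_nv (Q : Fin (n + 2) → MvPolynomial (Fin (n + 3)) ℂ) : Differentiable ℂ (nv Q) :=
  fun x => (Pool.Agent.TC.analyticAt_toLp fun i => Pool.Agent.TC.analyticAt_cross
    (fun j i => Pool.Agent.TC.analyticAt_grad (Q j) analyticAt_id i) i : AnalyticAt ℂ (nv Q) x).differentiableAt

theorem fderiv_nv_apply (Q : Fin (n + 2) → MvPolynomial (Fin (n + 3)) ℂ) (x v : EN (n + 2)) (i : Fin (n + 3)) :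
    fderiv ℂ (nv Q) x v i = (-1) ^ (i : ℕ) * dt (fun i => v i) (grad (mP Q i.succAbove) x) := by
  have h1 : HasFDerivAt (fun y => nv Q y i) ((EuclideanSpace.proj (𝕜 := ℂ) i).comp (fderiv ℂ (nv Q) x)) x :=
    (EuclideanSpace.proj (𝕜 := ℂ) i).hasFDerivAt.comp x (place_differentiable_nv Q x).hasFDerivAt
  have h2 : HasFDerivAt (fun y => nv Q y i) ((-1 : ℂ) ^ (i : ℕ) • fderiv ℂ (ev (mP Q i.succAbove)) x) x := by
    have h3 : (fun y => nv Q y i) = fun y => (-1 : ℂ) ^ (i : ℕ) * ev (mP Q i.succAbove) y := by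
      funext y
      exact nv_eq_mP Q y i
    rw [h3]
    exact ((differentiable_ev (mP Q i.succAbove) x).hasFDerivAt).const_mul _
  have h3 := congrArg (fun L : EN (n + 2) →L[ℂ] ℂ => L v) (h1.unique h2)
  have h4 : fderiv ℂ (nv Q) x v i = (-1 : ℂ) ^ (i : ℕ) * fderiv ℂ (ev (mP Q i.succAbove)) x v := h3
  rw [h4, place_fderiv_ev]

private theorem place_ne {x : Fin (n + 3) → ℂ} {j : Fin (n + 3)} (h : x j ≠ 0) : (WithLp.toLp 2 x : EN (n + 2)) ≠ 0 := by
  intro h0
  exact h (congrArg (fun y : EN (n + 2) => y j) h0)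

private theorem place_onV {x : Fin (n + 3) → ℂ} (h : ∀ l : Fin n, eval x (Q l.succ.succ) = 0) : OnV Q (WithLp.toLp 2 x) := by
  intro j hj
  obtain ⟨l, rfl⟩ : ∃ l : Fin n, j = l.succ.succ := by
    refine ⟨⟨(j : ℕ) - 2, by have := j.2; omega⟩, ?_⟩
    ext
    simp only [Fin.val_succ]
    omega
  exact h l

theorem NPair.certA (h : NPair Q e) {x : Fin (n + 3) → ℂ} {j : Fin (n + 3)} (hj : x j ≠ 0)
    (hx : ∀ a, eval x ((Sum.elim Q (mP Q) : Fin (n + 2) ⊕ (Fin (n + 2) → Fin (n + 3)) → _) a) = 0) : False := by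
  have hQ : ∀ l, eval x (Q l) = 0 := fun l => hx (Sum.inl l)
  have hli : LinearIndependent ℂ fun (l : Fin (n + 2)) (i : Fin (n + 3)) => grad (Q l) (WithLp.toLp 2 x : EN (n + 2)) i := by
    rw [Fintype.linearIndependent_iff]
    intro c hc l
    exact congrFun (h.meet _ (place_ne hj) (place_onV fun l => hQ _) (hQ 0) (hQ 1) c hc) l
  obtain ⟨I, hI⟩ := exists_minor_gen _ hli
  apply hI
  rw [← ev_mP]
  exact hx (Sum.inr I)

/-- the rows of the matrix at a node -/
def nodeRow (Q : Fin (n + 2) → MvPolynomial (Fin (n + 3)) ℂ) (j : Fin (n + 3)) :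
    Fin n ⊕ ((Fin (n + 2) → Fin (n + 3)) ⊕ Unit) → Fin (n + 3) → MvPolynomial (Fin (n + 3)) ℂ :=
  Sum.elim (fun l b => pderiv b (Q l.succ.succ)) (Sum.elim (fun I b => pderiv b (mP Q I)) fun _ b => if b = j then 1 else 0)

/-- the minors of the matrix at a node -/
def nodeMin (Q : Fin (n + 2) → MvPolynomial (Fin (n + 3)) ℂ) (j : Fin (n + 3))
    (r : Fin (n + 3) → Fin n ⊕ ((Fin (n + 2) → Fin (n + 3)) ⊕ Unit)) : MvPolynomial (Fin (n + 3)) ℂ :=
  Matrix.det (Matrix.of fun a b => nodeRow Q j (r a) b)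

theorem NPair.certB (h : NPair Q e) {x : Fin (n + 3) → ℂ} {j : Fin (n + 3)} (hj : x j ≠ 0)
    (hQ : ∀ l : Fin n, eval x (Q l.succ.succ) = 0) (h01 : eval x (Q 0 * Q 1) = 0) (hm : ∀ I, eval x (mP Q I) = 0)
    (hr : ∀ r, eval x (nodeMin Q j r) = 0) : False := by
  have hV : OnV Q (WithLp.toLp 2 x : EN (n + 2)) := place_onV hQ
  have h01' : ev (Q 0) (WithLp.toLp 2 x : EN (n + 2)) = 0 ∨ ev (Q 1) (WithLp.toLp 2 x : EN (n + 2)) = 0 := by
    rw [map_mul, mul_eq_zero] at h01
    exact h01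
  have hnv : nv Q (WithLp.toLp 2 x : EN (n + 2)) = 0 := by
    ext i
    rw [nv_eq_mP]
    have h1 : ev (mP Q i.succAbove) (WithLp.toLp 2 x : EN (n + 2)) = 0 := hm _
    rw [h1, mul_zero]
    rfl
  have hli : LinearIndependent ℂ fun (b : Fin (n + 3)) (a : Fin n ⊕ ((Fin (n + 2) → Fin (n + 3)) ⊕ Unit)) => eval x (nodeRow Q j a b) := by
    rw [Fintype.linearIndependent_iff]
    intro c hc
    have hc' : ∀ a, ∑ b, c b * eval x (nodeRow Q j a b) = 0 := by
      intro a
      have h1 := congrFun hc a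
      rw [Finset.sum_apply] at h1
      simpa using h1
    obtain ⟨t, ht⟩ := h.node _ (place_ne hj) hV h01' hnv (WithLp.toLp 2 c) (by
      intro i hi
      obtain ⟨l, rfl⟩ : ∃ l : Fin n, i = l.succ.succ := by
        refine ⟨⟨(i : ℕ) - 2, by have := i.2; omega⟩, ?_⟩
        ext
        simp only [Fin.val_succ]
        omega
      exact hc' (Sum.inl l)) (by
      ext i
      rw [fderiv_nv_apply]
      have h1 : dt (fun i => (WithLp.toLp 2 c : EN (n + 2)) i) (grad (mP Q i.succAbove) (WithLp.toLp 2 x : EN (n + 2))) = 0 :=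
        hc' (Sum.inr (Sum.inl _))
      rw [h1, mul_zero]
      rfl)
    have hcj : c j = 0 := by
      have h1 := hc' (Sum.inr (Sum.inr ()))
      have h2 : ∀ b, eval x (nodeRow Q j (Sum.inr (Sum.inr ())) b) = if b = j then 1 else 0 := by
        intro b
        change eval x (if b = j then (1 : MvPolynomial (Fin (n + 3)) ℂ) else 0) = _
        split_ifs
        · exact map_one _
        · exact map_zero _
      simpa [h2] using h1
    have ht' : ∀ i, c i = t * x i := fun i => congrArg (fun y : EN (n + 2) => y i) ht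
    have ht0 : t = 0 := by
      have h1 := ht' j
      rw [hcj] at h1
      exact (mul_eq_zero.1 h1.symm).resolve_right hj
    intro i
    rw [ht' i, ht0, zero_mul]
  obtain ⟨r, hr'⟩ := exists_minor_gen _ hli
  apply hr'
  rw [← hr r, nodeMin, RingHom.map_det, ← Matrix.det_transpose]
  rfl

section Place

variable {K : Type} [Field K] [Algebra ℂ K]

/-- at a place where all minors have positive order: a minor of the matrix `nodeRow` is a unit -/
theorem NPair.placeB (h : NPair Q e) {k : ℕ} (E : PrimeDivisorOver K k) {y : Fin (n + 3) → K} (hy : ∀ i, 0 ≤ E.ord (y i)) {j : Fin (n + 3)}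
    (hyj : y j = 1) (hQ : ∀ l : Fin n, aeval y (Q l.succ.succ) = 0) (h01 : 0 < E.ord (aeval y (Q 0 * Q 1)))
    (hm : ∀ I, 0 < E.ord (aeval y (mP Q I))) : ∃ r, E.ord (aeval y (nodeMin Q j r)) = 0 := by
  obtain ⟨a, ha⟩ := exists_unit_of_null E
    (Sum.elim (fun l : Fin n => Q l.succ.succ) (Sum.elim (fun _ : Unit => Q 0 * Q 1) (Sum.elim (mP Q) (nodeMin Q j)))) hy hyj
    (fun x hxj hx => h.certB hxj (fun l => hx (Sum.inl l)) (hx (Sum.inr (Sum.inl ()))) (fun I => hx (Sum.inr (Sum.inr (Sum.inl I))))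
      fun r => hx (Sum.inr (Sum.inr (Sum.inr r))))
  rcases a with l | u | I | r
  · change E.ord (aeval y (Q l.succ.succ)) = 0 at ha
    rw [hQ l, AddValuation.map_zero] at ha
    exact absurd ha (by simp)
  · exact absurd ha h01.ne'
  · exact absurd ha (hm I).ne'
  · exact ⟨r, ha⟩

/-- at every place with all minors of positive order one of `Q 0`, `Q 1` is a unit -/
theorem NPair.placeA (h : NPair Q e) {k : ℕ} (E : PrimeDivisorOver K k) {y : Fin (n + 3) → K} (hy : ∀ i, 0 ≤ E.ord (y i)) {j : Fin (n + 3)}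
    (hyj : y j = 1) (hQ : ∀ l : Fin n, aeval y (Q l.succ.succ) = 0)
    (hm : ∀ I, 0 < E.ord (aeval y (mP Q I))) : E.ord (aeval y (Q 0)) = 0 ∨ E.ord (aeval y (Q 1)) = 0 := by
  obtain ⟨a, ha⟩ := exists_unit_of_null E
    (Sum.elim Q (mP Q) : Fin (n + 2) ⊕ (Fin (n + 2) → Fin (n + 3)) → _) hy hyj (fun x hxj hx => h.certA hxj hx)
  rcases a with l | I
  · change E.ord (aeval y (Q l)) = 0 at ha
    revert ha
    refine Fin.cases (fun ha => Or.inl ha) (fun l => ?_) l
    refine Fin.cases (fun ha => Or.inr ha) (fun l ha => ?_) l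
    rw [hQ l, AddValuation.map_zero] at ha
    exact absurd ha (by simp)
  · exact absurd ha (hm I).ne'

/-- the estimate for the logarithmic derivations -/
theorem NPair.est (h : NPair Q e) {k : ℕ} (E : PrimeDivisorOver K k) {y : Fin (n + 3) → K} (hy : ∀ i, 0 ≤ E.ord (y i)) {j : Fin (n + 3)}
    (hyj : y j = 1) (hQ : ∀ l : Fin n, aeval y (Q l.succ.succ) = 0) (h01 : 0 < E.ord (aeval y (Q 0 * Q 1)))
    (hm : ∀ I, 0 < E.ord (aeval y (mP Q I))) {μ : WithTop ℤ} (hμ : ∀ I, μ ≤ E.ord (aeval y (mP Q I)))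
    (η : Derivation ℂ K K) (hη : ∀ f, E.ord f ≤ E.ord (η f)) (b : Fin (n + 3)) : μ ≤ E.ord (η (y b)) := by
  obtain ⟨r, hr⟩ := h.placeB E hy hyj hQ h01 hm
  refine ord_of_mulVec E (Matrix.of fun a b => aeval y (nodeRow Q j (r a) b)) (fun a b => ord_aeval E hy _) ?_ (fun b => η (y b)) (fun a => ?_) b
  · rw [nodeMin, AlgHom.map_det] at hr
    exact hr
  · have h1 : (Matrix.of fun a b => aeval y (nodeRow Q j (r a) b)).mulVec (fun b => η (y b)) a =
        ∑ b, aeval y (nodeRow Q j (r a) b) * η (y b) := rfl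
    rw [h1]
    rcases r a with l | I | u
    · have h2 : ∑ b, aeval y (nodeRow Q j (Sum.inl l) b) * η (y b) = η (aeval y (Q l.succ.succ)) :=
        (Pool.Agent.H17GT.FormX.der_aeval_complex η y (Q l.succ.succ)).symm
      rw [h2, hQ, map_zero, AddValuation.map_zero]
      exact le_top
    · have h2 : ∑ b, aeval y (nodeRow Q j (Sum.inr (Sum.inl I)) b) * η (y b) = η (aeval y (mP Q I)) :=
        (Pool.Agent.H17GT.FormX.der_aeval_complex η y (mP Q I)).symm
      rw [h2]
      exact (hμ I).trans (hη _)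
    · have h2 : ∑ b, aeval y (nodeRow Q j (Sum.inr (Sum.inr u)) b) * η (y b) = η (y j) := by
        rw [Finset.sum_eq_single j]
        · change aeval y (if j = j then (1 : MvPolynomial (Fin (n + 3)) ℂ) else 0) * η (y j) = _
          rw [if_pos rfl, map_one, one_mul]
        · intro b _ hb
          change aeval y (if b = j then (1 : MvPolynomial (Fin (n + 3)) ℂ) else 0) * η (y b) = _
          rw [if_neg hb, map_zero, zero_mul]
        · intro h3
          exact absurd (Finset.mem_univ _) h3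
      rw [h2, hyj, Derivation.map_one_eq_zero, AddValuation.map_zero]
      exact le_top

omit [Algebra ℂ K] in
theorem jac_reindex {N c b : ℕ} [Algebra ℂ K] {G : Fin c → MvPolynomial (Fin (N + 1)) ℂ} {H : Fin b → MvPolynomial (Fin (N + 1)) ℂ}
    {m : ℕ} {R : Fin m → MvPolynomial (Fin (N + 1)) ℂ} (ε : Fin c ⊕ Fin b ≃ Fin m) (hε : ∀ a, Sum.elim G H a = R (ε a))
    (y : Fin (N + 1) → K) (I : Fin m → Fin (N + 1)) :
    allJac G H y (I ∘ ε) = aeval y (Matrix.det (Matrix.of fun l m => pderiv (I m) (R l))) := by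
  rw [AlgHom.map_det, allJac, ← Matrix.det_submatrix_equiv_self ε]
  congr 1
  ext l m
  simp only [Matrix.of_apply, hε, Function.comp, Matrix.submatrix_apply, AlgHom.mapMatrix_apply, Matrix.map_apply]

theorem allJac_mP {c b : ℕ} {G : Fin c → MvPolynomial (Fin (n + 3)) ℂ} {H : Fin b → MvPolynomial (Fin (n + 3)) ℂ}
    (ε : Fin c ⊕ Fin b ≃ Fin (n + 2)) (hε : ∀ a, Sum.elim G H a = Q (ε a)) (y : Fin (n + 3) → K) (I : Fin (n + 2) → Fin (n + 3)) :
    allJac G H y (I ∘ ε) = aeval y (mP Q I) :=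
  jac_reindex (N := n + 2) ε hε y I

/-- the places in the boundary -/
theorem NPair.logAt (h : NPair Q e) {k c b : ℕ} {G : Fin c → MvPolynomial (Fin (n + 3)) ℂ} {H : Fin b → MvPolynomial (Fin (n + 3)) ℂ}
    (ε : Fin c ⊕ Fin b ≃ Fin (n + 2)) (hε : ∀ a, Sum.elim G H a = Q (ε a)) (E : PrimeDivisorOver K k) {x : Fin (n + 3) → K} {j : Fin (n + 3)}
    (hj : x j ≠ 0) (hy : ∀ i, 0 ≤ E.ord (x i / x j)) (hQ : ∀ l : Fin n, aeval (fun i => x i / x j) (Q l.succ.succ) = 0)
    (hI : ∃ I, aeval (fun i => x i / x j) (mP Q I) ≠ 0) (h01 : 0 < E.ord (aeval (fun i => x i / x j) (Q 0 * Q 1)))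
    (hH : E.ord (aeval (fun i => x i / x j) (Q 0)) = 0 ∨ E.ord (aeval (fun i => x i / x j) (Q 1)) = 0 →
      ∃ m, E.ord (aeval (fun i => x i / x j) (H m)) = 0) : LogAt G H x E := by
  classical
  set y : Fin (n + 3) → K := fun i => x i / x j with hyd
  have hyj : y j = 1 := div_self hj
  obtain ⟨I, -, hImin⟩ := Finset.exists_min_image (Finset.univ : Finset (Fin (n + 2) → Fin (n + 3)))
    (fun I => E.ord (aeval y (mP Q I))) Finset.univ_nonempty
  have hμ : ∀ I', E.ord (aeval y (mP Q I)) ≤ E.ord (aeval y (mP Q I')) := fun I' => hImin I' (Finset.mem_univ _)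
  have hI0 : aeval y (mP Q I) ≠ 0 := by
    intro h0
    obtain ⟨I', hI'⟩ := hI
    have h1 := hμ I'
    rw [h0, AddValuation.map_zero, top_le_iff] at h1
    exact hI' ((AddValuation.top_iff E.ord).1 h1)
  refine ⟨x j, hj, hy, I ∘ ε, ?_⟩
  rw [show allJac G H (fun i => x i / x j) (I ∘ ε) = aeval y (mP Q I) from allJac_mP ε hε y I]
  refine ⟨hI0, ?_⟩
  rcases eq_or_lt_of_le (ord_aeval E hy (mP Q I)) with h0 | h0
  · refine ⟨fun η hη i => ?_, Or.inl h0.symm⟩
    rw [← h0]
    exact (hy i).trans (hη _)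
  · have hm : ∀ I', 0 < E.ord (aeval y (mP Q I')) := fun I' => lt_of_lt_of_le h0 (hμ I')
    have hest := fun (η : Derivation ℂ K K) (hη : ∀ f, E.ord f ≤ E.ord (η f)) (i : Fin (n + 3)) =>
      h.est E hy hyj hQ h01 hm hμ η hη i
    refine ⟨hest, Or.inr ?_⟩
    obtain ⟨m, hm'⟩ := hH (h.placeA E hy hyj hQ hm)
    refine ⟨m, hm', fun η hη => ?_⟩
    rw [Pool.Agent.H17GT.FormX.der_aeval_complex]
    refine AddValuation.map_le_sum E.ord fun i _ => ?_
    rw [AddValuation.map_mul]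
    exact (hest η hη i).trans (le_add_of_nonneg_left (ord_aeval E hy _))

end Place

end Pool.Agent.TCN
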