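import Pool.Agent.TCN.Eul
import Pool.Agent.TCN.Lower
import Pool.Agent.TC.DQ
import Pool.Agent.H62.EF.LimL
import Pool.Agent.H62.Log.Hurwitz

/-!
# TCN LocAlt: a local alternative for sections with bounded derivative

`F k` are sections on the fixed ball `ball z₀ r` with `fs ≤ L`.  Let `r' ≤ min r (1 / (8 L)) / 4`.  As in part (a) of `H62/EF/LimL.lean` and in `TC/LimAlt.lean`, on `ball z₀ (4 r')`: `u k = ‖F k z₀‖⁻¹ • F k z₀` (`F k z ≠ 0`: `norm_lower` or `F₁ ≠ 0`), `c k z = ⟨u k, F k z⟩` (`inner ℂ`, holomorphic in `z`), `pr_lipschitz`: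
`dist (pr (F k z)) (pr (u k)) ≤ 2 L 4 r' ≤ 1 / 4`, so `‖F k z‖² / 2 ≤ ‖c k z‖² ≤ ‖F k z‖²` (`norm_inner_sq`), `φ k z = (c k z)⁻¹ • F k z` is holomorphic, `‖φ k‖ ≤ 2`, `⟨u k, φ k z⟩ = 1`.
`montel_ultrafilter`: `φ k → ψ` locally uniformly on `ball z₀ (4 r')`; `u k → u` (compact sphere), `⟨u, ψ z⟩ = 1`, so `ψ z ≠ 0`; `OnV Q (ψ z)`.  With `P = Q 0 * Q 1`, `d = e 0 + e 1`: `ev P (F k z) = 1`, so `ev P (φ k z) = ((c k z)⁻¹) ^ d` has no zeros, and by Hurwitz (`H62/Log/Hurwitz.lean`) `ev P (ψ z)` has no zeros on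
`ball z₀ (4 r')` or vanishes identically there.
* No zeros: it is `≥ δ > 0` on `closedBall z₀ (2 r')` (compactness), so for almost all `k` `‖(c k z)⁻¹‖ ^ d ≥ δ / 2` there, so `‖F k z‖ ≤ 2 ‖c k z‖` is bounded: second alternative.
* Identically zero: `‖c k z‖ → ∞` uniformly on `closedBall z₀ (2 r')`, so `‖F k z‖ ≥ ‖c k z‖ → ∞` uniformly.  `ev (Q 0) (φ k z) = exp z (c k z)⁻¹ ^ e 0 → 0`, the same for `Q 1`, so `ev (Q 0) (ψ z) = ev (Q 1) (ψ z) = 0`, and `fs (ψ z) (ψ' z) = 0` (`NPair.base_fs` in `TC/Eul.lean`).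
  `fs (F k z) (deriv (F k) z) = fs (φ k z) (deriv (φ k) z)` (`H36.BP.fs_inv`) tends to `fs (ψ z) (ψ' z) = 0` uniformly on `ball z₀ r'`: otherwise there are points `z k ∈ ball z₀ r'` with `fs ≥ ε`, `z k → z'` along the ultrafilter, and
  `φ k (z k) → ψ z'`, `deriv (φ k) (z k) → deriv ψ z'` (`TendstoLocallyUniformlyOn.deriv`), `fs` is continuous at `(ψ z', ψ' z')`.
-/

set_option autoImplicit false

open Topology Filter Metric

namespace Pool.Agent.TCN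

open Pool.Agent.TC

open Pool.Agent.H36.BP (EN fs wd Sub)
open Pool.Agent.H62.EF (pr pr_lipschitz norm_inner_sq)

variable {n : ℕ} {Q : Fin (n + 2) → MvPolynomial (Fin (n + 3)) ℂ} {e : Fin (n + 2) → ℕ}

private theorem LocAlt_conv {E : Type*} [NormedAddCommGroup E] [NormedSpace ℂ E] {𝒰 : Ultrafilter ℕ} {φ : ℕ → ℂ → E} {ψ : ℂ → E} {z₀ : ℂ}
    {r : ℝ} (hψ : ContinuousOn ψ (ball z₀ r)) (hc : TendstoLocallyUniformlyOn φ ψ 𝒰 (ball z₀ r)) {w : ℕ → ℂ} {z : ℂ}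
    (hz : z ∈ ball z₀ r) (hw : Tendsto w 𝒰 (𝓝 z)) : Tendsto (fun k => φ k (w k)) 𝒰 (𝓝 (ψ z)) := by
  refine hc.tendsto_comp (hψ z hz) hz ?_
  exact tendsto_nhdsWithin_iff.mpr ⟨hw, hw.eventually (isOpen_ball.mem_nhds hz)⟩

/-- a property which holds at the points of every sequence holds uniformly -/
private theorem LocAlt_unif {𝒰 : Ultrafilter ℕ} {z₀ : ℂ} {s : ℝ} (hs : 0 ≤ s) {P : ℕ → ℂ → Prop}
    (h : ∀ (w : ℕ → ℂ) (z : ℂ), (∀ k, w k ∈ closedBall z₀ s) → z ∈ closedBall z₀ s → Tendsto w 𝒰 (𝓝 z) →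
      ∀ᶠ k in (𝒰 : Filter ℕ), P k (w k)) : ∀ᶠ k in (𝒰 : Filter ℕ), ∀ z ∈ closedBall z₀ s, P k z := by
  classical
  by_contra hcon
  have hcon' : ∀ᶠ k in (𝒰 : Filter ℕ), ∃ z ∈ closedBall z₀ s, ¬ P k z := by
    have h1 := Ultrafilter.eventually_not.2 hcon
    filter_upwards [h1] with k hk
    push Not at hk
    exact hk
  set w : ℕ → ℂ := fun k => if hk : ∃ z ∈ closedBall z₀ s, ¬ P k z then hk.choose else z₀ with hw
  have hw1 : ∀ k, w k ∈ closedBall z₀ s := by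
    intro k
    simp only [hw]
    split_ifs with hk
    · exact hk.choose_spec.1
    · exact mem_closedBall_self hs
  obtain ⟨z, hz, hwz⟩ := (isCompact_closedBall z₀ s).ultrafilter_le_nhds (𝒰.map w) (by
    rw [le_principal_iff]
    show ∀ᶠ k in (𝒰 : Filter ℕ), w k ∈ closedBall z₀ s
    exact Eventually.of_forall fun k => hw1 k)
  have h2 := h w z hw1 hz hwz
  obtain ⟨k, hk1, hk2⟩ := (h2.and hcon').exists
  simp only [hw, dif_pos hk2] at hk1
  exact hk2.choose_spec.2 hk1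

/-- normalised lifts -/
private theorem LocAlt_lift (h : NPair Q e) (𝒰 : Ultrafilter ℕ) {F : ℕ → ℂ → EN (n + 2)} {z₀ : ℂ} {r L : ℝ} (hr : 0 < r) (hL : 0 < L)
    (hF : ∀ᶠ k in (𝒰 : Filter ℕ), IsSec Q (F k) (ball z₀ r) ∧ ∀ z ∈ ball z₀ r, fs (F k z) (deriv (F k) z) ≤ L) :
    ∃ (r₁ : ℝ) (c : ℕ → ℂ → ℂ) (ψ : ℂ → EN (n + 2)), 0 < r₁ ∧ r₁ ≤ r ∧
      (∀ᶠ k in (𝒰 : Filter ℕ), DifferentiableOn ℂ (c k) (ball z₀ r₁) ∧ ∀ z ∈ ball z₀ r₁, c k z ≠ 0 ∧ 1 ≤ ‖c k z • F k z‖) ∧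
      DifferentiableOn ℂ ψ (ball z₀ r₁) ∧ (∀ z ∈ ball z₀ r₁, ψ z ≠ 0) ∧
      TendstoLocallyUniformlyOn (fun k z => c k z • F k z) ψ 𝒰 (ball z₀ r₁) := by
  obtain ⟨a, C, ha, hlow⟩ := norm_lower h
  set r₁ : ℝ := min r (1 / (8 * L)) with hr₁
  have hr0 : 0 < r₁ := by positivity
  have hsub : ball z₀ r₁ ⊆ ball z₀ r := ball_subset_ball (min_le_left _ _)
  have hz₀ : z₀ ∈ ball z₀ r₁ := mem_ball_self hr0
  have hev : ∀ᶠ k in (𝒰 : Filter ℕ), DifferentiableOn ℂ (F k) (ball z₀ r₁) ∧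
      ∀ z ∈ ball z₀ r₁, F k z ≠ 0 ∧ ‖F k z₀‖ * ‖F k z‖ ≤ 2 * ‖(inner ℂ (F k z₀) (F k z) : ℂ)‖ := by
    filter_upwards [hF] with k hk
    obtain ⟨hk1, hk2⟩ := hk
    have hd : DifferentiableOn ℂ (F k) (ball z₀ r₁) := hk1.1.mono hsub
    have hne : ∀ z ∈ ball z₀ r₁, F k z ≠ 0 := fun z hz => (hlow (F k) _ hk1 z (hsub hz)).1
    refine ⟨hd, fun z hz => ⟨hne z hz, ?_⟩⟩
    have hlip := pr_lipschitz isOpen_ball (convex_ball z₀ r₁) hd hne (fun w hw => hk2 w (hsub hw)) z₀ hz₀ z hz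
    have h4 : ‖z₀ - z‖ ≤ 1 / (8 * L) := by
      rw [← dist_eq_norm, dist_comm]
      exact (mem_ball.mp hz).le.trans (min_le_right _ _)
    have h5 : dist (pr (F k z₀)) (pr (F k z)) ≤ 1 / 4 := by
      calc dist (pr (F k z₀)) (pr (F k z)) ≤ 2 * L * ‖z₀ - z‖ := hlip
        _ ≤ 2 * L * (1 / (8 * L)) := by gcongr
        _ = 1 / 4 := by field_simp; norm_num
    have h6 := norm_inner_sq (hne z₀ hz₀) (hne z hz)
    have h7 : dist (pr (F k z₀)) (pr (F k z)) ^ 2 ≤ 1 := by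
      have := dist_nonneg (x := pr (F k z₀)) (y := pr (F k z))
      nlinarith
    have h8 : (‖F k z₀‖ * ‖F k z‖) ^ 2 ≤ (2 * ‖(inner ℂ (F k z₀) (F k z) : ℂ)‖) ^ 2 := by
      rw [mul_pow, mul_pow, h6]
      have h9 : 0 ≤ ‖F k z₀‖ ^ 2 * ‖F k z‖ ^ 2 := by positivity
      nlinarith
    exact abs_le_of_sq_le_sq' h8 (by positivity) |>.2
  set c : ℕ → ℂ → ℂ := fun k z => ((‖F k z₀‖ : ℝ) : ℂ) / inner ℂ (F k z₀) (F k z) with hc
  have hev2 : ∀ᶠ k in (𝒰 : Filter ℕ), DifferentiableOn ℂ (F k) (ball z₀ r₁) ∧ DifferentiableOn ℂ (c k) (ball z₀ r₁) ∧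
      ∀ z ∈ ball z₀ r₁, c k z ≠ 0 ∧ ‖c k z • F k z‖ ≤ 2 ∧ 1 ≤ ‖c k z • F k z‖ := by
    filter_upwards [hev] with k hk
    obtain ⟨h1, h2⟩ := hk
    have hx0 : F k z₀ ≠ 0 := (h2 z₀ hz₀).1
    have hxn : 0 < ‖F k z₀‖ := norm_pos_iff.mpr hx0
    have hin : ∀ z ∈ ball z₀ r₁, (inner ℂ (F k z₀) (F k z) : ℂ) ≠ 0 := by
      intro z hz h
      have h3 := (h2 z hz).2
      have hyn : 0 < ‖F k z‖ := norm_pos_iff.mpr (h2 z hz).1
      rw [h, norm_zero, mul_zero] at h3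
      have : 0 < ‖F k z₀‖ * ‖F k z‖ := mul_pos hxn hyn
      linarith
    refine ⟨h1, ?_, fun z hz => ⟨?_, ?_, ?_⟩⟩
    · have h3 : DifferentiableOn ℂ (fun z => (inner ℂ (F k z₀) (F k z) : ℂ)) (ball z₀ r₁) :=
        (innerSL ℂ (F k z₀)).differentiable.comp_differentiableOn h1
      exact (differentiableOn_const _).div h3 hin
    · exact div_ne_zero (Complex.ofReal_ne_zero.mpr hxn.ne') (hin z hz)
    · have h3 := (h2 z hz).2
      have h4 : 0 < ‖(inner ℂ (F k z₀) (F k z) : ℂ)‖ := norm_pos_iff.mpr (hin z hz)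
      simp only [hc]
      rw [norm_smul, norm_div, Complex.norm_real, norm_norm, div_mul_eq_mul_div, div_le_iff₀ h4]
      exact h3
    · have h4 : 0 < ‖(inner ℂ (F k z₀) (F k z) : ℂ)‖ := norm_pos_iff.mpr (hin z hz)
      simp only [hc]
      rw [norm_smul, norm_div, Complex.norm_real, norm_norm, div_mul_eq_mul_div, le_div_iff₀ h4, one_mul]
      exact norm_inner_le_norm _ _
  obtain ⟨ψ, hψ, hconv⟩ := Pool.Agent.H17.montel_ultrafilter 𝒰 (F := fun k z => c k z • F k z) (a := z₀) (r := r₁) (B := 2)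
    (hev2.mono fun k hk => hk.2.1.smul hk.1) (hev2.mono fun k hk z hz => (hk.2.2 z hz).2.1)
  refine ⟨r₁, c, ψ, hr0, min_le_left _ _, hev2.mono fun k hk => ⟨hk.2.1, fun z hz => ⟨(hk.2.2 z hz).1, (hk.2.2 z hz).2.2⟩⟩,
    hψ, fun z hz => ?_, hconv⟩
  have h1 : Tendsto (fun k => c k z • F k z) 𝒰 (𝓝 (ψ z)) := hconv.tendsto_at hz
  have h3 : 1 ≤ ‖ψ z‖ := ge_of_tendsto h1.norm (hev2.mono fun k hk => (hk.2.2 z hz).2.2)
  intro h4
  rw [h4, norm_zero] at h3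
  linarith

private theorem LocAlt_fs_cont {x v : EN (n + 2)} (hx : x ≠ 0) {a b : ℕ → EN (n + 2)} {l : Filter ℕ} (ha : Tendsto a l (𝓝 x))
    (hb : Tendsto b l (𝓝 v)) : Tendsto (fun k => fs (a k) (b k)) l (𝓝 (fs x v)) := by
  have hc : ContinuousAt (fun p : EN (n + 2) × EN (n + 2) => fs p.1 p.2) (x, v) := by
    unfold fs
    have h1 : ContinuousAt (fun p : EN (n + 2) × EN (n + 2) => wd p.1 p.2) (x, v) := Pool.Agent.H36.BP.wd_cont.continuousAt
    have h2 : ContinuousAt (fun p : EN (n + 2) × EN (n + 2) => ‖p.1‖ ^ 2) (x, v) := (continuous_fst.norm.pow 2).continuousAt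
    exact h1.div h2 (pow_ne_zero 2 (norm_ne_zero_iff.mpr hx))
  have h1 := ha.prodMk_nhds hb
  have h2 := hc.tendsto.comp h1
  exact h2

theorem loc_alt (h : NPair Q e) (𝒰 : Ultrafilter ℕ) {F : ℕ → ℂ → EN (n + 2)} {z₀ : ℂ} {r L : ℝ} (hr : 0 < r) (hL : 0 < L)
    (hF : ∀ᶠ k in (𝒰 : Filter ℕ), IsSec Q (F k) (ball z₀ r) ∧ ∀ z ∈ ball z₀ r, fs (F k z) (deriv (F k) z) ≤ L) :
    ∃ r' : ℝ, 0 < r' ∧ r' ≤ r ∧
      ((∀ M : ℝ, ∀ᶠ k in (𝒰 : Filter ℕ), ∀ z ∈ ball z₀ r', M ≤ ‖F k z‖ ∧ M * fs (F k z) (deriv (F k) z) ≤ 1) ∨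
        ∃ M : ℝ, ∀ᶠ k in (𝒰 : Filter ℕ), ∀ z ∈ ball z₀ r', ‖F k z‖ ≤ M) := by
  obtain ⟨r₁, c, ψ, hr₁, hr₁r, hc, hψ, hψ0, hconv⟩ := LocAlt_lift h 𝒰 hr hL hF
  have hsub : ball z₀ r₁ ⊆ ball z₀ r := ball_subset_ball hr₁r
  have hcb : closedBall z₀ (r₁ / 2) ⊆ ball z₀ r₁ := closedBall_subset_ball (by linarith)
  have hP : (Q 0 * Q 1).IsHomogeneous (e 0 + e 1) := (h.hom 0).mul (h.hom 1)
  set d : ℕ := e 0 + e 1 with hd
  have hd1 : 1 ≤ d := by have := h.pos 0; omega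
  have hone : ∀ᶠ k in (𝒰 : Filter ℕ), ∀ z ∈ ball z₀ r₁, ev (Q 0 * Q 1) (c k z • F k z) = c k z ^ d := by
    filter_upwards [hF] with k hk z hz
    obtain ⟨h1, h2, -⟩ := hk.1.2 z (hsub hz)
    rw [ev_smul hP, ev_mul, h1, h2, ← Complex.exp_add]
    simp
  have hdiff : ∀ᶠ k in (𝒰 : Filter ℕ), DifferentiableOn ℂ (F k) (ball z₀ r₁) := by
    filter_upwards [hF] with k hk
    exact hk.1.1.mono hsub
  have hφd : ∀ᶠ k in (𝒰 : Filter ℕ), DifferentiableOn ℂ (fun z => c k z • F k z) (ball z₀ r₁) := by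
    filter_upwards [hc, hdiff] with k hk1 hk2
    exact hk1.1.smul hk2
  have hseq : ∀ (w : ℕ → ℂ) (z : ℂ), z ∈ ball z₀ r₁ → Tendsto w 𝒰 (𝓝 z) →
      Tendsto (fun k => c k (w k) • F k (w k)) 𝒰 (𝓝 (ψ z)) := fun w z hz hw =>
    LocAlt_conv hψ.continuousOn hconv hz hw
  have hpow : ∀ (w : ℕ → ℂ) (z : ℂ), z ∈ ball z₀ r₁ → Tendsto w 𝒰 (𝓝 z) →
      Tendsto (fun k => c k (w k) ^ d) 𝒰 (𝓝 (ev (Q 0 * Q 1) (ψ z))) := by
    intro w z hz hw
    have h1 := ((continuous_ev (Q 0 * Q 1)).tendsto _).comp (hseq w z hz hw)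
    refine h1.congr' ?_
    filter_upwards [hone, hw.eventually (isOpen_ball.mem_nhds hz)] with k hk1 hk2
    exact hk1 _ hk2
  have hur := Pool.Agent.H62.Log.hurwitz 𝒰 (φ := fun k z => ev (Q 0 * Q 1) (c k z • F k z))
    (ψ := fun z => ev (Q 0 * Q 1) (ψ z)) (a := z₀) (r := r₁)
    (by
      filter_upwards [hφd] with k hk
      exact (differentiable_ev _).comp_differentiableOn hk)
    (by
      filter_upwards [hone, hc] with k hk1 hk2 z hz
      rw [hk1 z hz]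
      exact pow_ne_zero _ (hk2.2 z hz).1)
    ((differentiable_ev _).comp_differentiableOn hψ)
    (fun w z hz hw => ((continuous_ev _).tendsto _).comp (hseq w z hz hw))
  refine ⟨r₁ / 2, by positivity, by linarith, ?_⟩
  have hbc : ball z₀ (r₁ / 2) ⊆ closedBall z₀ (r₁ / 2) := ball_subset_closedBall
  have hr2 : 0 ≤ r₁ / 2 := by positivity
  rcases hur with hzero | hne
  · left
    intro M
    have key : ∀ᶠ k in (𝒰 : Filter ℕ), ∀ z ∈ closedBall z₀ (r₁ / 2), M ≤ ‖F k z‖ ∧ M * fs (F k z) (deriv (F k) z) ≤ 1 := by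
      refine LocAlt_unif hr2 fun w z hw hz hwz => ?_
      have hzb : z ∈ ball z₀ r₁ := hcb hz
      have hwb : ∀ k, w k ∈ ball z₀ r₁ := fun k => hcb (hw k)
      have h1 : Tendsto (fun k => c k (w k) ^ d) 𝒰 (𝓝 0) := by
        have := hpow w z hzb hwz
        rwa [hzero z hzb] at this
      have h2 : Tendsto (fun k => ‖c k (w k)‖) 𝒰 (𝓝 0) := by
        have h3 : Tendsto (fun k => ‖c k (w k)‖ ^ d) 𝒰 (𝓝 0) := by
          have := h1.norm
          simpa only [norm_pow, norm_zero] using this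
        rw [Metric.tendsto_nhds] at h3 ⊢
        intro ε hε
        filter_upwards [h3 (ε ^ d) (pow_pos hε d)] with k hk
        rw [Real.dist_eq, sub_zero, abs_of_nonneg (by positivity)] at hk ⊢
        exact lt_of_pow_lt_pow_left₀ d hε.le hk
      have h4 : ∀ᶠ k in (𝒰 : Filter ℕ), M ≤ ‖F k (w k)‖ := by
        have h5 : ∀ᶠ k in (𝒰 : Filter ℕ), ‖c k (w k)‖ < (|M| + 1)⁻¹ := h2.eventually_lt_const (by positivity)
        filter_upwards [h5, hc] with k hk1 hk2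
        have h6 := (hk2.2 _ (hwb k)).2
        rw [norm_smul] at h6
        have h7 : 0 < |M| + 1 := by positivity
        have h8 : 0 ≤ ‖F k (w k)‖ := norm_nonneg _
        have h9 : ‖c k (w k)‖ * ‖F k (w k)‖ ≤ (|M| + 1)⁻¹ * ‖F k (w k)‖ := mul_le_mul_of_nonneg_right hk1.le h8
        have h10 : 1 ≤ (|M| + 1)⁻¹ * ‖F k (w k)‖ := h6.trans h9
        rw [inv_mul_eq_div, le_div_iff₀ h7, one_mul] at h10
        exact (le_abs_self M).trans (by linarith)
      have hQ : ∀ j : Fin (n + 2), (j = 0 ∨ j = 1) → ∀ z' ∈ ball z₀ r₁, ev (Q j) (ψ z') = 0 := by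
        intro j hj z' hz'
        have g1 : Tendsto (fun k => c k z' ^ d) 𝒰 (𝓝 0) := by
          have := hpow (fun _ => z') z' hz' tendsto_const_nhds
          rwa [hzero z' hz'] at this
        have g2 : Tendsto (fun k => ‖c k z'‖) 𝒰 (𝓝 0) := by
          have h3 : Tendsto (fun k => ‖c k z'‖ ^ d) 𝒰 (𝓝 0) := by
            have := g1.norm
            simpa only [norm_pow, norm_zero] using this
          rw [Metric.tendsto_nhds] at h3 ⊢
          intro ε hε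
          filter_upwards [h3 (ε ^ d) (pow_pos hε d)] with k hk
          rw [Real.dist_eq, sub_zero, abs_of_nonneg (by positivity)] at hk ⊢
          exact lt_of_pow_lt_pow_left₀ d hε.le hk
        have g3 : Tendsto (fun k => c k z') 𝒰 (𝓝 0) := tendsto_zero_iff_norm_tendsto_zero.2 g2
        have g4 := ((continuous_ev (Q j)).tendsto _).comp (hseq (fun _ => z') z' hz' tendsto_const_nhds)
        have hej : 1 ≤ e j := h.pos j
        rcases hj with rfl | rfl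
        · have g5 : Tendsto (fun k => c k z' ^ e 0 * Complex.exp z') 𝒰 (𝓝 (0 ^ e 0 * Complex.exp z')) :=
            (g3.pow _).mul tendsto_const_nhds
          rw [zero_pow (by omega), zero_mul] at g5
          refine tendsto_nhds_unique g4 (g5.congr' ?_)
          filter_upwards [hF] with k hk
          simp only [Function.comp]
          rw [ev_smul (h.hom 0), (hk.1.2 z' (hsub hz')).1]
        · have g5 : Tendsto (fun k => c k z' ^ e 1 * Complex.exp (-z')) 𝒰 (𝓝 (0 ^ e 1 * Complex.exp (-z'))) :=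
            (g3.pow _).mul tendsto_const_nhds
          rw [zero_pow (by omega), zero_mul] at g5
          refine tendsto_nhds_unique g4 (g5.congr' ?_)
          filter_upwards [hF] with k hk
          simp only [Function.comp]
          rw [ev_smul (h.hom 1), (hk.1.2 z' (hsub hz')).2.1]
      have hVψ : ∀ z' ∈ ball z₀ r₁, OnV Q (ψ z') := by
        intro z' hz' j hj
        have g4 := ((continuous_ev (Q j)).tendsto _).comp (hseq (fun _ => z') z' hz' tendsto_const_nhds)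
        refine tendsto_nhds_unique g4 (tendsto_const_nhds.congr' ?_)
        filter_upwards [hF] with k hk
        simp only [Function.comp]
        rw [ev_smul (h.hom j), (hk.1.2 z' (hsub hz')).2.2 j hj, mul_zero]
      have hfs0 : fs (ψ z) (deriv ψ z) = 0 := by
        refine h.base_fs (hψ.differentiableAt (isOpen_ball.mem_nhds hzb)) (hψ0 z hzb) ?_ ?_ ?_
        · filter_upwards [isOpen_ball.mem_nhds hzb] with z' hz' using hVψ z' hz'
        · filter_upwards [isOpen_ball.mem_nhds hzb] with z' hz' using hQ 0 (Or.inl rfl) z' hz'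
        · filter_upwards [isOpen_ball.mem_nhds hzb] with z' hz' using hQ 1 (Or.inr rfl) z' hz'
      have hderiv : Tendsto (fun k => deriv (fun z => c k z • F k z) (w k)) 𝒰 (𝓝 (deriv ψ z)) := by
        have h5 := hconv.deriv hφd isOpen_ball
        exact LocAlt_conv (hψ.deriv isOpen_ball).continuousOn h5 hzb hwz
      have hfs : Tendsto (fun k => fs (c k (w k) • F k (w k)) (deriv (fun z => c k z • F k z) (w k))) 𝒰 (𝓝 0) := by
        rw [← hfs0]
        exact LocAlt_fs_cont (hψ0 z hzb) (hseq w z hzb hwz) hderiv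
      have h11 : ∀ᶠ k in (𝒰 : Filter ℕ), fs (F k (w k)) (deriv (F k) (w k)) < (|M| + 1)⁻¹ := by
        have h12 := hfs.eventually_lt_const (show (0 : ℝ) < (|M| + 1)⁻¹ by positivity)
        filter_upwards [h12, hc, hdiff, hF] with k hk1 hk2 hk3 hk4
        have hcd : DifferentiableAt ℂ (c k) (w k) := hk2.1.differentiableAt (isOpen_ball.mem_nhds (hwb k))
        have hFd : DifferentiableAt ℂ (F k) (w k) := hk3.differentiableAt (isOpen_ball.mem_nhds (hwb k))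
        have h13 : deriv (fun z => c k z • F k z) (w k) = c k (w k) • deriv (F k) (w k) + deriv (c k) (w k) • F k (w k) :=
          (hcd.hasDerivAt.smul hFd.hasDerivAt).deriv
        have hF0 : F k (w k) ≠ 0 := by
          intro h14
          have h15 := (hk2.2 _ (hwb k)).2
          rw [h14, smul_zero, norm_zero] at h15
          linarith
        rw [h13, Pool.Agent.H36.BP.fs_inv hF0 _ (hk2.2 _ (hwb k)).1] at hk1
        exact hk1
      filter_upwards [h4, h11] with k hk1 hk2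
      refine ⟨hk1, ?_⟩
      have h13 : 0 ≤ fs (F k (w k)) (deriv (F k) (w k)) := Pool.Agent.H36.BP.fs_nonneg _ _
      have h14 : 0 < |M| + 1 := by positivity
      calc M * fs (F k (w k)) (deriv (F k) (w k)) ≤ (|M| + 1) * fs (F k (w k)) (deriv (F k) (w k)) := by
            refine mul_le_mul_of_nonneg_right ?_ h13
            linarith [le_abs_self M]
        _ ≤ (|M| + 1) * (|M| + 1)⁻¹ := by gcongr
        _ = 1 := mul_inv_cancel₀ h14.ne'
    filter_upwards [key] with k hk z hz using hk z (hbc hz)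
  · right
    -- choose the maximum points
    have hmax : ∀ᶠ k in (𝒰 : Filter ℕ), ∃ w ∈ closedBall z₀ (r₁ / 2), ∀ z ∈ closedBall z₀ (r₁ / 2), ‖F k z‖ ≤ ‖F k w‖ := by
      filter_upwards [hdiff] with k hk1
      obtain ⟨w, hw, h5⟩ := (isCompact_closedBall z₀ (r₁ / 2)).exists_isMaxOn ⟨z₀, mem_closedBall_self (by linarith)⟩
        ((hk1.continuousOn.mono hcb).norm)
      exact ⟨w, hw, fun z hz => h5 hz⟩
    choose! w hw using fun (k : ℕ) (h : ∃ w ∈ closedBall z₀ (r₁ / 2), ∀ z ∈ closedBall z₀ (r₁ / 2), ‖F k z‖ ≤ ‖F k w‖) => h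
    obtain ⟨z', hz', hwz⟩ : ∃ z' ∈ closedBall z₀ (r₁ / 2), Tendsto w (𝒰 : Filter ℕ) (𝓝 z') := by
      obtain ⟨l, hl1, hl2⟩ := (isCompact_closedBall z₀ (r₁ / 2)).ultrafilter_le_nhds (𝒰.map w) (by
        rw [le_principal_iff]
        exact hmax.mono fun k hk => (hw k hk).1)
      exact ⟨l, hl1, hl2⟩
    have hzb : z' ∈ ball z₀ r₁ := hcb hz'
    have h1 := (hpow w z' hzb hwz).norm
    have hm0 : 0 < ‖ev (Q 0 * Q 1) (ψ z')‖ := norm_pos_iff.mpr (hne z' hzb)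
    set m : ℝ := ‖ev (Q 0 * Q 1) (ψ z')‖ with hm
    set δ : ℝ := min 1 (m / 2) with hδ
    have hδ0 : 0 < δ := by positivity
    have h2 : ∀ᶠ k in (𝒰 : Filter ℕ), m / 2 < ‖c k (w k) ^ d‖ := h1.eventually_const_lt (by linarith)
    have h3 : ∀ᶠ k in (𝒰 : Filter ℕ), ‖c k (w k) • F k (w k)‖ < ‖ψ z'‖ + 1 :=
      (hseq w z' hzb hwz).norm.eventually_lt_const (by linarith)
    refine ⟨(‖ψ z'‖ + 1) / δ, ?_⟩
    filter_upwards [h2, h3, hmax] with k hk2 hk3 hk4 z hz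
    refine ((hw k hk4).2 z (hbc hz)).trans ?_
    have h4 : δ ≤ ‖c k (w k)‖ := by
      by_contra hlt
      push Not at hlt
      have h5 : ‖c k (w k)‖ ≤ 1 := hlt.le.trans (min_le_left _ _)
      have h6 : ‖c k (w k)‖ ^ d ≤ ‖c k (w k)‖ := pow_le_of_le_one (norm_nonneg _) h5 (by omega)
      rw [norm_pow] at hk2
      have h7 : δ ≤ m / 2 := min_le_right _ _
      linarith
    rw [norm_smul] at hk3
    rw [le_div_iff₀ hδ0, mul_comm]
    exact (mul_le_mul_of_nonneg_right h4 (norm_nonneg _)).trans hk3.le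

end Pool.Agent.TCN
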