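import Mathlib

/-!
# TCN Morse: the lemma of Morse for analytic functions of two variables

(1) `D² f (0)` is nondegenerate: if `D² f (0) v = 0`, `v ≠ 0`, then `fderiv f (ε v) = fderiv f 0 + ε D² f (0) v + O(ε²) = O (ε²)`, but its norm is `≥ c ε ‖v‖`.
(2) The quadratic form `D² f (0) (v, v)` on `ℂ²` is nondegenerate, so there is a basis `u, v` with `D² f (0) (u,u) = D² f (0) (v,v) = 0`, `D² f (0) (u,v) = 1` (explicitly: `A x² + 2 B x y + C y²` with `A C ≠ B²`; a quadratic polynomial over `ℂ` has roots).  Replace `f` by `(x, y) ↦ f (x u + y v)`: `D² f (0) ((a,b),(a,b)) = 2 a b`.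
(3) `k (w, y) = ∫_0^1 (1 - r) D² f (r y w, r y) ((w,1),(w,1)) dr` is analytic near `0` (integral of an analytic function of `(w, y)` depending continuously on `r`; or: `f (y w, y)` is analytic, `0` and its `y`-derivative is `0` at `y = 0` for every `w`, so it is divisible by `y²`: power series), and
`f (y w, y) = y² k (w, y)`, `k (w, 0) = w`.
(4) Implicit function theorem: `b` analytic near `0 ∈ ℂ`, `b 0 = 0`, `k (b y, y) = 0`.  `a y = y * b y`, `a 0 = 0`, `a' 0 = 0`, `f (a y, y) = 0`.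
(5) `s = x - a y`, `t = ∫_0^1 (∂_x f) (a y + r (x - a y), y) dr`, analytic, `f = s t`; `κ = (s, t)` (after the linear change) has the invertible derivative `(dx, dy)` at `0` (`∂_x f = y + O(2)`); `χ` = its local inverse (`HasStrictFDerivAt.localInverse`, analytic: `AnalyticAt` of the local inverse, or `ContDiffAt.to_localInverse`, over `ℂ` `ContDiffAt ℂ ω`
or differentiable in a neighborhood is analytic).
It may help to prove first: a function which is differentiable (over `ℂ`) in a neighbourhood of a point of `ℂ × ℂ` is analytic there (if it is in Mathlib or on main: search `DifferentiableOn.analyticAt`, Hartogs / Osgood; otherwise work with `ContDiffAt ℂ ω`).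
-/

set_option autoImplicit false

open Topology Filter Metric

namespace Pool.Agent.TCN

private theorem morse_pi : (0 : ℝ) ≤ 2 * Real.pi := by positivity

/-- the parameter interval of the circle -/
private abbrev MorseT : Type := Set.Icc (0 : ℝ) (2 * Real.pi)

private noncomputable def morseP (θ : ℝ) : MorseT := Set.projIcc 0 (2 * Real.pi) morse_pi θ

private theorem morseP_cont : Continuous morseP := continuous_projIcc (h := morse_pi)

private theorem morseP_of_mem {θ : ℝ} (h : θ ∈ Set.uIcc 0 (2 * Real.pi)) : ((morseP θ : MorseT) : ℝ) = θ := by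
  rw [Set.uIcc_of_le morse_pi] at h
  rw [morseP, Set.projIcc_of_mem morse_pi h]

private theorem morse_cont2 (f : C(MorseT × MorseT, ℂ)) : Continuous fun x : ℝ × ℝ => f (morseP x.1, morseP x.2) :=
  f.continuous.comp ((morseP_cont.comp continuous_fst).prodMk (morseP_cont.comp continuous_snd))

private theorem morse_cont_in (f : C(MorseT × MorseT, ℂ)) (θ : ℝ) : Continuous fun φ : ℝ => f (morseP θ, morseP φ) :=
  (morse_cont2 f).comp (continuous_const.prodMk continuous_id)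

private theorem morse_cont_out (f : C(MorseT × MorseT, ℂ)) :
    Continuous fun θ : ℝ => ∫ φ in (0 : ℝ)..(2 * Real.pi), f (morseP θ, morseP φ) :=
  intervalIntegral.continuous_parametric_intervalIntegral_of_continuous' (f := fun θ φ : ℝ => f (morseP θ, morseP φ))
    (morse_cont2 f) _ _

/-- the double integral as a continuous functional -/
private noncomputable def morseJ : C(MorseT × MorseT, ℂ) →L[ℂ] ℂ :=
  LinearMap.mkContinuous
    { toFun := fun f => ∫ θ in (0 : ℝ)..(2 * Real.pi), ∫ φ in (0 : ℝ)..(2 * Real.pi), f (morseP θ, morseP φ)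
      map_add' := by
        intro f g
        rw [← intervalIntegral.integral_add ((morse_cont_out f).intervalIntegrable _ _)
          ((morse_cont_out g).intervalIntegrable _ _)]
        congr 1
        funext θ
        rw [← intervalIntegral.integral_add ((morse_cont_in f θ).intervalIntegrable _ _)
          ((morse_cont_in g θ).intervalIntegrable _ _)]
        rfl
      map_smul' := by
        intro c f
        simp only [ContinuousMap.coe_smul, Pi.smul_apply, intervalIntegral.integral_smul, RingHom.id_apply] }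
    ((2 * Real.pi) * (2 * Real.pi)) (by
      intro f
      have h1 : ∀ θ : ℝ, ‖∫ φ in (0 : ℝ)..(2 * Real.pi), f (morseP θ, morseP φ)‖ ≤ ‖f‖ * (2 * Real.pi) := by
        intro θ
        have h2 := intervalIntegral.norm_integral_le_of_norm_le_const (a := 0) (b := 2 * Real.pi) (C := ‖f‖)
          (f := fun φ => f (morseP θ, morseP φ)) (fun φ _ => f.norm_coe_le_norm _)
        rwa [sub_zero, abs_of_nonneg morse_pi] at h2
      have h2 := intervalIntegral.norm_integral_le_of_norm_le_const (a := 0) (b := 2 * Real.pi)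
        (C := ‖f‖ * (2 * Real.pi))
        (f := fun θ => ∫ φ in (0 : ℝ)..(2 * Real.pi), f (morseP θ, morseP φ)) (fun θ _ => h1 θ)
      rw [sub_zero, abs_of_nonneg morse_pi] at h2
      refine h2.trans (le_of_eq ?_)
      ring)

private theorem morseJ_apply (f : C(MorseT × MorseT, ℂ)) :
    morseJ f = ∫ θ in (0 : ℝ)..(2 * Real.pi), ∫ φ in (0 : ℝ)..(2 * Real.pi), f (morseP θ, morseP φ) := rfl

private theorem morse_unit {Q : Type} [TopologicalSpace Q] (G : C(Q, ℂ)) {s : ℂ} (h : ∀ q, G q ≠ s) :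
    IsUnit (G - s • (1 : C(Q, ℂ))) := by
  rw [ContinuousMap.isUnit_iff_forall_ne_zero]
  intro q hq
  apply h q
  have h1 : (G - s • (1 : C(Q, ℂ))) q = G q - s := by simp
  rw [h1, sub_eq_zero] at hq
  exact hq

private theorem morse_inv_apply {Q : Type} [TopologicalSpace Q] (G : C(Q, ℂ)) {s : ℂ} (h : ∀ q, G q ≠ s) (q : Q) :
    (Ring.inverse (G - s • (1 : C(Q, ℂ)))) q = (G q - s)⁻¹ := by
  have h1 := Ring.mul_inverse_cancel _ (morse_unit G h)
  have h2 := congrArg (fun f : C(Q, ℂ) => f q) h1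
  have h3 : (G q - s) * (Ring.inverse (G - s • (1 : C(Q, ℂ)))) q = 1 := by
    simpa using h2
  exact (eq_inv_of_mul_eq_one_right h3)

private theorem morse_inv_an {Q : Type} [TopologicalSpace Q] [CompactSpace Q] (G : C(Q, ℂ)) {s : ℂ} (h : ∀ q, G q ≠ s) :
    AnalyticAt ℂ (fun s : ℂ => Ring.inverse (G - s • (1 : C(Q, ℂ)))) s := by
  obtain ⟨u, hu⟩ := morse_unit G h
  have h1 : AnalyticAt ℂ (Ring.inverse : C(Q, ℂ) → C(Q, ℂ)) (G - s • (1 : C(Q, ℂ))) := by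
    rw [← hu]
    exact analyticAt_inverse u
  have h2 : AnalyticAt ℂ (fun s : ℂ => G - s • (1 : C(Q, ℂ))) s :=
    analyticAt_const.sub (analyticAt_id.smul analyticAt_const)
  exact AnalyticAt.fun_comp (g := (Ring.inverse : C(Q, ℂ) → C(Q, ℂ))) (f := fun s : ℂ => G - s • (1 : C(Q, ℂ))) h1 h2

/-- division by the first variable -/
private theorem morse_loc {R r : ℝ} (hr : 0 < r) (hrR : r < R) {a : ℂ × ℂ → ℂ}
    (ha : ∀ p ∈ ball (0 : ℂ × ℂ) R, AnalyticAt ℂ a p) (ha0 : ∀ t : ℂ, ‖t‖ < r → a (0, t) = 0) :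
    ∃ b : ℂ × ℂ → ℂ, AnalyticAt ℂ b 0 ∧ ∀ p ∈ ball (0 : ℂ × ℂ) r, a p = p.1 * b p := by
  have hmem : ∀ s t : ℂ, ‖s‖ ≤ r → ‖t‖ ≤ r → (s, t) ∈ ball (0 : ℂ × ℂ) R := by
    intro s t hs ht
    rw [mem_ball_zero_iff, Prod.norm_def]
    exact (max_le hs ht).trans_lt hrR
  have hγn : ∀ θ : ℝ, ‖circleMap 0 r θ‖ = r := by
    intro θ
    rw [norm_circleMap_zero, abs_of_pos hr]
  have hac : ContinuousOn a (ball (0 : ℂ × ℂ) R) := fun p hp => (ha p hp).continuousAt.continuousWithinAt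
  set γ : ℝ → ℂ := circleMap 0 r with hγ
  have hγc : Continuous γ := continuous_circleMap 0 r
  set γ' : ℝ → ℂ := fun θ => γ θ * Complex.I with hγ'
  have hγ'c : Continuous γ' := hγc.mul continuous_const
  have hTc1 : Continuous fun q : MorseT × MorseT => γ (q.1 : ℝ) := hγc.comp (continuous_subtype_val.comp continuous_fst)
  have hTc2 : Continuous fun q : MorseT × MorseT => γ (q.2 : ℝ) := hγc.comp (continuous_subtype_val.comp continuous_snd)
  have hWc : Continuous fun q : MorseT × MorseT => (2 * Real.pi * Complex.I)⁻¹ * (2 * Real.pi * Complex.I)⁻¹ *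
      (γ' (q.1 : ℝ) * γ' (q.2 : ℝ)) * a (γ (q.1 : ℝ), γ (q.2 : ℝ)) := by
    refine (continuous_const.mul ((hγ'c.comp (continuous_subtype_val.comp continuous_fst)).mul
      (hγ'c.comp (continuous_subtype_val.comp continuous_snd)))).mul ?_
    refine hac.comp_continuous (hTc1.prodMk hTc2) fun q => ?_
    exact hmem _ _ (hγn _).le (hγn _).le
  let W : C(MorseT × MorseT, ℂ) := ⟨_, hWc⟩
  let G1 : C(MorseT × MorseT, ℂ) := ⟨_, hTc1⟩
  let G2 : C(MorseT × MorseT, ℂ) := ⟨_, hTc2⟩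
  have hG1 : ∀ s : ℂ, ‖s‖ < r → ∀ q, G1 q ≠ s := by
    intro s hs q hq
    have h1 : ‖G1 q‖ = r := hγn _
    rw [hq] at h1
    linarith
  have hG2 : ∀ s : ℂ, ‖s‖ < r → ∀ q, G2 q ≠ s := by
    intro s hs q hq
    have h1 : ‖G2 q‖ = r := hγn _
    rw [hq] at h1
    linarith
  let K1 : ℂ → C(MorseT × MorseT, ℂ) := fun s => Ring.inverse (G1 - s • (1 : C(MorseT × MorseT, ℂ)))
  let K2 : ℂ → C(MorseT × MorseT, ℂ) := fun s => Ring.inverse (G2 - s • (1 : C(MorseT × MorseT, ℂ)))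
  have hK1 : ∀ s : ℂ, ‖s‖ < r → AnalyticAt ℂ K1 s := fun s hs => morse_inv_an G1 (hG1 s hs)
  have hK2 : ∀ s : ℂ, ‖s‖ < r → AnalyticAt ℂ K2 s := fun s hs => morse_inv_an G2 (hG2 s hs)
  have key : ∀ s t : ℂ, ‖s‖ < r → ‖t‖ < r → morseJ (W * K1 s * K2 t) = a (s, t) := by
    intro s t hs ht
    have hin : ∀ u : ℂ, ‖u‖ ≤ r →
        ∫ φ in (0 : ℝ)..(2 * Real.pi), γ' φ * ((γ φ - t)⁻¹ * a (u, γ φ)) = (2 * Real.pi * Complex.I) * a (u, t) := by
      intro u hu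
      have h1 : DifferentiableOn ℂ (fun z => a (u, z)) (closedBall 0 r) := by
        intro z hz
        have h2 := (ha (u, z) (hmem u z hu (by simpa using hz))).differentiableAt
        exact (h2.comp z ((differentiableAt_const u).prodMk differentiableAt_id)).differentiableWithinAt
      have h3 := h1.circleIntegral_sub_inv_smul (w := t) (by simpa using ht)
      rw [circleIntegral] at h3
      simpa only [deriv_circleMap, smul_eq_mul] using h3
    have hout : ∫ θ in (0 : ℝ)..(2 * Real.pi), γ' θ * ((γ θ - s)⁻¹ * a (γ θ, t)) =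
        (2 * Real.pi * Complex.I) * a (s, t) := by
      have h1 : DifferentiableOn ℂ (fun z => a (z, t)) (closedBall 0 r) := by
        intro z hz
        have h2 := (ha (z, t) (hmem z t (by simpa using hz) ht.le)).differentiableAt
        exact (h2.comp z (differentiableAt_id.prodMk (differentiableAt_const t))).differentiableWithinAt
      have h3 := h1.circleIntegral_sub_inv_smul (w := s) (by simpa using hs)
      rw [circleIntegral] at h3
      simpa only [deriv_circleMap, smul_eq_mul] using h3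
    have hpi : (2 * Real.pi * Complex.I : ℂ) ≠ 0 := Complex.two_pi_I_ne_zero
    rw [morseJ_apply]
    have e1 : ∀ θ ∈ Set.uIcc (0 : ℝ) (2 * Real.pi),
        (∫ φ in (0 : ℝ)..(2 * Real.pi), (W * K1 s * K2 t) (morseP θ, morseP φ)) =
        (2 * Real.pi * Complex.I)⁻¹ * (γ' θ * ((γ θ - s)⁻¹ * a (γ θ, t))) := by
      intro θ hθ
      have e2 : (∫ φ in (0 : ℝ)..(2 * Real.pi), (W * K1 s * K2 t) (morseP θ, morseP φ)) =
          ∫ φ in (0 : ℝ)..(2 * Real.pi), ((2 * Real.pi * Complex.I)⁻¹ * (2 * Real.pi * Complex.I)⁻¹ *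
            (γ' θ * (γ θ - s)⁻¹)) * (γ' φ * ((γ φ - t)⁻¹ * a (γ θ, γ φ))) := by
        apply intervalIntegral.integral_congr
        intro φ hφ
        have e3 : (W * K1 s * K2 t) (morseP θ, morseP φ) =
            W (morseP θ, morseP φ) * (K1 s (morseP θ, morseP φ)) * (K2 t (morseP θ, morseP φ)) := rfl
        have e4 : K1 s (morseP θ, morseP φ) = (γ θ - s)⁻¹ := by
          have h1 := morse_inv_apply G1 (hG1 s hs) (morseP θ, morseP φ)
          have h2 : G1 (morseP θ, morseP φ) = γ θ := by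
            change γ ((morseP θ : MorseT) : ℝ) = γ θ
            rw [morseP_of_mem hθ]
          rw [h2] at h1
          exact h1
        have e5 : K2 t (morseP θ, morseP φ) = (γ φ - t)⁻¹ := by
          have h1 := morse_inv_apply G2 (hG2 t ht) (morseP θ, morseP φ)
          have h2 : G2 (morseP θ, morseP φ) = γ φ := by
            change γ ((morseP φ : MorseT) : ℝ) = γ φ
            rw [morseP_of_mem hφ]
          rw [h2] at h1
          exact h1
        have e6 : W (morseP θ, morseP φ) = (2 * Real.pi * Complex.I)⁻¹ * (2 * Real.pi * Complex.I)⁻¹ *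
            (γ' θ * γ' φ) * a (γ θ, γ φ) := by
          change (2 * Real.pi * Complex.I)⁻¹ * (2 * Real.pi * Complex.I)⁻¹ *
            (γ' ((morseP θ : MorseT) : ℝ) * γ' ((morseP φ : MorseT) : ℝ)) *
              a (γ ((morseP θ : MorseT) : ℝ), γ ((morseP φ : MorseT) : ℝ)) = _
          rw [morseP_of_mem hθ, morseP_of_mem hφ]
        simp only [e3, e4, e5, e6]
        ring
      rw [e2, intervalIntegral.integral_const_mul, hin _ (hγn θ).le]
      field_simp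
    rw [intervalIntegral.integral_congr e1, intervalIntegral.integral_const_mul, hout]
    field_simp
  have h00 : ‖(0 : ℂ)‖ < r := by rwa [norm_zero]
  refine ⟨fun p => morseJ (W * (K1 p.1 * K1 0) * K2 p.2), ?_, ?_⟩
  · have h1 : AnalyticAt ℂ (fun p : ℂ × ℂ => K1 p.1) 0 := (hK1 0 h00).comp_of_eq analyticAt_fst rfl
    have h2 : AnalyticAt ℂ (fun p : ℂ × ℂ => K2 p.2) 0 := (hK2 0 h00).comp_of_eq analyticAt_snd rfl
    exact (morseJ.analyticAt _).comp ((analyticAt_const.mul (h1.mul analyticAt_const)).mul h2)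
  · intro p hp
    rw [mem_ball_zero_iff, Prod.norm_def, max_lt_iff] at hp
    have e1 := key p.1 p.2 hp.1 hp.2
    have e2 := key 0 p.2 h00 hp.2
    rw [ha0 p.2 hp.2] at e2
    have e3 : K1 p.1 - K1 0 = p.1 • (K1 p.1 * K1 0) := by
      ext q
      have h1 : (K1 p.1) q = (G1 q - p.1)⁻¹ := morse_inv_apply G1 (hG1 p.1 hp.1) q
      have h2 : (K1 0) q = (G1 q - 0)⁻¹ := morse_inv_apply G1 (hG1 0 h00) q
      have h3 : G1 q - p.1 ≠ 0 := sub_ne_zero.2 (hG1 p.1 hp.1 q)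
      have h4 : G1 q - 0 ≠ 0 := sub_ne_zero.2 (hG1 0 h00 q)
      change (K1 p.1) q - (K1 0) q = p.1 * ((K1 p.1) q * (K1 0) q)
      rw [h1, h2]
      field_simp
      ring
    have e4 : W * K1 p.1 * K2 p.2 - W * K1 0 * K2 p.2 = p.1 • (W * (K1 p.1 * K1 0) * K2 p.2) := by
      rw [← sub_mul, ← mul_sub, e3, mul_smul_comm, smul_mul_assoc]
    have e5 : morseJ (W * K1 p.1 * K2 p.2) - morseJ (W * K1 0 * K2 p.2) =
        p.1 * morseJ (W * (K1 p.1 * K1 0) * K2 p.2) := by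
      rw [← map_sub, e4, map_smul, smul_eq_mul]
    rw [e1, e2, sub_zero] at e5
    exact e5

private theorem morse_div {f : ℂ × ℂ → ℂ} (hf : AnalyticAt ℂ f 0) (h0 : ∀ᶠ t in 𝓝 (0 : ℂ), f (0, t) = 0) :
    ∃ b : ℂ × ℂ → ℂ, AnalyticAt ℂ b 0 ∧ ∀ᶠ p in 𝓝 (0 : ℂ × ℂ), f p = p.1 * b p := by
  obtain ⟨R1, hR1, h1⟩ := Metric.eventually_nhds_iff_ball.1 hf.eventually_analyticAt
  obtain ⟨R2, hR2, h2⟩ := Metric.eventually_nhds_iff_ball.1 h0
  have hR : 0 < min R1 R2 := lt_min hR1 hR2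
  obtain ⟨b, hb, hfb⟩ := morse_loc (R := min R1 R2) (r := min R1 R2 / 2) (by positivity) (by linarith) (a := f)
    (fun p hp => h1 p (ball_subset_ball (min_le_left _ _) hp)) (fun t ht => h2 t (by
      rw [mem_ball_zero_iff]
      have := min_le_right R1 R2
      linarith))
  exact ⟨b, hb, Filter.eventually_of_mem (ball_mem_nhds _ (by positivity)) hfb⟩

private theorem morse_tendsto : Tendsto (fun t : ℂ => ((0, t) : ℂ × ℂ)) (𝓝 0) (𝓝 0) := by
  have h : Continuous fun t : ℂ => ((0, t) : ℂ × ℂ) := by fun_prop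
  exact h.tendsto' 0 0 rfl

private theorem morse_div2 {f : ℂ × ℂ → ℂ} (hf : AnalyticAt ℂ f 0) (h0 : ∀ᶠ t in 𝓝 (0 : ℂ), f (0, t) = 0)
    (h1 : ∀ᶠ t in 𝓝 (0 : ℂ), fderiv ℂ f (0, t) (1, 0) = 0) :
    ∃ b : ℂ × ℂ → ℂ, AnalyticAt ℂ b 0 ∧ ∀ᶠ p in 𝓝 (0 : ℂ × ℂ), f p = p.1 ^ 2 * b p := by
  obtain ⟨b1, hb1, hf1⟩ := morse_div hf h0
  have h2 : ∀ᶠ t in 𝓝 (0 : ℂ), b1 (0, t) = 0 := by
    filter_upwards [h1, morse_tendsto.eventually hf1.eventually_nhds,
      morse_tendsto.eventually hb1.eventually_analyticAt] with t e1 e2 e3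
    have e4 : f =ᶠ[𝓝 (0, t)] fun p => p.1 * b1 p := e2
    rw [e4.fderiv_eq] at e1
    have e5 : HasFDerivAt (fun p : ℂ × ℂ => p.1 * b1 p)
        ((0 : ℂ) • fderiv ℂ b1 (0, t) + b1 (0, t) • ContinuousLinearMap.fst ℂ ℂ ℂ) (0, t) :=
      (hasFDerivAt_fst (𝕜 := ℂ) (p := ((0, t) : ℂ × ℂ))).mul e3.differentiableAt.hasFDerivAt
    rw [e5.fderiv] at e1
    simpa using e1
  obtain ⟨b, hb, hf2⟩ := morse_div hb1 h2
  refine ⟨b, hb, ?_⟩
  filter_upwards [hf1, hf2] with p e1 e2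
  rw [e1, e2]
  ring

/-- The inverse function theorem. -/
private theorem morse_inv {κ : ℂ × ℂ → ℂ × ℂ} (hκ : AnalyticAt ℂ κ 0) (h0 : κ 0 = 0)
    (hd : ∀ v, fderiv ℂ κ 0 v = 0 → v = 0) :
    ∃ χ : ℂ × ℂ → ℂ × ℂ, AnalyticAt ℂ χ 0 ∧ χ 0 = 0 ∧ (∀ᶠ p in 𝓝 (0 : ℂ × ℂ), κ (χ p) = p) ∧
      ∀ᶠ p in 𝓝 (0 : ℂ × ℂ), χ (κ p) = p := by
  have hinj : Function.Injective (fderiv ℂ κ 0 : (ℂ × ℂ) →ₗ[ℂ] (ℂ × ℂ)) := by
    rw [← LinearMap.ker_eq_bot, LinearMap.ker_eq_bot']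
    exact hd
  let e : (ℂ × ℂ) ≃L[ℂ] (ℂ × ℂ) := (LinearEquiv.ofInjectiveEndo _ hinj).toContinuousLinearEquiv
  have he : (e : (ℂ × ℂ) →L[ℂ] (ℂ × ℂ)) = fderiv ℂ κ 0 := by
    ext v <;> rfl
  have hc : ContDiffAt ℂ ⊤ κ 0 := hκ.contDiffAt
  have hD : HasFDerivAt κ (e : (ℂ × ℂ) →L[ℂ] (ℂ × ℂ)) 0 := by
    rw [he]
    exact hκ.differentiableAt.hasFDerivAt
  have hn : (⊤ : WithTop ℕ∞) ≠ 0 := by simp
  have hs := hc.hasStrictFDerivAt' hD hn
  refine ⟨hc.localInverse hD hn, ?_, ?_, ?_, ?_⟩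
  · have h1 := hc.to_localInverse hD hn
    rw [h0] at h1
    exact h1.analyticAt
  · have h1 := hc.localInverse_apply_image hD hn
    rwa [h0] at h1
  · have h1 := hs.eventually_right_inverse
    rw [h0] at h1
    exact h1
  · exact hs.eventually_left_inverse

/-- A square root. -/
private theorem morse_sqrt {b : ℂ × ℂ → ℂ} (hb : AnalyticAt ℂ b 0) (h0 : b 0 ≠ 0) :
    ∃ r : ℂ × ℂ → ℂ, AnalyticAt ℂ r 0 ∧ ∀ᶠ p in 𝓝 (0 : ℂ × ℂ), r p ^ 2 = b p := by
  obtain ⟨α, hα⟩ := IsAlgClosed.exists_pow_nat_eq (b 0) (n := 2) (by norm_num)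
  have h1 : AnalyticAt ℂ (fun p => b p / b 0) 0 := hb.div analyticAt_const h0
  have h2 : AnalyticAt ℂ (fun p => Complex.log (b p / b 0)) 0 := by
    apply h1.clog
    rw [div_self h0]
    exact Complex.one_mem_slitPlane
  refine ⟨fun p => α * Complex.exp (Complex.log (b p / b 0) / 2), ?_, ?_⟩
  · exact analyticAt_const.mul ((h2.div analyticAt_const (by norm_num)).cexp)
  · have h3 : ∀ᶠ p in 𝓝 (0 : ℂ × ℂ), b p ≠ 0 := hb.continuousAt.eventually_ne h0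
    filter_upwards [h3] with p hp
    rw [mul_pow, ← Complex.exp_nat_mul]
    have e1 : ((2 : ℕ) : ℂ) * (Complex.log (b p / b 0) / 2) = Complex.log (b p / b 0) := by
      push_cast
      ring
    rw [e1, Complex.exp_log (div_ne_zero hp h0), hα]
    field_simp

/-- Nondegeneracy. -/
private theorem morse_nd {G : ℂ × ℂ → (ℂ × ℂ) →L[ℂ] ℂ} {H : (ℂ × ℂ) →L[ℂ] (ℂ × ℂ) →L[ℂ] ℂ}
    (hG : HasFDerivAt G H 0) (h0 : G 0 = 0) {c : ℝ}
    (hg : ∀ᶠ p in 𝓝 (0 : ℂ × ℂ), c * ‖p‖ ≤ ‖G p‖) (v : ℂ × ℂ) : c * ‖v‖ ≤ ‖H v‖ := by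
  have h1 : HasDerivAt (fun ε : ℂ => G (ε • v)) (H v) 0 := by
    have h2 : HasDerivAt (fun ε : ℂ => ε • v) v 0 := by
      simpa using (hasDerivAt_id (0 : ℂ)).smul_const v
    have h3 : HasFDerivAt G H ((0 : ℂ) • v) := by rwa [zero_smul]
    exact h3.comp_hasDerivAt (0 : ℂ) h2
  have h2 := hasDerivAt_iff_tendsto_slope_zero.1 h1
  have h3 : Tendsto (fun ε : ℂ => ε • v) (𝓝[≠] 0) (𝓝 0) := by
    have h4 : Continuous fun ε : ℂ => ε • v := by fun_prop
    exact (h4.tendsto' 0 0 (zero_smul _ _)).mono_left nhdsWithin_le_nhds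
  refine ge_of_tendsto h2.norm ?_
  filter_upwards [h3.eventually hg, self_mem_nhdsWithin] with ε e1 e2
  have e3 : ε ≠ 0 := e2
  have e4 : 0 < ‖ε‖ := norm_pos_iff.2 e3
  simp only [zero_add, zero_smul, h0, sub_zero]
  rw [norm_smul, norm_inv, inv_mul_eq_div, le_div_iff₀ e4]
  rw [norm_smul] at e1
  linarith

/-- One variable: a double zero. -/
private theorem morse_two {φ u : ℂ → ℂ} (hu : AnalyticAt ℂ u 0) (h : ∀ᶠ s in 𝓝 (0 : ℂ), φ s = s ^ 2 * u s) :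
    ∀ᶠ s in 𝓝 (0 : ℂ), HasDerivAt φ (s * (2 * u s + s * deriv u s)) s := by
  filter_upwards [h.eventually_nhds, hu.eventually_analyticAt] with s e1 e2
  have e3 : HasDerivAt (fun s : ℂ => s ^ 2 * u s) (s * (2 * u s + s * deriv u s)) s := by
    have e4 := ((hasDerivAt_id s).pow 2).mul e2.differentiableAt.hasDerivAt
    refine e4.congr_deriv ?_
    simp only [id]
    norm_num
    ring
  exact e3.congr_of_eventuallyEq e1

private theorem morse_fact {f : ℂ × ℂ → ℂ} (hf : AnalyticAt ℂ f 0) (h0 : f 0 = 0) (hd : fderiv ℂ f 0 = 0) {c : ℝ}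
    (hc : 0 < c) (hg : ∀ᶠ p in 𝓝 (0 : ℂ × ℂ), c * ‖p‖ ≤ ‖fderiv ℂ f p‖)
    (hxx : fderiv ℂ (fun p => fderiv ℂ f p (1, 0)) 0 (1, 0) ≠ 0) :
    ∃ κ₁ κ₂ : ℂ × ℂ → ℂ, AnalyticAt ℂ κ₁ 0 ∧ AnalyticAt ℂ κ₂ 0 ∧ κ₁ 0 = 0 ∧ κ₂ 0 = 0 ∧
      ∀ᶠ p in 𝓝 (0 : ℂ × ℂ), f p = κ₁ p * κ₂ p := by
  set fx : ℂ × ℂ → ℂ := fun p => fderiv ℂ f p (1, 0) with hfxd
  have hfx : AnalyticAt ℂ fx 0 :=
    ((ContinuousLinearMap.apply ℂ ℂ ((1, 0) : ℂ × ℂ)).analyticAt _).comp hf.fderiv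
  have hfx0 : fx 0 = 0 := by simp [hfxd, hd]
  -- the critical curve
  obtain ⟨ψ, hψ, hψ0, hψ1⟩ : ∃ ψ : ℂ → ℂ, AnalyticAt ℂ ψ 0 ∧ ψ 0 = 0 ∧ ∀ᶠ y in 𝓝 (0 : ℂ), fx (ψ y, y) = 0 := by
    have hΦ : AnalyticAt ℂ (fun p : ℂ × ℂ => (fx p, p.2)) 0 := hfx.prod analyticAt_snd
    obtain ⟨Ψ, hΨ, hΨ0, hΨ1, -⟩ := morse_inv hΦ (by simp [hfx0]) (by
      intro v hv
      have h1 : HasFDerivAt (fun p : ℂ × ℂ => (fx p, p.2)) ((fderiv ℂ fx 0).prod (ContinuousLinearMap.snd ℂ ℂ ℂ)) 0 :=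
        hfx.differentiableAt.hasFDerivAt.prodMk hasFDerivAt_snd
      rw [h1.fderiv] at hv
      have h2 : fderiv ℂ fx 0 v = 0 := congrArg Prod.fst hv
      have h3 : v.2 = 0 := congrArg Prod.snd hv
      have h4 : v = v.1 • ((1, 0) : ℂ × ℂ) := by
        ext <;> simp [h3]
      rw [h4, map_smul, smul_eq_mul] at h2
      have h5 := (mul_eq_zero.1 h2).resolve_right hxx
      rw [h4, h5, zero_smul])
    refine ⟨fun y => (Ψ (0, y)).1, ?_, ?_, ?_⟩
    · have h1 : AnalyticAt ℂ (fun y : ℂ => ((0, y) : ℂ × ℂ)) 0 := analyticAt_const.prod analyticAt_id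
      exact analyticAt_fst.comp (hΨ.comp_of_eq h1 rfl)
    · change (Ψ 0).1 = 0
      rw [hΨ0]
      rfl
    · filter_upwards [morse_tendsto.eventually hΨ1] with y hy
      have h1 : (Ψ (0, y)).2 = y := congrArg Prod.snd hy
      have h2 : fx (Ψ (0, y)) = 0 := congrArg Prod.fst hy
      have h3 : (((Ψ (0, y)).1, y) : ℂ × ℂ) = Ψ (0, y) := by
        ext
        · rfl
        · exact h1.symm
      rw [h3, h2]
  have hψc : AnalyticAt ℂ (fun y : ℂ => ((ψ y, y) : ℂ × ℂ)) 0 := hψ.prod analyticAt_id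
  have hψt : Tendsto (fun y : ℂ => ((ψ y, y) : ℂ × ℂ)) (𝓝 0) (𝓝 0) := by
    have h1 := hψc.continuousAt.tendsto
    simp only [hψ0] at h1
    exact h1
  -- the first part
  have hτ : AnalyticAt ℂ (fun p : ℂ × ℂ => ((ψ p.2 + p.1, p.2) : ℂ × ℂ)) 0 :=
    ((hψ.comp_of_eq analyticAt_snd rfl).add analyticAt_fst).prod analyticAt_snd
  have hF1 : AnalyticAt ℂ (fun p : ℂ × ℂ => f (ψ p.2 + p.1, p.2)) 0 := by
    refine hf.comp_of_eq hτ ?_
    simp [hψ0]
  have hF2 : AnalyticAt ℂ (fun p : ℂ × ℂ => f (ψ p.2, p.2)) 0 := by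
    refine hf.comp_of_eq (hψc.comp_of_eq analyticAt_snd rfl) ?_
    simp [hψ0]
  have hF : AnalyticAt ℂ (fun p : ℂ × ℂ => f (ψ p.2 + p.1, p.2) - f (ψ p.2, p.2)) 0 := hF1.sub hF2
  obtain ⟨b, hb, hFb⟩ := morse_div2 hF (Eventually.of_forall fun t => by simp) (by
    filter_upwards [hψ1, hψt.eventually hf.eventually_analyticAt, morse_tendsto.eventually hF.eventually_analyticAt]
      with t e1 e2 e3
    have e4 : HasDerivAt (fun s : ℂ => ((s, t) : ℂ × ℂ)) (1, 0) 0 :=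
      (hasDerivAt_id (0 : ℂ)).prodMk (hasDerivAt_const (0 : ℂ) t)
    have e5 := e3.differentiableAt.hasFDerivAt.comp_hasDerivAt (0 : ℂ) e4
    have e6 : HasDerivAt (fun s : ℂ => ((ψ t + s, t) : ℂ × ℂ)) (1, 0) 0 :=
      ((hasDerivAt_id (0 : ℂ)).const_add (ψ t)).prodMk (hasDerivAt_const (0 : ℂ) t)
    have e7 : HasFDerivAt f (fderiv ℂ f (ψ t, t)) (ψ t + 0, t) := by
      rw [add_zero]
      exact e2.differentiableAt.hasFDerivAt
    have e8 := (e7.comp_hasDerivAt (0 : ℂ) e6).sub_const (f (ψ t, t))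
    exact (e5.unique e8).trans e1)
  -- b 0 ≠ 0
  have hb0 : b 0 ≠ 0 := by
    have hl : Tendsto (fun s : ℂ => ((s, 0) : ℂ × ℂ)) (𝓝 0) (𝓝 0) := by
      have h : Continuous fun s : ℂ => ((s, 0) : ℂ × ℂ) := by fun_prop
      exact h.tendsto' 0 0 rfl
    have hl1 : ∀ s : ℂ, HasDerivAt (fun s : ℂ => ((s, 0) : ℂ × ℂ)) (1, 0) s := fun s =>
      (hasDerivAt_id s).prodMk (hasDerivAt_const s (0 : ℂ))
    have hu : AnalyticAt ℂ (fun s : ℂ => b (s, 0)) 0 :=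
      hb.comp_of_eq (analyticAt_id.prod analyticAt_const) rfl
    have h1 : ∀ᶠ s in 𝓝 (0 : ℂ), (fun s : ℂ => f (s, 0)) s = s ^ 2 * (fun s : ℂ => b (s, 0)) s := by
      filter_upwards [hl.eventually hFb] with s hs
      simp only [hψ0, zero_add] at hs
      have h2 : f ((0 : ℂ), (0 : ℂ)) = 0 := h0
      rw [h2, sub_zero] at hs
      exact hs
    have h2 := morse_two hu h1
    have h3 : ∀ᶠ s in 𝓝 (0 : ℂ), fx (s, 0) = s * (2 * b (s, 0) + s * deriv (fun s : ℂ => b (s, 0)) s) := by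
      filter_upwards [h2, hl.eventually hf.eventually_analyticAt] with s e1 e2
      exact (e2.differentiableAt.hasFDerivAt.comp_hasDerivAt s (hl1 s)).unique e1
    have h4 : HasDerivAt (fun s : ℂ => fx (s, 0)) (fderiv ℂ fx 0 (1, 0)) 0 :=
      HasFDerivAt.comp_hasDerivAt (l := fx) (l' := fderiv ℂ fx 0) (0 : ℂ) hfx.differentiableAt.hasFDerivAt (hl1 0)
    have h5 : HasDerivAt (fun s : ℂ => s * (2 * b (s, 0) + s * deriv (fun s : ℂ => b (s, 0)) s)) (2 * b 0) 0 := by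
      have e1 : DifferentiableAt ℂ (fun s : ℂ => 2 * b (s, 0) + s * deriv (fun s : ℂ => b (s, 0)) s) 0 :=
        ((analyticAt_const.mul hu).add (analyticAt_id.mul hu.deriv)).differentiableAt
      have e2 := (hasDerivAt_id (0 : ℂ)).mul e1.hasDerivAt
      refine e2.congr_deriv ?_
      have e3 : b ((0 : ℂ), (0 : ℂ)) = b 0 := rfl
      simp [e3]
    have h6 := (h4.congr_of_eventuallyEq (EventuallyEq.symm h3)).unique h5
    intro h7
    rw [h7, mul_zero] at h6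
    exact hxx h6
  -- the second part
  have hgan : AnalyticAt ℂ (fun y : ℂ => f (ψ y, y)) 0 := by
    refine hf.comp_of_eq hψc ?_
    simp [hψ0]
  have hgd : ∀ᶠ y in 𝓝 (0 : ℂ), HasDerivAt (fun y : ℂ => f (ψ y, y)) (fderiv ℂ f (ψ y, y) (deriv ψ y, 1)) y := by
    filter_upwards [hψt.eventually hf.eventually_analyticAt, hψ.eventually_analyticAt] with y e1 e2
    exact HasFDerivAt.comp_hasDerivAt (l := f) y e1.differentiableAt.hasFDerivAt
      (e2.differentiableAt.hasDerivAt.prodMk (hasDerivAt_id y))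
  have hG : AnalyticAt ℂ (fun p : ℂ × ℂ => f (ψ p.1, p.1)) 0 := hgan.comp_of_eq analyticAt_fst rfl
  obtain ⟨k, hk, hGk⟩ := morse_div2 hG (Eventually.of_forall fun t => by
      change f (ψ 0, 0) = 0
      rw [hψ0]
      exact h0) (by
    filter_upwards [morse_tendsto.eventually hG.eventually_analyticAt] with t e3
    have e4 : HasDerivAt (fun s : ℂ => ((s, t) : ℂ × ℂ)) (1, 0) 0 :=
      (hasDerivAt_id (0 : ℂ)).prodMk (hasDerivAt_const (0 : ℂ) t)
    have e5 := e3.differentiableAt.hasFDerivAt.comp_hasDerivAt (0 : ℂ) e4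
    have e6 := hgd.self_of_nhds
    have e7 : ((ψ 0, 0) : ℂ × ℂ) = 0 := by rw [hψ0]; rfl
    rw [e7, hd] at e6
    exact (e5.unique e6).trans (by simp))
  have hl : Tendsto (fun s : ℂ => ((s, 0) : ℂ × ℂ)) (𝓝 0) (𝓝 0) := by
    have h : Continuous fun s : ℂ => ((s, 0) : ℂ × ℂ) := by fun_prop
    exact h.tendsto' 0 0 rfl
  have hku : AnalyticAt ℂ (fun s : ℂ => k (s, 0)) 0 :=
    hk.comp_of_eq (analyticAt_id.prod analyticAt_const) rfl
  have hgk : ∀ᶠ s in 𝓝 (0 : ℂ), (fun y : ℂ => f (ψ y, y)) s = s ^ 2 * (fun s : ℂ => k (s, 0)) s := by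
    filter_upwards [hl.eventually hGk] with s hs
    exact hs
  have hk0 : k 0 ≠ 0 := by
    intro hk0
    have h1 := morse_two hku hgk
    have h2 : ∀ᶠ y in 𝓝 (0 : ℂ), c * ‖y‖ ≤ ‖y‖ * ‖2 * k (y, 0) + y * deriv (fun s : ℂ => k (s, 0)) y‖ := by
      filter_upwards [h1, hgd, hψ1, hψt.eventually hg] with y e1 e2 e3 e4
      have e5 := e2.unique e1
      have e6 : ‖fderiv ℂ f (ψ y, y)‖ ≤ ‖fderiv ℂ f (ψ y, y) (deriv ψ y, 1)‖ := by
        refine ContinuousLinearMap.opNorm_le_bound _ (norm_nonneg _) fun v => ?_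
        have a1 : v = v.1 • ((1, 0) : ℂ × ℂ) + v.2 • ((0, 1) : ℂ × ℂ) := by
          ext <;> simp
        have a2 : fderiv ℂ f (ψ y, y) ((1, 0) : ℂ × ℂ) = 0 := e3
        have a3 : ((deriv ψ y, 1) : ℂ × ℂ) = deriv ψ y • ((1, 0) : ℂ × ℂ) + ((0, 1) : ℂ × ℂ) := by
          ext <;> simp
        rw [a3, map_add, map_smul, a2, smul_zero, zero_add]
        conv_lhs => rw [a1]
        rw [map_add, map_smul, map_smul, a2, smul_zero, zero_add, norm_smul, mul_comm]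
        apply mul_le_mul_of_nonneg_left _ (norm_nonneg _)
        exact norm_snd_le v
      have e7 : ‖y‖ ≤ ‖((ψ y, y) : ℂ × ℂ)‖ := norm_snd_le ((ψ y, y) : ℂ × ℂ)
      rw [e5, norm_mul] at e6
      calc c * ‖y‖ ≤ c * ‖((ψ y, y) : ℂ × ℂ)‖ := mul_le_mul_of_nonneg_left e7 hc.le
        _ ≤ _ := e4.trans e6
    have h3 : Tendsto (fun y : ℂ => ‖2 * k (y, 0) + y * deriv (fun s : ℂ => k (s, 0)) y‖) (𝓝 0) (𝓝 0) := by
      have e1 : AnalyticAt ℂ (fun y : ℂ => 2 * k (y, 0) + y * deriv (fun s : ℂ => k (s, 0)) y) 0 :=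
        (analyticAt_const.mul hku).add (analyticAt_id.mul hku.deriv)
      have e2 := e1.continuousAt.tendsto.norm
      have e3 : k ((0 : ℂ), (0 : ℂ)) = 0 := hk0
      simpa [e3] using e2
    have h4 : ∀ᶠ y in 𝓝 (0 : ℂ), ‖2 * k (y, 0) + y * deriv (fun s : ℂ => k (s, 0)) y‖ < c :=
      h3.eventually (gt_mem_nhds hc)
    have h5 : ∀ᶠ y in 𝓝[≠] (0 : ℂ), False := by
      filter_upwards [h2.filter_mono nhdsWithin_le_nhds, h4.filter_mono nhdsWithin_le_nhds, self_mem_nhdsWithin]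
        with y e1 e2 e3
      have e4 : 0 < ‖y‖ := norm_pos_iff.2 e3
      nlinarith
    obtain ⟨y, hy⟩ := h5.exists
    exact hy
  obtain ⟨r₁, hr₁, hr₁'⟩ := morse_sqrt hb hb0
  obtain ⟨r₂, hr₂, hr₂'⟩ := morse_sqrt hk hk0
  have hω : AnalyticAt ℂ (fun p : ℂ × ℂ => p.1 - ψ p.2) 0 := analyticAt_fst.sub (hψ.comp_of_eq analyticAt_snd rfl)
  have hσ : AnalyticAt ℂ (fun p : ℂ × ℂ => ((p.1 - ψ p.2, p.2) : ℂ × ℂ)) 0 := hω.prod analyticAt_snd
  have hσ0 : (fun p : ℂ × ℂ => ((p.1 - ψ p.2, p.2) : ℂ × ℂ)) 0 = 0 := by simp [hψ0]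
  have hσt : Tendsto (fun p : ℂ × ℂ => ((p.1 - ψ p.2, p.2) : ℂ × ℂ)) (𝓝 0) (𝓝 0) := by
    have h1 : ContinuousAt (fun p : ℂ × ℂ => ((p.1 - ψ p.2, p.2) : ℂ × ℂ)) 0 := hσ.continuousAt
    unfold ContinuousAt at h1
    rwa [hσ0] at h1
  have hρ : AnalyticAt ℂ (fun p : ℂ × ℂ => ((p.2, 0) : ℂ × ℂ)) 0 := analyticAt_snd.prod analyticAt_const
  have hρt : Tendsto (fun p : ℂ × ℂ => ((p.2, 0) : ℂ × ℂ)) (𝓝 0) (𝓝 0) := hρ.continuousAt.tendsto
  have hU : AnalyticAt ℂ (fun p : ℂ × ℂ => (p.1 - ψ p.2) * r₁ (p.1 - ψ p.2, p.2)) 0 :=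
    hω.mul (hr₁.comp_of_eq hσ hσ0)
  have hV : AnalyticAt ℂ (fun p : ℂ × ℂ => Complex.I * (p.2 * r₂ (p.2, 0))) 0 :=
    analyticAt_const.mul (analyticAt_snd.mul (hr₂.comp_of_eq hρ rfl))
  refine ⟨_, _, hU.add hV, hU.sub hV, by simp [hψ0], by simp [hψ0], ?_⟩
  filter_upwards [hσt.eventually hFb, hσt.eventually hr₁', hρt.eventually hGk, hρt.eventually hr₂'] with p e1 e2 e3 e4
  have e5 : ψ p.2 + (p.1 - ψ p.2) = p.1 := by ring
  rw [e5] at e1
  have e6 : f p = (p.1 - ψ p.2) ^ 2 * b (p.1 - ψ p.2, p.2) + p.2 ^ 2 * k (p.2, 0) := by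
    rw [← e1, ← e3]
    ring
  change f p = ((p.1 - ψ p.2) * r₁ (p.1 - ψ p.2, p.2) + Complex.I * (p.2 * r₂ (p.2, 0))) *
    ((p.1 - ψ p.2) * r₁ (p.1 - ψ p.2, p.2) - Complex.I * (p.2 * r₂ (p.2, 0)))
  rw [e6, ← e2, ← e4]
  linear_combination (p.2 ^ 2 * r₂ (p.2, 0) ^ 2) * Complex.I_sq

theorem morse {f : ℂ × ℂ → ℂ} (hf : AnalyticAt ℂ f 0) (h0 : f 0 = 0) (hd : fderiv ℂ f 0 = 0) {c : ℝ} (hc : 0 < c)
    (hg : ∀ᶠ p in 𝓝 (0 : ℂ × ℂ), c * ‖p‖ ≤ ‖fderiv ℂ f p‖) :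
    ∃ χ κ : ℂ × ℂ → ℂ × ℂ, AnalyticAt ℂ χ 0 ∧ χ 0 = 0 ∧ AnalyticAt ℂ κ 0 ∧ κ 0 = 0 ∧
      (∀ᶠ p in 𝓝 (0 : ℂ × ℂ), κ (χ p) = p ∧ f (χ p) = p.1 * p.2) ∧ ∀ᶠ p in 𝓝 (0 : ℂ × ℂ), χ (κ p) = p := by
  have hH : HasFDerivAt (fderiv ℂ f) (fderiv ℂ (fderiv ℂ f) 0) 0 := hf.fderiv.differentiableAt.hasFDerivAt
  have hnd := morse_nd hH hd hg
  set H := fderiv ℂ (fderiv ℂ f) 0 with hHd
  have hsym : ∀ u v, H u v = H v u := fun u v =>
    (hf.contDiffAt (n := ⊤)).isSymmSndFDerivAt_of_omega u v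
  -- a nonisotropic vector
  obtain ⟨v, hv⟩ : ∃ v, H v v ≠ 0 := by
    by_contra hcon
    push Not at hcon
    have h1 : ∀ u v, H u v = 0 := by
      intro u v
      have e1 := hcon (u + v)
      simp only [map_add, _root_.add_apply, hcon u, hcon v, hsym v u, zero_add, add_zero] at e1
      have e2 : 2 * H u v = 0 := by rw [two_mul]; exact e1
      exact (mul_eq_zero.1 e2).resolve_left (by norm_num)
    have h2 : H (1, 0) = 0 := by
      ext <;> simp [h1]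
    have h3 := hnd (1, 0)
    rw [h2, norm_zero] at h3
    have h4 : 0 < ‖((1, 0) : ℂ × ℂ)‖ := norm_pos_iff.2 (by simp)
    nlinarith
  -- a linear change of coordinates
  obtain ⟨L, hL⟩ : ∃ L : (ℂ × ℂ) ≃L[ℂ] (ℂ × ℂ), L (1, 0) = v := by
    let A : (ℂ × ℂ) →ₗ[ℂ] (ℂ × ℂ) :=
      (LinearMap.fst ℂ ℂ ℂ).smulRight v +
        (LinearMap.snd ℂ ℂ ℂ).smulRight (-(starRingEnd ℂ) v.2, (starRingEnd ℂ) v.1)
    have hA : ∀ p, A p = (p.1 * v.1 - p.2 * (starRingEnd ℂ) v.2, p.1 * v.2 + p.2 * (starRingEnd ℂ) v.1) := by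
      intro p
      ext
      · simp [A]
        ring
      · simp [A]
    have hinj : Function.Injective A := by
      rw [← LinearMap.ker_eq_bot, LinearMap.ker_eq_bot']
      intro p hp
      rw [hA] at hp
      have e1 : p.1 * v.1 - p.2 * (starRingEnd ℂ) v.2 = 0 := congrArg Prod.fst hp
      have e2 : p.1 * v.2 + p.2 * (starRingEnd ℂ) v.1 = 0 := congrArg Prod.snd hp
      have e3 : v.1 * (starRingEnd ℂ) v.1 + v.2 * (starRingEnd ℂ) v.2 ≠ 0 := by
        rw [Complex.mul_conj, Complex.mul_conj, ← Complex.ofReal_add]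
        intro e4
        have e5 := Complex.ofReal_eq_zero.1 e4
        have e6 := Complex.normSq_nonneg v.1
        have e7 := Complex.normSq_nonneg v.2
        have e8 : v.1 = 0 := Complex.normSq_eq_zero.1 (by linarith)
        have e9 : v.2 = 0 := Complex.normSq_eq_zero.1 (by linarith)
        apply hv
        have e10 : v = 0 := by
          ext
          · exact e8
          · exact e9
        rw [e10]
        simp
      have e4 : p.1 * (v.1 * (starRingEnd ℂ) v.1 + v.2 * (starRingEnd ℂ) v.2) = 0 := by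
        linear_combination (starRingEnd ℂ) v.1 * e1 + (starRingEnd ℂ) v.2 * e2
      have e5 : p.2 * (v.1 * (starRingEnd ℂ) v.1 + v.2 * (starRingEnd ℂ) v.2) = 0 := by
        linear_combination v.1 * e2 - v.2 * e1
      ext
      · exact (mul_eq_zero.1 e4).resolve_right e3
      · exact (mul_eq_zero.1 e5).resolve_right e3
    refine ⟨(LinearEquiv.ofInjectiveEndo A hinj).toContinuousLinearEquiv, ?_⟩
    change A (1, 0) = v
    rw [hA]
    simp
  have hLt : Tendsto (fun p => L p) (𝓝 0) (𝓝 0) := L.continuous.tendsto' 0 0 (map_zero L)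
  have hLt' : Tendsto (fun p => L.symm p) (𝓝 0) (𝓝 0) := L.symm.continuous.tendsto' 0 0 (map_zero L.symm)
  have hLa : ∀ p, AnalyticAt ℂ (fun p => L p) p := fun p => (L : (ℂ × ℂ) →L[ℂ] (ℂ × ℂ)).analyticAt p
  have hLa' : ∀ p, AnalyticAt ℂ (fun p => L.symm p) p := fun p => (L.symm : (ℂ × ℂ) →L[ℂ] (ℂ × ℂ)).analyticAt p
  have hf1 : AnalyticAt ℂ (fun p => f (L p)) 0 := hf.comp_of_eq (hLa 0) (map_zero L)
  have hfd1 : ∀ᶠ p in 𝓝 (0 : ℂ × ℂ), fderiv ℂ (fun p => f (L p)) p =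
      (fderiv ℂ f (L p)).comp (L : (ℂ × ℂ) →L[ℂ] (ℂ × ℂ)) := by
    filter_upwards [hLt.eventually hf.eventually_analyticAt] with p hp
    exact (hp.differentiableAt.hasFDerivAt.comp p (L : (ℂ × ℂ) →L[ℂ] (ℂ × ℂ)).hasFDerivAt).fderiv
  have hN : 0 < ‖(L.symm : (ℂ × ℂ) →L[ℂ] (ℂ × ℂ))‖ + 1 := by positivity
  set N := ‖(L.symm : (ℂ × ℂ) →L[ℂ] (ℂ × ℂ))‖ + 1 with hNd
  obtain ⟨κ₁, κ₂, hκ₁, hκ₂, hκ₁0, hκ₂0, hfκ⟩ := morse_fact (f := fun p => f (L p)) (c := c / N ^ 2) hf1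
    (by simp only [map_zero, h0])
    (by
      rw [hfd1.self_of_nhds]
      simp only [map_zero]
      rw [hd, ContinuousLinearMap.zero_comp])
    (by positivity)
    (by
      filter_upwards [hfd1, hLt.eventually hg] with p e1 e2
      have e3 : ‖p‖ ≤ N * ‖L p‖ := by
        have a1 : ‖L.symm (L p)‖ ≤ ‖(L.symm : (ℂ × ℂ) →L[ℂ] (ℂ × ℂ))‖ * ‖L p‖ :=
          (L.symm : (ℂ × ℂ) →L[ℂ] (ℂ × ℂ)).le_opNorm (L p)
        rw [L.symm_apply_apply] at a1
        refine a1.trans (mul_le_mul_of_nonneg_right (by linarith) (norm_nonneg _))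
      have e4 : ‖fderiv ℂ f (L p)‖ ≤ ‖fderiv ℂ (fun p => f (L p)) p‖ * N := by
        have a1 : fderiv ℂ f (L p) = (fderiv ℂ (fun p => f (L p)) p).comp (L.symm : (ℂ × ℂ) →L[ℂ] (ℂ × ℂ)) := by
          rw [e1]
          ext <;> simp
        rw [a1]
        refine (ContinuousLinearMap.opNorm_comp_le _ _).trans
          (mul_le_mul_of_nonneg_left (by linarith) (norm_nonneg _))
      rw [div_mul_eq_mul_div, div_le_iff₀ (by positivity)]
      calc c * ‖p‖ ≤ c * (N * ‖L p‖) := mul_le_mul_of_nonneg_left e3 hc.le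
        _ = N * (c * ‖L p‖) := by ring
        _ ≤ N * (‖fderiv ℂ (fun p => f (L p)) p‖ * N) :=
          mul_le_mul_of_nonneg_left (e2.trans e4) hN.le
        _ = _ := by ring)
    (by
      have e1 : (fun p => fderiv ℂ (fun p => f (L p)) p (1, 0)) =ᶠ[𝓝 0] fun p => fderiv ℂ f (L p) v := by
        filter_upwards [hfd1] with p hp
        rw [hp, ContinuousLinearMap.comp_apply]
        change fderiv ℂ f (L p) (L (1, 0)) = _
        rw [hL]
      rw [e1.fderiv_eq]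
      have e2 : HasFDerivAt (fderiv ℂ f) H (L 0) := by rwa [map_zero]
      have e3 : HasFDerivAt (fun p => fderiv ℂ f (L p)) (H.comp (L : (ℂ × ℂ) →L[ℂ] (ℂ × ℂ))) 0 :=
        e2.comp (0 : ℂ × ℂ) (L : (ℂ × ℂ) →L[ℂ] (ℂ × ℂ)).hasFDerivAt
      have e4 := (ContinuousLinearMap.apply ℂ ℂ v).hasFDerivAt.comp (0 : ℂ × ℂ) e3
      have e5 : fderiv ℂ (fun p => fderiv ℂ f (L p) v) 0 =
          (ContinuousLinearMap.apply ℂ ℂ v).comp (H.comp (L : (ℂ × ℂ) →L[ℂ] (ℂ × ℂ))) := e4.fderiv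
      rw [e5]
      change H (L (1, 0)) v ≠ 0
      rwa [hL])
  obtain ⟨K₁, K₂, hK₁, hK₂, hK₁0, hK₂0, hfK⟩ : ∃ K₁ K₂ : ℂ × ℂ → ℂ, AnalyticAt ℂ K₁ 0 ∧ AnalyticAt ℂ K₂ 0 ∧
      K₁ 0 = 0 ∧ K₂ 0 = 0 ∧ ∀ᶠ p in 𝓝 (0 : ℂ × ℂ), f p = K₁ p * K₂ p := by
    refine ⟨fun p => κ₁ (L.symm p), fun p => κ₂ (L.symm p), hκ₁.comp_of_eq (hLa' 0) (map_zero L.symm),
      hκ₂.comp_of_eq (hLa' 0) (map_zero L.symm), by simp [hκ₁0], by simp [hκ₂0], ?_⟩
    filter_upwards [hLt'.eventually hfκ] with p hp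
    rwa [L.apply_symm_apply] at hp
  have hκ : AnalyticAt ℂ (fun p => (K₁ p, K₂ p)) 0 := hK₁.prod hK₂
  have hκ0 : (fun p => (K₁ p, K₂ p)) 0 = 0 := by simp [hK₁0, hK₂0]
  obtain ⟨χ, hχ, hχ0, hχ1, hχ2⟩ := morse_inv hκ hκ0 (by
    intro w hw
    have e1 : HasFDerivAt (fun p => (K₁ p, K₂ p)) ((fderiv ℂ K₁ 0).prod (fderiv ℂ K₂ 0)) 0 :=
      hK₁.differentiableAt.hasFDerivAt.prodMk hK₂.differentiableAt.hasFDerivAt
    rw [e1.fderiv] at hw
    have e2 : fderiv ℂ K₁ 0 w = 0 := congrArg Prod.fst hw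
    have e3 : fderiv ℂ K₂ 0 w = 0 := congrArg Prod.snd hw
    have e4 : fderiv ℂ f =ᶠ[𝓝 0] fun p => K₁ p • fderiv ℂ K₂ p + K₂ p • fderiv ℂ K₁ p := by
      filter_upwards [hfK.eventually_nhds, hK₁.eventually_analyticAt, hK₂.eventually_analyticAt] with p a1 a2 a3
      have a4 : f =ᶠ[𝓝 p] fun p => K₁ p * K₂ p := a1
      rw [a4.fderiv_eq]
      exact (a2.differentiableAt.hasFDerivAt.mul a3.differentiableAt.hasFDerivAt).fderiv
    have e5 : HasFDerivAt (fun p => K₁ p • fderiv ℂ K₂ p + K₂ p • fderiv ℂ K₁ p)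
        ((K₁ 0 • fderiv ℂ (fderiv ℂ K₂) 0 + (fderiv ℂ K₁ 0).smulRight (fderiv ℂ K₂ 0)) +
          (K₂ 0 • fderiv ℂ (fderiv ℂ K₁) 0 + (fderiv ℂ K₂ 0).smulRight (fderiv ℂ K₁ 0))) 0 :=
      (hK₁.differentiableAt.hasFDerivAt.smul hK₂.fderiv.differentiableAt.hasFDerivAt).add
        (hK₂.differentiableAt.hasFDerivAt.smul hK₁.fderiv.differentiableAt.hasFDerivAt)
    have e6 : H w = 0 := by
      rw [hHd, e4.fderiv_eq, e5.fderiv]
      change (K₁ 0 • (fderiv ℂ (fderiv ℂ K₂) 0 w) + fderiv ℂ K₁ 0 w • fderiv ℂ K₂ 0) +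
        (K₂ 0 • (fderiv ℂ (fderiv ℂ K₁) 0 w) + fderiv ℂ K₂ 0 w • fderiv ℂ K₁ 0) = 0
      rw [hK₁0, hK₂0, e2, e3]
      ext <;> simp
    have e7 := hnd w
    rw [e6, norm_zero] at e7
    have e8 : ‖w‖ ≤ 0 := by
      by_contra h
      push Not at h
      nlinarith [mul_pos hc h]
    exact norm_le_zero_iff.1 e8)
  refine ⟨χ, fun p => (K₁ p, K₂ p), hχ, hχ0, hκ, hκ0, ?_, hχ2⟩
  have hχt : Tendsto χ (𝓝 0) (𝓝 0) := by
    have h1 := hχ.continuousAt.tendsto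
    rwa [hχ0] at h1
  filter_upwards [hχ1, hχt.eventually hfK] with p e1 e2
  refine ⟨e1, ?_⟩
  have e3 : K₁ (χ p) = p.1 := congrArg Prod.fst e1
  have e4 : K₂ (χ p) = p.2 := congrArg Prod.snd e1
  rw [e2, e3, e4]

end Pool.Agent.TCN
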