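import Pool.Agent.TCN.NodeP

/-!
# TCN NodeA: the normal vector near a node

`node_lin`.  Let `L : (Fin (n + 3) → ℂ) → (Fin n → ℂ) × (Fin (n + 3) → ℂ)` be the linear map `v ↦ ((∑ i, v i * ∂_i Q_j (q))_j, (∑ i, v i * ∂_i (nvP Q m) (q))_m)`.  Its kernel is contained in `ℂ q` (`h.node`, `fderiv_nv`; every index `j` with `2 ≤ j` is `l.succ.succ`), and for
`v = a q` the linear form `v k - q k * dt l v` is `a q k - q k a = 0`.  So the linear form `v ↦ v k - q k * dt l v` vanishes on the kernel of `L`, so it is a linear combination of the components of `L`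
(`LinearMap.range_dualMap_eq_dualAnnihilator_ker`, or extend the linear form on the range of `L`: `LinearMap.exists_extend`, `LinearMap.exists_leftInverse_of_injective` on the quotient).  Compare the values on the standard basis vectors.

`node_est`.  Let `a = dt l x` (`a → 1` as `x → q`), `x' = a⁻¹ • x`, `w = x' - q`, `dt l w = 0`, `OnV Q x'` (`OnV.smulN`).  Taylor at `q` (the functions are polynomials, so of class `C^2`; or: `ev (Q j) x' - ev (Q j) q - ∑ w i ∂_i Q_j (q) = O(‖w‖²)` from differentiability of the gradient and the mean value inequality):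
`∑ w i ∂_i Q_j (q) = O (‖w‖²)` because `Q_j (x') = Q_j (q) = 0`; `∑ w i ∂_i (nvP Q m) (q) = nv Q x' m + O (‖w‖²)`.  `node_lin` for the vector `w`: `‖w‖ ≤ C₁ (‖nv Q x'‖ + ‖w‖²)`, so `‖w‖ ≤ 2 C₁ ‖nv Q x'‖` for small `‖w‖`.  Multiply by `a`: `x - a q = a w`, `nv Q x' = a⁻¹ ^ K • nv Q x` (`nv_smul`), `1/2 ≤ ‖a‖ ≤ 2` near `q`.
-/

set_option autoImplicit false

open Topology Filter Metric MvPolynomial

namespace Pool.Agent.TCN

open Pool.Agent.TC

open Pool.Agent.H36.BP (EN fs wd Sub)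

variable {n : ℕ} {Q : Fin (n + 2) → MvPolynomial (Fin (n + 3)) ℂ} {e : Fin (n + 2) → ℕ}

/-- a point of `V` on the boundary where the gradients are dependent -/
def IsNode (Q : Fin (n + 2) → MvPolynomial (Fin (n + 3)) ℂ) (q : EN (n + 2)) : Prop :=
  q ≠ 0 ∧ OnV Q q ∧ (ev (Q 0) q = 0 ∨ ev (Q 1) q = 0) ∧ nv Q q = 0

/-- the Taylor estimate of order two for polynomials -/
private theorem NodeA_taylor (P : MvPolynomial (Fin (n + 3)) ℂ) (q : EN (n + 2)) :
    ∃ C : ℝ, 0 ≤ C ∧ ∀ w : EN (n + 2), ‖w‖ ≤ 1 → ‖ev P (q + w) - ev P q - ∑ i, w i * ev (pderiv i P) q‖ ≤ C * ‖w‖ ^ 2 := by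
  induction P using MvPolynomial.induction_on with
  | C a =>
    refine ⟨0, le_rfl, fun w _ => ?_⟩
    have h1 : ∀ i : Fin (n + 3), w i * ev (pderiv i (C a : MvPolynomial (Fin (n + 3)) ℂ)) q = 0 := fun i => by simp [ev]
    rw [Finset.sum_congr rfl fun i _ => h1 i]
    simp [ev]
  | add p r hp hr =>
    obtain ⟨C₁, hC₁, h1⟩ := hp
    obtain ⟨C₂, hC₂, h2⟩ := hr
    refine ⟨C₁ + C₂, add_nonneg hC₁ hC₂, fun w hw => ?_⟩
    have h3 : ev (p + r) (q + w) - ev (p + r) q - ∑ i, w i * ev (pderiv i (p + r)) q =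
        (ev p (q + w) - ev p q - ∑ i, w i * ev (pderiv i p) q) + (ev r (q + w) - ev r q - ∑ i, w i * ev (pderiv i r) q) := by
      have h4 : ∀ i, w i * ev (pderiv i (p + r)) q = w i * ev (pderiv i p) q + w i * ev (pderiv i r) q := fun i => by
        rw [map_add, ev_add, mul_add]
      rw [Finset.sum_congr rfl fun i _ => h4 i, Finset.sum_add_distrib, ev_add, ev_add]
      ring
    rw [h3, add_mul]
    exact (norm_add_le _ _).trans (add_le_add (h1 w hw) (h2 w hw))
  | mul_X p j hp =>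
    obtain ⟨C₁, hC₁, h1⟩ := hp
    set S : ℝ := ∑ i, ‖ev (pderiv i p) q‖ with hS
    have hS0 : 0 ≤ S := Finset.sum_nonneg fun i _ => norm_nonneg _
    refine ⟨C₁ * (‖q‖ + 1) + S, by positivity, fun w hw => ?_⟩
    have hwi : ∀ i, ‖w i‖ ≤ ‖w‖ := fun i => PiLp.norm_apply_le w i
    have hqi : ∀ i, ‖q i‖ ≤ ‖q‖ := fun i => PiLp.norm_apply_le q i
    have hX : ∀ y : EN (n + 2), ev (p * X j) y = ev p y * y j := fun y => by simp [ev]
    have h4 : ∀ i, w i * ev (pderiv i (p * X j)) q = w i * ev (pderiv i p) q * q j + (if i = j then ev p q * w j else 0) := by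
      intro i
      rw [Derivation.leibniz, pderiv_X, smul_eq_mul, smul_eq_mul]
      by_cases hij : j = i
      · subst hij
        simp only [ev, map_add, map_mul, eval_X, Pi.single_eq_same, map_one, if_true]
        ring
      · rw [Pi.single_eq_of_ne hij, if_neg fun h => hij h.symm]
        simp only [ev, map_add, map_mul, eval_X, map_zero]
        ring
    have h3 : ev (p * X j) (q + w) - ev (p * X j) q - ∑ i, w i * ev (pderiv i (p * X j)) q =
        (ev p (q + w) - ev p q - ∑ i, w i * ev (pderiv i p) q) * (q j + w j) + (∑ i, w i * ev (pderiv i p) q) * w j := by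
      rw [Finset.sum_congr rfl fun i _ => h4 i, Finset.sum_add_distrib, Finset.sum_ite_eq', if_pos (Finset.mem_univ j), ← Finset.sum_mul,
        hX, hX, PiLp.add_apply]
      ring
    rw [h3]
    have h5 : ‖∑ i, w i * ev (pderiv i p) q‖ ≤ ‖w‖ * S := by
      refine (norm_sum_le _ _).trans ?_
      rw [hS, Finset.mul_sum]
      refine Finset.sum_le_sum fun i _ => ?_
      rw [norm_mul]
      exact mul_le_mul_of_nonneg_right (hwi i) (norm_nonneg _)
    have h6 : ‖q j + w j‖ ≤ ‖q‖ + 1 := (norm_add_le _ _).trans (add_le_add (hqi j) ((hwi j).trans hw))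
    have hw0 := norm_nonneg w
    calc ‖(ev p (q + w) - ev p q - ∑ i, w i * ev (pderiv i p) q) * (q j + w j) + (∑ i, w i * ev (pderiv i p) q) * w j‖
        ≤ ‖ev p (q + w) - ev p q - ∑ i, w i * ev (pderiv i p) q‖ * ‖q j + w j‖ + ‖∑ i, w i * ev (pderiv i p) q‖ * ‖w j‖ := by
          refine (norm_add_le _ _).trans ?_
          rw [norm_mul, norm_mul]
      _ ≤ (C₁ * ‖w‖ ^ 2) * (‖q‖ + 1) + (‖w‖ * S) * ‖w‖ := by
          refine add_le_add (mul_le_mul (h1 w hw) h6 (norm_nonneg _) (by positivity)) (mul_le_mul h5 (hwi j) (norm_nonneg _) (by positivity))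
      _ = (C₁ * (‖q‖ + 1) + S) * ‖w‖ ^ 2 := by ring

private theorem NodeA_norm_le (w : EN (n + 2)) : ‖w‖ ≤ ∑ i, ‖w i‖ := by
  have h1 : w = ∑ i, EuclideanSpace.single i (w i) := by
    ext k
    simp [Finset.sum_apply, Pi.single_apply]
  conv_lhs => rw [h1]
  refine (norm_sum_le _ _).trans (Finset.sum_le_sum fun i _ => ?_)
  simp

theorem node_lin (h : NPair Q e) {q : EN (n + 2)} (hq : IsNode Q q) {l : Fin (n + 3) → ℂ} (hl : dt l (fun i => q i) = 1) :
    ∃ (A : Fin (n + 3) → Fin n → ℂ) (B : Fin (n + 3) → Fin (n + 3) → ℂ), ∀ k i : Fin (n + 3),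
      (if k = i then (1 : ℂ) else 0) - q k * l i =
        ∑ j : Fin n, A k j * ev (pderiv i (Q j.succ.succ)) q + ∑ m, B k m * ev (pderiv i (nvP Q m)) q := by
  classical
  -- the linear forms
  let f : Fin n ⊕ Fin (n + 3) → (Fin (n + 3) → ℂ) →ₗ[ℂ] ℂ := Sum.elim
    (fun j => ∑ i, ev (pderiv i (Q j.succ.succ)) q • LinearMap.proj i) (fun m => ∑ i, ev (pderiv i (nvP Q m)) q • LinearMap.proj i)
  have hf1 : ∀ j v, f (Sum.inl j) v = ∑ i, ev (pderiv i (Q j.succ.succ)) q * v i := by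
    intro j v
    simp [f, LinearMap.sum_apply]
  have hf2 : ∀ m v, f (Sum.inr m) v = ∑ i, ev (pderiv i (nvP Q m)) q * v i := by
    intro m v
    simp [f, LinearMap.sum_apply]
  let g : Fin (n + 3) → (Fin (n + 3) → ℂ) →ₗ[ℂ] ℂ := fun k => LinearMap.proj k - q k • ∑ i, l i • LinearMap.proj i
  have hg : ∀ k v, g k v = v k - q k * ∑ i, l i * v i := by
    intro k v
    simp [g, LinearMap.sum_apply]
  have hker : ∀ k, ⨅ s, LinearMap.ker (f s) ≤ LinearMap.ker (g k) := by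
    intro k v hv
    rw [Submodule.mem_iInf] at hv
    simp only [LinearMap.mem_ker] at hv ⊢
    have hv1 : ∀ j : Fin (n + 2), 2 ≤ (j : ℕ) → dt (fun i => (WithLp.toLp 2 v : EN (n + 2)) i) (grad (Q j) q) = 0 := by
      intro j hj
      obtain ⟨j', rfl⟩ : ∃ j' : Fin n, j = j'.succ.succ := by
        rcases j with ⟨j, hj'⟩
        simp only at hj
        exact ⟨⟨j - 2, by omega⟩, Fin.ext (by simp only [Fin.val_succ]; omega)⟩
      have h1 := hv (Sum.inl j')
      rw [hf1] at h1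
      rw [← h1, dt]
      exact Finset.sum_congr rfl fun i _ => mul_comm _ _
    have hv2 : fderiv ℂ (nv Q) q (WithLp.toLp 2 v) = 0 := by
      ext m
      rw [fderiv_nv]
      have h1 := hv (Sum.inr m)
      rw [hf2] at h1
      rw [PiLp.zero_apply, ← h1]
      exact Finset.sum_congr rfl fun i _ => mul_comm _ _
    obtain ⟨a, ha⟩ := h.node q hq.1 hq.2.1 hq.2.2.1 hq.2.2.2 (WithLp.toLp 2 v) hv1 hv2
    have h1 : ∀ i, v i = a * q i := fun i => by
      have := congrArg (fun x : EN (n + 2) => x i) ha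
      simpa using this
    have h2 : ∑ i, l i * v i = a := by
      have h3 : ∑ i, l i * v i = a * dt l (fun i => q i) := by
        rw [dt, Finset.mul_sum]
        refine Finset.sum_congr rfl fun i _ => ?_
        rw [h1 i]
        ring
      rw [h3, hl, mul_one]
    rw [hg, h2, h1 k]
    ring
  have hex : ∀ k, ∃ c : Fin n ⊕ Fin (n + 3) → ℂ, ∑ s, c s • f s = g k := fun k =>
    (Submodule.mem_span_range_iff_exists_fun ℂ).1 (mem_span_of_iInf_ker_le_ker (hker k))
  choose c hc using hex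
  refine ⟨fun k j => c k (Sum.inl j), fun k m => c k (Sum.inr m), fun k i => ?_⟩
  have h1 := congrArg (fun φ : (Fin (n + 3) → ℂ) →ₗ[ℂ] ℂ => φ (Pi.single i 1)) (hc k)
  simp only [Fintype.sum_sum_type, LinearMap.add_apply, LinearMap.sum_apply, LinearMap.smul_apply, smul_eq_mul, hf1, hf2, hg] at h1
  have h2 : ∀ u : Fin (n + 3) → ℂ, ∑ i', u i' * (Pi.single i 1 : Fin (n + 3) → ℂ) i' = u i := by
    intro u
    rw [Finset.sum_eq_single i]
    · simp
    · intro b _ hb
      rw [Pi.single_eq_of_ne hb, mul_zero]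
    · intro hi
      exact absurd (Finset.mem_univ i) hi
  simp only [h2] at h1
  rw [h1, Pi.single_apply]

theorem node_est (h : NPair Q e) {q : EN (n + 2)} (hq : IsNode Q q) {l : Fin (n + 3) → ℂ} (hl : dt l (fun i => q i) = 1) :
    ∃ C ρ : ℝ, 0 < C ∧ 0 < ρ ∧ ∀ x : EN (n + 2), ‖x - q‖ < ρ → OnV Q x → ‖x - dt l (fun i => x i) • q‖ ≤ C * ‖nv Q x‖ := by
  obtain ⟨A, B, hAB⟩ := node_lin h hq hl
  choose CQ hCQ0 hCQ using fun j : Fin n => NodeA_taylor (n := n) (Q j.succ.succ) q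
  choose CN hCN0 hCN using fun m : Fin (n + 3) => NodeA_taylor (n := n) (nvP Q m) q
  set K : ℕ := ∑ j, (e j - 1) with hK
  -- the constant
  set C₁ : ℝ := 1 + ∑ k, ((∑ j, ‖A k j‖ * CQ j) + ∑ m, ‖B k m‖ * (1 + CN m)) with hC₁
  have hC₁0 : 0 < C₁ := by
    have : 0 ≤ ∑ k, ((∑ j, ‖A k j‖ * CQ j) + ∑ m, ‖B k m‖ * (1 + CN m)) :=
      Finset.sum_nonneg fun k _ => add_nonneg (Finset.sum_nonneg fun j _ => mul_nonneg (norm_nonneg _) (hCQ0 j))
        (Finset.sum_nonneg fun m _ => mul_nonneg (norm_nonneg _) (by linarith [hCN0 m]))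
    linarith
  have key : ∀ w : EN (n + 2), ‖w‖ ≤ 1 → dt l (fun i => w i) = 0 → OnV Q (q + w) → ‖w‖ ≤ C₁ * (‖nv Q (q + w)‖ + ‖w‖ ^ 2) := by
    intro w hw hlw hV
    have hr0 : 0 ≤ ‖nv Q (q + w)‖ := norm_nonneg _
    have h1 : ∀ j : Fin n, ‖∑ i, w i * ev (pderiv i (Q j.succ.succ)) q‖ ≤ CQ j * ‖w‖ ^ 2 := by
      intro j
      have h2 := hCQ j w hw
      have hj : 2 ≤ ((j.succ.succ : Fin (n + 2)) : ℕ) := by simp
      rw [hV _ hj, hq.2.1 _ hj, sub_zero, zero_sub, norm_neg] at h2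
      exact h2
    have h2 : ∀ m : Fin (n + 3), ‖∑ i, w i * ev (pderiv i (nvP Q m)) q‖ ≤ (1 + CN m) * (‖nv Q (q + w)‖ + ‖w‖ ^ 2) := by
      intro m
      have h3 := hCN m w hw
      rw [ev_nvP, ev_nvP, hq.2.2.2, PiLp.zero_apply, sub_zero] at h3
      have h4 : ‖nv Q (q + w) m‖ ≤ ‖nv Q (q + w)‖ := PiLp.norm_apply_le _ m
      have h5 : ‖∑ i, w i * ev (pderiv i (nvP Q m)) q‖ ≤ ‖nv Q (q + w) m‖ + ‖nv Q (q + w) m - ∑ i, w i * ev (pderiv i (nvP Q m)) q‖ := by
        have := norm_sub_le (nv Q (q + w) m) (nv Q (q + w) m - ∑ i, w i * ev (pderiv i (nvP Q m)) q)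
        rwa [sub_sub_cancel] at this
      have h6 := hCN0 m
      have h7 : 0 ≤ ‖w‖ ^ 2 := by positivity
      nlinarith [mul_nonneg h6 hr0]
    have h3 : ∀ k, ‖w k‖ ≤ ((∑ j, ‖A k j‖ * CQ j) + ∑ m, ‖B k m‖ * (1 + CN m)) * (‖nv Q (q + w)‖ + ‖w‖ ^ 2) := by
      intro k
      have h4 : w k = (∑ j : Fin n, A k j * ∑ i, w i * ev (pderiv i (Q j.succ.succ)) q) +
          ∑ m, B k m * ∑ i, w i * ev (pderiv i (nvP Q m)) q := by
        have h5 : w k = ∑ i, w i * ((if k = i then (1 : ℂ) else 0) - q k * l i) := by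
          have h6 : ∀ i, w i * ((if k = i then (1 : ℂ) else 0) - q k * l i) = (if k = i then w i else 0) - q k * (l i * w i) := by
            intro i
            split_ifs <;> ring
          rw [Finset.sum_congr rfl fun i _ => h6 i, Finset.sum_sub_distrib, ← Finset.mul_sum, Finset.sum_ite_eq, if_pos (Finset.mem_univ k)]
          have h7 : ∑ i, l i * w i = 0 := hlw
          rw [h7, mul_zero, sub_zero]
        rw [h5]
        have h8 : ∀ i, w i * ((if k = i then (1 : ℂ) else 0) - q k * l i) =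
            (∑ j : Fin n, A k j * (w i * ev (pderiv i (Q j.succ.succ)) q)) + ∑ m, B k m * (w i * ev (pderiv i (nvP Q m)) q) := by
          intro i
          rw [hAB k i, mul_add, Finset.mul_sum, Finset.mul_sum]
          congr 1
          · exact Finset.sum_congr rfl fun j _ => by ring
          · exact Finset.sum_congr rfl fun m _ => by ring
        rw [Finset.sum_congr rfl fun i _ => h8 i, Finset.sum_add_distrib, Finset.sum_comm]
        congr 1
        · exact Finset.sum_congr rfl fun j _ => by rw [Finset.mul_sum]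
        · rw [Finset.sum_comm]
          exact Finset.sum_congr rfl fun m _ => by rw [Finset.mul_sum]
      rw [h4]
      refine (norm_add_le _ _).trans ?_
      rw [add_mul]
      refine add_le_add ?_ ?_
      · refine (norm_sum_le _ _).trans ?_
        rw [Finset.sum_mul]
        refine Finset.sum_le_sum fun j _ => ?_
        rw [norm_mul, mul_assoc]
        refine mul_le_mul_of_nonneg_left ((h1 j).trans ?_) (norm_nonneg _)
        exact mul_le_mul_of_nonneg_left (by linarith) (hCQ0 j)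
      · refine (norm_sum_le _ _).trans ?_
        rw [Finset.sum_mul]
        refine Finset.sum_le_sum fun m _ => ?_
        rw [norm_mul, mul_assoc]
        exact mul_le_mul_of_nonneg_left (h2 m) (norm_nonneg _)
    refine (NodeA_norm_le w).trans ((Finset.sum_le_sum fun k _ => h3 k).trans ?_)
    rw [← Finset.sum_mul]
    refine mul_le_mul_of_nonneg_right ?_ (by positivity)
    rw [hC₁]
    linarith
  -- the neighbourhood
  have hcont : Continuous fun x : EN (n + 2) => dt l (fun i => x i) := by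
    unfold dt
    fun_prop
  have hlim : Tendsto (fun x : EN (n + 2) => dt l (fun i => x i)) (𝓝 q) (𝓝 1) := by
    have := hcont.tendsto q
    rwa [hl] at this
  have hne : ∀ᶠ x : EN (n + 2) in 𝓝 q, dt l (fun i => x i) ≠ 0 := hlim.eventually_ne one_ne_zero
  have hw : Tendsto (fun x : EN (n + 2) => (dt l (fun i => x i))⁻¹ • x - q) (𝓝 q) (𝓝 0) := by
    have h1 := (hlim.inv₀ one_ne_zero).smul (tendsto_id (x := 𝓝 q))
    have h2 := h1.sub_const q
    rw [inv_one, one_smul, sub_self] at h2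
    exact h2
  have hw1 : ∀ᶠ x : EN (n + 2) in 𝓝 q, ‖(dt l (fun i => x i))⁻¹ • x - q‖ < min 1 (1 / (2 * C₁)) := by
    have h1 := hw.norm
    rw [norm_zero] at h1
    exact h1.eventually (gt_mem_nhds (lt_min one_pos (by positivity)))
  have ha1 : ∀ᶠ x : EN (n + 2) in 𝓝 q, ‖dt l (fun i => x i)‖ < 2 ∧ 1 / 2 < ‖dt l (fun i => x i)‖ := by
    have h1 := hlim.norm
    rw [norm_one] at h1
    exact (h1.eventually (gt_mem_nhds (by norm_num))).and (h1.eventually (lt_mem_nhds (by norm_num)))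
  obtain ⟨ρ, hρ, hall⟩ := Metric.eventually_nhds_iff.1 ((hne.and hw1).and ha1)
  refine ⟨4 * C₁ * 2 ^ K, ρ, by positivity, hρ, fun x hx hV => ?_⟩
  obtain ⟨⟨k1, k2⟩, k3, k4⟩ := hall (by rwa [dist_eq_norm])
  set a : ℂ := dt l (fun i => x i) with ha
  set w : EN (n + 2) := a⁻¹ • x - q with hwd
  have hqw : q + w = a⁻¹ • x := by rw [hwd]; abel
  have hxw : x - a • q = a • w := by
    rw [hwd, smul_sub, smul_smul, mul_inv_cancel₀ k1, one_smul]
  have hlw : dt l (fun i => w i) = 0 := by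
    have h1 : (fun i => w i) = a⁻¹ • (fun i => x i) - fun i => q i := by
      funext i
      simp [hwd]
    have h2 : dt l (a⁻¹ • (fun i => x i) - fun i => q i) = a⁻¹ * dt l (fun i => x i) - dt l (fun i => q i) := by
      rw [dt_comm, dt_sub_left, dt_smul_left, dt_comm _ l, dt_comm _ l]
    rw [h1, h2, hl, ← ha, inv_mul_cancel₀ k1, sub_self]
  have hw1' : ‖w‖ ≤ 1 := (k2.trans_le (min_le_left _ _)).le
  have hw2' : ‖w‖ ≤ 1 / (2 * C₁) := (k2.trans_le (min_le_right _ _)).le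
  have hVw : OnV Q (q + w) := by
    rw [hqw]
    exact hV.smulN h _
  have h1 := key w hw1' hlw hVw
  have hw0 := norm_nonneg w
  have h2 : C₁ * ‖w‖ ≤ 1 / 2 := by
    have := mul_le_mul_of_nonneg_left hw2' hC₁0.le
    rwa [mul_one_div, div_mul_cancel_right₀ hC₁0.ne', ← one_div] at this
  have h3 : ‖w‖ ≤ 2 * C₁ * ‖nv Q (q + w)‖ := by nlinarith
  have h4 : ‖nv Q (q + w)‖ ≤ 2 ^ K * ‖nv Q x‖ := by
    rw [hqw, nv_smul h, norm_smul, norm_pow, norm_inv, ← hK]
    refine mul_le_mul_of_nonneg_right ?_ (norm_nonneg _)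
    refine pow_le_pow_left₀ (by positivity) ?_ _
    rw [inv_le_comm₀ (by linarith) (by norm_num)]
    linarith
  rw [hxw, norm_smul]
  have h5 : 0 ≤ ‖nv Q (q + w)‖ := norm_nonneg _
  calc ‖a‖ * ‖w‖ ≤ 2 * (2 * C₁ * (2 ^ K * ‖nv Q x‖)) := by
        refine mul_le_mul k3.le (h3.trans ?_) hw0 (by norm_num)
        exact mul_le_mul_of_nonneg_left h4 (by positivity)
    _ = 4 * C₁ * 2 ^ K * ‖nv Q x‖ := by ring

/-- on the affine surface `{F₂ = 1}`.  Take `l = (conj (q i) / ‖q‖²)_i`, `a = dt l x`: `1 = F₂ x = F₂ (a q) + O (‖x - a q‖) = a ^ e 1 + O (‖nv Q x‖)` (`F₂ q = 1`), so `|a - 1| ≤ C ‖nv Q x‖` for `x` near `q` (`a` is near `1`). -/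
theorem node_est_one (h : NPair Q e) {q : EN (n + 2)} (hq : IsNode Q q) (h1 : ev (Q 1) q = 1) :
    ∃ C ρ : ℝ, 0 < C ∧ 0 < ρ ∧ ∀ x : EN (n + 2), ‖x - q‖ < ρ → OnV Q x → ev (Q 1) x = 1 → ‖x - q‖ ≤ C * ‖nv Q x‖ := by
  have hq0 : ‖q‖ ≠ 0 := norm_ne_zero_iff.2 hq.1
  set l : Fin (n + 3) → ℂ := fun i => (starRingEnd ℂ) (q i) / ((‖q‖ ^ 2 : ℝ) : ℂ) with hld
  have hl : dt l (fun i => q i) = 1 := by
    have h2 : (‖q‖ ^ 2 : ℝ) = ∑ i, ‖q i‖ ^ 2 := EuclideanSpace.norm_sq_eq q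
    have h3 : ∀ i, l i * q i = ((‖q i‖ ^ 2 : ℝ) : ℂ) / ((‖q‖ ^ 2 : ℝ) : ℂ) := by
      intro i
      rw [hld]
      simp only
      rw [div_mul_eq_mul_div, ← Complex.normSq_eq_conj_mul_self, Complex.normSq_eq_norm_sq]
    rw [dt, Finset.sum_congr rfl fun i _ => h3 i, ← Finset.sum_div, ← Complex.ofReal_sum, ← h2]
    refine div_self ?_
    rw [Complex.ofReal_ne_zero]
    positivity
  obtain ⟨C, ρ, hC, hρ, hmain⟩ := node_est h hq hl
  have hcont : Continuous fun x : EN (n + 2) => dt l (fun i => x i) := by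
    unfold dt
    fun_prop
  have hlim : Tendsto (fun x : EN (n + 2) => dt l (fun i => x i)) (𝓝 q) (𝓝 1) := by
    have := hcont.tendsto q
    rwa [hl] at this
  -- `F₂` is Lipschitz near `q`
  have han : AnalyticAt ℂ (ev (Q 1)) q := analyticAt_ev (Q 1) analyticAt_id
  obtain ⟨C₂, hC₂, hlip⟩ := (han.hasStrictFDerivAt.isBigO_sub).exists_pos
  rw [Asymptotics.isBigOWith_iff] at hlip
  have hpair : Tendsto (fun x : EN (n + 2) => (x, dt l (fun i => x i) • q)) (𝓝 q) (𝓝 (q, q)) := by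
    have h2 := hlim.smul_const q
    rw [one_smul] at h2
    exact tendsto_id.prodMk_nhds h2
  -- the geometric sum
  have hgeo : Tendsto (fun x : EN (n + 2) => ∑ i ∈ Finset.range (e 1), (dt l (fun i => x i)) ^ i) (𝓝 q) (𝓝 (e 1 : ℂ)) := by
    have h2 : Continuous fun a : ℂ => ∑ i ∈ Finset.range (e 1), a ^ i := by fun_prop
    have h3 := (h2.tendsto 1).comp hlim
    simp only [one_pow, Finset.sum_const, Finset.card_range, nsmul_eq_mul, mul_one] at h3
    exact h3
  have hgeo1 : ∀ᶠ x : EN (n + 2) in 𝓝 q, 1 / 2 < ‖∑ i ∈ Finset.range (e 1), (dt l (fun i => x i)) ^ i‖ := by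
    have h2 := hgeo.norm
    have h3 : (1 : ℝ) ≤ ‖(e 1 : ℂ)‖ := by
      rw [Complex.norm_natCast]
      exact_mod_cast h.pos 1
    exact h2.eventually (lt_mem_nhds (by linarith))
  obtain ⟨ρ', hρ', hall⟩ := Metric.eventually_nhds_iff.1 (hgeo1.and (hpair.eventually hlip))
  refine ⟨C + 2 * C₂ * C * ‖q‖, min ρ ρ', by positivity, lt_min hρ hρ', fun x hx hV hx1 => ?_⟩
  obtain ⟨k1, k2⟩ := hall (y := x) (by rw [dist_eq_norm]; exact hx.trans_le (min_le_right _ _))
  have k3 := hmain x (hx.trans_le (min_le_left _ _)) hV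
  set a : ℂ := dt l (fun i => x i) with ha
  simp only at k2
  rw [hx1, ev_smul (h.hom 1), h1, mul_one] at k2
  have h2 : 1 - a ^ e 1 = -((∑ i ∈ Finset.range (e 1), a ^ i) * (a - 1)) := by
    rw [geom_sum_mul]
    ring
  rw [h2, norm_neg, norm_mul] at k2
  have h3 : ‖a - 1‖ ≤ 2 * C₂ * C * ‖nv Q x‖ := by
    have h4 : C₂ * ‖x - a • q‖ ≤ C₂ * (C * ‖nv Q x‖) := mul_le_mul_of_nonneg_left k3 hC₂.le
    have h5 := norm_nonneg (a - 1)
    nlinarith
  have h4 : x - q = (x - a • q) + (a - 1) • q := by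
    rw [sub_smul, one_smul]
    abel
  rw [h4]
  calc ‖(x - a • q) + (a - 1) • q‖ ≤ ‖x - a • q‖ + ‖a - 1‖ * ‖q‖ := (norm_add_le _ _).trans (by rw [norm_smul])
    _ ≤ C * ‖nv Q x‖ + (2 * C₂ * C * ‖nv Q x‖) * ‖q‖ := add_le_add k3 (mul_le_mul_of_nonneg_right h3 (norm_nonneg _))
    _ = (C + 2 * C₂ * C * ‖q‖) * ‖nv Q x‖ := by ring

/-- transversality: the common points of the two curves are not nodes -/
theorem nv_ne_zero_base (h : NPair Q e) {x : EN (n + 2)} (hx : x ≠ 0) (hV : OnV Q x) (h0 : ev (Q 0) x = 0) (h1 : ev (Q 1) x = 0) :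
    nv Q x ≠ 0 := by
  have h2 : cross (fun j => grad (Q j) x) ≠ 0 := by
    rw [cross_ne_zero_iff, Fintype.linearIndependent_iff]
    intro c hc j
    exact congrFun (h.meet x hx hV h0 h1 c hc) j
  intro h3
  apply h2
  funext i
  have := congrArg (fun y : EN (n + 2) => y i) h3
  simpa [nv_apply] using this

end Pool.Agent.TCN
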