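import Pool.Agent.TCN.NodeP

/-!
# TCN Param: a local parametrisation of the affine surface `S = {Q j = 0 (j ≥ 2), F₂ = 1}`

(1) The `n + 1` vectors `grad (Q j) q` (`j ≥ 2`) and `grad (Q 1) q` are linearly independent: from `∑ c_j grad Q_j + c_1 grad Q_1 = 0`, paired with `q` (`dt_self_grad`: `dt q (grad (Q j) q) = e j * ev (Q j) q`), `c_1 e_1 = 0`, so `c_1 = 0`, and `h.smooth` (`c 0 = 0`) gives `c = 0`.
(2) Complete them by two standard linear forms `x ↦ x a`, `x ↦ x b` to a basis of the dual space of `ℂ^(n+3)`.  `Θ x = ((ev (Q j.succ.succ) x)_(j : Fin n), ev (Q 1) x, x a, x b)` has an invertible derivative at `q`; local inverse `Ψ` (analytic near `Θ q`): `ψ p = Ψ (0, 1, q a + p.1, q b + p.2)`, `τ x = (x a - q a, x b - q b)`.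
(3) The estimate.  Let `ψ_1, ψ_2` be the partial derivatives of `ψ` at `p`: linearly independent (`τ (ψ p) = p`), annihilated by `grad Q_j` (`j ≥ 2`) and `grad Q_1` at `ψ p`.  Consider the matrix with the rows `ℓ, grad Q_1, grad Q_j` for a linear form `ℓ`, `N ℓ = cross (ℓ, grad Q_1, grad Q_j ..)`: linear in `ℓ`, and `N ℓ = 0` if `ℓ` is in
the span of the other rows.  At the point `q` the forms `x ↦ x a`, `x ↦ x b` (rows `E_a`, `E_b`) complete the rows to a basis, and by continuity also at `ψ p` for small `p`: write `grad Q_0 = α E_a + β E_b + (combination of grad Q_1, grad Q_j)`; pairing with `ψ_1`, `ψ_2` (`dt ψ_1 E_a = 1`, `dt ψ_1 E_b = 0`, ... since `τ (ψ p) = p`):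
`α = dt ψ_1 (grad Q_0) = ∂_1 (F₁ ∘ ψ)`, `β = ∂_2 (F₁ ∘ ψ)`.  So `nv Q (ψ p) = N (grad Q_0) = α N E_a + β N E_b`, and `N E_a`, `N E_b` are bounded near `q` (continuous): `‖nv Q (ψ p)‖ ≤ C (|α| + |β|) ≤ 2 C ‖fderiv ℂ (F₁ ∘ ψ) p‖`.
`param_zero`: if `nv Q q = 0` and `ev (Q 0) q = 0` then `fderiv ℂ (F₁ ∘ ψ) 0 = 0`: the gradients at `q` are linearly dependent (`cross_ne_zero_iff`), `∑ c_j grad Q_j = 0` with `c ≠ 0`, `c 0 ≠ 0` by (1); pairing with `ψ_1`, `ψ_2` gives `α = β = 0`.
-/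

set_option autoImplicit false

open Topology Filter Metric MvPolynomial

namespace Pool.Agent.TCN

open Pool.Agent.TC

open Pool.Agent.H36.BP (EN fs wd Sub)

variable {n : ℕ} {Q : Fin (n + 2) → MvPolynomial (Fin (n + 3)) ℂ} {e : Fin (n + 2) → ℕ}

/-- the derivative of a polynomial -/
private theorem Param_fd {N : ℕ} (P : MvPolynomial (Fin (N + 1)) ℂ) (x v : EN N) :
    fderiv ℂ (ev P) x v = dt (fun i => v i) (grad P x) := by
  have h1 : HasDerivAt (fun t : ℂ => x + t • v) v 0 := by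
    have := ((hasDerivAt_id (0 : ℂ)).smul_const v).const_add x
    simpa using this
  have h2 := hasDerivAt_ev' P h1
  have h0 : x + (0 : ℂ) • v = x := by simp
  have h3 : HasDerivAt (fun t : ℂ => ev P (x + t • v)) (fderiv ℂ (ev P) x v) 0 := by
    have h4 : HasFDerivAt (ev P) (fderiv ℂ (ev P) x) (x + (0 : ℂ) • v) := by
      rw [h0]
      exact (differentiable_ev P x).hasFDerivAt
    exact h4.comp_hasDerivAt (0 : ℂ) h1
  have h5 := h2.unique h3
  rw [← h5]
  simp only [h0, dt]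

/-- some standard vector is not in the span of few vectors -/
private theorem Param_ex {m M : ℕ} (u : Fin m → Fin M → ℂ) (hm : m < M) :
    ∃ a : Fin M, (Pi.single a (1 : ℂ) : Fin M → ℂ) ∉ Submodule.span ℂ (Set.range u) := by
  by_contra h
  push Not at h
  have htop : Submodule.span ℂ (Set.range u) = ⊤ := by
    rw [eq_top_iff, ← (Pi.basisFun ℂ (Fin M)).span_eq, Submodule.span_le]
    rintro _ ⟨a, rfl⟩
    rw [Pi.basisFun_apply]
    exact h a
  have h1 : Module.finrank ℂ (Submodule.span ℂ (Set.range u)) ≤ m := by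
    have := finrank_range_le_card (R := ℂ) u
    simpa [Set.finrank] using this
  rw [htop, finrank_top] at h1
  simp at h1
  omega

/-- the linear functional `w ↦ dt v w` vanishes on a span -/
private theorem Param_span {M m : ℕ} {v : Fin (M + 1) → ℂ} {u : Fin m → Fin (M + 1) → ℂ} (h : ∀ j, dt v (u j) = 0)
    {w : Fin (M + 1) → ℂ} (hw : w ∈ Submodule.span ℂ (Set.range u)) : dt v w = 0 := by
  induction hw using Submodule.span_induction with
  | mem x hx => obtain ⟨j, rfl⟩ := hx; exact h j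
  | zero => exact dt_zero_right v
  | add x y _ _ hx hy => rw [dt_add_right, hx, hy, add_zero]
  | smul c x _ hx => rw [dt_smul_right, hx, mul_zero]

/-- the cross product as a function of its first vector -/
private noncomputable def Param_N {m : ℕ} (g : Fin m → Fin (m + 1 + 1) → ℂ) (w : Fin (m + 1 + 1) → ℂ) : Fin (m + 1 + 1) → ℂ :=
  cross (Fin.cons w g : Fin (m + 1) → Fin (m + 1 + 1) → ℂ)

private theorem Param_N_apply {m : ℕ} (g : Fin m → Fin (m + 1 + 1) → ℂ) (w : Fin (m + 1 + 1) → ℂ) (i : Fin (m + 1 + 1)) :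
    Param_N g w i = (-1) ^ (i : ℕ) * (Matrix.detRowAlternating (R := ℂ) (n := Fin (m + 1))).toMultilinearMap
      (Fin.cons (fun b => w (i.succAbove b)) (fun a b => g a (i.succAbove b)) : Fin (m + 1) → Fin (m + 1) → ℂ) := by
  unfold Param_N cross
  congr 1
  change Matrix.det _ = Matrix.det _
  congr 1
  ext a b
  refine Fin.cases ?_ (fun a => ?_) a
  · simp
  · simp

private theorem Param_N_add {m : ℕ} (g : Fin m → Fin (m + 1 + 1) → ℂ) (w w' : Fin (m + 1 + 1) → ℂ) :
    Param_N g (w + w') = Param_N g w + Param_N g w' := by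
  funext i
  rw [Pi.add_apply, Param_N_apply, Param_N_apply, Param_N_apply, ← mul_add, ← MultilinearMap.cons_add]
  rfl

private theorem Param_N_smul {m : ℕ} (g : Fin m → Fin (m + 1 + 1) → ℂ) (c : ℂ) (w : Fin (m + 1 + 1) → ℂ) :
    Param_N g (c • w) = c • Param_N g w := by
  funext i
  have h := MultilinearMap.cons_smul (Matrix.detRowAlternating (R := ℂ) (n := Fin (m + 1))).toMultilinearMap
    (fun a b => g a (i.succAbove b)) c (fun b => w (i.succAbove b))
  rw [Pi.smul_apply, Param_N_apply, Param_N_apply, smul_eq_mul, mul_left_comm, ← smul_eq_mul (a := c) (b := _), ← h]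
  rfl

private theorem Param_N_self {m : ℕ} (g : Fin m → Fin (m + 1 + 1) → ℂ) (j : Fin m) : Param_N g (g j) = 0 := by
  funext i
  unfold Param_N cross
  rw [Matrix.det_zero_of_row_eq (i := 0) (j := j.succ) (Fin.succ_ne_zero j).symm, mul_zero, Pi.zero_apply]
  funext b
  simp

private theorem Param_N_sum {m : ℕ} (g : Fin m → Fin (m + 1 + 1) → ℂ) (c : Fin m → ℂ) :
    Param_N g (∑ j, c j • g j) = 0 := by
  have h : ∀ s : Finset (Fin m), Param_N g (∑ j ∈ s, c j • g j) = 0 := by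
    intro s
    classical
    induction s using Finset.induction_on with
    | empty =>
      have := Param_N_smul g 0 0
      simpa using this
    | insert a s ha ih => rw [Finset.sum_insert ha, Param_N_add, ih, Param_N_smul, Param_N_self, smul_zero, add_zero]
  exact h _

/-- the rows -/
private noncomputable def Param_R {m : ℕ} (a b : Fin (m + 1 + 1)) (g : Fin m → Fin (m + 1 + 1) → ℂ) : Matrix (Fin (m + 1 + 1)) (Fin (m + 1 + 1)) ℂ :=
  Matrix.of (Fin.cons (Pi.single a 1) (Fin.cons (Pi.single b 1) g : Fin (m + 1) → Fin (m + 1 + 1) → ℂ) : Fin (m + 1 + 1) → Fin (m + 1 + 1) → ℂ)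

/-- a vector written in the basis of the rows -/
private theorem Param_expand {m : ℕ} {a b : Fin (m + 1 + 1)} {g : Fin m → Fin (m + 1 + 1) → ℂ} (hdet : (Param_R a b g).det ≠ 0)
    (w : Fin (m + 1 + 1) → ℂ) : ∃ (α β : ℂ) (c : Fin m → ℂ), w = α • Pi.single a (1 : ℂ) + β • Pi.single b (1 : ℂ) + ∑ j, c j • g j := by
  have hs : Function.Surjective (Param_R a b g).vecMul :=
    Matrix.vecMul_surjective_iff_isUnit.2 ((Matrix.isUnit_iff_isUnit_det _).2 (isUnit_iff_ne_zero.2 hdet))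
  obtain ⟨v, hv⟩ := hs w
  refine ⟨v 0, v 1, fun j => v j.succ.succ, ?_⟩
  rw [← hv]
  funext k
  simp only [Matrix.vecMul, dotProduct, Fin.sum_univ_succ, Param_R, Matrix.of_apply, Fin.cons_zero, Fin.cons_succ,
    Pi.add_apply, Pi.smul_apply, smul_eq_mul, Finset.sum_apply, Fin.succ_zero_eq_one]
  ring

/-- the gradients at a point of the affine surface are linearly independent -/
private theorem Param_li (h : NPair Q e) {q : EN (n + 2)} (hV : OnV Q q) (h1 : ev (Q 1) q = 1) :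
    LinearIndependent ℂ (fun i : Fin (n + 1) => grad (Q i.succ) q) := by
  have hq : q ≠ 0 := by
    rintro rfl
    have h2 := ev_smul (h.hom 1) 0 0
    rw [smul_zero, zero_pow (by have := h.pos 1; omega), zero_mul, h1] at h2
    exact one_ne_zero h2
  rw [Fintype.linearIndependent_iff]
  intro c hc
  have hsum : ∑ i, c i * (e i.succ * ev (Q i.succ) q) = 0 := by
    have h2 : dt (fun i => q i) (∑ i, c i • grad (Q i.succ) q) = 0 := by rw [hc, dt_zero_right]
    rw [dt_sum_right] at h2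
    rw [← h2]
    refine Finset.sum_congr rfl fun i _ => ?_
    rw [dt_smul_right, dt, euler (h.hom i.succ)]
  have hc0 : c 0 = 0 := by
    rw [Fin.sum_univ_succ, Finset.sum_eq_zero (fun i _ => by
      rw [hV i.succ.succ (by simp), mul_zero, mul_zero]), add_zero] at hsum
    have h3 : ev (Q (Fin.succ 0)) q = 1 := h1
    rw [h3, mul_one] at hsum
    rcases mul_eq_zero.1 hsum with h4 | h4
    · exact h4
    · exfalso
      have := h.pos (Fin.succ 0)
      have h5 : e (Fin.succ 0) = 0 := by exact_mod_cast h4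
      omega
  have h6 := h.smooth q hq hV (Fin.cons 0 c) rfl hc0 (by
    rw [Fin.sum_univ_succ, Fin.cons_zero, zero_smul, zero_add]
    simpa using hc)
  intro i
  have h7 := congrFun h6 i.succ
  simpa using h7

/-- the coordinates -/
private noncomputable def Param_T (Q : Fin (n + 2) → MvPolynomial (Fin (n + 3)) ℂ) (a b : Fin (n + 3)) (x : EN (n + 2)) : EN (n + 2) :=
  WithLp.toLp 2 (Fin.cons (x a) (Fin.cons (x b) fun i : Fin (n + 1) => ev (Q i.succ) x : Fin (n + 2) → ℂ) : Fin (n + 3) → ℂ)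

private theorem Param_T_an (a b : Fin (n + 3)) (x : EN (n + 2)) : AnalyticAt ℂ (Param_T Q a b) x := by
  refine analyticAt_toLp fun k => ?_
  refine Fin.cases ?_ (fun k => Fin.cases ?_ (fun k => ?_) k) k
  · exact (EuclideanSpace.proj (𝕜 := ℂ) a : EN (n + 2) →L[ℂ] ℂ).analyticAt x
  · exact (EuclideanSpace.proj (𝕜 := ℂ) b : EN (n + 2) →L[ℂ] ℂ).analyticAt x
  · exact analyticAt_ev (Q k.succ) analyticAt_id

private theorem Param_T_fd (a b : Fin (n + 3)) (x v : EN (n + 2)) (k : Fin (n + 3)) :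
    fderiv ℂ (Param_T Q a b) x v k = dt (fun i => v i) (Param_R a b (fun i : Fin (n + 1) => grad (Q i.succ) x) k) := by
  have h1 : HasFDerivAt (fun y => Param_T Q a b y k) ((EuclideanSpace.proj (𝕜 := ℂ) k : EN (n + 2) →L[ℂ] ℂ).comp (fderiv ℂ (Param_T Q a b) x)) x :=
    (EuclideanSpace.proj (𝕜 := ℂ) k : EN (n + 2) →L[ℂ] ℂ).hasFDerivAt.comp x (Param_T_an a b x).differentiableAt.hasFDerivAt
  have h2 : fderiv ℂ (Param_T Q a b) x v k = fderiv ℂ (fun y => Param_T Q a b y k) x v := by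
    rw [h1.fderiv]
    rfl
  rw [h2]
  refine Fin.cases ?_ (fun k => Fin.cases ?_ (fun k => ?_) k) k
  · have h3 : HasFDerivAt (fun y : EN (n + 2) => Param_T Q a b y 0) (EuclideanSpace.proj (𝕜 := ℂ) a : EN (n + 2) →L[ℂ] ℂ) x :=
      (EuclideanSpace.proj (𝕜 := ℂ) a : EN (n + 2) →L[ℂ] ℂ).hasFDerivAt
    rw [h3.fderiv, dt_comm]
    exact (single_dt a _).symm
  · have h3 : HasFDerivAt (fun y : EN (n + 2) => Param_T Q a b y (Fin.succ 0)) (EuclideanSpace.proj (𝕜 := ℂ) b : EN (n + 2) →L[ℂ] ℂ) x :=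
      (EuclideanSpace.proj (𝕜 := ℂ) b : EN (n + 2) →L[ℂ] ℂ).hasFDerivAt
    rw [h3.fderiv, dt_comm]
    exact (single_dt b _).symm
  · exact Param_fd (Q k.succ) x v

/-- the affine plane -/
private noncomputable def Param_A (n : ℕ) (a b : ℂ) (p : ℂ × ℂ) : EN (n + 2) :=
  WithLp.toLp 2 (Fin.cons (a + p.1) (Fin.cons (b + p.2) (Fin.cons 1 0 : Fin (n + 1) → ℂ) : Fin (n + 2) → ℂ) : Fin (n + 3) → ℂ)

private theorem Param_A_an (a b : ℂ) (p : ℂ × ℂ) : AnalyticAt ℂ (Param_A n a b) p := by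
  refine analyticAt_toLp fun k => ?_
  refine Fin.cases ?_ (fun k => Fin.cases ?_ (fun k => ?_) k) k
  · exact analyticAt_const.add analyticAt_fst
  · exact analyticAt_const.add analyticAt_snd
  · exact analyticAt_const

private theorem Param_A_fd (a b : ℂ) (p v : ℂ × ℂ) (k : Fin (n + 3)) :
    fderiv ℂ (fun p => Param_A n a b p k) p v = (Fin.cons v.1 (Fin.cons v.2 0 : Fin (n + 2) → ℂ) : Fin (n + 3) → ℂ) k := by
  refine Fin.cases ?_ (fun k => Fin.cases ?_ (fun k => ?_) k) k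
  · have h3 : HasFDerivAt (fun p : ℂ × ℂ => Param_A n a b p 0) (ContinuousLinearMap.fst ℂ ℂ ℂ) p :=
      hasFDerivAt_fst.const_add a
    rw [h3.fderiv]
    rfl
  · have h3 : HasFDerivAt (fun p : ℂ × ℂ => Param_A n a b p (Fin.succ 0)) (ContinuousLinearMap.snd ℂ ℂ ℂ) p :=
      hasFDerivAt_snd.const_add b
    rw [h3.fderiv]
    rfl
  · have h3 : HasFDerivAt (fun p : ℂ × ℂ => Param_A n a b p k.succ.succ) (0 : ℂ × ℂ →L[ℂ] ℂ) p :=
      hasFDerivAt_const _ _
    rw [h3.fderiv]
    rfl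

/-- the normal vector and the derivative -/
private theorem Param_key {a b : Fin (n + 3)} {ψ : ℂ × ℂ → EN (n + 2)} {p : ℂ × ℂ} {a' b' : ℂ} (hψ : AnalyticAt ℂ ψ p)
    (hΘ : ∀ᶠ r in 𝓝 p, Param_T Q a b (ψ r) = Param_A n a' b' r) (v : ℂ × ℂ) (k : Fin (n + 3)) :
    dt (fun i => fderiv ℂ ψ p v i) (Param_R a b (fun i : Fin (n + 1) => grad (Q i.succ) (ψ p)) k) =
      (Fin.cons v.1 (Fin.cons v.2 0 : Fin (n + 2) → ℂ) : Fin (n + 3) → ℂ) k := by
  rw [← Param_T_fd, ← Param_A_fd a' b' p v k]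
  have h1 : HasFDerivAt (fun r => Param_T Q a b (ψ r)) ((fderiv ℂ (Param_T Q a b) (ψ p)).comp (fderiv ℂ ψ p)) p :=
    (Param_T_an a b (ψ p)).differentiableAt.hasFDerivAt.comp p hψ.differentiableAt.hasFDerivAt
  have h2 : HasFDerivAt (fun r => Param_T Q a b (ψ r) k) ((EuclideanSpace.proj (𝕜 := ℂ) k : EN (n + 2) →L[ℂ] ℂ).comp
      ((fderiv ℂ (Param_T Q a b) (ψ p)).comp (fderiv ℂ ψ p))) p :=
    (EuclideanSpace.proj (𝕜 := ℂ) k : EN (n + 2) →L[ℂ] ℂ).hasFDerivAt.comp p h1
  have h3 : HasFDerivAt (fun r => Param_A n a' b' r k) ((EuclideanSpace.proj (𝕜 := ℂ) k : EN (n + 2) →L[ℂ] ℂ).comp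
      ((fderiv ℂ (Param_T Q a b) (ψ p)).comp (fderiv ℂ ψ p))) p := by
    refine h2.congr_of_eventuallyEq ?_
    filter_upwards [hΘ] with r hr
    rw [hr]
  rw [h3.fderiv]
  rfl

private theorem Param_nv (x : EN (n + 2)) :
    nv Q x = WithLp.toLp 2 (Param_N (fun i : Fin (n + 1) => grad (Q i.succ) x) (grad (Q 0) x)) := by
  unfold nv Param_N
  congr 2
  funext j
  refine Fin.cases ?_ (fun j => ?_) j
  · rfl
  · rfl

theorem param (h : NPair Q e) {q : EN (n + 2)} (hV : OnV Q q) (h1 : ev (Q 1) q = 1) :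
    ∃ (ψ : ℂ × ℂ → EN (n + 2)) (τ : EN (n + 2) → ℂ × ℂ) (c : ℝ), 0 < c ∧ AnalyticAt ℂ ψ 0 ∧ ψ 0 = q ∧ AnalyticAt ℂ τ q ∧ τ q = 0 ∧
      (∀ᶠ p in 𝓝 (0 : ℂ × ℂ), OnV Q (ψ p) ∧ ev (Q 1) (ψ p) = 1 ∧ τ (ψ p) = p ∧
        c * ‖nv Q (ψ p)‖ ≤ ‖fderiv ℂ (fun p => ev (Q 0) (ψ p)) p‖) ∧
      (∀ᶠ x in 𝓝 q, OnV Q x → ev (Q 1) x = 1 → ψ (τ x) = x) ∧
      (ev (Q 0) q = 0 → nv Q q = 0 → fderiv ℂ (fun p => ev (Q 0) (ψ p)) 0 = 0) := by
  classical
  have hli := Param_li h hV h1
  obtain ⟨b, hb⟩ := Param_ex (fun i : Fin (n + 1) => grad (Q i.succ) q) (by omega : n + 1 < n + 3)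
  obtain ⟨a, ha⟩ := Param_ex (Fin.cons (Pi.single b 1) (fun i : Fin (n + 1) => grad (Q i.succ) q) : Fin (n + 1 + 1) → Fin (n + 3) → ℂ)
    (by omega : n + 1 + 1 < n + 3)
  have hli3 := linearIndependent_finCons.2 ⟨linearIndependent_finCons.2 ⟨hli, hb⟩, ha⟩
  have hunit : IsUnit (Param_R a b (fun i : Fin (n + 1) => grad (Q i.succ) q)) := Matrix.linearIndependent_rows_iff_isUnit.1 hli3
  have hdet : (Param_R a b (fun i : Fin (n + 1) => grad (Q i.succ) q)).det ≠ 0 := by
    rw [← isUnit_iff_ne_zero, ← Matrix.isUnit_iff_isUnit_det]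
    exact hunit
  have hinj : Function.Injective (fderiv ℂ (Param_T Q a b) q : EN (n + 2) →ₗ[ℂ] EN (n + 2)) := by
    rw [← LinearMap.ker_eq_bot, LinearMap.ker_eq_bot']
    intro v hv
    have hinj2 : Function.Injective (Param_R a b (fun i : Fin (n + 1) => grad (Q i.succ) q)).mulVec :=
      Matrix.mulVec_injective_iff_isUnit.2 hunit
    have h2 : (Param_R a b (fun i : Fin (n + 1) => grad (Q i.succ) q)).mulVec (fun i => v i) =
        (Param_R a b (fun i : Fin (n + 1) => grad (Q i.succ) q)).mulVec 0 := by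
      rw [Matrix.mulVec_zero]
      funext k
      have h3 := Param_T_fd (Q := Q) a b q v k
      have h4 : fderiv ℂ (Param_T Q a b) q v k = 0 := by
        have : fderiv ℂ (Param_T Q a b) q v = 0 := hv
        rw [this]
        rfl
      rw [h4, dt_comm] at h3
      exact h3.symm
    have h5 := hinj2 h2
    ext i
    exact congrFun h5 i
  let L : EN (n + 2) ≃L[ℂ] EN (n + 2) :=
    (LinearEquiv.ofInjectiveEndo (fderiv ℂ (Param_T Q a b) q : EN (n + 2) →ₗ[ℂ] EN (n + 2)) hinj).toContinuousLinearEquiv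
  have hL : fderiv ℂ (Param_T Q a b) q = (L : EN (n + 2) →L[ℂ] EN (n + 2)) := by
    ext v
    rfl
  have hst : HasStrictFDerivAt (Param_T Q a b) (L : EN (n + 2) →L[ℂ] EN (n + 2)) q := by
    rw [← hL]
    exact (Param_T_an a b q).hasStrictFDerivAt
  set P := hst.toOpenPartialHomeomorph (Param_T Q a b) with hP
  have hPs : q ∈ P.source := hst.mem_toOpenPartialHomeomorph_source
  have hPf : ∀ x, P x = Param_T Q a b x := fun x => rfl
  have hPsymm : AnalyticAt ℂ P.symm (Param_T Q a b q) := P.analyticAt_symm' hPs (Param_T_an a b q) hL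
  have hPq : P.symm (Param_T Q a b q) = q := P.left_inv hPs
  have hA0 : Param_A n (q a) (q b) 0 = Param_T Q a b q := by
    unfold Param_A Param_T
    congr 1
    funext k
    refine Fin.cases ?_ (fun k => Fin.cases ?_ (fun k => Fin.cases ?_ (fun k => ?_) k) k) k
    · simp
    · simp
    · exact h1.symm
    · exact (hV k.succ.succ (by simp)).symm
  set ψ : ℂ × ℂ → EN (n + 2) := fun p => P.symm (Param_A n (q a) (q b) p) with hψ
  have hψan : AnalyticAt ℂ ψ 0 := by
    refine AnalyticAt.comp ?_ (Param_A_an (q a) (q b) 0)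
    rw [hA0]
    exact hPsymm
  have hψ0 : ψ 0 = q := by
    simp only [hψ]
    rw [hA0, hPq]
  have hτan : AnalyticAt ℂ (fun x : EN (n + 2) => (x a - q a, x b - q b)) q :=
    (((EuclideanSpace.proj (𝕜 := ℂ) a : EN (n + 2) →L[ℂ] ℂ).analyticAt q).sub analyticAt_const).prod
      (((EuclideanSpace.proj (𝕜 := ℂ) b : EN (n + 2) →L[ℂ] ℂ).analyticAt q).sub analyticAt_const)
  -- the equation
  have hT : ∀ᶠ p in 𝓝 (0 : ℂ × ℂ), Param_T Q a b (ψ p) = Param_A n (q a) (q b) p := by
    have h2 : P.target ∈ 𝓝 (Param_A n (q a) (q b) 0) := by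
      rw [hA0]
      exact P.open_target.mem_nhds (P.map_source hPs)
    filter_upwards [(Param_A_an (q a) (q b) 0).continuousAt.preimage_mem_nhds h2] with p hp
    exact P.right_inv hp
  have hcomp : ∀ p, Param_T Q a b (ψ p) = Param_A n (q a) (q b) p → OnV Q (ψ p) ∧ ev (Q 1) (ψ p) = 1 ∧
      ((ψ p) a - q a, (ψ p) b - q b) = p := by
    intro p hp
    have hk : ∀ k, Param_T Q a b (ψ p) k = Param_A n (q a) (q b) p k := fun k => by rw [hp]
    refine ⟨?_, ?_, ?_⟩
    · intro j hj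
      obtain ⟨i, rfl⟩ : ∃ i : Fin n, j = i.succ.succ := by
        refine ⟨⟨(j : ℕ) - 2, by have := j.2; omega⟩, ?_⟩
        ext
        simp
        omega
      exact hk i.succ.succ.succ
    · exact hk (Fin.succ (Fin.succ 0))
    · have h2 : (ψ p) a = q a + p.1 := hk 0
      have h3 : (ψ p) b = q b + p.2 := hk (Fin.succ 0)
      ext
      · simp only [h2]
        ring
      · simp only [h3]
        ring
  -- the bounds
  have hcg : ∀ i : Fin (n + 1), Continuous fun x => grad (Q i.succ) x := fun i => continuous_grad (Q i.succ)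
  have hcN : ∀ w : Fin (n + 3) → ℂ, Continuous fun x : EN (n + 2) =>
      ‖(WithLp.toLp 2 (Param_N (fun i : Fin (n + 1) => grad (Q i.succ) x) w) : EN (n + 2))‖ := by
    intro w
    refine continuous_norm.comp ((PiLp.continuous_toLp 2 _).comp (continuous_cross.comp ?_))
    refine continuous_pi fun j => ?_
    refine Fin.cases ?_ (fun j => ?_) j
    · exact continuous_const
    · exact hcg j
  have hcdet : Continuous fun x : EN (n + 2) => (Param_R a b (fun i : Fin (n + 1) => grad (Q i.succ) x)).det := by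
    refine Continuous.matrix_det ?_
    refine continuous_pi fun j => ?_
    refine Fin.cases ?_ (fun j => Fin.cases ?_ (fun j => ?_) j) j
    · exact continuous_const
    · exact continuous_const
    · exact hcg j
  set C1 : ℝ := ‖(WithLp.toLp 2 (Param_N (fun i : Fin (n + 1) => grad (Q i.succ) q) (Pi.single a 1)) : EN (n + 2))‖ + 1 with hC1
  set C2 : ℝ := ‖(WithLp.toLp 2 (Param_N (fun i : Fin (n + 1) => grad (Q i.succ) q) (Pi.single b 1)) : EN (n + 2))‖ + 1 with hC2
  have hC1p : 0 < C1 := by positivity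
  have hC2p : 0 < C2 := by positivity
  have hev1 : ∀ᶠ x in 𝓝 q, ‖(WithLp.toLp 2 (Param_N (fun i : Fin (n + 1) => grad (Q i.succ) x) (Pi.single a 1)) : EN (n + 2))‖ < C1 :=
    (hcN (Pi.single a 1)).continuousAt.eventually_lt continuousAt_const (by simp [hC1])
  have hev2 : ∀ᶠ x in 𝓝 q, ‖(WithLp.toLp 2 (Param_N (fun i : Fin (n + 1) => grad (Q i.succ) x) (Pi.single b 1)) : EN (n + 2))‖ < C2 :=
    (hcN (Pi.single b 1)).continuousAt.eventually_lt continuousAt_const (by simp [hC2])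
  have hev3 : ∀ᶠ x in 𝓝 q, (Param_R a b (fun i : Fin (n + 1) => grad (Q i.succ) x)).det ≠ 0 :=
    hcdet.continuousAt.eventually_ne hdet
  have hψt : Tendsto ψ (𝓝 0) (𝓝 q) := by
    have := hψan.continuousAt.tendsto
    rwa [hψ0] at this
  have hfd : ∀ p, AnalyticAt ℂ ψ p → ∀ v, fderiv ℂ (fun p => ev (Q 0) (ψ p)) p v = dt (fun i => fderiv ℂ ψ p v i) (grad (Q 0) (ψ p)) := by
    intro p hp v
    have h2 : HasFDerivAt (fun p => ev (Q 0) (ψ p)) ((fderiv ℂ (ev (Q 0)) (ψ p)).comp (fderiv ℂ ψ p)) p :=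
      (differentiable_ev (Q 0) (ψ p)).hasFDerivAt.comp p hp.differentiableAt.hasFDerivAt
    rw [h2.fderiv, ContinuousLinearMap.comp_apply, Param_fd]
  refine ⟨ψ, fun x => (x a - q a, x b - q b), (C1 + C2)⁻¹, by positivity, hψan, hψ0, hτan, by simp, ?_, ?_, ?_⟩
  · filter_upwards [hT, hT.eventually_nhds, hψan.eventually_analyticAt, hψt.eventually hev1, hψt.eventually hev2, hψt.eventually hev3]
      with p hp1 hp2 hp3 hp4 hp5 hp6
    obtain ⟨hc1, hc2, hc3⟩ := hcomp p hp1
    refine ⟨hc1, hc2, hc3, ?_⟩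
    obtain ⟨α, β, c, hw⟩ := Param_expand hp6 (grad (Q 0) (ψ p))
    have hkey := Param_key hp3 hp2
    have hval : ∀ v : ℂ × ℂ, fderiv ℂ (fun p => ev (Q 0) (ψ p)) p v = α * v.1 + β * v.2 := by
      intro v
      rw [hfd p hp3 v, hw, dt_add_right, dt_add_right, dt_smul_right, dt_smul_right, dt_sum_right]
      have e1 : dt (fun i => fderiv ℂ ψ p v i) (Pi.single a 1) = v.1 := hkey v 0
      have e2 : dt (fun i => fderiv ℂ ψ p v i) (Pi.single b 1) = v.2 := hkey v (Fin.succ 0)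
      have e3 : ∀ j : Fin (n + 1), dt (fun i => fderiv ℂ ψ p v i) (grad (Q j.succ) (ψ p)) = 0 := fun j => hkey v j.succ.succ
      rw [e1, e2, Finset.sum_eq_zero (fun j _ => by rw [dt_smul_right, e3, mul_zero]), add_zero]
    set F := fderiv ℂ (fun p => ev (Q 0) (ψ p)) p with hF
    have hα : ‖α‖ ≤ ‖F‖ := by
      have h2 := F.le_opNorm (1, 0)
      rw [hval] at h2
      simpa [Prod.norm_def] using h2
    have hβ : ‖β‖ ≤ ‖F‖ := by
      have h2 := F.le_opNorm (0, 1)
      rw [hval] at h2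
      simpa [Prod.norm_def] using h2
    have hn : nv Q (ψ p) = α • (WithLp.toLp 2 (Param_N (fun i : Fin (n + 1) => grad (Q i.succ) (ψ p)) (Pi.single a 1)) : EN (n + 2)) +
        β • (WithLp.toLp 2 (Param_N (fun i : Fin (n + 1) => grad (Q i.succ) (ψ p)) (Pi.single b 1)) : EN (n + 2)) := by
      rw [Param_nv, hw, Param_N_add, Param_N_add, Param_N_smul, Param_N_smul, Param_N_sum, add_zero]
      rfl
    have hn2 : ‖nv Q (ψ p)‖ ≤ ‖F‖ * C1 + ‖F‖ * C2 := by
      rw [hn]
      refine (norm_add_le _ _).trans ?_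
      rw [norm_smul, norm_smul]
      exact add_le_add (mul_le_mul hα hp4.le (norm_nonneg _) (norm_nonneg _)) (mul_le_mul hβ hp5.le (norm_nonneg _) (norm_nonneg _))
    rw [inv_mul_le_iff₀ (by positivity)]
    linarith
  · have h2 : P.source ∈ 𝓝 q := P.open_source.mem_nhds hPs
    filter_upwards [h2] with x hx hxV hx1
    have h3 : Param_A n (q a) (q b) (x a - q a, x b - q b) = Param_T Q a b x := by
      unfold Param_A Param_T
      congr 1
      funext k
      refine Fin.cases ?_ (fun k => Fin.cases ?_ (fun k => Fin.cases ?_ (fun k => ?_) k) k) k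
      · simp
      · simp
      · exact hx1.symm
      · exact (hxV k.succ.succ (by simp)).symm
    simp only [hψ]
    rw [h3]
    exact P.left_inv hx
  · intro _ hnv
    have hkey := Param_key hψan hT
    rw [hψ0] at hkey
    have hnli : ¬ LinearIndependent ℂ (Fin.cons (grad (Q 0) q) (fun i : Fin (n + 1) => grad (Q i.succ) q) : Fin (n + 1 + 1) → Fin (n + 3) → ℂ) := by
      rw [← cross_ne_zero_iff]
      intro h2
      apply h2
      have h3 : Param_N (fun i : Fin (n + 1) => grad (Q i.succ) q) (grad (Q 0) q) = 0 := by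
        have h4 := hnv
        rw [Param_nv] at h4
        funext i
        exact congrFun (congrArg WithLp.ofLp h4) i
      exact h3
    have hmem : grad (Q 0) q ∈ Submodule.span ℂ (Set.range fun i : Fin (n + 1) => grad (Q i.succ) q) := by
      by_contra h2
      exact hnli (linearIndependent_finCons.2 ⟨hli, h2⟩)
    refine ContinuousLinearMap.ext fun v => ?_
    rw [hfd 0 hψan, hψ0]
    rw [zero_apply]
    exact Param_span (fun j => hkey _ j.succ.succ) hmem

end Pool.Agent.TCN
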