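import Pool.Agent.TCN.NodeA
import Pool.Agent.TCN.Param
import Pool.Agent.TCN.Morse

/-!
# TCN NodeChart: coordinates `s`, `t` with `F₁ = s t` near a node of the first curve

On the affine surface `S = {Q j = 0 (j ≥ 2), F₂ = 1}` near the node `q`.
`param` (file `TCN/Param.lean`): `ψ`, `τ`.  `f p = ev (Q 0) (ψ p)` is analytic at `0`, `f 0 = 0`, `fderiv ℂ f 0 = 0`.  `node_est_one`: `‖ψ p - q‖ ≤ C ‖nv Q (ψ p)‖` near `0`, and `‖p‖ = ‖τ (ψ p) - τ q‖ ≤ C' ‖ψ p - q‖` (`τ` is Lipschitz near `q`), so `c₁ ‖p‖ ≤ ‖nv Q (ψ p)‖` and `c₂ ‖p‖ ≤ ‖fderiv ℂ f p‖` near `0`.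
`morse` (file `TCN/Morse.lean`) for `f`: `χ`, `κ`.  `φ = ψ ∘ χ`, `σ = κ ∘ τ`: near `0`: `OnV Q (φ p)`, `ev (Q 1) (φ p) = 1`, `ev (Q 0) (φ p) = f (χ p) = p.1 * p.2`, `σ (φ p) = κ (τ (ψ (χ p))) = κ (χ p) = p`; near `q`: `φ (σ x) = ψ (χ (κ (τ x))) = ψ (τ x) = x`.  `c ‖p‖ ≤ ‖nv Q (φ p)‖`: `node_est_one` and `‖p‖ = ‖σ (φ p) - σ q‖ ≤ C ‖φ p - q‖`
(`σ q = 0`).  `‖fderiv ℂ φ p‖ ≤ C` near `0` (continuity).  Choose `δ` small, then `ρ` small (`σ` is continuous at `q`, `σ q = 0`).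
-/

set_option autoImplicit false

open Topology Filter Metric MvPolynomial

namespace Pool.Agent.TCN

open Pool.Agent.TC

open Pool.Agent.H36.BP (EN fs wd Sub)

variable {n : ℕ} {Q : Fin (n + 2) → MvPolynomial (Fin (n + 3)) ℂ} {e : Fin (n + 2) → ℕ}

theorem node_chart (h : NPair Q e) {q : EN (n + 2)} (hV : OnV Q q) (h1 : ev (Q 1) q = 1) (h0 : ev (Q 0) q = 0) (hn : nv Q q = 0) :
    ∃ (δ ρ C c : ℝ) (φ : ℂ × ℂ → EN (n + 2)) (σ : EN (n + 2) → ℂ × ℂ), 0 < δ ∧ 0 < ρ ∧ 0 < C ∧ 0 < c ∧ φ 0 = q ∧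
      (∀ p ∈ ball (0 : ℂ × ℂ) δ, AnalyticAt ℂ φ p ∧ OnV Q (φ p) ∧ ev (Q 1) (φ p) = 1 ∧ ev (Q 0) (φ p) = p.1 * p.2 ∧
        c * ‖p‖ ≤ ‖nv Q (φ p)‖ ∧ ‖fderiv ℂ φ p‖ ≤ C ∧ σ (φ p) = p) ∧
      ∀ x ∈ ball q ρ, AnalyticAt ℂ σ x ∧ σ x ∈ ball (0 : ℂ × ℂ) δ ∧ (OnV Q x → ev (Q 1) x = 1 → φ (σ x) = x) := by
  obtain ⟨ψ, τ, c0, hc0, hψa, hψ0, hτa, hτ0, hE1, hE2, hz⟩ := param h hV h1
  have hq0 : q ≠ 0 := by
    rintro rfl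
    have h2 := ev_smul (h.hom 1) 0 (0 : EN (n + 2))
    rw [zero_smul, zero_pow (by have := h.pos 1; omega), zero_mul, h1] at h2
    exact one_ne_zero h2
  obtain ⟨C1, ρ1, hC1, hρ1, hest⟩ := node_est_one h (q := q) ⟨hq0, hV, Or.inl h0, hn⟩ h1
  -- the function `f`
  have hfa : AnalyticAt ℂ (fun p => ev (Q 0) (ψ p)) 0 :=
    analyticAt_eval (fun i => analyticAt_apply hψa i) (Q 0)
  have hf0 : (fun p => ev (Q 0) (ψ p)) 0 = 0 := by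
    change ev (Q 0) (ψ 0) = 0
    rw [hψ0]; exact h0
  -- `τ` is Lipschitz at `q`
  have hlip : ∀ {E : Type} [NormedAddCommGroup E] [NormedSpace ℂ E] {g : EN (n + 2) → E}, AnalyticAt ℂ g q → g q = 0 →
      ∃ K : ℝ, 0 < K ∧ ∀ᶠ x in 𝓝 q, ‖g x‖ ≤ K * ‖x - q‖ := by
    intro E _ _ g hg hg0
    obtain ⟨K, hK, hb⟩ := hg.differentiableAt.isBigO_sub.exists_pos
    refine ⟨K, hK, hb.bound.mono fun x hx => ?_⟩
    rwa [hg0, sub_zero] at hx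
  obtain ⟨K1, hK1, hτl⟩ := hlip hτa hτ0
  have hψt : Tendsto ψ (𝓝 0) (𝓝 q) := by
    have := hψa.continuousAt.tendsto
    rwa [hψ0] at this
  have hest' : ∀ᶠ x in 𝓝 q, OnV Q x → ev (Q 1) x = 1 → ‖x - q‖ ≤ C1 * ‖nv Q x‖ := by
    filter_upwards [ball_mem_nhds q hρ1] with x hx
    exact hest x (by rwa [mem_ball, dist_eq_norm] at hx)
  have hg : ∀ᶠ p in 𝓝 (0 : ℂ × ℂ), (c0 / (K1 * C1)) * ‖p‖ ≤ ‖fderiv ℂ (fun p => ev (Q 0) (ψ p)) p‖ := by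
    filter_upwards [hE1, hψt.eventually hτl, hψt.eventually hest'] with p hp1 hp2 hp3
    obtain ⟨ha, hb, hc, hd⟩ := hp1
    have h3 := hp3 ha hb
    rw [hc] at hp2
    have h4 : ‖p‖ ≤ K1 * (C1 * ‖nv Q (ψ p)‖) := hp2.trans (mul_le_mul_of_nonneg_left h3 hK1.le)
    calc (c0 / (K1 * C1)) * ‖p‖ ≤ (c0 / (K1 * C1)) * (K1 * (C1 * ‖nv Q (ψ p)‖)) :=
          mul_le_mul_of_nonneg_left h4 (by positivity)
      _ = c0 * ‖nv Q (ψ p)‖ := by field_simp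
      _ ≤ _ := hd
  obtain ⟨χ, κ, hχa, hχ0, hκa, hκ0, hM1, hM2⟩ := morse hfa hf0 (hz h0 hn) (c := c0 / (K1 * C1)) (by positivity) hg
  have hχt : Tendsto χ (𝓝 0) (𝓝 0) := by
    have := hχa.continuousAt.tendsto
    rwa [hχ0] at this
  have hτt : Tendsto τ (𝓝 q) (𝓝 0) := by
    have := hτa.continuousAt.tendsto
    rwa [hτ0] at this
  have hφa : AnalyticAt ℂ (fun p => ψ (χ p)) 0 := by
    have h5 : AnalyticAt ℂ ψ (χ 0) := by rw [hχ0]; exact hψa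
    exact h5.fun_comp hχa
  have hσa : AnalyticAt ℂ (fun x => κ (τ x)) q := by
    have h5 : AnalyticAt ℂ κ (τ q) := by rw [hτ0]; exact hκa
    exact h5.fun_comp hτa
  have hφ0 : (fun p => ψ (χ p)) 0 = q := by
    change ψ (χ 0) = q
    rw [hχ0, hψ0]
  have hσ0 : (fun x => κ (τ x)) q = 0 := by
    change κ (τ q) = 0
    rw [hτ0, hκ0]
  obtain ⟨K2, hK2, hσl⟩ := hlip hσa hσ0
  have hφt : Tendsto (fun p => ψ (χ p)) (𝓝 0) (𝓝 q) := hψt.comp hχt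
  have hfd : ∀ᶠ p in 𝓝 (0 : ℂ × ℂ), ‖fderiv ℂ (fun p => ψ (χ p)) p‖ ≤ ‖fderiv ℂ (fun p => ψ (χ p)) 0‖ + 1 := by
    have h5 : ContinuousAt (fun p => ‖fderiv ℂ (fun p => ψ (χ p)) p‖) 0 := hφa.fderiv.continuousAt.norm
    filter_upwards [h5.eventually_lt continuousAt_const (lt_add_one _)] with p hp
    exact hp.le
  have hall : ∀ᶠ p in 𝓝 (0 : ℂ × ℂ), AnalyticAt ℂ (fun p => ψ (χ p)) p ∧ OnV Q (ψ (χ p)) ∧ ev (Q 1) (ψ (χ p)) = 1 ∧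
      ev (Q 0) (ψ (χ p)) = p.1 * p.2 ∧ (1 / (K2 * C1)) * ‖p‖ ≤ ‖nv Q (ψ (χ p))‖ ∧
      ‖fderiv ℂ (fun p => ψ (χ p)) p‖ ≤ ‖fderiv ℂ (fun p => ψ (χ p)) 0‖ + 1 ∧ κ (τ (ψ (χ p))) = p := by
    filter_upwards [hφa.eventually_analyticAt, hχt.eventually hE1, hM1, hφt.eventually hσl, hφt.eventually hest', hfd]
      with p hp1 hp2 hp3 hp4 hp5 hp6
    obtain ⟨ha, hb, hc, -⟩ := hp2
    have hσφ : κ (τ (ψ (χ p))) = p := by rw [hc]; exact hp3.1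
    refine ⟨hp1, ha, hb, hp3.2, ?_, hp6, hσφ⟩
    rw [hσφ] at hp4
    have h6 : ‖p‖ ≤ K2 * (C1 * ‖nv Q (ψ (χ p))‖) := hp4.trans (mul_le_mul_of_nonneg_left (hp5 ha hb) hK2.le)
    calc (1 / (K2 * C1)) * ‖p‖ ≤ (1 / (K2 * C1)) * (K2 * (C1 * ‖nv Q (ψ (χ p))‖)) :=
          mul_le_mul_of_nonneg_left h6 (by positivity)
      _ = ‖nv Q (ψ (χ p))‖ := by field_simp
  obtain ⟨δ, hδ, hball⟩ := Metric.eventually_nhds_iff_ball.1 hall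
  have hσt : Tendsto (fun x => κ (τ x)) (𝓝 q) (𝓝 0) := by
    have h5 : κ (τ q) = 0 := hσ0
    have := hσa.continuousAt.tendsto
    rwa [h5] at this
  have hall2 : ∀ᶠ x in 𝓝 q, AnalyticAt ℂ (fun x => κ (τ x)) x ∧ κ (τ x) ∈ ball (0 : ℂ × ℂ) δ ∧
      (OnV Q x → ev (Q 1) x = 1 → ψ (χ (κ (τ x))) = x) := by
    filter_upwards [hσa.eventually_analyticAt, hσt.eventually (ball_mem_nhds 0 hδ), hE2, hτt.eventually hM2]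
      with x hx1 hx2 hx3 hx4
    refine ⟨hx1, hx2, fun ha hb => ?_⟩
    rw [hx4]
    exact hx3 ha hb
  obtain ⟨ρ, hρ, hball2⟩ := Metric.eventually_nhds_iff_ball.1 hall2
  exact ⟨δ, ρ, ‖fderiv ℂ (fun p => ψ (χ p)) 0‖ + 1, 1 / (K2 * C1), fun p => ψ (χ p), fun x => κ (τ x), hδ, hρ,
    by positivity, by positivity, hφ0, hball, hball2⟩

end Pool.Agent.TCN
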