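import Pool.Agent.TCN.NodeA
import Pool.Agent.TCN.FinAlg

/-!
# TCN NodeFin: finitely many nodes and finitely many critical values

`finite_of_bounded` (file `TCN/FinAlg.lean`): a bounded algebraic subset of `ℂ^M` is finite.
`nodes_finite`: the set is algebraic (`Q j`, `j ≥ 2`, `Q 1 - 1`, `Q 0`, `nvP Q i`).  If it is not bounded there are points `x k` of the set with `‖x k‖ → ∞`; `y k = ‖x k‖⁻¹ • x k` has a limit point `y` on the unit sphere (compactness, pass to a subsequence), `OnV Q y`, `ev (Q 0) y = 0`,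
`ev (Q 1) y = lim ‖x k‖ ^ (- e 1) = 0`, `nv Q y = 0` (`ev_smul`, `nv_smul`): contradiction to `nv_ne_zero_base`.
`node_ray`: let `l i = conj (q i) / ‖q‖²`, so `dt l q = 1`; `node_est`: `‖x - a • q‖ ≤ C * ‖nv Q x‖ = 0`.
`crit_finite`: `A = {x | OnV Q x, nv Q x = 0, ev (Q 0 * Q 1) x = 1}` is algebraic.  Bounded: otherwise as before a limit direction `y`, `‖y‖ = 1`, `OnV Q y`, `nv Q y = 0`, `ev (Q 0) y * ev (Q 1) y = lim ‖x k‖ ^ (- (e 0 + e 1)) = 0`: `IsNode Q y`.  `node_ray` at `y`: for large `k` `y k = a • y`, so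
`ev (Q 0) (y k) * ev (Q 1) (y k) = a ^ (e 0 + e 1) * 0 = 0`, but it is `‖x k‖ ^ (- (e 0 + e 1)) ≠ 0`.  So `A` is finite; `T` = the set of the numbers `ev (Q 0) x ^ e 1 / ev (Q 1) x ^ e 0`, `x ∈ A`.  For a general `x` choose `c` with `c ^ (e 0 + e 1) * (ev (Q 0) x * ev (Q 1) x) = 1`: `c • x ∈ A`
(`ev_smul`, `nv_smul`, `OnV.smulN`), and the quotient does not change: `(c ^ e 0 * F₁) ^ e 1 / (c ^ e 1 * F₂) ^ e 0`.
`nodes_norm_finite`: let `x` be such a point with `ev (Q 0) x = 0`; `ev (Q 1) x ≠ 0` (`nv_ne_zero_base`); `c ^ e 1 * ev (Q 1) x = 1`, `ξ = c • x` is in the finite set `N` of `nodes_finite`, `x = (ξ j)⁻¹ • ξ` (`ξ j = c`).  For `ev (Q 1) x = 0` apply this to `h.sw`.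
-/

set_option autoImplicit false

open Topology Filter Metric MvPolynomial

namespace Pool.Agent.TCN

open Pool.Agent.TC

open Pool.Agent.H36.BP (EN fs wd Sub)

variable {n : ℕ} {Q : Fin (n + 2) → MvPolynomial (Fin (n + 3)) ℂ} {e : Fin (n + 2) → ℕ}

/-- bounded algebraic sets are finite -/
private theorem fin_of_bdd (I : Set (MvPolynomial (Fin (n + 3)) ℂ)) (R : ℝ)
    (hb : ∀ x : EN (n + 2), (∀ P ∈ I, ev P x = 0) → ‖x‖ ≤ R) : {x : EN (n + 2) | ∀ P ∈ I, ev P x = 0}.Finite := by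
  have h1 := finite_of_bounded I R (fun x hx i => by
    have h2 : ‖(WithLp.toLp 2 x : EN (n + 2))‖ ≤ R := hb (WithLp.toLp 2 x) (fun P hP => hx P hP)
    exact (PiLp.norm_apply_le (WithLp.toLp 2 x : EN (n + 2)) i).trans h2)
  have h3 : {x : EN (n + 2) | ∀ P ∈ I, ev P x = 0} =
      (fun x : EN (n + 2) => fun i => x i) ⁻¹' {x : Fin (n + 3) → ℂ | ∀ P ∈ I, eval x P = 0} := rfl
  rw [h3]
  refine h1.preimage (Function.Injective.injOn ?_)
  intro x y hxy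
  ext i
  exact congrFun hxy i

/-- a limit direction of an unbounded set -/
private theorem limit_dir {S : Set (EN (n + 2))} (hS : ∀ R : ℝ, ∃ x ∈ S, R < ‖x‖) :
    ∃ (x : ℕ → EN (n + 2)) (y : EN (n + 2)), (∀ k, x k ∈ S) ∧ (∀ k, 0 < ‖x k‖) ∧ Tendsto (fun k => ‖x k‖) atTop atTop ∧ ‖y‖ = 1 ∧
      Tendsto (fun k => ((‖x k‖⁻¹ : ℝ) : ℂ) • x k) atTop (𝓝 y) := by
  choose x hx hx' using fun k : ℕ => hS k
  have hpos : ∀ k, 0 < ‖x k‖ := fun k => lt_of_le_of_lt (Nat.cast_nonneg k) (hx' k)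
  have htop : Tendsto (fun k => ‖x k‖) atTop atTop :=
    tendsto_atTop_mono (fun k => (hx' k).le) tendsto_natCast_atTop_atTop
  have hmem : ∀ k, ((‖x k‖⁻¹ : ℝ) : ℂ) • x k ∈ sphere (0 : EN (n + 2)) 1 := by
    intro k
    rw [mem_sphere_zero_iff_norm, norm_smul, Complex.norm_real, Real.norm_eq_abs, abs_of_pos (inv_pos.2 (hpos k)),
      inv_mul_cancel₀ (hpos k).ne']
  obtain ⟨y, hy, φ, hφ, hlim⟩ := (isCompact_sphere (0 : EN (n + 2)) 1).tendsto_subseq hmem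
  refine ⟨fun k => x (φ k), y, fun k => hx _, fun k => hpos _, htop.comp hφ.tendsto_atTop, by simpa using hy, hlim⟩

/-- the limit of a form with constant values -/
private theorem lim_form {P : MvPolynomial (Fin (n + 3)) ℂ} {d : ℕ} (hP : P.IsHomogeneous d) (hd : 1 ≤ d) {x : ℕ → EN (n + 2)}
    {y : EN (n + 2)} {c : ℂ} (htop : Tendsto (fun k => ‖x k‖) atTop atTop)
    (hlim : Tendsto (fun k => ((‖x k‖⁻¹ : ℝ) : ℂ) • x k) atTop (𝓝 y)) (hc : ∀ k, ev P (x k) = c) : ev P y = 0 := by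
  have h1 : Tendsto (fun k => ev P (((‖x k‖⁻¹ : ℝ) : ℂ) • x k)) atTop (𝓝 (ev P y)) :=
    ((continuous_ev P).tendsto y).comp hlim
  have h2 : Tendsto (fun k => ev P (((‖x k‖⁻¹ : ℝ) : ℂ) • x k)) atTop (𝓝 0) := by
    have h3 : (fun k => ev P (((‖x k‖⁻¹ : ℝ) : ℂ) • x k)) = fun k => ((‖x k‖⁻¹ : ℝ) : ℂ) ^ d * c := by
      funext k
      rw [ev_smul hP, hc]
    rw [h3]
    have h4 : Tendsto (fun k => ((‖x k‖⁻¹ : ℝ) : ℂ)) atTop (𝓝 0) := by
      have h5 := (Complex.continuous_ofReal.tendsto 0).comp (tendsto_inv_atTop_zero.comp htop)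
      rw [Complex.ofReal_zero] at h5
      exact h5
    have h6 := (h4.pow d).mul_const c
    rw [zero_pow (by omega), zero_mul] at h6
    exact h6
  exact tendsto_nhds_unique h1 h2

private theorem lim_nv (h : NPair Q e) {x : ℕ → EN (n + 2)} {y : EN (n + 2)}
    (hlim : Tendsto (fun k => ((‖x k‖⁻¹ : ℝ) : ℂ) • x k) atTop (𝓝 y)) (hc : ∀ k, nv Q (x k) = 0) : nv Q y = 0 := by
  have h1 : Tendsto (fun k => nv Q (((‖x k‖⁻¹ : ℝ) : ℂ) • x k)) atTop (𝓝 (nv Q y)) :=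
    ((continuous_nv Q).tendsto y).comp hlim
  have h2 : (fun k => nv Q (((‖x k‖⁻¹ : ℝ) : ℂ) • x k)) = fun _ => 0 := by
    funext k
    rw [nv_smul h, hc, smul_zero]
  rw [h2] at h1
  exact tendsto_nhds_unique h1 tendsto_const_nhds |>.symm ▸ rfl

/-- the nodes of the first curve on the affine surface `{F₂ = 1}` -/
theorem nodes_finite (h : NPair Q e) :
    {x : EN (n + 2) | OnV Q x ∧ ev (Q 1) x = 1 ∧ ev (Q 0) x = 0 ∧ nv Q x = 0}.Finite := by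
  let I : Set (MvPolynomial (Fin (n + 3)) ℂ) :=
    {P | ∃ j : Fin (n + 2), 2 ≤ (j : ℕ) ∧ P = Q j} ∪ {P | ∃ i, P = nvP Q i} ∪ {Q 1 - C 1, Q 0}
  have hI : ∀ x : EN (n + 2), (∀ P ∈ I, ev P x = 0) ↔ (OnV Q x ∧ ev (Q 1) x = 1 ∧ ev (Q 0) x = 0 ∧ nv Q x = 0) := by
    intro x
    constructor
    · intro hx
      refine ⟨fun j hj => hx _ (Or.inl (Or.inl ⟨j, hj, rfl⟩)), ?_, hx _ (Or.inr (Or.inr rfl)), ?_⟩
      · have h1 := hx (Q 1 - C 1) (Or.inr (Or.inl rfl))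
        simp only [ev, map_sub, eval_C] at h1
        exact sub_eq_zero.1 h1
      · ext i
        rw [← ev_nvP, hx _ (Or.inl (Or.inr ⟨i, rfl⟩))]
        rfl
    · rintro ⟨h1, h2, h3, h4⟩ P hP
      rcases hP with (⟨j, hj, rfl⟩ | ⟨i, rfl⟩) | hP
      · exact h1 j hj
      · rw [ev_nvP, h4]
        rfl
      · rcases hP with rfl | hP
        · simp only [ev, map_sub, eval_C]
          exact sub_eq_zero.2 h2
        · rw [Set.mem_singleton_iff.1 hP]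
          exact h3
  have hset : {x : EN (n + 2) | OnV Q x ∧ ev (Q 1) x = 1 ∧ ev (Q 0) x = 0 ∧ nv Q x = 0} = {x | ∀ P ∈ I, ev P x = 0} := by
    ext x
    exact (hI x).symm
  rw [hset]
  by_contra hinf
  have hS : ∀ R : ℝ, ∃ x ∈ {x : EN (n + 2) | ∀ P ∈ I, ev P x = 0}, R < ‖x‖ := by
    intro R
    by_contra hR
    push Not at hR
    exact hinf (fin_of_bdd I R hR)
  obtain ⟨x, y, hx, -, htop, hy, hlim⟩ := limit_dir hS
  have hx' : ∀ k, OnV Q (x k) ∧ ev (Q 1) (x k) = 1 ∧ ev (Q 0) (x k) = 0 ∧ nv Q (x k) = 0 := fun k => (hI _).1 (hx k)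
  have hy0 : y ≠ 0 := by
    intro h0
    rw [h0, norm_zero] at hy
    exact zero_ne_one hy
  refine nv_ne_zero_base h hy0 (fun j hj => lim_form (h.hom j) (h.pos j) htop hlim (fun k => (hx' k).1 j hj)) ?_ ?_ ?_
  · exact lim_form (h.hom 0) (h.pos 0) htop hlim (fun k => (hx' k).2.2.1)
  · exact lim_form (h.hom 1) (h.pos 1) htop hlim (fun k => (hx' k).2.1)
  · exact lim_nv h hlim (fun k => (hx' k).2.2.2)

/-- near a node `q` the points of `V` with `nv Q x = 0` are multiples of `q` -/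
theorem node_ray (h : NPair Q e) {q : EN (n + 2)} (hq : IsNode Q q) :
    ∃ ρ : ℝ, 0 < ρ ∧ ∀ x : EN (n + 2), ‖x - q‖ < ρ → OnV Q x → nv Q x = 0 → ∃ a : ℂ, x = a • q := by
  let l : Fin (n + 3) → ℂ := fun i => (starRingEnd ℂ) (q i) / ((‖q‖ ^ 2 : ℝ) : ℂ)
  have hl : dt l (fun i => q i) = 1 := by
    have hq0 : ((‖q‖ ^ 2 : ℝ) : ℂ) ≠ 0 := by
      rw [Complex.ofReal_ne_zero]
      exact pow_ne_zero 2 (norm_ne_zero_iff.2 hq.1)
    have h1 : dt l (fun i => q i) = (∑ i, (starRingEnd ℂ) (q i) * q i) / ((‖q‖ ^ 2 : ℝ) : ℂ) := by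
      simp only [dt, l]
      rw [Finset.sum_div]
      exact Finset.sum_congr rfl fun i _ => by ring
    have h2 : ∑ i, (starRingEnd ℂ) (q i) * q i = ((‖q‖ ^ 2 : ℝ) : ℂ) := by
      rw [EuclideanSpace.norm_sq_eq, Complex.ofReal_sum]
      refine Finset.sum_congr rfl fun i _ => ?_
      rw [mul_comm, Complex.mul_conj, Complex.normSq_eq_norm_sq]
    rw [h1, h2, div_self hq0]
  obtain ⟨C, ρ, hC, hρ, hest⟩ := node_est h hq hl
  refine ⟨ρ, hρ, fun x hx hV hnv => ⟨dt l (fun i => x i), ?_⟩⟩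
  have h1 := hest x hx hV
  rw [hnv, norm_zero, mul_zero] at h1
  exact sub_eq_zero.1 (norm_le_zero_iff.1 h1)

/-- finitely many critical values of the pencil -/
theorem crit_finite (h : NPair Q e) : ∃ T : Finset ℂ, ∀ x : EN (n + 2), OnV Q x → nv Q x = 0 → ev (Q 0) x ≠ 0 → ev (Q 1) x ≠ 0 →
    ∃ τ ∈ T, ev (Q 0) x ^ e 1 = τ * ev (Q 1) x ^ e 0 := by
  classical
  let I : Set (MvPolynomial (Fin (n + 3)) ℂ) :=
    {P | ∃ j : Fin (n + 2), 2 ≤ (j : ℕ) ∧ P = Q j} ∪ {P | ∃ i, P = nvP Q i} ∪ {Q 0 * Q 1 - C 1}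
  have hI : ∀ x : EN (n + 2), (∀ P ∈ I, ev P x = 0) ↔ (OnV Q x ∧ ev (Q 0 * Q 1) x = 1 ∧ nv Q x = 0) := by
    intro x
    constructor
    · intro hx
      refine ⟨fun j hj => hx _ (Or.inl (Or.inl ⟨j, hj, rfl⟩)), ?_, ?_⟩
      · have h1 := hx (Q 0 * Q 1 - C 1) (Or.inr rfl)
        have h2 : ev (Q 0 * Q 1 - C 1) x = ev (Q 0 * Q 1) x - 1 := by
          simp only [ev, map_sub, eval_C]
        rw [h2] at h1
        exact sub_eq_zero.1 h1
      · ext i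
        rw [← ev_nvP, hx _ (Or.inl (Or.inr ⟨i, rfl⟩))]
        rfl
    · rintro ⟨h1, h2, h4⟩ P hP
      rcases hP with (⟨j, hj, rfl⟩ | ⟨i, rfl⟩) | hP
      · exact h1 j hj
      · rw [ev_nvP, h4]
        rfl
      · rw [Set.mem_singleton_iff.1 hP]
        have h2' : ev (Q 0 * Q 1 - C 1) x = ev (Q 0 * Q 1) x - 1 := by
          simp only [ev, map_sub, eval_C]
        rw [h2', h2, sub_self]
  have hhom : (Q 0 * Q 1).IsHomogeneous (e 0 + e 1) := (h.hom 0).mul (h.hom 1)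
  have hpos : 1 ≤ e 0 + e 1 := le_add_right (h.pos 0)
  have hfin : {x : EN (n + 2) | ∀ P ∈ I, ev P x = 0}.Finite := by
    by_contra hinf
    have hS : ∀ R : ℝ, ∃ x ∈ {x : EN (n + 2) | ∀ P ∈ I, ev P x = 0}, R < ‖x‖ := by
      intro R
      by_contra hR
      push Not at hR
      exact hinf (fin_of_bdd I R hR)
    obtain ⟨x, y, hx, hxpos, htop, hy, hlim⟩ := limit_dir hS
    have hx' : ∀ k, OnV Q (x k) ∧ ev (Q 0 * Q 1) (x k) = 1 ∧ nv Q (x k) = 0 := fun k => (hI _).1 (hx k)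
    have hy0 : y ≠ 0 := by
      intro h0
      rw [h0, norm_zero] at hy
      exact zero_ne_one hy
    have hprod : ev (Q 0 * Q 1) y = 0 := lim_form hhom hpos htop hlim (fun k => (hx' k).2.1)
    have hnode : IsNode Q y := by
      refine ⟨hy0, fun j hj => lim_form (h.hom j) (h.pos j) htop hlim (fun k => (hx' k).1 j hj), ?_,
        lim_nv h hlim (fun k => (hx' k).2.2)⟩
      rw [ev_mul] at hprod
      exact mul_eq_zero.1 hprod
    obtain ⟨ρ, hρ, hray⟩ := node_ray h hnode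
    have hev : ∀ᶠ k in atTop, ‖((‖x k‖⁻¹ : ℝ) : ℂ) • x k - y‖ < ρ := by
      have := Metric.tendsto_nhds.1 hlim ρ hρ
      filter_upwards [this] with k hk
      rwa [dist_eq_norm] at hk
    obtain ⟨k, hk⟩ := hev.exists
    obtain ⟨a, ha⟩ := hray _ hk ((hx' k).1.smulN h _) (by rw [nv_smul h, (hx' k).2.2, smul_zero])
    have h1 : ev (Q 0 * Q 1) (((‖x k‖⁻¹ : ℝ) : ℂ) • x k) = 0 := by
      rw [ha, ev_smul hhom, hprod, mul_zero]
    rw [ev_smul hhom, (hx' k).2.1, mul_one] at h1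
    have h2 : ((‖x k‖⁻¹ : ℝ) : ℂ) = 0 := pow_eq_zero_iff (by omega) |>.1 h1
    rw [Complex.ofReal_eq_zero] at h2
    exact (inv_pos.2 (hxpos k)).ne' h2
  refine ⟨hfin.toFinset.image fun x => ev (Q 0) x ^ e 1 / ev (Q 1) x ^ e 0, fun x hV hnv h0 h1 => ?_⟩
  obtain ⟨c, hc⟩ := IsAlgClosed.exists_pow_nat_eq ((ev (Q 0) x * ev (Q 1) x)⁻¹) (n := e 0 + e 1) (by omega)
  have hprod : ev (Q 0) x * ev (Q 1) x ≠ 0 := mul_ne_zero h0 h1
  have hc0 : c ≠ 0 := by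
    rintro rfl
    rw [zero_pow (by omega)] at hc
    exact inv_ne_zero hprod hc.symm
  refine ⟨ev (Q 0) (c • x) ^ e 1 / ev (Q 1) (c • x) ^ e 0, ?_, ?_⟩
  · refine Finset.mem_image.2 ⟨c • x, ?_, rfl⟩
    rw [Set.Finite.mem_toFinset]
    refine (hI _).2 ⟨hV.smulN h c, ?_, ?_⟩
    · rw [ev_smul hhom, hc, ev_mul, inv_mul_cancel₀ hprod]
    · rw [nv_smul h, hnv, smul_zero]
  · rw [ev_smul (h.hom 0), ev_smul (h.hom 1), mul_pow, mul_pow, ← pow_mul, ← pow_mul, mul_comm (e 1) (e 0)]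
    have h3 : c ^ (e 0 * e 1) ≠ 0 := pow_ne_zero _ hc0
    have h4 : ev (Q 1) x ^ e 0 ≠ 0 := pow_ne_zero _ h1
    field_simp

private theorem norm_aux (h : NPair Q e) (j : Fin (n + 3)) :
    {x : EN (n + 2) | x ≠ 0 ∧ OnV Q x ∧ ev (Q 0) x = 0 ∧ nv Q x = 0 ∧ x j = 1}.Finite := by
  refine ((nodes_finite h).image fun ξ => (ξ j)⁻¹ • ξ).subset ?_
  rintro x ⟨hx, hV, h0, hnv, hj⟩
  have h1 : ev (Q 1) x ≠ 0 := fun h1 => nv_ne_zero_base h hx hV h0 h1 hnv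
  obtain ⟨c, hc⟩ := IsAlgClosed.exists_pow_nat_eq ((ev (Q 1) x)⁻¹) (n := e 1) (h.pos 1)
  have hc0 : c ≠ 0 := by
    rintro rfl
    rw [zero_pow (by have := h.pos 1; omega)] at hc
    exact inv_ne_zero h1 hc.symm
  refine ⟨c • x, ⟨hV.smulN h c, ?_, ?_, ?_⟩, ?_⟩
  · rw [ev_smul (h.hom 1), hc, inv_mul_cancel₀ h1]
  · rw [ev_smul (h.hom 0), h0, mul_zero]
  · rw [nv_smul h, hnv, smul_zero]
  · have h2 : (c • x) j = c := by
      rw [PiLp.smul_apply, hj, smul_eq_mul, mul_one]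
    simp only [h2]
    rw [smul_smul, inv_mul_cancel₀ hc0, one_smul]

/-- finitely many nodes in the affine chart `x j = 1` -/
theorem nodes_norm_finite (h : NPair Q e) (j : Fin (n + 3)) : {x : EN (n + 2) | IsNode Q x ∧ x j = 1}.Finite := by
  refine ((norm_aux h j).union (norm_aux h.sw j)).subset ?_
  rintro x ⟨⟨hx, hV, h01, hnv⟩, hj⟩
  rcases h01 with h0 | h1
  · exact Or.inl ⟨hx, hV, h0, hnv, hj⟩
  · refine Or.inr ⟨hx, (onV_sw x).2 hV, ?_, ?_, hj⟩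
    · rw [sw_zero]
      exact h1
    · rw [nv_sw, hnv, neg_zero]

end Pool.Agent.TCN
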