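import Pool.Agent.TCN.NodeP
import Pool.Agent.TC.Cmp
import Pool.Agent.TC.Eul

/-!
# TCN NodeNear: the lower bound for the normal vector near a node

Let `q` be a node and `φ` a function with `D φ (q) q ≠ 0`.  The derivative of `Φ = (φ, (Q j)_(j ≥ 2), nv Q)` at `q` is injective: if `v` is in its kernel then `v = a • q` by `node`, and `a * D φ (q) q = 0`.
So `‖y - q‖ ≤ C ‖Φ y - Φ q‖` for `y` near `q`, and `Φ y - Φ q = (0, 0, nv Q y)` for `y` on the cone with `φ y = φ q`.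
-/

set_option autoImplicit false

open Topology Filter Metric

namespace Pool.Agent.TCN

open Pool.Agent.H36.BP (EN fs wd Sub)
open Pool.Agent.TC (ev grad OnV IsSec Sec nv dt hasDerivAt_ev)

variable {n : ℕ} {Q : Fin (n + 2) → MvPolynomial (Fin (n + 3)) ℂ} {e : Fin (n + 2) → ℕ}

theorem fderiv_ev {N : ℕ} (P : MvPolynomial (Fin (N + 1)) ℂ) (x v : EN N) : fderiv ℂ (ev P) x v = dt (fun i => v i) (grad P x) := by
  have h1 : HasDerivAt (fun t : ℂ => x + t • v) v 0 := by
    have := ((hasDerivAt_id (0 : ℂ)).smul_const v).const_add x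
    simpa using this
  have h2 := hasDerivAt_ev P h1
  have h3 : HasFDerivAt (ev P) (fderiv ℂ (ev P) x) (x + (0 : ℂ) • v) := by
    rw [zero_smul, add_zero]
    exact (differentiable_ev P x).hasFDerivAt
  have h4 := h3.comp_hasDerivAt (0 : ℂ) h1
  have h5 := h4.unique h2
  rw [h5]
  simp

/-- the lower bound near a node, for an arbitrary normalisation `φ` -/
theorem NPair.node_near (h : NPair Q e) {q : EN (n + 2)} (hq : q ≠ 0) (hV : OnV Q q) (h01 : ev (Q 0) q = 0 ∨ ev (Q 1) q = 0)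
    (hnv : nv Q q = 0) {φ : EN (n + 2) → ℂ} {φ' : EN (n + 2) →L[ℂ] ℂ} (hφ : HasFDerivAt φ φ' q) (hφ' : φ' q ≠ 0) :
    ∃ C : ℝ, 0 < C ∧ ∀ᶠ y in 𝓝 q, OnV Q y → φ y = φ q → ‖y - q‖ ≤ C * ‖nv Q y‖ := by
  classical
  set A : EN (n + 2) → (Fin (n + 2) → ℂ) := fun y j => if 2 ≤ (j : ℕ) then ev (Q j) y else 0 with hA
  set A' : EN (n + 2) →L[ℂ] (Fin (n + 2) → ℂ) := ContinuousLinearMap.pi fun j => if 2 ≤ (j : ℕ) then fderiv ℂ (ev (Q j)) q else 0 with hA'
  have hAd : HasFDerivAt A A' q := by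
    rw [hasFDerivAt_pi']
    intro j
    by_cases hj : 2 ≤ (j : ℕ)
    · simp only [hA, hA', if_pos hj]
      have : (ContinuousLinearMap.proj j).comp (ContinuousLinearMap.pi fun j : Fin (n + 2) => if 2 ≤ (j : ℕ) then fderiv ℂ (ev (Q j)) q else 0) =
          fderiv ℂ (ev (Q j)) q := by
        ext v
        simp [hj]
      rw [this]
      exact (differentiable_ev (Q j) q).hasFDerivAt
    · simp only [hA, hA', if_neg hj]
      have : (ContinuousLinearMap.proj j).comp (ContinuousLinearMap.pi fun j : Fin (n + 2) => if 2 ≤ (j : ℕ) then fderiv ℂ (ev (Q j)) q else 0) =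
          (0 : EN (n + 2) →L[ℂ] ℂ) := by
        ext v
        simp [hj]
      rw [this]
      exact hasFDerivAt_const _ _
  have hΦ : HasFDerivAt (fun y => (φ y, A y, nv Q y)) (φ'.prod (A'.prod (fderiv ℂ (nv Q) q))) q :=
    hφ.prodMk (hAd.prodMk ((differentiable_nv Q) q).hasFDerivAt)
  have hker : LinearMap.ker (φ'.prod (A'.prod (fderiv ℂ (nv Q) q))).toLinearMap = ⊥ := by
    rw [LinearMap.ker_eq_bot']
    intro v hv
    have hv' : (φ' v, A' v, fderiv ℂ (nv Q) q v) = (0, 0, 0) := hv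
    rw [Prod.mk.injEq, Prod.mk.injEq] at hv'
    obtain ⟨h1, h2, h3⟩ := hv'
    obtain ⟨a, rfl⟩ := h.node q hq hV h01 hnv v (fun j hj => by
      have h4 := congrFun h2 j
      simp only [hA', ContinuousLinearMap.coe_pi', Pi.zero_apply] at h4
      rw [if_pos hj, fderiv_ev] at h4
      exact h4) h3
    rw [map_smul, smul_eq_mul, mul_eq_zero] at h1
    rw [h1.resolve_right hφ', zero_smul]
  obtain ⟨K, hK, hanti⟩ := LinearMap.exists_antilipschitzWith _ hker
  have hind : Topology.IsInducing (φ'.prod (A'.prod (fderiv ℂ (nv Q) q))) :=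
    (AntilipschitzWith.isUniformInducing (f := (φ'.prod (A'.prod (fderiv ℂ (nv Q) q)))) hanti
      (ContinuousLinearMap.uniformContinuous _)).isInducing
  have hO := (hΦ.isTheta_sub hind).isBigO_symm
  obtain ⟨C, hC, hCO⟩ := hO.exists_pos
  rw [Asymptotics.isBigOWith_iff] at hCO
  refine ⟨C, hC, ?_⟩
  filter_upwards [hCO] with y hy hyV hyφ
  refine hy.trans ?_
  have hAy : A y = A q := by
    funext j
    by_cases hj : 2 ≤ (j : ℕ)
    · simp only [hA, if_pos hj]
      rw [hyV j hj, hV j hj]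
    · simp only [hA, if_neg hj]
  rw [hyφ, hAy, hnv]
  simp [Prod.norm_def]

/-- near a node there is no other point of the cone, up to multiples, with `nv Q = 0` -/
theorem NPair.node_isol (h : NPair Q e) {q : EN (n + 2)} (hq : q ≠ 0) (hV : OnV Q q) (h01 : ev (Q 0) q = 0 ∨ ev (Q 1) q = 0)
    (hnv : nv Q q = 0) : ∀ᶠ x in 𝓝 q, OnV Q x → nv Q x = 0 → ∃ a : ℂ, x = a • q := by
  obtain ⟨φ', hφ'⟩ : ∃ φ' : EN (n + 2) →L[ℂ] ℂ, φ' q ≠ 0 := ⟨innerSL ℂ q, by
    rw [innerSL_apply_apply]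
    exact fun h0 => hq (inner_self_eq_zero.1 h0)⟩
  obtain ⟨C, hC, hev⟩ := h.node_near hq hV h01 hnv φ'.hasFDerivAt hφ'
  have hcont : Tendsto (fun x : EN (n + 2) => (φ' q / φ' x) • x) (𝓝 q) (𝓝 q) := by
    have h1 : ContinuousAt (fun x : EN (n + 2) => (φ' q / φ' x) • x) q :=
      (continuousAt_const.div φ'.continuous.continuousAt hφ').smul continuousAt_id
    have h2 : (φ' q / φ' q) • q = q := by rw [div_self hφ', one_smul]
    rw [ContinuousAt, h2] at h1
    exact h1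
  have hne : ∀ᶠ x in 𝓝 q, φ' x ≠ 0 := φ'.continuous.continuousAt.eventually_ne hφ'
  filter_upwards [hcont.eventually hev, hne] with x hx hx0 hxV hxn
  have hsm : ∀ c : ℂ, OnV Q (c • x) := fun c j hj => by
    rw [Pool.Agent.TC.ev_smul (h.hom j), hxV j hj, mul_zero]
  have hnvs : nv Q ((φ' q / φ' x) • x) = 0 := by
    ext i
    rw [nv_apply]
    have h1 : (fun j => grad (Q j) ((φ' q / φ' x) • x)) = fun j => ((φ' q / φ' x) ^ (e j - 1)) • grad (Q j) x := by
      funext j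
      rw [Pool.Agent.TC.grad_smul (h.pos j) (h.hom j)]
    rw [h1, Pool.Agent.TC.cross_smul]
    have h2 : Pool.Agent.TC.cross (fun j => grad (Q j) x) i = 0 := by
      rw [← nv_apply, hxn]
      rfl
    simp [h2]
  have h3 := hx (hsm _) (by rw [map_smul, smul_eq_mul, div_mul_cancel₀ _ hx0])
  rw [hnvs, norm_zero, mul_zero] at h3
  have h4 : (φ' q / φ' x) • x = q := sub_eq_zero.1 (norm_le_zero_iff.1 h3)
  refine ⟨φ' x / φ' q, ?_⟩
  rw [← h4, smul_smul]
  rw [h4, div_mul_div_comm, mul_comm (φ' x), div_self (mul_ne_zero hφ' hx0), one_smul]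

end Pool.Agent.TCN
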