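import Pool.Agent.TCN.Swap
import Pool.Agent.TCN.Eul

/-!
# TCN NodeP: the normal vector as a vector of polynomials

`ev_nvP`: `nv_apply`, the definition of `cross`, `RingHom.map_det`.  `nvP_hom`: the determinant of a matrix of forms, the entries of the row `a` of degree `e a - 1` (`IsHomogeneous.pderiv`), see `pencil_minor` in `TC/Pencil.lean`.
`differentiable_nv`: every component is a polynomial (`differentiable_ev`), `PiLp` / `EuclideanSpace` (see `analyticAt_toLp` in `TC/Cross.lean`).  `fderiv_nv`: the derivative of the polynomial `nvP Q i` in the direction `v` (`hasDerivAt_ev` along the line `x + s v`).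
`aeval_nvP`: Laplace expansion along the first row (`Matrix.det_succ_row_zero`), only the `l`-th term is not zero.  `sum_nvP`: `∑ i (row a) i * nvP i = det (Fin.cons (row a) rows)`, two equal rows.
-/

set_option autoImplicit false

open Topology Filter Metric MvPolynomial

namespace Pool.Agent.TCN

open Pool.Agent.TC

open Pool.Agent.H36.BP (EN fs wd Sub)

variable {n : ℕ} {Q : Fin (n + 2) → MvPolynomial (Fin (n + 3)) ℂ} {e : Fin (n + 2) → ℕ}

/-- the components of the normal vector, as polynomials -/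
noncomputable def nvP (Q : Fin (n + 2) → MvPolynomial (Fin (n + 3)) ℂ) (i : Fin (n + 3)) : MvPolynomial (Fin (n + 3)) ℂ :=
  (-1) ^ (i : ℕ) * Matrix.det (Matrix.of fun a b : Fin (n + 2) => pderiv (i.succAbove b) (Q a))

theorem ev_nvP (i : Fin (n + 3)) (x : EN (n + 2)) : ev (nvP Q i) x = nv Q x i := by
  rw [nv_apply, cross, ev, nvP, map_mul, map_pow, map_neg, map_one, RingHom.map_det]
  rfl

private theorem minor_hom {m : ℕ} {Q : Fin m → MvPolynomial (Fin (m + 1)) ℂ} {e : Fin m → ℕ}
    (h : ∀ j, (Q j).IsHomogeneous (e j)) (i : Fin (m + 1)) :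
    (Matrix.det (Matrix.of fun a b : Fin m => pderiv (i.succAbove b) (Q a))).IsHomogeneous
      (∑ a, (e a - 1)) := by
  rw [Matrix.det_apply]
  refine IsHomogeneous.sum _ _ _ fun σ _ => ?_
  have h1 : (∏ b, Matrix.of (fun a b : Fin m => pderiv (i.succAbove b) (Q a)) (σ b) b).IsHomogeneous
      (∑ a, (e a - 1)) := by
    have h2 := IsHomogeneous.prod Finset.univ
      (fun b => Matrix.of (fun a b : Fin m => pderiv (i.succAbove b) (Q a)) (σ b) b)
      (fun b => e (σ b) - 1) (fun b _ => (h (σ b)).pderiv)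
    rwa [Equiv.sum_comp σ (fun a => e a - 1)] at h2
  rcases Int.units_eq_one_or (Equiv.Perm.sign σ) with h2 | h2
  · rw [h2, one_smul]
    exact h1
  · rw [h2, Units.neg_smul, one_smul]
    exact h1.neg

theorem nvP_hom (h : NPair Q e) (i : Fin (n + 3)) : (nvP Q i).IsHomogeneous (∑ j, (e j - 1)) := by
  have h1 := minor_hom h.hom i
  unfold nvP
  rcases neg_one_pow_eq_or (MvPolynomial (Fin (n + 3)) ℂ) (i : ℕ) with h2 | h2
  · rw [h2, one_mul]
    exact h1
  · rw [h2, neg_one_mul]
    exact h1.neg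

theorem differentiable_nv (Q : Fin (n + 2) → MvPolynomial (Fin (n + 3)) ℂ) : Differentiable ℂ (nv Q) := by
  have h1 : Differentiable ℂ fun x : EN (n + 2) => fun i : Fin (n + 3) => ev (nvP Q i) x :=
    differentiable_pi.2 fun i => differentiable_ev (nvP Q i)
  have h2 : nv Q = fun x => (PiLp.continuousLinearEquiv 2 ℂ (fun _ : Fin (n + 3) => ℂ)).symm (fun i => ev (nvP Q i) x) := by
    funext x
    ext i
    rw [← ev_nvP]
    rfl
  rw [h2]
  exact (PiLp.continuousLinearEquiv 2 ℂ (fun _ : Fin (n + 3) => ℂ)).symm.differentiable.comp h1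

theorem fderiv_nv (x v : EN (n + 2)) (i : Fin (n + 3)) : (fderiv ℂ (nv Q) x v) i = ∑ k, v k * ev (pderiv k (nvP Q i)) x := by
  have h0 : HasDerivAt (fun s : ℂ => x + s • v) v 0 := by
    have := ((hasDerivAt_id (0 : ℂ)).smul_const v).const_add x
    simpa using this
  have h1 : HasDerivAt (fun s : ℂ => nv Q (x + s • v)) (fderiv ℂ (nv Q) x v) 0 := by
    have h2 : HasFDerivAt (nv Q) (fderiv ℂ (nv Q) x) (x + (0 : ℂ) • v) := by
      rw [zero_smul, add_zero]
      exact (differentiable_nv Q x).hasFDerivAt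
    exact h2.comp_hasDerivAt (0 : ℂ) h0
  have h3 : HasDerivAt (fun s : ℂ => nv Q (x + s • v) i) ((fderiv ℂ (nv Q) x v) i) 0 :=
    ((EuclideanSpace.proj (𝕜 := ℂ) i : EN (n + 2) →L[ℂ] ℂ).hasFDerivAt.comp_hasDerivAt (0 : ℂ) h1)
  have h4 : HasDerivAt (fun s : ℂ => ev (nvP Q i) (x + s • v)) (∑ k, v k * grad (nvP Q i) (x + (0 : ℂ) • v) k) 0 :=
    hasDerivAt_ev' (nvP Q i) h0
  have h5 : (fun s : ℂ => ev (nvP Q i) (x + s • v)) = fun s : ℂ => nv Q (x + s • v) i := by
    funext s
    exact ev_nvP i _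
  rw [h5] at h4
  have h6 := h3.unique h4
  rw [h6, zero_smul, add_zero]
  rfl

theorem nvP_sw (i : Fin (n + 3)) : nvP (sw Q) i = -nvP Q i := by
  unfold nvP
  rw [← mul_neg]
  congr 1
  have h1 : (Matrix.of fun a b : Fin (n + 2) => pderiv (i.succAbove b) (sw Q a)) =
      (Matrix.of fun a b : Fin (n + 2) => pderiv (i.succAbove b) (Q a)).submatrix (Equiv.swap (0 : Fin (n + 2)) 1) id := by
    ext a b
    rfl
  rw [h1, Matrix.det_permute]
  have h2 : Equiv.Perm.sign (Equiv.swap (0 : Fin (n + 2)) 1) = -1 := Equiv.Perm.sign_swap (by simp)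
  rw [h2]
  simp

section Field

variable {K : Type} [Field K] [Algebra ℂ K]

/-- the rows: a first row `v`, and the gradients of the forms at `y` -/
noncomputable def rowsK (Q : Fin (n + 2) → MvPolynomial (Fin (n + 3)) ℂ) (y v : Fin (n + 3) → K) : Matrix (Fin (n + 3)) (Fin (n + 3)) K :=
  Matrix.of (Fin.cons v fun a i => aeval y (pderiv i (Q a)))

theorem det_rowsK (y v : Fin (n + 3) → K) : (rowsK Q y v).det = ∑ i, v i * aeval y (nvP Q i) := by
  rw [Matrix.det_succ_row_zero]
  refine Finset.sum_congr rfl fun i _ => ?_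
  have h : (rowsK Q y v).submatrix Fin.succ i.succAbove =
      (Matrix.of fun a b : Fin (n + 2) => pderiv (i.succAbove b) (Q a)).map (aeval y) := by
    ext j k
    simp [rowsK]
  have h2 : ((Matrix.of fun a b : Fin (n + 2) => pderiv (i.succAbove b) (Q a)).map (aeval y)).det =
      aeval y (Matrix.det (Matrix.of fun a b : Fin (n + 2) => pderiv (i.succAbove b) (Q a))) := by
    rw [AlgHom.map_det]
    rfl
  rw [h, h2, nvP, map_mul, map_pow, map_neg, map_one]
  simp only [rowsK, Matrix.of_apply, Fin.cons_zero]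
  ring

theorem sum_nvP (y : Fin (n + 3) → K) (a : Fin (n + 2)) : ∑ i, aeval y (pderiv i (Q a)) * aeval y (nvP Q i) = 0 := by
  rw [← det_rowsK y (fun i => aeval y (pderiv i (Q a)))]
  refine Matrix.det_zero_of_row_eq (i := 0) (j := a.succ) (Fin.succ_ne_zero a).symm ?_
  ext k
  simp [rowsK]

end Field

end Pool.Agent.TCN
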