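import Pool.Agent.TCN.NormGood
import Pool.Agent.TCN.LocAlt
import Pool.Agent.TCN.EndC

/-!
# TCN NormBad: sections are normal near every point

`ρ` with `0 < ρ ≤ r` and no critical points in `closedBall z₀ ρ` except possibly `z₀` (`crit_isolated`).  `A = ball z₀ ρ \ {z₀}` is open and preconnected.  For `ζ ∈ A`: `norm_good'` (on a ball around `ζ` inside `ball z₀ r`) and `loc_alt` give a ball `ball ζ r_ζ ⊆ A` on which (I) `‖F k‖` is bounded for almost all `k`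
or (II) `‖F k‖ → ∞` and `fs → 0` uniformly.  Both properties are open conditions on `ζ` and exclude each other at every point, so (`A` is preconnected) all `ζ ∈ A` are of the same type.
* All of type (I): maximum principle and Cauchy's estimate, `norm_lower`.
* All of type (II): `p = lim ‖F k ζ₁‖⁻¹ • F k ζ₁`; `pr (F k ζ) → pr p` for all `ζ ∈ A`; `end_point`; Cauchy's estimate for `⟨p, F k z⟩⁻¹ • F k z`.
-/

set_option autoImplicit false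

open Topology Filter Metric

namespace Pool.Agent.TCN

open Pool.Agent.TC

open Pool.Agent.H36.BP (EN fs wd Sub)
open Pool.Agent.H62.EF (pr pr_smul pr_lipschitz norm_inner_sq nm nm_close continuousAt_pr)

variable {n : ℕ} {Q : Fin (n + 2) → MvPolynomial (Fin (n + 3)) ℂ} {e : Fin (n + 2) → ℕ}

private theorem NB_preconn (z₀ : ℂ) (ρ : ℝ) : IsPreconnected (ball z₀ ρ \ {z₀}) := by
  have h1 : IsPreconnected (Set.Ioo (0 : ℝ) ρ ×ˢ (Set.univ : Set ℝ)) := isPreconnected_Ioo.prod isPreconnected_univ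
  have h2 := h1.image (fun p : ℝ × ℝ => z₀ + (p.1 : ℂ) * Complex.exp (p.2 * Complex.I))
    (by fun_prop : Continuous fun p : ℝ × ℝ => z₀ + (p.1 : ℂ) * Complex.exp (p.2 * Complex.I)).continuousOn
  convert h2 using 1
  ext z
  constructor
  · rintro ⟨hz, hne⟩
    refine ⟨(‖z - z₀‖, Complex.arg (z - z₀)), ⟨⟨?_, ?_⟩, Set.mem_univ _⟩, ?_⟩
    · exact norm_pos_iff.2 (sub_ne_zero.2 hne)
    · simpa [dist_eq_norm] using hz
    · simp only
      rw [Complex.norm_mul_exp_arg_mul_I]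
      ring
  · rintro ⟨⟨s, t⟩, ⟨⟨h3, h4⟩, _⟩, rfl⟩
    have h5 : ‖(s : ℂ) * Complex.exp (t * Complex.I)‖ = s := by
      rw [norm_mul, Complex.norm_exp_ofReal_mul_I, mul_one, Complex.norm_real, Real.norm_of_nonneg h3.le]
    refine ⟨?_, ?_⟩
    · simp only [mem_ball, dist_eq_norm, add_sub_cancel_left]
      rw [h5]
      exact h4
    · intro h6
      have h7 : (s : ℂ) * Complex.exp (t * Complex.I) = 0 := by
        simpa using h6
      rw [h7, norm_zero] at h5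
      simp only at h3
      linarith

private theorem NB_fs_le {x : EN (n + 2)} (hx : x ≠ 0) (v : EN (n + 2)) : fs x v ≤ ‖v‖ / ‖x‖ := by
  have h1 := Pool.Agent.H36.BP.wd_le x v
  have h2 : 0 < ‖x‖ := norm_pos_iff.2 hx
  unfold fs
  rw [div_le_div_iff₀ (by positivity) h2]
  nlinarith

/-- second type of a point: the curves tend to infinity and are almost constant -/
private def TypA (𝒰 : Ultrafilter ℕ) (F : ℕ → ℂ → EN (n + 2)) (ζ : ℂ) : Prop :=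
  ∃ r₁ : ℝ, 0 < r₁ ∧ ∀ M : ℝ, ∀ᶠ k in (𝒰 : Filter ℕ), ∀ z ∈ ball ζ r₁, M ≤ ‖F k z‖ ∧ M * fs (F k z) (deriv (F k) z) ≤ 1

/-- first type of a point: the curves are bounded -/
private def TypB (𝒰 : Ultrafilter ℕ) (F : ℕ → ℂ → EN (n + 2)) (ζ : ℂ) : Prop :=
  ∃ r₁ : ℝ, 0 < r₁ ∧ ∃ M : ℝ, ∀ᶠ k in (𝒰 : Filter ℕ), ∀ z ∈ ball ζ r₁, ‖F k z‖ ≤ M

private theorem NB_open (P : ℝ → ℂ → Prop) (hP : ∀ (ζ : ℂ) (r₁ : ℝ) (ζ' : ℂ) (r₂ : ℝ), P r₁ ζ → ball ζ' r₂ ⊆ ball ζ r₁ → P r₂ ζ') :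
    IsOpen {ζ : ℂ | ∃ r₁ : ℝ, 0 < r₁ ∧ P r₁ ζ} := by
  rw [Metric.isOpen_iff]
  rintro ζ ⟨r₁, hr₁, h1⟩
  refine ⟨r₁, hr₁, fun ζ' hζ' => ⟨r₁ - dist ζ' ζ, by rw [mem_ball] at hζ'; linarith, hP ζ r₁ ζ' _ h1 ?_⟩⟩
  exact ball_subset_ball' (by linarith)

private theorem NB_openA (𝒰 : Ultrafilter ℕ) (F : ℕ → ℂ → EN (n + 2)) : IsOpen {ζ | TypA 𝒰 F ζ} :=
  NB_open (fun r₁ ζ => ∀ M : ℝ, ∀ᶠ k in (𝒰 : Filter ℕ), ∀ z ∈ ball ζ r₁, M ≤ ‖F k z‖ ∧ M * fs (F k z) (deriv (F k) z) ≤ 1)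
    fun _ _ _ _ h1 h2 M => (h1 M).mono fun _ hk z hz => hk z (h2 hz)

private theorem NB_openB (𝒰 : Ultrafilter ℕ) (F : ℕ → ℂ → EN (n + 2)) : IsOpen {ζ | TypB 𝒰 F ζ} :=
  NB_open (fun r₁ ζ => ∃ M : ℝ, ∀ᶠ k in (𝒰 : Filter ℕ), ∀ z ∈ ball ζ r₁, ‖F k z‖ ≤ M)
    fun _ _ _ _ ⟨M, hM⟩ h2 => ⟨M, hM.mono fun _ hk z hz => hk z (h2 hz)⟩

/-- the bounded case -/
private theorem NB_bounded (h : NPair Q e) {𝒰 : Ultrafilter ℕ} {F : ℕ → ℂ → EN (n + 2)} {z₀ : ℂ} {ρ r : ℝ} (hρ : 0 < ρ) (hρr : ρ ≤ r)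
    (hF : ∀ᶠ k in (𝒰 : Filter ℕ), IsSec Q (F k) (ball z₀ r)) (hB : ∀ ζ ∈ ball z₀ ρ \ {z₀}, TypB 𝒰 F ζ) :
    ∃ r' L : ℝ, 0 < r' ∧ r' ≤ r ∧ 0 < L ∧ ∀ᶠ k in (𝒰 : Filter ℕ), ∀ z ∈ ball z₀ r', fs (F k z) (deriv (F k) z) ≤ L := by
  have hS : ∃ M : ℝ, ∀ᶠ k in (𝒰 : Filter ℕ), ∀ z ∈ sphere z₀ (ρ / 2), ‖F k z‖ ≤ M := by
    refine (isCompact_sphere z₀ (ρ / 2)).induction_on (p := fun S => ∃ M : ℝ, ∀ᶠ k in (𝒰 : Filter ℕ), ∀ z ∈ S, ‖F k z‖ ≤ M) ?_ ?_ ?_ ?_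
    · exact ⟨0, by simp⟩
    · rintro s t hst ⟨M, hM⟩
      exact ⟨M, hM.mono fun k hk z hz => hk z (hst hz)⟩
    · rintro s t ⟨M, hM⟩ ⟨M', hM'⟩
      refine ⟨max M M', ?_⟩
      filter_upwards [hM, hM'] with k hk hk' z hz
      rcases hz with hz | hz
      · exact (hk z hz).trans (le_max_left _ _)
      · exact (hk' z hz).trans (le_max_right _ _)
    · intro ζ hζ
      have hζ' : ζ ∈ ball z₀ ρ \ {z₀} := by
        rw [mem_sphere] at hζ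
        refine ⟨by rw [mem_ball, hζ]; linarith, fun h0 => ?_⟩
        rw [Set.mem_singleton_iff.1 h0, dist_self] at hζ
        linarith
      obtain ⟨r₁, hr₁, M, hM⟩ := hB ζ hζ'
      exact ⟨ball ζ r₁, mem_nhdsWithin_of_mem_nhds (ball_mem_nhds ζ hr₁), M, hM⟩
  obtain ⟨M, hM⟩ := hS
  obtain ⟨c, C, hc, hlow⟩ := norm_lower h
  have hM0 : 0 ≤ max M 0 := le_max_right _ _
  refine ⟨ρ / 4, max M 0 / (ρ / 4) / Real.exp (-C) + 1, by linarith, by linarith, by positivity, ?_⟩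
  filter_upwards [hM, hF] with k hk hFk z hz
  have hsub : closedBall z₀ (ρ / 2) ⊆ ball z₀ r := closedBall_subset_ball (by linarith)
  have hin : ∀ w ∈ closedBall z₀ (ρ / 2), ‖F k w‖ ≤ max M 0 := by
    intro w hw
    refine Complex.norm_le_of_forall_mem_frontier_norm_le (isBounded_ball (x := z₀) (r := ρ / 2)) (hFk.1.diffContOnCl_ball hsub) ?_ ?_
    · intro w hw
      rw [frontier_ball z₀ (by linarith : ρ / 2 ≠ 0)] at hw
      exact (hk w hw).trans (le_max_left _ _)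
    · rw [closure_ball z₀ (by linarith : ρ / 2 ≠ 0)]
      exact hw
  have hzr : z ∈ ball z₀ r := ball_subset_ball (by linarith) hz
  have hzs : closedBall z (ρ / 4) ⊆ closedBall z₀ (ρ / 2) := by
    refine closedBall_subset_closedBall' ?_
    rw [mem_ball] at hz
    linarith
  have hder : ‖deriv (F k) z‖ ≤ max M 0 / (ρ / 4) :=
    Complex.norm_deriv_le_of_forall_mem_sphere_norm_le (by linarith) (hFk.1.diffContOnCl_ball (hzs.trans hsub))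
      fun w hw => hin w (hzs (sphere_subset_closedBall hw))
  obtain ⟨hne, hl⟩ := hlow (F k) _ hFk z hzr
  have hpos : 0 < ‖F k z‖ := norm_pos_iff.2 hne
  have hge : Real.exp (-C) ≤ ‖F k z‖ := by
    rw [← Real.le_log_iff_exp_le hpos]
    have : 0 ≤ c * |z.re| := by positivity
    linarith
  calc fs (F k z) (deriv (F k) z) ≤ ‖deriv (F k) z‖ / ‖F k z‖ := NB_fs_le hne _
    _ ≤ max M 0 / (ρ / 4) / Real.exp (-C) := by gcongr
    _ ≤ _ := by linarith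

/-- the points of `A` of the second type are related -/
private theorem NB_rel {𝒰 : Ultrafilter ℕ} {F : ℕ → ℂ → EN (n + 2)} {ζ : ℂ} {r₁ : ℝ} (hr₁ : 0 < r₁)
    (hd : ∀ᶠ k in (𝒰 : Filter ℕ), DifferentiableOn ℂ (F k) (ball ζ r₁))
    (hA : ∀ M : ℝ, ∀ᶠ k in (𝒰 : Filter ℕ), ∀ z ∈ ball ζ r₁, M ≤ ‖F k z‖ ∧ M * fs (F k z) (deriv (F k) z) ≤ 1)
    {z w : ℕ → ℂ} (hz : ∀ᶠ k in (𝒰 : Filter ℕ), z k ∈ ball ζ r₁) (hw : ∀ᶠ k in (𝒰 : Filter ℕ), w k ∈ ball ζ r₁) :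
    Tendsto (fun k => dist (pr (F k (z k))) (pr (F k (w k)))) 𝒰 (𝓝 0) := by
  rw [Metric.tendsto_nhds]
  intro ε hε
  have hM : 0 < 8 * r₁ / ε + 1 := by positivity
  filter_upwards [hd, hA (8 * r₁ / ε + 1), hz, hw] with k hdk hk hzk hwk
  have h1 := pr_lipschitz isOpen_ball (convex_ball ζ r₁) hdk (fun z hz => by
    intro h0
    have := (hk z hz).1
    rw [h0, norm_zero] at this
    linarith) (L := 1 / (8 * r₁ / ε + 1)) (fun z hz => by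
    rw [le_div_iff₀ hM]
    have := (hk z hz).2
    linarith) (z k) hzk (w k) hwk
  have h2 : ‖z k - w k‖ ≤ 2 * r₁ := by
    rw [← dist_eq_norm]
    rw [mem_ball] at hzk hwk
    have := dist_triangle_right (z k) (w k) ζ
    linarith
  have h3 : 2 * (1 / (8 * r₁ / ε + 1)) * ‖z k - w k‖ ≤ 2 * (1 / (8 * r₁ / ε + 1)) * (2 * r₁) := by gcongr
  have h4 : 2 * (1 / (8 * r₁ / ε + 1)) * (2 * r₁) < ε := by
    rw [show 2 * (1 / (8 * r₁ / ε + 1)) * (2 * r₁) = 4 * r₁ / (8 * r₁ / ε + 1) by ring, div_lt_iff₀ hM]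
    have : ε * (8 * r₁ / ε + 1) = 8 * r₁ + ε := by field_simp
    rw [this]
    linarith
  rw [dist_zero_right, Real.norm_of_nonneg dist_nonneg]
  linarith

private theorem NB_unbounded (h : NPair Q e) {𝒰 : Ultrafilter ℕ} {F : ℕ → ℂ → EN (n + 2)} {z₀ : ℂ} {ρ r : ℝ} (hρ : 0 < ρ) (hρr : ρ ≤ r)
    (hF : ∀ᶠ k in (𝒰 : Filter ℕ), IsSec Q (F k) (ball z₀ r)) (hA : ∀ ζ ∈ ball z₀ ρ \ {z₀}, TypA 𝒰 F ζ) :
    ∃ r' L : ℝ, 0 < r' ∧ r' ≤ r ∧ 0 < L ∧ ∀ᶠ k in (𝒰 : Filter ℕ), ∀ z ∈ ball z₀ r', fs (F k z) (deriv (F k) z) ≤ L := by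
  have hopen : IsOpen (ball z₀ ρ \ {z₀}) := isOpen_ball.sdiff isClosed_singleton
  -- good radii
  have hA' : ∀ ζ ∈ ball z₀ ρ \ {z₀}, ∃ r₁ : ℝ, 0 < r₁ ∧ ball ζ r₁ ⊆ ball z₀ ρ \ {z₀} ∧
      (∀ᶠ k in (𝒰 : Filter ℕ), DifferentiableOn ℂ (F k) (ball ζ r₁)) ∧
      ∀ M : ℝ, ∀ᶠ k in (𝒰 : Filter ℕ), ∀ z ∈ ball ζ r₁, M ≤ ‖F k z‖ ∧ M * fs (F k z) (deriv (F k) z) ≤ 1 := by
    intro ζ hζ
    obtain ⟨r₁, hr₁, h1⟩ := hA ζ hζ
    obtain ⟨r₂, hr₂, h2⟩ := Metric.isOpen_iff.1 hopen ζ hζ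
    refine ⟨min r₁ r₂, lt_min hr₁ hr₂, (ball_subset_ball (min_le_right _ _)).trans h2, ?_, fun M => ?_⟩
    · filter_upwards [hF] with k hk
      exact hk.1.mono (((ball_subset_ball (min_le_right _ _)).trans h2).trans (Set.sdiff_subset.trans (ball_subset_ball hρr)))
    · exact (h1 M).mono fun k hk z hz => hk z (ball_subset_ball (min_le_left _ _) hz)
  obtain ⟨ζ₁, hζ₁⟩ : ∃ ζ₁ : ℂ, ζ₁ ∈ ball z₀ ρ \ {z₀} := by
    refine ⟨z₀ + ((ρ / 2 : ℝ) : ℂ), ?_, ?_⟩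
    · rw [mem_ball, dist_eq_norm, add_sub_cancel_left, Complex.norm_real, Real.norm_of_nonneg (by linarith)]
      linarith
    · intro h0
      have h1 : ((ρ / 2 : ℝ) : ℂ) = 0 := by simpa using h0
      have h2 : (ρ / 2 : ℝ) = 0 := by exact_mod_cast h1
      linarith
  -- the limit point
  have hinf₁ : Tendsto (fun k => ‖F k ζ₁‖) 𝒰 atTop := by
    obtain ⟨r₁, hr₁, -, -, h1⟩ := hA' ζ₁ hζ₁
    refine tendsto_atTop.2 fun M => (h1 M).mono fun k hk => (hk ζ₁ (mem_ball_self hr₁)).1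
  set u : ℕ → EN (n + 2) := fun k => ((‖F k ζ₁‖⁻¹ : ℝ) : ℂ) • F k ζ₁ with hu
  have hu1 : ∀ᶠ k in (𝒰 : Filter ℕ), ‖u k‖ = 1 := by
    filter_upwards [hinf₁.eventually_gt_atTop 0] with k hk
    rw [hu]
    simp only
    rw [norm_smul, Complex.norm_real, norm_inv, norm_norm, inv_mul_cancel₀ hk.ne']
  obtain ⟨p, -, hpl⟩ := (isCompact_closedBall (0 : EN (n + 2)) 1).ultrafilter_le_nhds (𝒰.map u) (by
    rw [le_principal_iff]
    exact hu1.mono fun k hk => by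
      rw [mem_closedBall_zero_iff, hk])
  have hup : Tendsto u 𝒰 (𝓝 p) := hpl
  have hp : ‖p‖ = 1 := by
    have h1 : Tendsto (fun k => ‖u k‖) 𝒰 (𝓝 ‖p‖) := hup.norm
    have h2 : Tendsto (fun k => ‖u k‖) 𝒰 (𝓝 1) := tendsto_const_nhds.congr' (hu1.mono fun k hk => hk.symm)
    exact tendsto_nhds_unique h1 h2
  have hp0 : p ≠ 0 := by
    intro h0
    rw [h0, norm_zero] at hp
    exact zero_ne_one hp
  have hζr : ζ₁ ∈ ball z₀ r := ball_subset_ball hρr hζ₁.1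
  have hevu : ∀ j : Fin (n + 2), Tendsto (fun k => ev (Q j) (u k)) 𝒰 (𝓝 (ev (Q j) p)) := fun j =>
    ((continuous_ev (Q j)).tendsto p).comp hup
  have hinv : Tendsto (fun k => ((‖F k ζ₁‖⁻¹ : ℝ) : ℂ)) 𝒰 (𝓝 0) := by
    have h1 : Tendsto (fun k => ‖F k ζ₁‖⁻¹) 𝒰 (𝓝 0) := tendsto_inv_atTop_zero.comp hinf₁
    have h2 := (Complex.continuous_ofReal.tendsto (0 : ℝ)).comp h1
    rw [Complex.ofReal_zero] at h2
    exact h2
  have hV : OnV Q p := by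
    intro j hj
    refine tendsto_nhds_unique (hevu j) (tendsto_const_nhds.congr' ?_)
    filter_upwards [hF] with k hk
    rw [hu]
    simp only
    rw [ev_smul (h.hom j), (hk.2 ζ₁ hζr).2.2 j hj, mul_zero]
  have h0 : ev (Q 0) p = 0 := by
    refine tendsto_nhds_unique (hevu 0) ?_
    have h1 : Tendsto (fun k => ((‖F k ζ₁‖⁻¹ : ℝ) : ℂ) ^ e 0 * Complex.exp ζ₁) 𝒰 (𝓝 (0 ^ e 0 * Complex.exp ζ₁)) :=
      (hinv.pow (e 0)).mul_const _
    rw [zero_pow (by have := h.pos 0; omega), zero_mul] at h1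
    refine h1.congr' ?_
    filter_upwards [hF] with k hk
    rw [hu]
    simp only
    rw [ev_smul (h.hom 0), (hk.2 ζ₁ hζr).1]
  have h1 : ev (Q 1) p = 0 := by
    refine tendsto_nhds_unique (hevu 1) ?_
    have h1 : Tendsto (fun k => ((‖F k ζ₁‖⁻¹ : ℝ) : ℂ) ^ e 1 * Complex.exp (-ζ₁)) 𝒰 (𝓝 (0 ^ e 1 * Complex.exp (-ζ₁))) :=
      (hinv.pow (e 1)).mul_const _
    rw [zero_pow (by have := h.pos 1; omega), zero_mul] at h1
    refine h1.congr' ?_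
    filter_upwards [hF] with k hk
    rw [hu]
    simp only
    rw [ev_smul (h.hom 1), (hk.2 ζ₁ hζr).2.1]
  -- the curves are close to `p` at `ζ₁`
  have hpr₁ : Tendsto (fun k => dist (pr (F k ζ₁)) (pr p)) 𝒰 (𝓝 0) := by
    have h2 : Tendsto (fun k => pr (u k)) 𝒰 (𝓝 (pr p)) := (continuousAt_pr hp0).tendsto.comp hup
    have h3 : Tendsto (fun k => dist (pr (u k)) (pr p)) 𝒰 (𝓝 (dist (pr p) (pr p))) := h2.dist tendsto_const_nhds
    rw [dist_self] at h3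
    refine h3.congr' ?_
    filter_upwards [hinf₁.eventually_gt_atTop 0] with k hk
    rw [hu]
    simp only
    rw [pr_smul]
    exact_mod_cast (inv_pos.2 hk).ne'
  have hrel : ∀ ζ ∈ ball z₀ ρ \ {z₀}, Tendsto (fun k => dist (pr (F k ζ)) (pr (F k ζ₁))) 𝒰 (𝓝 0) := by
    intro ζ hζ
    refine (NB_preconn z₀ ρ).induction₂' (fun x y => Tendsto (fun k => dist (pr (F k x)) (pr (F k y))) 𝒰 (𝓝 0)) ?_ ?_ hζ hζ₁
    · intro x hx
      obtain ⟨r₁, hr₁, -, hd, hM⟩ := hA' x hx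
      refine mem_nhdsWithin_of_mem_nhds (Filter.mem_of_superset (ball_mem_nhds x hr₁) fun y hy => ?_)
      exact ⟨NB_rel hr₁ hd hM (z := fun _ => x) (w := fun _ => y) (Eventually.of_forall fun _ => mem_ball_self hr₁)
          (Eventually.of_forall fun _ => hy),
        NB_rel hr₁ hd hM (z := fun _ => y) (w := fun _ => x) (Eventually.of_forall fun _ => hy)
          (Eventually.of_forall fun _ => mem_ball_self hr₁)⟩
    · intro x y z _ _ _ hxy hyz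
      refine squeeze_zero (fun k => dist_nonneg) (fun k => dist_triangle _ (pr (F k y)) _) ?_
      simpa using hxy.add hyz
  -- the limit at the end
  have hlim : ∀ (z : ℕ → ℂ) (ζ : ℂ), ζ ∈ ball z₀ ρ → ζ ≠ z₀ → Tendsto z 𝒰 (𝓝 ζ) →
      Tendsto (fun k => ‖(inner ℂ p (F k (z k)) : ℂ)‖) 𝒰 atTop ∧ Tendsto (fun k => (inner ℂ p (F k (z k)) : ℂ)⁻¹ • F k (z k)) 𝒰 (𝓝 p) := by
    intro z ζ hζ hne hz
    obtain ⟨r₁, hr₁, -, hd, hM⟩ := hA' ζ ⟨hζ, hne⟩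
    have hzb : ∀ᶠ k in (𝒰 : Filter ℕ), z k ∈ ball ζ r₁ := hz.eventually (ball_mem_nhds ζ hr₁)
    have hinf : Tendsto (fun k => ‖F k (z k)‖) 𝒰 atTop := by
      refine tendsto_atTop.2 fun M => ?_
      filter_upwards [hM M, hzb] with k hk hzk
      exact (hk _ hzk).1
    have hδ : Tendsto (fun k => dist (pr (F k (z k))) (pr p)) 𝒰 (𝓝 0) := by
      have h2 := NB_rel hr₁ hd hM hzb (Eventually.of_forall fun _ => mem_ball_self hr₁ : ∀ᶠ k in (𝒰 : Filter ℕ), ζ ∈ ball ζ r₁)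
      have h3 := hrel ζ ⟨hζ, hne⟩
      refine squeeze_zero (fun k => dist_nonneg) (fun k => (dist_triangle _ (pr (F k ζ)) _).trans
        (add_le_add_right (dist_triangle _ (pr (F k ζ₁)) _) _)) ?_
      simpa using h2.add (h3.add hpr₁)
    have hxne : ∀ᶠ k in (𝒰 : Filter ℕ), F k (z k) ≠ 0 := by
      filter_upwards [hinf.eventually_gt_atTop 0] with k hk
      exact norm_pos_iff.1 hk
    constructor
    · have h4 : ∀ᶠ k in (𝒰 : Filter ℕ), ‖F k (z k)‖ / 2 ≤ ‖(inner ℂ p (F k (z k)) : ℂ)‖ := by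
        filter_upwards [hxne, (Metric.tendsto_nhds.1 hδ) 1 one_pos] with k hk hk1
        rw [dist_zero_right, Real.norm_of_nonneg dist_nonneg] at hk1
        have h5 := norm_inner_sq hp0 hk
        rw [hp, dist_comm] at h5
        have h6 : 0 ≤ dist (pr (F k (z k))) (pr p) := dist_nonneg
        have h7 : (‖F k (z k)‖ / 2) ^ 2 ≤ ‖(inner ℂ p (F k (z k)) : ℂ)‖ ^ 2 := by
          rw [h5]
          have h8 : dist (pr (F k (z k))) (pr p) ^ 2 ≤ 1 := by nlinarith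
          nlinarith [sq_nonneg ‖F k (z k)‖]
        exact le_of_sq_le_sq h7 (norm_nonneg _)
      exact tendsto_atTop_mono' _ h4 (hinf.atTop_div_const two_pos)
    · rw [Metric.tendsto_nhds]
      intro ε hε
      obtain ⟨δ, hδ0, hδ1⟩ := nm_close hp0 hε
      filter_upwards [hxne, (Metric.tendsto_nhds.1 hδ) δ hδ0] with k hk hk1
      rw [dist_zero_right, Real.norm_of_nonneg dist_nonneg] at hk1
      have h5 := (hδ1 _ hk hk1).2
      unfold nm at h5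
      rw [hp] at h5
      rw [dist_eq_norm]
      simpa using h5
  have hend := end_point h 𝒰 hρ hp hV h0 h1 (hF.mono fun k hk =>
    ⟨hk.1.mono (ball_subset_ball hρr), fun z hz => hk.2 z (ball_subset_ball hρr hz)⟩) hlim
  -- uniformity
  have hunif : ∀ᶠ k in (𝒰 : Filter ℕ), ∀ z ∈ closedBall z₀ (ρ / 2), (inner ℂ p (F k z) : ℂ) ≠ 0 ∧
      ‖(inner ℂ p (F k z) : ℂ)⁻¹ • F k z - p‖ ≤ 1 / 2 := by
    by_contra hcon
    rw [← Ultrafilter.eventually_not] at hcon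
    have hcon' : ∀ᶠ k in (𝒰 : Filter ℕ), ∃ z ∈ closedBall z₀ (ρ / 2), ¬ ((inner ℂ p (F k z) : ℂ) ≠ 0 ∧
        ‖(inner ℂ p (F k z) : ℂ)⁻¹ • F k z - p‖ ≤ 1 / 2) := by
      filter_upwards [hcon] with k hk
      push Not at hk
      obtain ⟨z, hz, hz'⟩ := hk
      exact ⟨z, hz, fun h2 => absurd h2.2 (not_le.2 (hz' h2.1))⟩
    have hz' : ∀ k : ℕ, ∃ z : ℂ, (∃ z ∈ closedBall z₀ (ρ / 2), ¬ ((inner ℂ p (F k z) : ℂ) ≠ 0 ∧
        ‖(inner ℂ p (F k z) : ℂ)⁻¹ • F k z - p‖ ≤ 1 / 2)) → (z ∈ closedBall z₀ (ρ / 2) ∧ ¬ ((inner ℂ p (F k z) : ℂ) ≠ 0 ∧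
        ‖(inner ℂ p (F k z) : ℂ)⁻¹ • F k z - p‖ ≤ 1 / 2)) := by
      intro k
      by_cases hk : ∃ z ∈ closedBall z₀ (ρ / 2), ¬ ((inner ℂ p (F k z) : ℂ) ≠ 0 ∧ ‖(inner ℂ p (F k z) : ℂ)⁻¹ • F k z - p‖ ≤ 1 / 2)
      · obtain ⟨z, hz, hz'⟩ := hk
        exact ⟨z, fun _ => ⟨hz, hz'⟩⟩
      · exact ⟨0, fun hk' => absurd hk' hk⟩
    choose z hz using hz'
    have hzz : ∀ᶠ k in (𝒰 : Filter ℕ), z k ∈ closedBall z₀ (ρ / 2) ∧ ¬ ((inner ℂ p (F k (z k)) : ℂ) ≠ 0 ∧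
        ‖(inner ℂ p (F k (z k)) : ℂ)⁻¹ • F k (z k) - p‖ ≤ 1 / 2) := hcon'.mono fun k hk => hz k hk
    obtain ⟨ζ, hζ, hζl⟩ := (isCompact_closedBall z₀ (ρ / 2)).ultrafilter_le_nhds (𝒰.map z) (by
      rw [le_principal_iff]
      exact hzz.mono fun k hk => hk.1)
    have hzt : Tendsto z 𝒰 (𝓝 ζ) := hζl
    obtain ⟨h2, h3⟩ := hend z ζ (closedBall_subset_ball (by linarith) hζ) hzt
    have h4 : ∀ᶠ k in (𝒰 : Filter ℕ), False := by
      filter_upwards [hzz, h2.eventually_gt_atTop 0, (Metric.tendsto_nhds.1 h3) (1 / 2) (by norm_num)] with k hk hk2 hk3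
      refine hk.2 ⟨norm_pos_iff.1 hk2, ?_⟩
      rw [dist_eq_norm] at hk3
      exact hk3.le
    exact (h4.exists).choose_spec
  refine ⟨ρ / 4, (3 / 2) / (ρ / 4) / (1 / 2) + 1, by linarith, by linarith, by positivity, ?_⟩
  filter_upwards [hunif, hF] with k hk hFk z hz
  have hsub : closedBall z₀ (ρ / 2) ⊆ ball z₀ r := closedBall_subset_ball (by linarith)
  have hzr : z ∈ ball z₀ r := ball_subset_ball (by linarith) hz
  have hzs : closedBall z (ρ / 4) ⊆ closedBall z₀ (ρ / 2) := by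
    refine closedBall_subset_closedBall' ?_
    rw [mem_ball] at hz
    linarith
  set lam : ℂ → ℂ := fun w => inner ℂ p (F k w) with hlam
  set G : ℂ → EN (n + 2) := fun w => (lam w)⁻¹ • F k w with hG
  have hlamd : DifferentiableOn ℂ lam (closedBall z₀ (ρ / 2)) := by
    have h2 : Differentiable ℂ (fun x : EN (n + 2) => (inner ℂ p x : ℂ)) := (innerSL ℂ p).differentiable
    exact h2.comp_differentiableOn (hFk.1.mono hsub)
  have hGd : DifferentiableOn ℂ G (closedBall z₀ (ρ / 2)) :=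
    (hlamd.inv fun w hw => (hk w hw).1).smul (hFk.1.mono hsub)
  have hGn : ∀ w ∈ closedBall z₀ (ρ / 2), ‖G w‖ ≤ 3 / 2 ∧ 1 / 2 ≤ ‖G w‖ := by
    intro w hw
    have h2 := (hk w hw).2
    constructor
    · have h3 : ‖G w‖ ≤ ‖G w - p‖ + ‖p‖ := by
        have := norm_add_le (G w - p) p
        simpa using this
      rw [hp] at h3
      have : ‖G w - p‖ ≤ 1 / 2 := h2
      linarith
    · have h3 : ‖p‖ ≤ ‖G w‖ + ‖G w - p‖ := by
        have := norm_sub_le (G w) (G w - p)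
        simpa using this
      rw [hp] at h3
      have : ‖G w - p‖ ≤ 1 / 2 := h2
      linarith
  have hder : ‖deriv G z‖ ≤ 3 / 2 / (ρ / 4) :=
    Complex.norm_deriv_le_of_forall_mem_sphere_norm_le (by linarith) (hGd.diffContOnCl_ball hzs)
      fun w hw => (hGn w (hzs (sphere_subset_closedBall hw))).1
  have hzc : z ∈ closedBall z₀ (ρ / 2) := hzs (mem_closedBall_self (by linarith))
  have hnhd : closedBall z₀ (ρ / 2) ∈ 𝓝 z :=
    Filter.mem_of_superset (closedBall_mem_nhds z (by linarith : 0 < ρ / 4)) hzs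
  have hFG : F k =ᶠ[𝓝 z] fun w => lam w • G w := by
    filter_upwards [hnhd] with w hw
    rw [hG]
    simp only
    rw [smul_smul, mul_inv_cancel₀ (hk w hw).1, one_smul]
  have hGz : DifferentiableAt ℂ G z := hGd.differentiableAt hnhd
  have hlz : DifferentiableAt ℂ lam z := hlamd.differentiableAt hnhd
  have hdF : deriv (F k) z = lam z • deriv G z + deriv lam z • G z := by
    rw [hFG.deriv_eq]
    exact (hlz.hasDerivAt.smul hGz.hasDerivAt).deriv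
  have hG0 : G z ≠ 0 := by
    intro h2
    have := (hGn z hzc).2
    rw [h2, norm_zero] at this
    linarith
  have hfs : fs (F k z) (deriv (F k) z) = fs (G z) (deriv G z) := by
    rw [hdF, hFG.eq_of_nhds]
    exact Pool.Agent.H36.BP.fs_inv hG0 _ (hk z hzc).1 _
  rw [hfs]
  calc fs (G z) (deriv G z) ≤ ‖deriv G z‖ / ‖G z‖ := NB_fs_le hG0 _
    _ ≤ 3 / 2 / (ρ / 4) / (1 / 2) := by
      have := (hGn z hzc).2
      gcongr
    _ ≤ _ := by linarith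

theorem norm_bad (h : NPair Q e) {𝒰 : Ultrafilter ℕ} (h𝒰 : (𝒰 : Filter ℕ) ≤ atTop) {F : ℕ → ℂ → EN (n + 2)} {z₀ : ℂ} {r : ℝ} (hr : 0 < r)
    (hF : ∀ᶠ k in (𝒰 : Filter ℕ), IsSec Q (F k) (ball z₀ r)) :
    ∃ r' L : ℝ, 0 < r' ∧ r' ≤ r ∧ 0 < L ∧ ∀ᶠ k in (𝒰 : Filter ℕ), ∀ z ∈ ball z₀ r', fs (F k z) (deriv (F k) z) ≤ L := by
  obtain ⟨ρ₀, hρ₀, hcrit⟩ := crit_isolated h z₀
  set ρ := min ρ₀ r with hρdef
  have hρ : 0 < ρ := lt_min hρ₀ hr
  have hρr : ρ ≤ r := min_le_right _ _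
  have hopen : IsOpen (ball z₀ ρ \ {z₀}) := isOpen_ball.sdiff isClosed_singleton
  have halt : ∀ ζ ∈ ball z₀ ρ \ {z₀}, TypA 𝒰 F ζ ∨ TypB 𝒰 F ζ := by
    intro ζ hζ
    obtain ⟨r₂, hr₂, h2⟩ := Metric.isOpen_iff.1 hopen ζ hζ
    have hnc : ¬ Crit Q ζ := hcrit ζ (ball_subset_closedBall (ball_subset_ball (min_le_left _ _) hζ.1)) hζ.2
    have hsub : ball ζ r₂ ⊆ ball z₀ r := h2.trans (Set.sdiff_subset.trans (ball_subset_ball hρr))
    have hsec : ∀ s : ℝ, s ≤ r₂ → ∀ᶠ k in (𝒰 : Filter ℕ), IsSec Q (F k) (ball ζ s) := fun s hs => hF.mono fun k hk =>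
      ⟨hk.1.mono ((ball_subset_ball hs).trans hsub), fun z hz => hk.2 z (hsub (ball_subset_ball hs hz))⟩
    obtain ⟨r', L, hr', hr'r, hL, h3⟩ := norm_good' h h𝒰 hr₂ hnc (hsec r₂ le_rfl)
    obtain ⟨r'', hr'', -, h4⟩ := loc_alt h 𝒰 hr' hL ((hsec r' hr'r).and h3)
    rcases h4 with h4 | h4
    · exact Or.inl ⟨r'', hr'', h4⟩
    · exact Or.inr ⟨r'', hr'', h4⟩
  have hdisj : Disjoint {ζ | TypA 𝒰 F ζ} {ζ | TypB 𝒰 F ζ} := by
    rw [Set.disjoint_left]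
    rintro ζ ⟨r₁, hr₁, h1⟩ ⟨r₂, hr₂, M, hM⟩
    have h3 : ∀ᶠ k in (𝒰 : Filter ℕ), False := by
      filter_upwards [h1 (M + 1), hM] with k hk hk'
      have h4 := (hk ζ (mem_ball_self hr₁)).1
      have h5 := hk' ζ (mem_ball_self hr₂)
      linarith
    exact (h3.exists).choose_spec
  rcases IsPreconnected.subset_or_subset (NB_openA 𝒰 F) (NB_openB 𝒰 F) hdisj (fun ζ hζ => halt ζ hζ) (NB_preconn z₀ ρ) with hA | hB
  · exact NB_unbounded h hρ hρr hF fun ζ hζ => hA hζ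
  · exact NB_bounded h hρ hρr hF fun ζ hζ => hB hζ

end Pool.Agent.TCN
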