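import Pool.Agent.TCN.Strip
import Pool.Agent.TCN.Growth
import Pool.Agent.TCN.Bridge

/-!
# TCN Tame: two entire sections which are close on a half strip are equal

`strip_nv`: in a vertical strip the normal vector is bounded below along the entire sections, by the compactness of the set of the entire sections (`sec_lim`) and `nv_ne_zero_sec`.
`half_axis_sec`: `half_axis_v2` for two entire sections, with the constants of `fs_bound`, `strip_bound` and `strip_nv`, then `Sec.eq_of_eqOn` (`HP σ ρ` is open and nonempty for `σ = 1` or `-1`).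
-/

set_option autoImplicit false

open Topology Filter Metric

namespace Pool.Agent.TCN

open Pool.Agent.TC

open Pool.Agent.H36.BP (EN fs wd Sub)

variable {n : ℕ} {Q : Fin (n + 2) → MvPolynomial (Fin (n + 3)) ℂ} {e : Fin (n + 2) → ℕ}

theorem strip_nv (h : NPair Q e) (W : ℝ) : ∃ c : ℝ, 0 < c ∧ ∀ f ∈ Sec Q, ∀ z : ℂ, |z.re| ≤ W → c ≤ ‖nv Q (f z)‖ := by
  by_contra hcon
  push Not at hcon
  have hk : ∀ k : ℕ, ∃ f ∈ Sec Q, ∃ z : ℂ, |z.re| ≤ W ∧ ‖nv Q (f z)‖ < 1 / ((k : ℝ) + 1) := fun k => hcon _ (by positivity)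
  choose f hf z hz hfz using hk
  choose m hm0 hm1 using fun k => exists_shift (z k).im
  set F : ℕ → ℂ → EN (n + 2) := fun k w => f k (w + 2 * Real.pi * m k * Complex.I) with hF
  have hFS : ∀ k, F k ∈ Sec Q := fun k => Sec.shift (hf k) (m k)
  set 𝒰 : Ultrafilter ℕ := hyperfilter ℕ with h𝒰
  have h𝒰' : (𝒰 : Filter ℕ) ≤ atTop := Nat.hyperfilter_le_atTop
  set z' : ℕ → ℂ := fun k => z k - 2 * Real.pi * m k * Complex.I with hz'
  have hz're : ∀ k, (z' k).re = (z k).re := fun k => by simp [hz']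
  have hz'im : ∀ k, (z' k).im = (z k).im - 2 * Real.pi * m k := fun k => by simp [hz']
  have hbd : ∀ k, ‖z' k‖ ≤ W + 2 * Real.pi := by
    intro k
    refine (Complex.norm_le_abs_re_add_abs_im _).trans ?_
    rw [hz're, hz'im, abs_of_nonneg (hm0 k)]
    exact add_le_add (hz k) (hm1 k)
  have hFz : ∀ k : ℕ, ‖nv Q (F k (z' k))‖ ≤ 1 / ((k : ℝ) + 1) := by
    intro k
    simp only [hF, hz', sub_add_cancel]
    exact (hfz k).le
  obtain ⟨z₀, -, hz₀⟩ := exists_lim 𝒰 (Eventually.of_forall hbd)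
  obtain ⟨G, hG, hlim⟩ := sec_lim h 𝒰 (Eventually.of_forall hFS)
  have h1 : Tendsto (fun k => F k (z' k)) 𝒰 (𝓝 (G z₀)) := (hlim _ _ hz₀).1
  have h2 : Tendsto (fun k => ‖nv Q (F k (z' k))‖) 𝒰 (𝓝 ‖nv Q (G z₀)‖) :=
    (((continuous_nv Q).tendsto _).comp h1).norm
  have h3 : Tendsto (fun k : ℕ => 1 / ((k : ℝ) + 1)) 𝒰 (𝓝 0) := tendsto_one_div_add_atTop_nhds_zero_nat.mono_left h𝒰'
  have h4 : ‖nv Q (G z₀)‖ ≤ 0 := le_of_tendsto_of_tendsto' h2 h3 hFz
  exact nv_ne_zero_sec h isOpen_univ (show IsSec Q G Set.univ from hG) (Set.mem_univ z₀) (norm_le_zero_iff.1 h4)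

/-- the growth of the entire sections: `growth` with `x₀ = 0` and the bound of `strip_bound` for `|z.re| ≤ 1` -/
theorem sec_growth (h : NPair Q e) : ∃ A : ℝ, 0 < A ∧ ∀ f ∈ Sec Q, ∀ z, f z ≠ 0 ∧ Real.log ‖f z‖ ≤ A * (1 + |z.re|) := by
  obtain ⟨M, hM, hMb⟩ := strip_bound h 1
  obtain ⟨A₁, hA₁, hgr⟩ := growth h (Real.log M) (x₀ := 0) le_rfl
  refine ⟨A₁ + |Real.log M|, by positivity, ?_⟩
  intro f hf z
  have hsec : ∀ U : Set ℂ, IsSec Q f U := fun U => ⟨hf.1.mono (Set.subset_univ U), fun z _ => hf.2 z (Set.mem_univ z)⟩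
  have hne : ∀ z, f z ≠ 0 := fun z => sec_ne_zero h (hsec Set.univ) (Set.mem_univ z)
  have habs : 0 ≤ |z.re| := abs_nonneg _
  have hlM : ∀ w : ℂ, |w.re| ≤ 1 → Real.log ‖f w‖ ≤ Real.log M := fun w hw =>
    Real.log_le_log (norm_pos_iff.mpr (hne w)) (hMb f hf w hw)
  refine ⟨hne z, ?_⟩
  rcases le_total |z.re| 1 with hz | hz
  · have h1 := hlM z hz
    have h2 := le_abs_self (Real.log M)
    have h3 : 0 ≤ |Real.log M| := abs_nonneg _
    nlinarith [mul_nonneg h3 habs, mul_nonneg hA₁.le habs]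
  · have h3 : 0 ≤ |Real.log M| * (1 + |z.re|) := by positivity
    rcases le_total 0 z.re with h0 | h0
    · rw [abs_of_nonneg h0] at hz
      have h1 := (hgr f).1 (hsec _) z (by linarith) (hlM _ (by simp))
      linarith [add_mul A₁ |Real.log M| (1 + |z.re|)]
    · rw [abs_of_nonpos h0] at hz
      have h1 := (hgr f).2 (hsec _) z (by linarith) (hlM _ (by simp))
      linarith [add_mul A₁ |Real.log M| (1 + |z.re|)]

theorem isOpen_HP (σ ρ : ℝ) : IsOpen (HP σ ρ) := by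
  unfold HP
  exact isOpen_lt continuous_const (continuous_const.mul Complex.continuous_im)

theorem half_axis_sec (h : NPair Q e) : ∃ W ε : ℝ, 4 ≤ W ∧ 0 < ε ∧ ε ≤ 1 / 2 ∧ ∀ (σ ρ : ℝ), (σ = 1 ∨ σ = -1) → ∀ f ∈ Sec Q, ∀ g ∈ Sec Q,
    (∀ z ∈ HP σ ρ, |z.re| ≤ W → ‖g z - f z‖ ≤ ε * ‖f z‖) → f = g := by
  obtain ⟨L, hL, hfb⟩ := fs_bound h
  obtain ⟨W, hW, H⟩ := half_axis_v2 h L
  obtain ⟨M, hM, hMb⟩ := strip_bound h (max W 4)
  obtain ⟨c, hc, hcb⟩ := strip_nv h (max W 4)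
  obtain ⟨ε, hε, H⟩ := H c M hc
  refine ⟨max W 4, min ε (1 / 2), le_max_right _ _, lt_min hε (by norm_num), min_le_right _ _, ?_⟩
  intro σ ρ hσ f hf g hg hclose
  have hsec : ∀ F : ℂ → EN (n + 2), F ∈ Sec Q → ∀ U : Set ℂ, IsSec Q F U := fun F hF U =>
    ⟨hF.1.mono (Set.subset_univ U), fun z _ => hF.2 z (Set.mem_univ z)⟩
  have hL' : ∀ F ∈ Sec Q, ∀ z : ℂ, |z.re| * fs (F z) (deriv F z) ≤ L := by
    intro F hF z
    have habs : 0 ≤ |z.re| := abs_nonneg _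
    have h1 := Sec.fs_le hfb hF z
    have h2 : 0 < 1 + |z.re| := by positivity
    calc |z.re| * fs (F z) (deriv F z) ≤ |z.re| * (L / (1 + |z.re|)) :=
          mul_le_mul_of_nonneg_left h1 habs
      _ = L * (|z.re| / (1 + |z.re|)) := by ring
      _ ≤ L * 1 := by
          refine mul_le_mul_of_nonneg_left ?_ hL.le
          rw [div_le_one h2]
          linarith
      _ = L := mul_one L
  refine Sec.eq_of_eqOn (Q := Q) hf hg (isOpen_HP σ ρ) ⟨⟨0, σ * (ρ + 1)⟩, ?_⟩ ?_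
  · show ρ < σ * (σ * (ρ + 1))
    rcases hσ with rfl | rfl <;> linarith
  · intro z hz
    refine H σ ρ f g hσ (hsec f hf _) (hsec g hg _) (fun z _ => hL' f hf z) (fun z _ => hL' g hg z) (fun z hz hzW => ?_) z hz
    have hzW' : |z.re| ≤ max W 4 := hzW.trans (le_max_left _ _)
    exact ⟨hMb f hf z hzW', hcb f hf z hzW', (hclose z hz hzW').trans (mul_le_mul_of_nonneg_right (min_le_left _ _) (norm_nonneg _))⟩

end Pool.Agent.TCN
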